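import Mathlib

set_option autoImplicit false

namespace Pool.Agent.H24.BPro

/-- A literal over the variables `I` is a pair `(i, b)`: it is `x_i` for `b = true` and `¬ x_i`
for `b = false`.  A monomial is a finite set (conjunction) of literals and a DNF is a finite set
(disjunction) of monomials.  `Represents S f` says that the DNF `S` represents `f`. -/
def Represents {I : Type} (S : Finset (Finset (I × Bool))) (f : (I → Bool) → Bool) : Prop :=
  ∀ x : I → Bool, f x = true ↔ ∃ M ∈ S, ∀ l ∈ M, x l.1 = l.2

/-- The least number of monomials in a DNF representing `f`. -/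
noncomputable def dnf {I : Type} (f : (I → Bool) → Bool) : ℕ :=
  sInf {k | ∃ S : Finset (Finset (I × Bool)), S.card = k ∧ Represents S f}

/-- The weight `‖f‖ = dnf f + dnf (¬ f)`. -/
noncomputable def weight {I : Type} (f : (I → Bool) → Bool) : ℕ :=
  dnf f + dnf (fun x => !(f x))

/-- A directed walk in the graph with non-sink nodes `Q`, the two sinks `Sum.inr false` and
`Sum.inr true`, and the edges `q → next q b` (labelled `b`).  The walk is given by the list of the
non-sink nodes it leaves together with the labels of the edges it uses. -/
def IsPath {Q : Type} (next : Q → Bool → Q ⊕ Bool) : Q ⊕ Bool → List (Q × Bool) → Q ⊕ Bool → Prop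
  | v, [], w => v = w
  | v, e :: l, w => v = Sum.inl e.1 ∧ IsPath next (next e.1 e.2) l w

/-- A branching program over the variables `I`. -/
structure BP (I : Type) where
  /-- the non-sink nodes; the two sinks are `Sum.inr false` and `Sum.inr true` -/
  Q : Type
  finQ : Fintype Q
  /-- the source -/
  source : Q ⊕ Bool
  /-- the variable labelling a non-sink node -/
  var : Q → I
  /-- the end node of the edge labelled `b` leaving `q` -/
  next : Q → Bool → Q ⊕ Bool
  acyclic : ∃ rank : Q → ℕ, ∀ q b q', next q b = Sum.inl q' → rank q' < rank q

/-- The number of nodes: the non-sink nodes and the two sinks. -/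
def BP.size {I : Type} (B : BP I) : ℕ := @Fintype.card B.Q B.finQ + 2

/-- On every source-to-sink path each variable labels at most one node. -/
def BP.ReadOnce {I : Type} (B : BP I) : Prop :=
  ∀ (l : List (B.Q × Bool)) (s : Bool), IsPath B.next B.source l (Sum.inr s) →
    (l.map (fun e => B.var e.1)).Nodup

/-- On every input `x` the path from the source consistent with `x` reaches the sink labelled
`f x`. -/
def BP.Computes {I : Type} (B : BP I) (f : (I → Bool) → Bool) : Prop :=
  ∀ x : I → Bool, ∃ l : List (B.Q × Bool), IsPath B.next B.source l (Sum.inr (f x)) ∧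
    ∀ e ∈ l, x (B.var e.1) = e.2

/-- The least size of a read-once branching program computing `f`. -/
noncomputable def BP1 {I : Type} (f : (I → Bool) → Bool) : ℕ :=
  sInf {k | ∃ B : BP I, B.ReadOnce ∧ B.Computes f ∧ B.size = k}

end Pool.Agent.H24.BPro
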