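import Mathlib
import Pool.Agent.H24.BPDefs

set_option autoImplicit false

namespace Pool.Agent.H24.BPro

section path

variable {Q : Type} {next : Q → Bool → Q ⊕ Bool}

lemma isPath_append {l1 l2 : List (Q × Bool)} {v w : Q ⊕ Bool} :
    IsPath next v (l1 ++ l2) w ↔ ∃ u, IsPath next v l1 u ∧ IsPath next u l2 w := by
  induction l1 generalizing v with
  | nil => simp [IsPath]
  | cons e l ih =>
    simp only [List.cons_append, IsPath, ih]
    constructor
    · rintro ⟨h, u, h1, h2⟩
      exact ⟨u, ⟨h, h1⟩, h2⟩
    · rintro ⟨u, ⟨h, h1⟩, h2⟩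
      exact ⟨h, u, h1, h2⟩

lemma isPath_inr {l : List (Q × Bool)} {s : Bool} {w : Q ⊕ Bool}
    (h : IsPath next (Sum.inr s) l w) : l = [] ∧ w = Sum.inr s := by
  cases l with
  | nil => exact ⟨rfl, h.symm⟩
  | cons e l => exact absurd h.1 (by simp)

lemma det {I : Type} {var : Q → I} {x : I → Bool} {l l' : List (Q × Bool)} {v w w' : Q ⊕ Bool}
    (h : IsPath next v l w) (h' : IsPath next v l' w')
    (c : ∀ e ∈ l, x (var e.1) = e.2) (c' : ∀ e ∈ l', x (var e.1) = e.2) :
    l <+: l' ∨ l' <+: l := by
  induction l generalizing v l' with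
  | nil => exact Or.inl List.nil_prefix
  | cons e l ih =>
    cases l' with
    | nil => exact Or.inr List.nil_prefix
    | cons e' l' =>
      obtain ⟨h1, h2⟩ := h
      obtain ⟨h1', h2'⟩ := h'
      have e1 : e.1 = e'.1 := by
        rw [h1] at h1'
        exact Sum.inl.inj h1'
      have e2 : e.2 = e'.2 := by
        rw [← c e (by simp), ← c' e' (by simp), e1]
      have e3 : e = e' := Prod.ext e1 e2
      subst e3
      rcases ih h2 h2' (fun f hf => c f (by simp [hf])) (fun f hf => c' f (by simp [hf])) with h | h
      · left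
        rw [List.cons_prefix_cons]
        exact ⟨rfl, h⟩
      · right
        rw [List.cons_prefix_cons]
        exact ⟨rfl, h⟩

lemma rank_path {rank : Q → ℕ} (hr : ∀ q b q', next q b = Sum.inl q' → rank q' < rank q)
    {l : List (Q × Bool)} {q q' : Q} (h : IsPath next (Sum.inl q) l (Sum.inl q')) :
    rank q' + l.length ≤ rank q := by
  induction l generalizing q with
  | nil =>
    have : q = q' := Sum.inl.inj h
    rw [this]
    simp
  | cons e l ih =>
    obtain ⟨h1, h2⟩ := h
    have h1 : q = e.1 := Sum.inl.inj h1
    rcases hn : next e.1 e.2 with q'' | s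
    · rw [hn] at h2
      have := ih h2
      have := hr _ _ _ hn
      rw [h1]
      simp only [List.length_cons]
      omega
    · rw [hn] at h2
      exact absurd (isPath_inr h2).2 (by simp)

lemma to_sink {I : Type} {var : Q → I} {rank : Q → ℕ}
    (hr : ∀ q b q', next q b = Sum.inl q' → rank q' < rank q) (x : I → Bool) (v : Q ⊕ Bool) :
    ∃ l s, IsPath next v l (Sum.inr s) ∧ ∀ e ∈ l, x (var e.1) = e.2 := by
  have key : ∀ n, ∀ q : Q, rank q < n → ∃ l s, IsPath next (Sum.inl q) l (Sum.inr s) ∧
      ∀ e ∈ l, x (var e.1) = e.2 := by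
    intro n
    induction n with
    | zero => intro q hq; omega
    | succ n ih =>
      intro q hq
      rcases hn : next q (x (var q)) with q' | s
      · obtain ⟨l, s, h1, h2⟩ := ih q' (by have := hr _ _ _ hn; omega)
        refine ⟨(q, x (var q)) :: l, s, ⟨rfl, ?_⟩, ?_⟩
        · simp only [hn]
          exact h1
        · intro e he
          rcases List.mem_cons.1 he with rfl | he
          · rfl
          · exact h2 e he
      · refine ⟨[(q, x (var q))], s, ⟨rfl, ?_⟩, ?_⟩
        · simp only [hn]
          rfl
        · intro e he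
          rcases List.mem_cons.1 he with rfl | he
          · rfl
          · simp at he
  rcases v with q | s
  · exact key _ q (Nat.lt_succ_self _)
  · exact ⟨[], s, rfl, by simp⟩

end path

section asg

variable {I : Type} [DecidableEq I]

/-- the partial assignment of a path -/
def asg (B : BP I) : List (B.Q × Bool) → I → Option Bool
  | [] => fun _ => none
  | e :: l => Function.update (asg B l) (B.var e.1) (some e.2)

lemma asg_mem (B : BP I) {l : List (B.Q × Bool)} (hl : (l.map (fun e => B.var e.1)).Nodup)
    {e : B.Q × Bool} (he : e ∈ l) : asg B l (B.var e.1) = some e.2 := by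
  induction l with
  | nil => simp at he
  | cons f l ih =>
    simp only [List.map_cons, List.nodup_cons] at hl
    rcases List.mem_cons.1 he with rfl | he
    · simp [asg]
    · have hne : B.var e.1 ≠ B.var f.1 := by
        intro h
        apply hl.1
        rw [← h]
        exact List.mem_map.2 ⟨e, he, rfl⟩
      simp only [asg, Function.update_of_ne hne]
      exact ih hl.2 he

lemma asg_not_mem (B : BP I) {l : List (B.Q × Bool)} {i : I}
    (hi : i ∉ l.map (fun e => B.var e.1)) : asg B l i = none := by
  induction l with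
  | nil => rfl
  | cons f l ih =>
    simp only [List.map_cons, List.mem_cons, not_or] at hi
    simp only [asg, Function.update_of_ne hi.1]
    exact ih hi.2

lemma asg_snoc (B : BP I) {l : List (B.Q × Bool)} {q : B.Q} {b : Bool}
    (hi : B.var q ∉ l.map (fun e => B.var e.1)) :
    asg B (l ++ [(q, b)]) = Function.update (asg B l) (B.var q) (some b) := by
  induction l with
  | nil => rfl
  | cons f l ih =>
    simp only [List.map_cons, List.mem_cons, not_or] at hi
    simp only [List.cons_append, asg]
    rw [ih hi.2, Function.update_comm (Ne.symm hi.1)]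

/-- the total assignment extending `α` by `z` -/
def ov (z : I → Bool) (α : I → Option Bool) : I → Bool := fun i => (α i).getD (z i)

variable {B : BP I} {f : (I → Bool) → Bool}

lemma computes_sink (hc : B.Computes f) {l : List (B.Q × Bool)} {s : Bool} {x : I → Bool}
    (h : IsPath B.next B.source l (Sum.inr s)) (c : ∀ e ∈ l, x (B.var e.1) = e.2) : f x = s := by
  obtain ⟨l0, h0, c0⟩ := hc x
  rcases det h h0 c c0 with ⟨t, ht⟩ | ⟨t, ht⟩
  · rw [← ht, isPath_append] at h0
    obtain ⟨u, h1, h2⟩ := h0
    have hu : u = Sum.inr s := by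
      have := det (var := B.var) (x := x) h h1 c c
      clear this
      have key : ∀ (l : List (B.Q × Bool)) (v w w' : B.Q ⊕ Bool), IsPath B.next v l w →
          IsPath B.next v l w' → w = w' := by
        intro l
        induction l with
        | nil => intro v w w' h h'; exact h.symm.trans h'
        | cons e l ih => intro v w w' h h'; exact ih _ _ _ h.2 h'.2
      exact key _ _ _ _ h1 h
    rw [hu] at h2
    exact Sum.inr.inj (isPath_inr h2).2
  · rw [← ht, isPath_append] at h
    obtain ⟨u, h1, h2⟩ := h
    have hu : u = Sum.inr (f x) := by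
      have key : ∀ (l : List (B.Q × Bool)) (v w w' : B.Q ⊕ Bool), IsPath B.next v l w →
          IsPath B.next v l w' → w = w' := by
        intro l
        induction l with
        | nil => intro v w w' h h'; exact h.symm.trans h'
        | cons e l ih => intro v w w' h h'; exact ih _ _ _ h.2 h'.2
      exact key _ _ _ _ h1 h0
    rw [hu] at h2
    exact (Sum.inr.inj (isPath_inr h2).2).symm

lemma cons_ov (z : I → Bool) {l : List (B.Q × Bool)}
    (hl : (l.map (fun e => B.var e.1)).Nodup) : ∀ e ∈ l, ov z (asg B l) (B.var e.1) = e.2 := by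
  intro e he
  unfold ov
  rw [asg_mem B hl he]
  rfl

/-- the value after following a path and continuing with `z` -/
lemma key_eval (hc : B.Computes f) (hro : B.ReadOnce) {l l' : List (B.Q × Bool)} {w : B.Q ⊕ Bool}
    {s : Bool} (z : I → Bool) (h : IsPath B.next B.source l w)
    (h' : IsPath B.next w l' (Sum.inr s)) (c' : ∀ e ∈ l', z (B.var e.1) = e.2) :
    f (ov z (asg B l)) = s := by
  have hp : IsPath B.next B.source (l ++ l') (Sum.inr s) := isPath_append.2 ⟨w, h, h'⟩
  have hn := hro _ _ hp
  rw [List.map_append, List.nodup_append] at hn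
  refine computes_sink hc hp ?_
  intro e he
  rcases List.mem_append.1 he with he | he
  · exact cons_ov z hn.1 e he
  · unfold ov
    rw [asg_not_mem B]
    · exact c' e he
    · intro hmem
      exact hn.2.2 _ hmem _ (List.mem_map.2 ⟨e, he, rfl⟩) rfl

lemma key1 (hc : B.Computes f) (hro : B.ReadOnce) {l1 l2 : List (B.Q × Bool)} {w : B.Q ⊕ Bool}
    (z : I → Bool) (h1 : IsPath B.next B.source l1 w) (h2 : IsPath B.next B.source l2 w) :
    f (ov z (asg B l1)) = f (ov z (asg B l2)) := by
  obtain ⟨rank, hr⟩ := B.acyclic
  obtain ⟨l', s, h', c'⟩ := to_sink (var := B.var) hr z w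
  rw [key_eval hc hro z h1 h' c', key_eval hc hro z h2 h' c']

lemma nodup_path (hro : B.ReadOnce) {l : List (B.Q × Bool)} {w : B.Q ⊕ Bool}
    (h1 : IsPath B.next B.source l w) : (l.map (fun e => B.var e.1)).Nodup := by
  obtain ⟨rank, hr⟩ := B.acyclic
  obtain ⟨l', s, h', c'⟩ := to_sink (var := B.var) hr (fun _ => false) w
  have hn := hro _ _ (isPath_append.2 ⟨w, h1, h'⟩)
  rw [List.map_append, List.nodup_append] at hn
  exact hn.1

end asg

end Pool.Agent.H24.BPro
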