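import Mathlib
import Pool.Agent.H24.BPA

set_option autoImplicit false

namespace Pool.Agent.H24.BPro

section fourier

variable {V : Type} [Fintype V] [DecidableEq V]

def sgn (b : Bool) : ℝ := if b then -1 else 1

lemma sgn_true : sgn true = -1 := by simp [sgn]
lemma sgn_false : sgn false = 1 := by simp [sgn]

/-- characters -/
def chi (S : V → Bool) (x : V → Bool) : ℝ := ∏ v, (if S v then sgn (x v) else 1)

/-- all Fourier coefficients at most one in absolute value -/
def Adm (H : (V → Bool) → ℝ) : Prop := ∀ S : V → Bool, |∑ x, H x * chi S x| ≤ 1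

/-- dual form of the bound on the spectral norm -/
def Bd (F : (V → Bool) → ℝ) (r : ℝ) : Prop := ∀ H : (V → Bool) → ℝ, Adm H → ∑ x, F x * H x ≤ r

lemma Bd.mono {F : (V → Bool) → ℝ} {r s : ℝ} (h : Bd F r) (hrs : r ≤ s) : Bd F s :=
  fun H hH => (h H hH).trans hrs

lemma chi_empty (x : V → Bool) : chi (fun _ => false) x = 1 := by
  simp [chi]

lemma Bd_const (b : Bool) : Bd (fun _ : V → Bool => sgn b) 1 := by
  intro H hH
  have h := hH (fun _ => false)
  simp only [chi_empty, mul_one] at h
  rw [← Finset.mul_sum]
  rw [abs_le] at h
  cases b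
  · rw [sgn_false]
    linarith [h.2]
  · rw [sgn_true]
    linarith [h.1]

lemma chi_toggle (S : V → Bool) (v : V) (x : V → Bool) :
    sgn (x v) * chi S x = chi (Function.update S v (!(S v))) x := by
  unfold chi
  rw [← Finset.mul_prod_erase Finset.univ _ (Finset.mem_univ v)]
  rw [← Finset.mul_prod_erase Finset.univ (fun w => if Function.update S v (!(S v)) w = true
    then sgn (x w) else 1) (Finset.mem_univ v)]
  have h1 : ∏ w ∈ Finset.univ.erase v, (if Function.update S v (!(S v)) w = true
      then sgn (x w) else 1) = ∏ w ∈ Finset.univ.erase v, (if S w = true then sgn (x w) else 1) := by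
    apply Finset.prod_congr rfl
    intro w hw
    rw [Function.update_of_ne (Finset.ne_of_mem_erase hw)]
  rw [h1, ← mul_assoc]
  congr 1
  rw [Function.update_self]
  cases S v <;> cases x v <;> simp [sgn]

lemma Adm_restrict {H : (V → Bool) → ℝ} (hH : Adm H) (v : V) (b : Bool) :
    Adm (fun x => if x v = b then H x else 0) := by
  intro S
  have h1 := hH S
  have h2 := hH (Function.update S v (!(S v)))
  have h3 : ∑ x, (if x v = b then H x else 0) * chi S x =
      (∑ x, H x * chi S x + sgn b * ∑ x, H x * chi (Function.update S v (!(S v))) x) / 2 := by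
    rw [Finset.mul_sum, ← Finset.sum_add_distrib, Finset.sum_div]
    apply Finset.sum_congr rfl
    intro x _
    rw [← chi_toggle]
    cases b <;> cases x v <;> simp [sgn]
  rw [h3]
  have hs : |sgn b| = 1 := by cases b <;> simp [sgn]
  rw [abs_div, div_le_one (by norm_num)]
  refine (abs_add_le _ _).trans ?_
  rw [abs_mul, hs]
  norm_num
  linarith

lemma Bd_split {F F0 F1 : (V → Bool) → ℝ} (v : V)
    (h0 : ∀ x, F0 x = F (Function.update x v false)) (h1 : ∀ x, F1 x = F (Function.update x v true))
    {r s : ℝ} (hr : Bd F0 r) (hs : Bd F1 s) : Bd F (r + s) := by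
  intro H hH
  have e0 := hr _ (Adm_restrict hH v false)
  have e1 := hs _ (Adm_restrict hH v true)
  have : ∑ x, F x * H x = ∑ x, F0 x * (if x v = false then H x else 0) +
      ∑ x, F1 x * (if x v = true then H x else 0) := by
    rw [← Finset.sum_add_distrib]
    apply Finset.sum_congr rfl
    intro x _
    rw [h0, h1]
    by_cases hx : x v = false
    · have : Function.update x v false = x := by rw [← hx]; exact Function.update_eq_self _ _
      simp [hx, this]
    · have hx' : x v = true := by simpa using hx
      have : Function.update x v true = x := by rw [← hx']; exact Function.update_eq_self _ _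
      simp [hx', this]
  rw [this]
  linarith

end fourier

section main

variable {m : ℕ} {V : Type} [Fintype V] [DecidableEq V]

/-- every copy is undetermined (for monotone `g`) -/
def Flex (g : (V → Bool) → Bool) (α : Fin m × V → Option Bool) : Prop :=
  ∀ j, g (fun v => (α (j, v)).getD false) = false ∧ g (fun v => (α (j, v)).getD true) = true

/-- the hypotheses on the function -/
structure Setup (m : ℕ) (V : Type) where
  g : (V → Bool) → Bool
  enc : Fin m × V → Fin m → Bool
  f : (Fin m × V → Bool) → Bool
  gmono : ∀ x y : V → Bool, (∀ v, x v = true → y v = true) → g x = true → g y = true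
  g0 : g (fun _ => false) = false
  g1 : g (fun _ => true) = true
  hf : ∀ x i, (∀ j, g (fun v => x (j, v)) = enc i j) → f x = x i
  j0 : Fin m
  j1 : Fin m
  e0 : ∀ i, enc i j0 = false
  e1 : ∀ i, enc i j1 = true

variable (S : Setup m V)

def hat (α : Fin m × V → Option Bool) : Fin m × V → Bool := fun i => (α i).getD (S.enc i i.1)

lemma flex_eval {α : Fin m × V → Option Bool} (hα : Flex S.g α) (i : Fin m × V) :
    S.f (ov (fun p => S.enc i p.1) α) = hat S α i := by
  rw [S.hf _ i]
  · rfl
  · intro j
    unfold ov
    simp only
    cases h : S.enc i j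
    · exact (hα j).1
    · exact (hα j).2

variable {S}
variable {B : BP (Fin m × V)} (hc : B.Computes S.f) (hro : B.ReadOnce)

include hc hro

lemma nosink {l : List (B.Q × Bool)} {s : Bool} (h : IsPath B.next B.source l (Sum.inr s))
    (hα : Flex S.g (asg B l)) : False := by
  have h1 : ∀ i, hat S (asg B l) i = s := by
    intro i
    rw [← flex_eval S hα i]
    exact computes_sink hc h (cons_ov _ (nodup_path hro h))
  have h2 : S.g (fun _ => s) = false := by
    rw [← (hα S.j0).1]
    congr 1
    funext v
    rw [← h1 (S.j0, v)]
    unfold hat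
    rw [S.e0]
  have h3 : S.g (fun _ => s) = true := by
    rw [← (hα S.j1).2]
    congr 1
    funext v
    rw [← h1 (S.j1, v)]
    unfold hat
    rw [S.e1]
  rw [h2] at h3
  exact absurd h3 (by simp)

lemma uniq {l1 l2 : List (B.Q × Bool)} {w : B.Q ⊕ Bool} (h1 : IsPath B.next B.source l1 w)
    (h2 : IsPath B.next B.source l2 w) (f1 : Flex S.g (asg B l1)) (f2 : Flex S.g (asg B l2)) :
    l1 = l2 := by
  have hh : hat S (asg B l1) = hat S (asg B l2) := by
    funext i
    rw [← flex_eval S f1 i, ← flex_eval S f2 i]
    exact key1 hc hro _ h1 h2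
  have c1 : ∀ e ∈ l1, hat S (asg B l1) (B.var e.1) = e.2 := by
    intro e he
    unfold hat
    rw [asg_mem B (nodup_path hro h1) he]
    rfl
  have c2 : ∀ e ∈ l2, hat S (asg B l1) (B.var e.1) = e.2 := by
    intro e he
    rw [hh]
    unfold hat
    rw [asg_mem B (nodup_path hro h2) he]
    rfl
  have key : ∀ (l : List (B.Q × Bool)) (v w w' : B.Q ⊕ Bool), IsPath B.next v l w →
      IsPath B.next v l w' → w = w' := by
    intro l
    induction l with
    | nil => intro v w w' h h'; exact h.symm.trans h'
    | cons e l ih => intro v w w' h h'; exact ih _ _ _ h.2 h'.2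
  obtain ⟨rank, hr⟩ := B.acyclic
  have loop : ∀ t, IsPath B.next w t w → t = [] := by
    intro t ht
    rcases w with q | s
    · have := rank_path hr ht
      exact List.length_eq_zero_iff.1 (by omega)
    · exact (isPath_inr ht).1
  rcases det h1 h2 c1 c2 with ⟨t, ht⟩ | ⟨t, ht⟩
  · rw [← ht, isPath_append] at h2
    obtain ⟨u, h3, h4⟩ := h2
    rw [key _ _ _ _ h3 h1] at h4
    rw [← ht, loop t h4, List.append_nil]
  · rw [← ht, isPath_append] at h1
    obtain ⟨u, h3, h4⟩ := h1
    rw [key _ _ _ _ h3 h2] at h4
    rw [← ht, loop t h4, List.append_nil]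

omit hc hro in
/-- a non-flexible assignment determines a copy -/
lemma nonflex {α : Fin m × V → Option Bool} (h : ¬ Flex S.g α) :
    ∃ j, ∃ b, ∀ x : V → Bool, S.g (fun v => (α (j, v)).getD (x v)) = b := by
  unfold Flex at h
  push Not at h
  obtain ⟨j, hj⟩ := h
  refine ⟨j, ?_⟩
  by_cases h0 : S.g (fun v => (α (j, v)).getD false) = false
  · have h1 : S.g (fun v => (α (j, v)).getD true) = false := by
      have := hj h0
      simpa using this
    refine ⟨false, fun x => ?_⟩
    by_contra hx
    have hx : S.g (fun v => (α (j, v)).getD (x v)) = true := by simpa using hx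
    have := S.gmono _ (fun v => (α (j, v)).getD true) (by
      intro v
      cases α (j, v) <;> simp) hx
    rw [this] at h1
    exact absurd h1 (by simp)
  · have h0 : S.g (fun v => (α (j, v)).getD false) = true := by simpa using h0
    refine ⟨true, fun x => ?_⟩
    exact S.gmono _ _ (by
      intro v
      cases α (j, v) <;> simp) h0

/-- the restriction of a copy -/
def R (S : Setup m V) (j : Fin m) (α : Fin m × V → Option Bool) : (V → Bool) → ℝ :=
  fun x => sgn (S.g (fun v => (α (j, v)).getD (x v)))

open Classical in
/-- the end nodes of the flexible extensions of a path -/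
noncomputable def ends (S : Setup m V) (B : BP (Fin m × V)) (l : List (B.Q × Bool)) :
    Finset B.Q :=
  letI := B.finQ
  Finset.univ.filter (fun q' => ∃ l', l <+: l' ∧ IsPath B.next B.source l' (Sum.inl q') ∧
    Flex S.g (asg B l'))

omit hc hro in
lemma mem_ends {l : List (B.Q × Bool)} {q' : B.Q} : q' ∈ ends S B l ↔
    ∃ l', l <+: l' ∧ IsPath B.next B.source l' (Sum.inl q') ∧ Flex S.g (asg B l') := by
  unfold ends
  simp

theorem tree : ∃ rank : B.Q → ℕ, ∀ n, ∀ q l, rank q < n →
    IsPath B.next B.source l (Sum.inl q) → Flex S.g (asg B l) →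
    ∃ j, Bd (R S j (asg B l)) ((ends S B l).card + 1) := by
  classical
  obtain ⟨rank, hr⟩ := B.acyclic
  refine ⟨rank, ?_⟩
  intro n
  induction n with
  | zero => intro q l hq; omega
  | succ n ih =>
    intro q l hq hp hfl
    -- the two extensions
    have hpb : ∀ b, IsPath B.next B.source (l ++ [(q, b)]) (B.next q b) := by
      intro b
      exact isPath_append.2 ⟨_, hp, rfl, rfl⟩
    have hvar : B.var q ∉ l.map (fun e => B.var e.1) := by
      have := nodup_path hro (hpb false)
      rw [List.map_append, List.nodup_append] at this
      intro hmem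
      exact this.2.2 _ hmem (B.var q) (by simp) rfl
    have hb : ∀ b, ∃ j, Bd (R S j (asg B (l ++ [(q, b)])))
        ((ends S B (l ++ [(q, b)])).card + 1) := by
      intro b
      by_cases hfb : Flex S.g (asg B (l ++ [(q, b)]))
      · rcases hn : B.next q b with q' | s
        · have := hpb b
          rw [hn] at this
          exact ih q' _ (by have := hr _ _ _ hn; omega) this hfb
        · exfalso
          have := hpb b
          rw [hn] at this
          exact nosink hc hro this hfb
      · obtain ⟨j, c, hj⟩ := nonflex hfb
        refine ⟨j, ?_⟩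
        have : R S j (asg B (l ++ [(q, b)])) = fun _ => sgn c := by
          funext x
          unfold R
          rw [hj x]
        rw [this]
        apply (Bd_const c).mono
        have : (0 : ℝ) ≤ ((ends S B (l ++ [(q, b)])).card : ℝ) := Nat.cast_nonneg _
        linarith
    obtain ⟨ja, hja⟩ := hb false
    obtain ⟨jb, hjb⟩ := hb true
    -- cardinalities
    have hne : ∀ b, q ∉ ends S B (l ++ [(q, b)]) := by
      intro b hmem
      rw [mem_ends] at hmem
      obtain ⟨l', h1, h2, h3⟩ := hmem
      have := uniq hc hro hp h2 hfl h3
      have h4 := h1.length_le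
      rw [← this] at h4
      simp at h4
    have hdisj : Disjoint (ends S B (l ++ [(q, false)])) (ends S B (l ++ [(q, true)])) := by
      rw [Finset.disjoint_left]
      intro q' h1 h2
      rw [mem_ends] at h1 h2
      obtain ⟨l1, a1, a2, a3⟩ := h1
      obtain ⟨l2, b1, b2, b3⟩ := h2
      have := uniq hc hro a2 b2 a3 b3
      subst this
      have h5 := List.prefix_of_prefix_length_le a1 b1 (by simp)
      have h6 := h5.eq_of_length (by simp)
      have h7 := List.append_cancel_left h6
      simp at h7
    have hsub : insert q (ends S B (l ++ [(q, false)]) ∪ ends S B (l ++ [(q, true)])) ⊆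
        ends S B l := by
      intro q' hq'
      rw [Finset.mem_insert, Finset.mem_union] at hq'
      rw [mem_ends]
      rcases hq' with rfl | hq' | hq'
      · exact ⟨l, List.prefix_refl _, hp, hfl⟩
      · rw [mem_ends] at hq'
        obtain ⟨l', h1, h2⟩ := hq'
        exact ⟨l', (List.prefix_append _ _).trans h1, h2⟩
      · rw [mem_ends] at hq'
        obtain ⟨l', h1, h2⟩ := hq'
        exact ⟨l', (List.prefix_append _ _).trans h1, h2⟩
    have hcard : (ends S B (l ++ [(q, false)])).card + (ends S B (l ++ [(q, true)])).card + 1 ≤
        (ends S B l).card := by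
      have h1 := Finset.card_le_card hsub
      rw [Finset.card_insert_of_notMem, Finset.card_union_of_disjoint hdisj] at h1
      · exact h1
      · rw [Finset.mem_union, not_or]
        exact ⟨hne false, hne true⟩
    have hcardR : ((ends S B (l ++ [(q, false)])).card : ℝ) +
        ((ends S B (l ++ [(q, true)])).card : ℝ) + 1 ≤ ((ends S B l).card : ℝ) := by
      exact_mod_cast hcard
    have p1 : (0 : ℝ) ≤ ((ends S B (l ++ [(q, false)])).card : ℝ) := Nat.cast_nonneg _
    have p2 : (0 : ℝ) ≤ ((ends S B (l ++ [(q, true)])).card : ℝ) := Nat.cast_nonneg _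
    -- the restrictions
    have hR : ∀ b j, j ≠ (B.var q).1 → R S j (asg B (l ++ [(q, b)])) = R S j (asg B l) := by
      intro b j hj
      rw [asg_snoc B hvar]
      funext x
      unfold R
      congr 2
      funext v
      rw [Function.update_of_ne]
      intro h
      apply hj
      rw [← h]
    by_cases h1 : ja = (B.var q).1
    · by_cases h2 : jb = (B.var q).1
      · refine ⟨(B.var q).1, ?_⟩
        rw [h1] at hja
        rw [h2] at hjb
        have hs : ∀ b x, R S (B.var q).1 (asg B (l ++ [(q, b)])) x =
            R S (B.var q).1 (asg B l) (Function.update x (B.var q).2 b) := by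
          intro b x
          rw [asg_snoc B hvar]
          unfold R
          congr 2
          funext v
          by_cases hv : v = (B.var q).2
          · rw [hv]
            have e1 : (Function.update (asg B l) (B.var q) (some b)) (B.var q) = some b :=
              Function.update_self _ _ _
            have e2 : asg B l (B.var q) = none := asg_not_mem B hvar
            have e3 : Function.update x (B.var q).2 b (B.var q).2 = b :=
              Function.update_self _ _ _
            change ((Function.update (asg B l) (B.var q) (some b)) (B.var q)).getD _ =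
              ((asg B l) (B.var q)).getD (Function.update x (B.var q).2 b (B.var q).2)
            rw [e1, e2, e3]
            rfl
          · rw [Function.update_of_ne hv, Function.update_of_ne]
            intro h
            apply hv
            rw [← h]
        refine (Bd_split (B.var q).2 (hs false) (hs true) hja hjb).mono ?_
        linarith
      · refine ⟨jb, ?_⟩
        rw [hR true jb h2] at hjb
        exact hjb.mono (by linarith)
    · refine ⟨ja, ?_⟩
      rw [hR false ja h1] at hja
      exact hja.mono (by linarith)

/-- the lower bound -/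
theorem lower {W : ℝ} {H : (V → Bool) → ℝ} (hH : Adm H)
    (hW : W ≤ ∑ x, sgn (S.g x) * H x) : W + 1 ≤ B.size := by
  have hfl : Flex S.g (asg B []) := by
    intro j
    exact ⟨S.g0, S.g1⟩
  rcases hs : B.source with q | s
  · obtain ⟨rank, h⟩ := tree hc hro
    obtain ⟨j, hj⟩ := h (rank q + 1) q [] (by omega) (by rw [hs]; rfl) hfl
    have h1 := hj H hH
    have h2 : (∑ x, R S j (asg B []) x * H x) = ∑ x, sgn (S.g x) * H x := rfl
    rw [h2] at h1
    have h3 : (ends S B []).card ≤ @Fintype.card B.Q B.finQ := by
      letI := B.finQ
      exact Finset.card_le_univ _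
    have h4 : ((ends S B []).card : ℝ) ≤ (@Fintype.card B.Q B.finQ : ℝ) := by exact_mod_cast h3
    unfold BP.size
    push_cast
    linarith
  · exact absurd (nosink hc hro (l := []) (s := s) (by rw [hs]; rfl) hfl) (by simp)

end main

end Pool.Agent.H24.BPro
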