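import Mathlib
import Pool.Agent.H24.BPB

set_option autoImplicit false

namespace Pool.Agent.H24.BPro

section dnf

/-- `P` has a DNF with at most `k` monomials -/
def HasDNF {I : Type} (P : (I → Bool) → Prop) (k : ℕ) : Prop :=
  ∃ S : Finset (Finset (I × Bool)), S.card ≤ k ∧ ∀ x, P x ↔ ∃ M ∈ S, ∀ l ∈ M, x l.1 = l.2

variable {I J : Type} {P P' : (I → Bool) → Prop} {k k' : ℕ}

lemma HasDNF.congr (h : HasDNF P k) (h' : ∀ x, P' x ↔ P x) : HasDNF P' k := by
  obtain ⟨S, h1, h2⟩ := h
  exact ⟨S, h1, fun x => (h' x).trans (h2 x)⟩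

lemma HasDNF.mono (h : HasDNF P k) (hk : k ≤ k') : HasDNF P k' := by
  obtain ⟨S, h1, h2⟩ := h
  exact ⟨S, h1.trans hk, h2⟩

lemma HasDNF.false : HasDNF (fun _ : I → Bool => False) 0 :=
  ⟨∅, by simp, by simp⟩

lemma HasDNF.true : HasDNF (fun _ : I → Bool => True) 1 :=
  ⟨{∅}, by simp, by simp⟩

lemma HasDNF.lit (i : I) (b : Bool) : HasDNF (fun x : I → Bool => x i = b) 1 := by
  refine ⟨{{(i, b)}}, by simp, fun x => ?_⟩
  constructor
  · intro h
    refine ⟨{(i, b)}, by simp, ?_⟩
    intro l hl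
    rw [Finset.mem_singleton] at hl
    rw [hl]
    exact h
  · rintro ⟨M, hM, h⟩
    rw [Finset.mem_singleton] at hM
    exact h (i, b) (by rw [hM]; simp)

lemma HasDNF.or (h : HasDNF P k) (h' : HasDNF P' k') : HasDNF (fun x => P x ∨ P' x) (k + k') := by
  classical
  obtain ⟨S, h1, h2⟩ := h
  obtain ⟨S', h1', h2'⟩ := h'
  refine ⟨S ∪ S', (Finset.card_union_le _ _).trans (by omega), fun x => ?_⟩
  simp only [h2, h2', Finset.mem_union]
  constructor
  · rintro (⟨M, hM, h⟩ | ⟨M, hM, h⟩)
    · exact ⟨M, Or.inl hM, h⟩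
    · exact ⟨M, Or.inr hM, h⟩
  · rintro ⟨M, hM | hM, h⟩
    · exact Or.inl ⟨M, hM, h⟩
    · exact Or.inr ⟨M, hM, h⟩

lemma HasDNF.and (h : HasDNF P k) (h' : HasDNF P' k') : HasDNF (fun x => P x ∧ P' x) (k * k') := by
  classical
  obtain ⟨S, h1, h2⟩ := h
  obtain ⟨S', h1', h2'⟩ := h'
  refine ⟨(S ×ˢ S').image (fun p => p.1 ∪ p.2), ?_, fun x => ?_⟩
  · refine Finset.card_image_le.trans ?_
    rw [Finset.card_product]
    exact Nat.mul_le_mul h1 h1'
  · simp only [h2, h2', Finset.mem_image, Finset.mem_product, Prod.exists]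
    constructor
    · rintro ⟨⟨M, hM, h⟩, ⟨M', hM', h'⟩⟩
      refine ⟨M ∪ M', ⟨M, M', ⟨hM, hM'⟩, rfl⟩, ?_⟩
      intro l hl
      rcases Finset.mem_union.1 hl with hl | hl
      · exact h l hl
      · exact h' l hl
    · rintro ⟨N, ⟨M, M', ⟨hM, hM'⟩, rfl⟩, h⟩
      exact ⟨⟨M, hM, fun l hl => h l (Finset.mem_union_left _ hl)⟩,
        ⟨M', hM', fun l hl => h l (Finset.mem_union_right _ hl)⟩⟩

lemma HasDNF.reindex {P : (J → Bool) → Prop} (h : HasDNF P k) (e : J → I) :
    HasDNF (fun x : I → Bool => P (fun j => x (e j))) k := by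
  classical
  obtain ⟨S, h1, h2⟩ := h
  refine ⟨S.image (fun M => M.image (fun l => (e l.1, l.2))), Finset.card_image_le.trans h1,
    fun x => ?_⟩
  simp only [h2, Finset.mem_image]
  constructor
  · rintro ⟨M, hM, h⟩
    refine ⟨_, ⟨M, hM, rfl⟩, ?_⟩
    intro l hl
    obtain ⟨l', hl', rfl⟩ := Finset.mem_image.1 hl
    exact h l' hl'
  · rintro ⟨N, ⟨M, hM, rfl⟩, h⟩
    exact ⟨M, hM, fun l hl => h _ (Finset.mem_image.2 ⟨l, hl, rfl⟩)⟩

lemma HasDNF.exists {A : Type} [Fintype A] {P : A → (I → Bool) → Prop}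
    (h : ∀ a, HasDNF (P a) k) : HasDNF (fun x => ∃ a, P a x) (Fintype.card A * k) := by
  classical
  have key : ∀ s : Finset A, HasDNF (fun x => ∃ a ∈ s, P a x) (s.card * k) := by
    intro s
    induction s using Finset.induction_on with
    | empty => exact (HasDNF.false.congr (by simp)).mono (by simp)
    | insert a s ha ih =>
      refine ((h a).or ih).congr (P' := fun x => ∃ b ∈ insert a s, P b x) ?_ |>.mono ?_
      · intro x
        simp
      · rw [Finset.card_insert_of_notMem ha]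
        ring_nf
        exact le_refl _
  refine ((key Finset.univ).congr (P' := fun x => ∃ a, P a x) (by simp)).mono ?_
  rw [Finset.card_univ]

lemma HasDNF.forallFin {m : ℕ} {P : Fin m → (I → Bool) → Prop}
    (h : ∀ a, HasDNF (P a) k) : HasDNF (fun x => ∀ a, P a x) (k ^ m) := by
  induction m with
  | zero => exact (HasDNF.true.congr (by simp)).mono (by simp)
  | succ m ih =>
    refine (((h 0).and (ih (fun a => h a.succ))).congr (P' := fun x => ∀ a, P a x) ?_).mono ?_
    · intro x
      exact Fin.forall_fin_succ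
    · rw [pow_succ, mul_comm]

lemma dnf_le {f : (I → Bool) → Bool} (h : HasDNF (fun x => f x = true) k) : dnf f ≤ k := by
  obtain ⟨S, h1, h2⟩ := h
  have h3 : S.card ∈ {k | ∃ S : Finset (Finset (I × Bool)), S.card = k ∧ Represents S f} :=
    ⟨S, rfl, h2⟩
  exact (Nat.sInf_le h3).trans h1

end dnf

section comp

variable {V : Type} [Fintype V] [DecidableEq V]

def maj (a b c : Bool) : Bool := (a && b) || (a && c) || (b && c)

lemma maj_true (a b c : Bool) : maj a b c = true ↔
    (a = true ∧ b = true) ∨ (a = true ∧ c = true) ∨ (b = true ∧ c = true) := by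
  cases a <;> cases b <;> cases c <;> simp [maj]

lemma maj_false (a b c : Bool) : maj a b c = false ↔
    (a = false ∧ b = false) ∨ (a = false ∧ c = false) ∨ (b = false ∧ c = false) := by
  cases a <;> cases b <;> cases c <;> simp [maj]

def comp3 (g : (V → Bool) → Bool) : (Fin 3 × V → Bool) → Bool := fun x =>
  maj (g (fun v => x (0, v))) (g (fun v => x (1, v))) (g (fun v => x (2, v)))

omit [Fintype V] [DecidableEq V] in
lemma comp3_dnf_true {g : (V → Bool) → Bool} {T : ℕ} (h : HasDNF (fun x => g x = true) T) :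
    HasDNF (fun x => comp3 g x = true) (3 * T ^ 2) := by
  have h0 := h.reindex (fun v : V => ((0 : Fin 3), v))
  have h1 := h.reindex (fun v : V => ((1 : Fin 3), v))
  have h2 := h.reindex (fun v : V => ((2 : Fin 3), v))
  refine (((h0.and h1).or ((h0.and h2).or (h1.and h2))).congr
    (P' := fun x => comp3 g x = true) ?_).mono ?_
  · intro x
    exact maj_true _ _ _
  · apply le_of_eq
    ring

omit [Fintype V] [DecidableEq V] in
lemma comp3_dnf_false {g : (V → Bool) → Bool} {T : ℕ} (h : HasDNF (fun x => g x = false) T) :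
    HasDNF (fun x => comp3 g x = false) (3 * T ^ 2) := by
  have h0 := h.reindex (fun v : V => ((0 : Fin 3), v))
  have h1 := h.reindex (fun v : V => ((1 : Fin 3), v))
  have h2 := h.reindex (fun v : V => ((2 : Fin 3), v))
  refine (((h0.and h1).or ((h0.and h2).or (h1.and h2))).congr
    (P' := fun x => comp3 g x = false) ?_).mono ?_
  · intro x
    exact maj_false _ _ _
  · apply le_of_eq
    ring

/-- splitting the variables -/
def splitE (V : Type) : (Fin 3 × V → Bool) ≃ (V → Bool) × (V → Bool) × (V → Bool) where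
  toFun x := (fun v => x (0, v), fun v => x (1, v), fun v => x (2, v))
  invFun y p := match p.1 with
    | 0 => y.1 p.2
    | 1 => y.2.1 p.2
    | 2 => y.2.2 p.2
  left_inv x := by
    funext ⟨i, v⟩
    fin_cases i <;> rfl
  right_inv y := rfl

lemma sum_split (F0 F1 F2 : (V → Bool) → ℝ) :
    ∑ x : Fin 3 × V → Bool, F0 (fun v => x (0, v)) * F1 (fun v => x (1, v)) *
      F2 (fun v => x (2, v)) = (∑ x, F0 x) * (∑ x, F1 x) * (∑ x, F2 x) := by
  refine (Fintype.sum_equiv (splitE V) _ (fun y => F0 y.1 * F1 y.2.1 * F2 y.2.2)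
    (fun x => rfl)).trans ?_
  rw [Fintype.sum_prod_type]
  simp only [Fintype.sum_prod_type]
  rw [Finset.sum_mul_sum, Finset.sum_mul]
  apply Finset.sum_congr rfl
  intro a _
  rw [Finset.sum_mul]
  apply Finset.sum_congr rfl
  intro b _
  rw [Finset.mul_sum]

lemma chi_split (S x : Fin 3 × V → Bool) : chi S x =
    chi (fun v => S (0, v)) (fun v => x (0, v)) * chi (fun v => S (1, v)) (fun v => x (1, v)) *
      chi (fun v => S (2, v)) (fun v => x (2, v)) := by
  unfold chi
  rw [Fintype.prod_prod_type, Fin.prod_univ_three]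

/-- the witness for the composition -/
def compH (H : (V → Bool) → ℝ) : (Fin 3 × V → Bool) → ℝ := fun x =>
  -(H (fun v => x (0, v)) * H (fun v => x (1, v)) * H (fun v => x (2, v)))

lemma compH_sum {H : (V → Bool) → ℝ} (h : ∑ x, H x = 0) : ∑ x, compH H x = 0 := by
  unfold compH
  rw [Finset.sum_neg_distrib, sum_split, h]
  simp

lemma compH_adm {H : (V → Bool) → ℝ} (h : Adm H) : Adm (compH H) := by
  intro S
  have : ∑ x, compH H x * chi S x =
      -((∑ x, H x * chi (fun v => S (0, v)) x) * (∑ x, H x * chi (fun v => S (1, v)) x) *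
        (∑ x, H x * chi (fun v => S (2, v)) x)) := by
    rw [← sum_split (fun x => H x * chi (fun v => S (0, v)) x)
      (fun x => H x * chi (fun v => S (1, v)) x) (fun x => H x * chi (fun v => S (2, v)) x),
      ← Finset.sum_neg_distrib]
    apply Finset.sum_congr rfl
    intro x _
    rw [chi_split]
    unfold compH
    ring
  rw [this, abs_neg, abs_mul, abs_mul]
  have h0 := h (fun v => S (0, v))
  have h1 := h (fun v => S (1, v))
  have h2 := h (fun v => S (2, v))
  have := mul_le_one₀ (mul_le_one₀ h0 (abs_nonneg _) h1) (abs_nonneg _) h2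
  exact this

lemma sgn_maj (a b c : Bool) :
    sgn (maj a b c) = (sgn a + sgn b + sgn c - sgn a * sgn b * sgn c) / 2 := by
  cases a <;> cases b <;> cases c <;> simp [sgn, maj] <;> norm_num

lemma compH_val {g : (V → Bool) → Bool} {H : (V → Bool) → ℝ} (h : ∑ x, H x = 0) :
    ∑ x, sgn (comp3 g x) * compH H x = (∑ x, sgn (g x) * H x) ^ 3 / 2 := by
  obtain ⟨G, hG⟩ : ∃ G : (V → Bool) → ℝ, ∀ y, G y = sgn (g y) * H y := ⟨_, fun _ => rfl⟩
  have e : ∀ x : Fin 3 × V → Bool, sgn (comp3 g x) * compH H x =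
      (G (fun v => x (0, v)) * G (fun v => x (1, v)) * G (fun v => x (2, v))) / 2
      - (G (fun v => x (0, v)) * H (fun v => x (1, v)) * H (fun v => x (2, v))) / 2
      - (H (fun v => x (0, v)) * G (fun v => x (1, v)) * H (fun v => x (2, v))) / 2
      - (H (fun v => x (0, v)) * H (fun v => x (1, v)) * G (fun v => x (2, v))) / 2 := by
    intro x
    unfold comp3 compH
    rw [sgn_maj, hG, hG, hG]
    ring
  rw [Finset.sum_congr rfl (fun x _ => e x)]
  rw [Finset.sum_sub_distrib, Finset.sum_sub_distrib, Finset.sum_sub_distrib]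
  rw [← Finset.sum_div, ← Finset.sum_div, ← Finset.sum_div, ← Finset.sum_div]
  rw [sum_split, sum_split, sum_split, sum_split, h]
  simp only [← hG]
  ring

end comp

end Pool.Agent.H24.BPro
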