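import Mathlib
import Pool.Agent.H24.BPC

set_option autoImplicit false

namespace Pool.Agent.H24.BPro

/-! ### the base of the recursion -/

def cubeE : (Fin 3 → Bool) ≃ Bool × Bool × Bool where
  toFun x := (x 0, x 1, x 2)
  invFun y := ![y.1, y.2.1, y.2.2]
  left_inv x := by
    funext i
    fin_cases i <;> rfl
  right_inv y := rfl

def g3 : (Fin 3 → Bool) → Bool := fun x => maj (x 0) (x 1) (x 2)

noncomputable def H3 : (Fin 3 → Bool) → ℝ := fun x => sgn (g3 x) / 4

lemma sum_cube (F : Bool → Bool → Bool → ℝ) :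
    ∑ x : Fin 3 → Bool, F (x 0) (x 1) (x 2) =
      F true true true + F true true false + (F true false true + F true false false) +
      (F false true true + F false true false + (F false false true + F false false false)) := by
  refine (Fintype.sum_equiv cubeE _ (fun y => F y.1 y.2.1 y.2.2) (fun x => rfl)).trans ?_
  simp only [Fintype.sum_prod_type, Fintype.sum_bool]

lemma H3_adm : Adm H3 := by
  intro S
  have h : ∑ x, H3 x * chi S x = _ := (Finset.sum_congr rfl (by
      intro x _
      unfold H3 chi g3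
      rw [Fin.prod_univ_three])).trans (sum_cube (fun a b c => sgn (maj a b c) / 4 *
      ((if S 0 then sgn a else 1) * (if S 1 then sgn b else 1) * (if S 2 then sgn c else 1))))
  rw [h]
  generalize S 0 = s0
  generalize S 1 = s1
  generalize S 2 = s2
  cases s0 <;> cases s1 <;> cases s2 <;> simp [sgn, maj] <;> norm_num

lemma H3_sum : ∑ x, H3 x = 0 := by
  have h : ∑ x, H3 x = _ := sum_cube (fun a b c => sgn (maj a b c) / 4)
  rw [h]
  simp [sgn, maj]
  try norm_num

lemma H3_val : ∑ x, sgn (g3 x) * H3 x = 2 := by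
  have h : ∑ x, sgn (g3 x) * H3 x = _ :=
    sum_cube (fun a b c => sgn (maj a b c) * (sgn (maj a b c) / 4))
  rw [h]
  simp [sgn, maj]
  try norm_num

/-! ### the recursion -/

def TT : ℕ → ℕ
  | 0 => 3
  | h + 1 => 3 * TT h ^ 2

def aa : ℕ → ℕ
  | 0 => 1
  | h + 1 => 3 * aa h - 1

lemma two_aa (h : ℕ) : 2 * aa h = 3 ^ h + 1 := by
  induction h with
  | zero => rfl
  | succ h ih =>
    simp only [aa, pow_succ]
    omega

lemma TT_le (h : ℕ) : 3 * TT h ≤ 3 ^ (2 ^ (h + 1)) := by
  induction h with
  | zero => simp [TT]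
  | succ h ih =>
    have : 3 * TT (h + 1) = (3 * TT h) ^ 2 := by
      simp only [TT]
      ring
    rw [this, pow_succ 2 (h + 1), pow_mul]
    exact Nat.pow_le_pow_left ih 2

lemma TT_le' (h : ℕ) : TT h ≤ 2 ^ (2 ^ (h + 2)) := by
  calc TT h ≤ 3 * TT h := by omega
    _ ≤ 3 ^ (2 ^ (h + 1)) := TT_le h
    _ ≤ 4 ^ (2 ^ (h + 1)) := Nat.pow_le_pow_left (by norm_num) _
    _ = 2 ^ (2 ^ (h + 2)) := by
      rw [show (4 : ℕ) = 2 ^ 2 by norm_num, ← pow_mul]
      congr 1
      rw [pow_succ 2 (h + 1)]
      ring

lemma maj_mono {a b c a' b' c' : Bool} (h1 : a = true → a' = true) (h2 : b = true → b' = true)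
    (h3 : c = true → c' = true) (h : maj a b c = true) : maj a' b' c' = true := by
  rw [maj_true] at *
  tauto

lemma exists_pack (h : ℕ) : ∃ (V : Type) (_ : Fintype V) (_ : DecidableEq V)
    (g : (V → Bool) → Bool) (H : (V → Bool) → ℝ), Fintype.card V = 3 ^ (h + 1) ∧
    (∀ x y : V → Bool, (∀ v, x v = true → y v = true) → g x = true → g y = true) ∧
    g (fun _ => false) = false ∧ g (fun _ => true) = true ∧
    HasDNF (fun x => g x = true) (TT h) ∧ HasDNF (fun x => g x = false) (TT h) ∧
    Adm H ∧ ∑ x, H x = 0 ∧ (2 : ℝ) ^ (aa h) ≤ ∑ x, sgn (g x) * H x := by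
  induction h with
  | zero =>
    refine ⟨Fin 3, inferInstance, inferInstance, g3, H3, by simp, ?_, rfl, rfl, ?_, ?_, H3_adm,
      H3_sum, ?_⟩
    · intro x y hxy
      exact maj_mono (hxy 0) (hxy 1) (hxy 2)
    · refine ((((HasDNF.lit 0 true).and (HasDNF.lit 1 true)).or
        (((HasDNF.lit 0 true).and (HasDNF.lit 2 true)).or
        ((HasDNF.lit 1 true).and (HasDNF.lit 2 true)))).congr
        (P' := fun x : Fin 3 → Bool => g3 x = true) ?_).mono ?_
      · intro x
        exact maj_true _ _ _
      · simp [TT]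
    · refine ((((HasDNF.lit 0 false).and (HasDNF.lit 1 false)).or
        (((HasDNF.lit 0 false).and (HasDNF.lit 2 false)).or
        ((HasDNF.lit 1 false).and (HasDNF.lit 2 false)))).congr
        (P' := fun x : Fin 3 → Bool => g3 x = false) ?_).mono ?_
      · intro x
        exact maj_false _ _ _
      · simp [TT]
    · rw [H3_val]
      simp [aa]
  | succ h ih =>
    obtain ⟨V, i1, i2, g, H, hcard, hmono, h0, h1, ht, hf, hH, hs, hv⟩ := ih
    refine ⟨Fin 3 × V, inferInstance, inferInstance, comp3 g, compH H, ?_, ?_, ?_, ?_,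
      comp3_dnf_true ht, comp3_dnf_false hf, compH_adm hH, compH_sum hs, ?_⟩
    · rw [Fintype.card_prod, hcard, Fintype.card_fin, pow_succ 3 (h + 1), mul_comm]
    · intro x y hxy
      exact maj_mono (hmono _ _ fun v => hxy (0, v)) (hmono _ _ fun v => hxy (1, v))
        (hmono _ _ fun v => hxy (2, v))
    · unfold comp3
      rw [h0]
      rfl
    · unfold comp3
      rw [h1]
      rfl
    · rw [compH_val hs]
      have e1 : (2 : ℝ) ^ aa (h + 1) = ((2 : ℝ) ^ aa h) ^ 3 / 2 := by
        have h1 : aa (h + 1) + 1 = aa h * 3 := by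
          have := two_aa h
          have := two_aa (h + 1)
          rw [pow_succ] at this
          omega
        rw [← pow_mul, ← h1, pow_succ]
        ring
      rw [e1]
      have : ((2 : ℝ) ^ aa h) ^ 3 ≤ (∑ x, sgn (g x) * H x) ^ 3 :=
        pow_le_pow_left₀ (by positivity) hv 3
      linarith

/-! ### the parameters -/

lemma card_bound (h : ℕ) : (4 * h + 8) * 3 ^ (h + 1) ≤ 2 ^ (4 * h + 6) := by
  induction h with
  | zero => norm_num
  | succ h ih =>
    have e1 : 2 ^ (4 * (h + 1) + 6) = 16 * 2 ^ (4 * h + 6) := by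
      rw [show 4 * (h + 1) + 6 = (4 * h + 6) + 4 by ring, pow_add]
      ring
    have e2 : 3 ^ (h + 1 + 1) = 3 * 3 ^ (h + 1) := by ring
    rw [e1, e2]
    nlinarith [Nat.pos_of_ne_zero (pow_ne_zero (h + 1) (by norm_num : (3 : ℕ) ≠ 0))]

/-- the exponent in the weight bound -/
def EE (h : ℕ) : ℕ := 4 * h + 9 + (4 * h + 8) * 2 ^ (h + 2)

/-- The function. -/
theorem exists_fun (h : ℕ) : ∃ (n : ℕ) (f : (Fin n → Bool) → Bool),
    weight f ≤ 2 ^ (EE h) ∧
    ∀ B : BP (Fin n), B.ReadOnce → B.Computes f → (2 : ℝ) ^ (aa h) + 1 ≤ B.size := by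
  classical
  obtain ⟨V, i1, i2, g, H, hcard, hmono, h0, h1, ht, hf, hH, hs, hv⟩ := exists_pack h
  have hcI : Fintype.card (Fin (4 * h + 8) × V) ≤ Fintype.card (Fin (4 * h + 6) → Bool) := by
    rw [Fintype.card_prod, Fintype.card_fin, hcard, Fintype.card_fun, Fintype.card_fin,
      Fintype.card_bool]
    exact card_bound h
  obtain ⟨bits⟩ := Function.Embedding.nonempty_of_card_le hcI
  let enc : Fin (4 * h + 8) × V → Fin (4 * h + 8) → Bool := fun i =>
    Fin.cons (α := fun _ => Bool) false (Fin.cons (α := fun _ => Bool) true (bits i))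
  have encinj : Function.Injective enc := by
    intro a b hab
    apply bits.injective
    funext t
    have := congrFun hab t.succ.succ
    simpa [enc] using this
  let F : (Fin (4 * h + 8) × V → Bool) → Bool := fun x =>
    decide (∃ i, (∀ j, g (fun v => x (j, v)) = enc i j) ∧ x i = true)
  let S : Setup (4 * h + 8) V :=
    { g := g
      enc := enc
      f := F
      gmono := hmono
      g0 := h0
      g1 := h1
      hf := by
        intro x i hi
        simp only [F]
        rw [Bool.eq_iff_iff, decide_eq_true_iff]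
        constructor
        · rintro ⟨i', h1, h2⟩
          have : i' = i := encinj (by
            funext j
            rw [← h1 j, ← hi j])
          rw [← this]
          exact h2
        · intro hx
          exact ⟨i, hi, hx⟩
      j0 := 0
      j1 := 1
      e0 := fun i => rfl
      e1 := fun i => rfl }
  -- variables `Fin n`
  obtain ⟨e⟩ : Nonempty (Fin (Fintype.card (Fin (4 * h + 8) × V)) ≃ Fin (4 * h + 8) × V) :=
    ⟨(Fintype.equivFin _).symm⟩
  refine ⟨_, fun x => F (fun i => x (e.symm i)), ?_, ?_⟩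
  · -- DNFs
    have hgj : ∀ (j : Fin (4 * h + 8)) (b : Bool), HasDNF (fun x : Fin (4 * h + 8) × V → Bool =>
        g (fun v => x (j, v)) = b) (TT h) := by
      intro j b
      cases b
      · exact hf.reindex (fun v => (j, v))
      · exact ht.reindex (fun v => (j, v))
    have hadr : ∀ t : Fin (4 * h + 8) → Bool, HasDNF (fun x : Fin (4 * h + 8) × V → Bool =>
        ∀ j, g (fun v => x (j, v)) = t j) (TT h ^ (4 * h + 8)) :=
      fun t => HasDNF.forallFin (fun j => hgj j (t j))
    have hT : HasDNF (fun x => F x = true)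
        (Fintype.card (Fin (4 * h + 8) × V) * (TT h ^ (4 * h + 8) * 1)) := by
      refine (HasDNF.exists (fun i : Fin (4 * h + 8) × V =>
        (hadr (enc i)).and (HasDNF.lit i true))).congr ?_
      intro x
      simp only [F, decide_eq_true_iff]
    have hF : HasDNF (fun x => F x = false)
        (Fintype.card (Fin (4 * h + 8) → Bool) * (TT h ^ (4 * h + 8) * 1)) := by
      have hl : ∀ t : Fin (4 * h + 8) → Bool, HasDNF (fun x : Fin (4 * h + 8) × V → Bool =>
          ∀ i, enc i = t → x i = false) 1 := by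
        intro t
        by_cases ht : ∃ i, enc i = t
        · obtain ⟨i, hi⟩ := ht
          refine (HasDNF.lit i false).congr ?_
          intro x
          constructor
          · intro hx
            exact hx i hi
          · intro hx i' hi'
            have : i' = i := encinj (hi'.trans hi.symm)
            rw [this]
            exact hx
        · refine HasDNF.true.congr ?_
          intro x
          simp only [iff_true]
          intro i hi
          exact absurd ⟨i, hi⟩ ht
      refine (HasDNF.exists (fun t : Fin (4 * h + 8) → Bool => (hadr t).and (hl t))).congr ?_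
      intro x
      simp only [F, decide_eq_false_iff_not]
      constructor
      · intro hx
        refine ⟨fun j => g (fun v => x (j, v)), fun j => rfl, ?_⟩
        intro i hi
        by_contra hxi
        apply hx
        refine ⟨i, fun j => by rw [hi], ?_⟩
        simpa using hxi
      · rintro ⟨t, h1, h2⟩ ⟨i, h3, h4⟩
        have : enc i = t := by
          funext j
          rw [← h1, h3]
        rw [h2 i this] at h4
        exact absurd h4 (by simp)
    have hT' := dnf_le (f := fun x => F (fun i => x (e.symm i))) (hT.reindex e.symm)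
    have hF' := dnf_le (f := fun x => !(F (fun i => x (e.symm i)))) ((hF.reindex e.symm).congr
      (P' := fun x => (!(F (fun i => x (e.symm i)))) = true) (by
        intro x
        cases F (fun i => x (e.symm i)) <;> simp))
    have hb : Fintype.card (Fin (4 * h + 8) × V) ≤ 2 ^ (4 * h + 8) := by
      refine hcI.trans ?_
      rw [Fintype.card_fun, Fintype.card_fin, Fintype.card_bool]
      exact Nat.pow_le_pow_right (by norm_num) (by omega)
    have hTm : TT h ^ (4 * h + 8) ≤ 2 ^ ((4 * h + 8) * 2 ^ (h + 2)) := by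
      calc TT h ^ (4 * h + 8) ≤ (2 ^ (2 ^ (h + 2))) ^ (4 * h + 8) :=
            Nat.pow_le_pow_left (TT_le' h) _
        _ = 2 ^ ((4 * h + 8) * 2 ^ (h + 2)) := by rw [← pow_mul, mul_comm]
    rw [Fintype.card_fun, Fintype.card_fin, Fintype.card_bool] at hF'
    unfold weight
    calc _ ≤ Fintype.card (Fin (4 * h + 8) × V) * (TT h ^ (4 * h + 8) * 1) +
          2 ^ (4 * h + 8) * (TT h ^ (4 * h + 8) * 1) := Nat.add_le_add hT' hF'
      _ ≤ 2 ^ (4 * h + 8) * 2 ^ ((4 * h + 8) * 2 ^ (h + 2)) +
          2 ^ (4 * h + 8) * 2 ^ ((4 * h + 8) * 2 ^ (h + 2)) := by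
        rw [mul_one]
        exact Nat.add_le_add (Nat.mul_le_mul hb hTm) (Nat.mul_le_mul le_rfl hTm)
      _ = 2 ^ (EE h) := by
        unfold EE
        rw [show 4 * h + 9 + (4 * h + 8) * 2 ^ (h + 2) =
          1 + (4 * h + 8) + (4 * h + 8) * 2 ^ (h + 2) by ring, pow_add, pow_add]
        ring
  · intro B hro hc
    let B' : BP (Fin (4 * h + 8) × V) :=
      { Q := B.Q
        finQ := B.finQ
        source := B.source
        var := fun q => e (B.var q)
        next := B.next
        acyclic := B.acyclic }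
    have hro' : B'.ReadOnce := by
      intro l s hp
      have := hro l s hp
      have h2 := this.map e.injective
      rw [List.map_map] at h2
      exact h2
    have hc' : B'.Computes S.f := by
      intro x
      obtain ⟨l, h1, h2⟩ := hc (fun k => x (e k))
      refine ⟨l, ?_, h2⟩
      have : (fun i => x (e (e.symm i))) = x := by
        funext i
        rw [e.apply_symm_apply]
      simp only [this] at h1
      exact h1
    exact lower hc' hro' hH hv

/-! ### every function has a read-once branching program -/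

/-- the complete branching program -/
def complete {n : ℕ} (f : (Fin n → Bool) → Bool) : BP (Fin n) where
  Q := Fin n × (Fin n → Bool)
  finQ := inferInstance
  source := if h : 0 < n then Sum.inl (⟨0, h⟩, fun _ => false) else Sum.inr (f fun _ => false)
  var := fun q => q.1
  next := fun q b => if h : q.1.1 + 1 < n then Sum.inl (⟨q.1.1 + 1, h⟩, Function.update q.2 q.1 b)
    else Sum.inr (f (Function.update q.2 q.1 b))
  acyclic := ⟨fun q => n - q.1.1, by
    intro q b q' h
    by_cases hq : q.1.1 + 1 < n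
    · rw [dif_pos hq] at h
      have := Sum.inl.inj h
      rw [← this]
      simp only
      omega
    · rw [dif_neg hq] at h
      exact absurd h (by simp)⟩

lemma complete_mono {n : ℕ} (f : (Fin n → Bool) → Bool) (l : List ((Fin n × (Fin n → Bool)) × Bool))
    (q : Fin n × (Fin n → Bool)) (w : (Fin n × (Fin n → Bool)) ⊕ Bool)
    (h : IsPath (complete f).next (Sum.inl q) l w) :
    (l.map (fun e => e.1.1)).Pairwise (· < ·) ∧ ∀ i ∈ l.map (fun e => e.1.1), q.1 ≤ i := by
  induction l generalizing q with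
  | nil => simp
  | cons e l ih =>
    obtain ⟨h1, h2⟩ := h
    have h1 := Sum.inl.inj h1
    rw [List.map_cons, List.pairwise_cons]
    by_cases hq : e.1.1.1 + 1 < n
    · have hn : (complete f).next e.1 e.2 =
          Sum.inl (⟨e.1.1.1 + 1, hq⟩, Function.update e.1.2 e.1.1 e.2) := dif_pos hq
      rw [hn] at h2
      obtain ⟨a, b⟩ := ih _ h2
      have b' : ∀ i ∈ l.map (fun e => e.1.1), e.1.1 < i := by
        intro i hi
        have := b i hi
        rw [Fin.le_def] at this
        rw [Fin.lt_def]
        simp only at this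
        omega
      refine ⟨⟨b', a⟩, ?_⟩
      intro i hi
      rcases List.mem_cons.1 hi with rfl | hi
      · rw [h1]
      · rw [h1]
        exact (b' i hi).le
    · have hn : (complete f).next e.1 e.2 = Sum.inr (f (Function.update e.1.2 e.1.1 e.2)) :=
        dif_neg hq
      rw [hn] at h2
      have hl : l = [] := (isPath_inr h2).1
      subst hl
      simp [h1]

lemma complete_readOnce {n : ℕ} (f : (Fin n → Bool) → Bool) : (complete f).ReadOnce := by
  intro l s h
  rcases hs : (complete f).source with q | t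
  · rw [hs] at h
    exact (complete_mono f l q _ h).1.imp (fun h => ne_of_lt h)
  · rw [hs] at h
    rw [(isPath_inr h).1]
    simp

lemma complete_computes {n : ℕ} (f : (Fin n → Bool) → Bool) : (complete f).Computes f := by
  intro x
  have key : ∀ d : ℕ, ∀ q : Fin n × (Fin n → Bool), n - q.1.1 = d →
      (∀ i, i < q.1 → q.2 i = x i) →
      ∃ l, IsPath (complete f).next (Sum.inl q) l (Sum.inr (f x)) ∧
        ∀ e ∈ l, x ((complete f).var e.1) = e.2 := by
    intro d
    induction d with
    | zero =>
      intro q hq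
      have := q.1.2
      omega
    | succ d ih =>
      intro q hq hx
      have hup : ∀ i, i ≤ q.1 → Function.update q.2 q.1 (x q.1) i = x i := by
        intro i hi
        rcases eq_or_lt_of_le hi with rfl | hi
        · rw [Function.update_self]
        · rw [Function.update_of_ne (ne_of_lt hi)]
          exact hx i hi
      by_cases hq' : q.1.1 + 1 < n
      · have hn : (complete f).next q (x q.1) =
            Sum.inl (⟨q.1.1 + 1, hq'⟩, Function.update q.2 q.1 (x q.1)) := dif_pos hq'
        obtain ⟨l, h1, h2⟩ := ih (⟨q.1.1 + 1, hq'⟩, Function.update q.2 q.1 (x q.1))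
          (by simp only; omega) (by
            intro i hi
            rw [Fin.lt_def] at hi
            simp only at hi
            apply hup
            rw [Fin.le_def]
            omega)
        refine ⟨(q, x q.1) :: l, ⟨rfl, ?_⟩, ?_⟩
        · simp only [hn]
          exact h1
        · intro e he
          rcases List.mem_cons.1 he with rfl | he
          · rfl
          · exact h2 e he
      · have hn : (complete f).next q (x q.1) =
            Sum.inr (f (Function.update q.2 q.1 (x q.1))) := dif_neg hq'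
        have hx' : Function.update q.2 q.1 (x q.1) = x := by
          funext i
          apply hup
          rw [Fin.le_def]
          have := i.2
          omega
        refine ⟨[(q, x q.1)], ⟨rfl, ?_⟩, ?_⟩
        · simp only [hn, hx']
          rfl
        · intro e he
          rcases List.mem_cons.1 he with rfl | he
          · rfl
          · simp at he
  by_cases hn : 0 < n
  · have hs : (complete f).source = Sum.inl (⟨0, hn⟩, fun _ => false) := dif_pos hn
    rw [hs]
    refine key _ _ rfl ?_
    intro i hi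
    rw [Fin.lt_def] at hi
    simp at hi
  · have hs : (complete f).source = Sum.inr (f fun _ => false) := dif_neg hn
    refine ⟨[], ?_, by simp⟩
    rw [hs]
    have : x = fun _ => false := by
      funext i
      have := i.2
      omega
    rw [this]
    rfl

lemma BP1_mem {n : ℕ} (f : (Fin n → Bool) → Bool) :
    ∃ B : BP (Fin n), B.ReadOnce ∧ B.Computes f ∧ B.size = BP1 f :=
  Nat.sInf_mem (s := {k | ∃ B : BP (Fin n), B.ReadOnce ∧ B.Computes f ∧ B.size = k})
    ⟨_, complete f, complete_readOnce f, complete_computes f, rfl⟩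

/-! ### growth -/

lemma growth (C : ℕ) : ∃ h : ℕ, C * (h + 1) * 2 ^ h ≤ 3 ^ h := by
  have ht := tendsto_pow_const_mul_const_pow_of_lt_one 1 (r := (2 / 3 : ℝ)) (by norm_num)
    (by norm_num)
  have h1 : ∀ᶠ n : ℕ in Filter.atTop, (n : ℝ) ^ 1 * (2 / 3 : ℝ) ^ n < 1 / (2 * C + 1) := by
    apply ht.eventually_lt_const
    positivity
  obtain ⟨n, h2, h3⟩ := (h1.and (Filter.eventually_ge_atTop 1)).exists
  refine ⟨n, ?_⟩
  have h3' : (1 : ℝ) ≤ n := by exact_mod_cast h3
  have : ((C * (n + 1) * 2 ^ n : ℕ) : ℝ) ≤ ((3 ^ n : ℕ) : ℝ) := by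
    push_cast
    rw [pow_one, lt_div_iff₀ (by positivity), div_pow] at h2
    have h4 : (0 : ℝ) < 3 ^ n := by positivity
    have h5 : (n : ℝ) * (2 ^ n / 3 ^ n) * (2 * C + 1) = (n * 2 ^ n * (2 * C + 1)) / 3 ^ n := by
      field_simp
    rw [h5, div_lt_one h4] at h2
    have h6 : (0 : ℝ) ≤ 2 ^ n := by positivity
    have h7 : (0 : ℝ) ≤ C := Nat.cast_nonneg _
    have h8 : (C : ℝ) * (n + 1) * 2 ^ n ≤ n * 2 ^ n * (2 * C + 1) := by
      have : (C : ℝ) * (n + 1) ≤ n * (2 * C + 1) := by nlinarith
      nlinarith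
    linarith
  exact_mod_cast this

lemma EE_growth (D : ℕ) : ∃ h : ℕ, D * (EE h + 1) ≤ aa h := by
  obtain ⟨h, hh⟩ := growth (2 * D * 100)
  refine ⟨h, ?_⟩
  have h1 : EE h + 1 ≤ 100 * (h + 1) * 2 ^ h := by
    unfold EE
    have : 1 ≤ 2 ^ h := Nat.one_le_two_pow
    rw [pow_add]
    nlinarith
  have h2 := two_aa h
  have h3 : D * (EE h + 1) ≤ D * (100 * (h + 1) * 2 ^ h) := Nat.mul_le_mul le_rfl h1
  have h4 : 2 * (D * (100 * (h + 1) * 2 ^ h)) = 2 * D * 100 * (h + 1) * 2 ^ h := by ring
  omega

lemma poly_bound (p : Polynomial ℝ) : ∃ D : ℕ, ∀ (E N : ℕ), N ≤ 2 ^ E →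
    p.eval (N : ℝ) ≤ (2 : ℝ) ^ (D * (E + 1)) := by
  obtain ⟨K, hK⟩ := exists_nat_ge (∑ i ∈ Finset.range (p.natDegree + 1), |p.coeff i|)
  refine ⟨K + p.natDegree, ?_⟩
  intro E N hN
  have hN' : (N : ℝ) ≤ 2 ^ E := by exact_mod_cast hN
  rw [Polynomial.eval_eq_sum_range]
  have h1 : ∀ i ∈ Finset.range (p.natDegree + 1), p.coeff i * (N : ℝ) ^ i ≤
      |p.coeff i| * ((2 : ℝ) ^ E) ^ p.natDegree := by
    intro i hi
    have hi' : i ≤ p.natDegree := by
      rw [Finset.mem_range] at hi
      omega
    refine (le_abs_self _).trans ?_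
    rw [abs_mul]
    refine mul_le_mul_of_nonneg_left ?_ (abs_nonneg _)
    rw [abs_of_nonneg (by positivity)]
    calc (N : ℝ) ^ i ≤ ((2 : ℝ) ^ E) ^ i := pow_le_pow_left₀ (Nat.cast_nonneg _) hN' i
      _ ≤ ((2 : ℝ) ^ E) ^ p.natDegree := pow_le_pow_right₀ (one_le_pow₀ (by norm_num)) hi'
  refine (Finset.sum_le_sum h1).trans ?_
  rw [← Finset.sum_mul]
  have h2 : (K : ℝ) ≤ 2 ^ K := by
    have := (Nat.lt_two_pow_self (n := K)).le
    exact_mod_cast this
  calc (∑ i ∈ Finset.range (p.natDegree + 1), |p.coeff i|) * ((2 : ℝ) ^ E) ^ p.natDegree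
      ≤ 2 ^ K * ((2 : ℝ) ^ E) ^ p.natDegree :=
        mul_le_mul_of_nonneg_right (hK.trans h2) (by positivity)
    _ = 2 ^ (K + E * p.natDegree) := by rw [← pow_mul, ← pow_add]
    _ ≤ (2 : ℝ) ^ ((K + p.natDegree) * (E + 1)) := by
      apply pow_le_pow_right₀ (by norm_num)
      nlinarith [Nat.zero_le (K * E), Nat.zero_le p.natDegree]

theorem final (p : Polynomial ℝ) : ∃ (n : ℕ) (f : (Fin n → Bool) → Bool),
    p.eval (weight f : ℝ) < (BP1 f : ℝ) := by
  obtain ⟨D, hD⟩ := poly_bound p
  obtain ⟨h, hh⟩ := EE_growth D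
  obtain ⟨n, f, h1, h2⟩ := exists_fun h
  refine ⟨n, f, ?_⟩
  obtain ⟨B, hro, hc, hs⟩ := BP1_mem f
  have h3 := h2 B hro hc
  rw [hs] at h3
  have h4 := hD (EE h) (weight f) h1
  have h5 : (2 : ℝ) ^ (D * (EE h + 1)) ≤ 2 ^ aa h := pow_le_pow_right₀ (by norm_num) hh
  linarith

end Pool.Agent.H24.BPro
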