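import Mathlib

set_option autoImplicit false

namespace Pool.Agent.H24.Eul

open Real Set
open scoped ENNReal

theorem mono_of (f f' : ℝ → ℝ) (hf : ∀ s, 0 ≤ s → HasDerivWithinAt f (f' s) (Ici 0) s) (t : ℝ) (ht : 0 ≤ t)
    (hpos : ∀ s, 0 ≤ s → s ≤ t → 0 ≤ f' s) : f 0 ≤ f t := by
  have h : MonotoneOn f (Icc 0 t) := by
    apply monotoneOn_of_deriv_nonneg (convex_Icc 0 t)
    · intro s hs
      exact ((hf s hs.1).continuousWithinAt).mono Icc_subset_Ici_self
    · intro s hs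
      rw [interior_Icc] at hs ⊢
      exact ((hf s hs.1.le).hasDerivAt (Ici_mem_nhds hs.1)).differentiableAt.differentiableWithinAt
    · intro s hs
      rw [interior_Icc] at hs
      rw [((hf s hs.1.le).hasDerivAt (Ici_mem_nhds hs.1)).deriv]
      exact hpos s hs.1.le hs.2.le
  exact h (left_mem_Icc.2 ht) (right_mem_Icc.2 ht) ht

section traj
variable {X Y : ℝ → ℝ}
  (hX : ∀ s, 0 ≤ s → HasDerivWithinAt X (sin (X s) * cos (Y s)) (Ici 0) s)
  (hY : ∀ s, 0 ≤ s → HasDerivWithinAt Y (-(cos (X s) * sin (Y s))) (Ici 0) s)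

theorem xx' (x y : ℝ) : |x * (sin x * cos y)| ≤ x ^ 2 := by
  have h1 : |sin x| ≤ |x| := Real.abs_sin_le_abs
  have h2 : |cos y| ≤ 1 := Real.abs_cos_le_one y
  rw [abs_mul, abs_mul, ← sq_abs x, sq]
  have h3 : |sin x| * |cos y| ≤ |x| * 1 := mul_le_mul h1 h2 (abs_nonneg _) (abs_nonneg _)
  rw [mul_one] at h3
  exact mul_le_mul_of_nonneg_left h3 (abs_nonneg _)

include hX

theorem lower_sq (t : ℝ) (ht : 0 ≤ t) : (X 0) ^ 2 ≤ (X t) ^ 2 * exp (2 * t) := by
  have h := mono_of (fun s => (X s) ^ 2 * exp (2 * s)) (fun s => (2 * (X s * (sin (X s) * cos (Y s))) + 2 * (X s) ^ 2) * exp (2 * s))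
    (fun s hs => by
      have h1 := (hX s hs).pow 2
      have h2 : HasDerivWithinAt (fun s : ℝ => exp (2 * s)) (exp (2 * s) * 2) (Ici 0) s :=
        ((hasDerivAt_id s).const_mul 2).exp.hasDerivWithinAt.congr_deriv (by simp)
      have h3 := h1.mul h2
      refine h3.congr_deriv ?_
      simp only [Pi.pow_apply]
      push_cast
      ring) t ht (fun s _ _ => by
      have := (abs_le.1 (xx' (X s) (Y s))).1
      have h4 : 0 ≤ 2 * (X s * (sin (X s) * cos (Y s))) + 2 * (X s) ^ 2 := by linarith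
      positivity)
  simpa using h

theorem upper_sq (t : ℝ) (ht : 0 ≤ t) : (X t) ^ 2 ≤ (X 0) ^ 2 * exp (2 * t) := by
  have h := mono_of (fun s => -((X s) ^ 2 * exp (-(2 * s)))) (fun s => (2 * (X s) ^ 2 - 2 * (X s * (sin (X s) * cos (Y s)))) * exp (-(2 * s)))
    (fun s hs => by
      have h1 := (hX s hs).pow 2
      have h2 : HasDerivWithinAt (fun s : ℝ => exp (-(2 * s))) (exp (-(2 * s)) * (-2)) (Ici 0) s :=
        (((hasDerivAt_id s).const_mul 2).neg.exp).hasDerivWithinAt.congr_deriv (by simp)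
      have h3 := (h1.mul h2).neg
      refine h3.congr_deriv ?_
      simp only [Pi.pow_apply]
      push_cast
      ring) t ht (fun s _ _ => by
      have := (abs_le.1 (xx' (X s) (Y s))).2
      have h4 : 0 ≤ 2 * (X s) ^ 2 - 2 * (X s * (sin (X s) * cos (Y s))) := by linarith
      positivity)
  simp only [mul_zero, neg_zero, exp_zero, mul_one] at h
  have h5 : (X t) ^ 2 * exp (-(2 * t)) ≤ (X 0) ^ 2 := by linarith
  calc (X t) ^ 2 = (X t) ^ 2 * exp (-(2 * t)) * exp (2 * t) := by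
        rw [mul_assoc, ← exp_add]; simp
    _ ≤ _ := by gcongr

theorem X_zero (h0 : X 0 = 0) (t : ℝ) (ht : 0 ≤ t) : X t = 0 := by
  have h := upper_sq hX t ht
  rw [h0] at h
  have : (X t) ^ 2 ≤ 0 := by simpa using h
  exact pow_eq_zero_iff (two_ne_zero) |>.1 (le_antisymm this (sq_nonneg _))

theorem X_pos (h0 : 0 < X 0) (t : ℝ) (ht : 0 ≤ t) : 0 < X t := by
  by_contra hcon
  push Not at hcon
  have hc : ContinuousOn X (Icc 0 t) := fun s hs => ((hX s hs.1).continuousWithinAt).mono Icc_subset_Ici_self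
  have h1 := intermediate_value_Icc' ht hc
  obtain ⟨s, hs, hs0⟩ := h1 ⟨hcon, h0.le⟩
  have h2 := lower_sq hX s hs.1
  rw [hs0] at h2
  have : (X 0) ^ 2 ≤ 0 := by simpa using h2
  nlinarith

theorem X_le (h0 : 0 < X 0) (t : ℝ) (ht : 0 ≤ t) : X t ≤ X 0 * exp t := by
  have h := upper_sq hX t ht
  have e : (X 0) ^ 2 * exp (2 * t) = (X 0 * exp t) ^ 2 := by
    rw [mul_pow, ← exp_nat_mul]; norm_num
  rw [e] at h
  exact le_of_sq_le_sq h (by positivity)

include hY

theorem key (h0 : 0 < X 0) (t : ℝ) (ht : 0 ≤ t) (hsm : X 0 * exp t ≤ 1 / 2) (hyb : (Y 0) ^ 2 / 2 ≤ 1) :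
    X 0 * exp (t - 1 / 32 - (Y 0) ^ 2 * t / 2) ≤ X t := by
  have hsmall : ∀ s, 0 ≤ s → s ≤ t → X s ≤ 1 / 2 := fun s hs hst =>
    (X_le hX h0 s hs).trans ((mul_le_mul_of_nonneg_left (exp_le_exp.2 hst) h0.le).trans hsm)
  have hcos : ∀ s, 0 ≤ s → s ≤ t → 1 - (Y 0) ^ 2 / 2 ≤ cos (Y s) := by
    intro s hs hst
    have h := mono_of (fun r => cos (Y r)) (fun r => cos (X r) * sin (Y r) ^ 2)
      (fun r hr => by
        have h1 := (hY r hr).cos
        refine h1.congr_deriv ?_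
        ring) s hs (fun r hr hrs => by
        have h2 : 0 ≤ cos (X r) := by
          apply cos_nonneg_of_neg_pi_div_two_le_of_le
          · have := X_pos hX h0 r hr
            have := Real.pi_pos
            linarith
          · have := hsmall r hr (hrs.trans hst)
            have := Real.pi_gt_three
            linarith
        positivity)
    exact (one_sub_sq_div_two_le_cos).trans h
  have h := mono_of (fun s => X s * exp (-(s - (X 0) ^ 2 * exp (2 * s) / 8 - (Y 0) ^ 2 / 2 * s)))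
    (fun s => (sin (X s) * cos (Y s) - X s * (1 - (X 0) ^ 2 * exp (2 * s) / 4 - (Y 0) ^ 2 / 2)) * exp (-(s - (X 0) ^ 2 * exp (2 * s) / 8 - (Y 0) ^ 2 / 2 * s)))
    (fun s hs => by
      have h2 : HasDerivAt (fun s : ℝ => exp (2 * s)) (exp (2 * s) * 2) s :=
        (((hasDerivAt_id s).const_mul 2).exp).congr_deriv (by simp)
      have h3 : HasDerivAt (fun s : ℝ => -(s - (X 0) ^ 2 * exp (2 * s) / 8 - (Y 0) ^ 2 / 2 * s))
          (-(1 - (X 0) ^ 2 * exp (2 * s) / 4 - (Y 0) ^ 2 / 2)) s := by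
        have h4 := (((hasDerivAt_id s).sub ((h2.const_mul ((X 0) ^ 2)).div_const 8)).sub ((hasDerivAt_id s).const_mul ((Y 0) ^ 2 / 2))).neg
        refine h4.congr_deriv ?_
        ring
      have h5 := (hX s hs).mul h3.exp.hasDerivWithinAt
      refine h5.congr_deriv ?_
      ring) t ht (fun s hs hst => by
      have p1 := X_pos hX h0 s hs
      have p2 := hsmall s hs hst
      have p3 := hcos s hs hst
      have p4 : X s - X s ^ 3 / 4 < sin (X s) := by
        have q1 := Real.sin_gt_sub_cube p1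
        have q2 := pow_pos p1 3
        linarith
      have p5 := upper_sq hX s hs
      have p6 : 0 < X s - X s ^ 3 / 4 := by nlinarith [mul_pos p1 p1, mul_pos (mul_pos p1 p1) p1]
      have p7 : (X s - X s ^ 3 / 4) * (1 - (Y 0) ^ 2 / 2) ≤ sin (X s) * cos (Y s) :=
        mul_le_mul p4.le p3 (by linarith) (by linarith)
      have p8 : X s * (1 - (X 0) ^ 2 * exp (2 * s) / 4 - (Y 0) ^ 2 / 2) ≤ (X s - X s ^ 3 / 4) * (1 - (Y 0) ^ 2 / 2) := by
        have : (X s - X s ^ 3 / 4) * (1 - (Y 0) ^ 2 / 2) - X s * (1 - (X 0) ^ 2 * exp (2 * s) / 4 - (Y 0) ^ 2 / 2)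
            = X s * (((X 0) ^ 2 * exp (2 * s) - (X s) ^ 2) / 4 + (X s) ^ 2 / 4 * ((Y 0) ^ 2 / 2)) := by ring
        have q : 0 ≤ X s * (((X 0) ^ 2 * exp (2 * s) - (X s) ^ 2) / 4 + (X s) ^ 2 / 4 * ((Y 0) ^ 2 / 2)) := by
          apply mul_nonneg p1.le
          have : 0 ≤ (X 0) ^ 2 * exp (2 * s) - (X s) ^ 2 := by linarith
          positivity
        linarith
      apply mul_nonneg _ (exp_pos _).le
      linarith)
  simp only [mul_zero, exp_zero, mul_one, sub_zero, zero_sub, neg_neg] at h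
  have e1 : X 0 ≤ X 0 * exp ((X 0) ^ 2 / 8) := by
    have : 1 ≤ exp ((X 0) ^ 2 / 8) := Real.one_le_exp (by positivity)
    nlinarith
  have h6 : X 0 ≤ X t * exp (-(t - (X 0) ^ 2 * exp (2 * t) / 8 - (Y 0) ^ 2 / 2 * t)) := e1.trans h
  have h7 : (X 0) ^ 2 * exp (2 * t) ≤ 1 / 4 := by
    have e : (X 0) ^ 2 * exp (2 * t) = (X 0 * exp t) ^ 2 := by
      rw [mul_pow, ← exp_nat_mul]; norm_num
    rw [e]
    have : 0 ≤ X 0 * exp t := by positivity
    nlinarith
  have hXt := X_pos hX h0 t ht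
  calc X 0 * exp (t - 1 / 32 - (Y 0) ^ 2 * t / 2)
      ≤ (X t * exp (-(t - (X 0) ^ 2 * exp (2 * t) / 8 - (Y 0) ^ 2 / 2 * t))) * exp (t - (X 0) ^ 2 * exp (2 * t) / 8 - (Y 0) ^ 2 / 2 * t) := by
        apply mul_le_mul h6 _ (exp_pos _).le (by positivity)
        apply exp_le_exp.2
        linarith
    _ = X t := by
        rw [mul_assoc, ← exp_add]; simp

end traj

end Pool.Agent.H24.Eul
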