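import Pool.Agent.H24.EulA

set_option autoImplicit false

namespace Pool.Agent.H24.Eul

open Real Set
open scoped ENNReal

/-- `(u, v)` with pressure `p`, given as functions of `(t, x, y)`, is a continuously differentiable solution of
the incompressible Euler equations on the torus `ℝ² / (2πℤ)²` for all times `t ≥ 0`, with bounded `C¹` norm. -/
structure IsEuler (u v p : ℝ → ℝ → ℝ → ℝ) : Prop where
  periodic : ∀ t x y, (u t (x + 2 * π) y = u t x y ∧ u t x (y + 2 * π) = u t x y) ∧
    (v t (x + 2 * π) y = v t x y ∧ v t x (y + 2 * π) = v t x y) ∧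
    (p t (x + 2 * π) y = p t x y ∧ p t x (y + 2 * π) = p t x y)
  smooth : ContDiff ℝ 1 (fun q : ℝ × ℝ × ℝ => u q.1 q.2.1 q.2.2) ∧ ContDiff ℝ 1 (fun q : ℝ × ℝ × ℝ => v q.1 q.2.1 q.2.2) ∧
    ContDiff ℝ 1 (fun q : ℝ × ℝ × ℝ => p q.1 q.2.1 q.2.2)
  mom1 : ∀ t x y, 0 ≤ t → deriv (fun s => u s x y) t + u t x y * deriv (fun s => u t s y) x
    + v t x y * deriv (fun s => u t x s) y + deriv (fun s => p t s y) x = 0
  mom2 : ∀ t x y, 0 ≤ t → deriv (fun s => v s x y) t + u t x y * deriv (fun s => v t s y) x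
    + v t x y * deriv (fun s => v t x s) y + deriv (fun s => p t x s) y = 0
  div : ∀ t x y, 0 ≤ t → deriv (fun s => u t s y) x + deriv (fun s => v t x s) y = 0
  bdd : ∃ M : ℝ, ∀ t x y, 0 ≤ t → |u t x y| ≤ M ∧ |v t x y| ≤ M ∧
    |deriv (fun s => u t s y) x| ≤ M ∧ |deriv (fun s => u t x s) y| ≤ M ∧
    |deriv (fun s => v t s y) x| ≤ M ∧ |deriv (fun s => v t x s) y| ≤ M

/-- `Φ` is the Lagrangian flow map of `(u, v)` (points of the plane are complex numbers; this is the lift of the
flow map of the torus to the plane) -/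
def IsFlow (u v : ℝ → ℝ → ℝ → ℝ) (Φ : ℝ → ℂ → ℂ) : Prop :=
  ∀ z : ℂ, Φ 0 z = z ∧ ∀ t : ℝ, 0 ≤ t → HasDerivWithinAt (fun s => Φ s z)
    (⟨u t (Φ t z).re (Φ t z).im, v t (Φ t z).re (Φ t z).im⟩ : ℂ) (Ici 0) t

/-- the cellular flow -/
noncomputable def uu (_t x y : ℝ) : ℝ := sin x * cos y
noncomputable def vv (_t x y : ℝ) : ℝ := -(cos x * sin y)
noncomputable def pp (_t x y : ℝ) : ℝ := -((sin x ^ 2 + sin y ^ 2) / 2)

theorem du_x (t x y : ℝ) : deriv (fun s => uu t s y) x = cos x * cos y := by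
  have : HasDerivAt (fun s => uu t s y) (cos x * cos y) x := (hasDerivAt_sin x).mul_const (cos y)
  exact this.deriv
theorem du_y (t x y : ℝ) : deriv (fun s => uu t x s) y = -(sin x * sin y) := by
  have : HasDerivAt (fun s => uu t x s) (sin x * (-sin y)) y := (hasDerivAt_cos y).const_mul (sin x)
  rw [this.deriv]; ring
theorem dv_x (t x y : ℝ) : deriv (fun s => vv t s y) x = sin x * sin y := by
  have : HasDerivAt (fun s => vv t s y) (-(-sin x * sin y)) x := ((hasDerivAt_cos x).mul_const (sin y)).neg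
  rw [this.deriv]; ring
theorem dv_y (t x y : ℝ) : deriv (fun s => vv t x s) y = -(cos x * cos y) := by
  have : HasDerivAt (fun s => vv t x s) (-(cos x * cos y)) y := ((hasDerivAt_sin y).const_mul (cos x)).neg
  rw [this.deriv]
theorem dp_x (t x y : ℝ) : deriv (fun s => pp t s y) x = -(sin x * cos x) := by
  have : HasDerivAt (fun s => pp t s y) (-((2 * sin x * cos x) / 2)) x := by
    have h := ((((hasDerivAt_sin x).pow 2).add_const (sin y ^ 2)).div_const 2).neg
    refine h.congr_deriv ?_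
    push_cast; ring
  rw [this.deriv]; ring
theorem dp_y (t x y : ℝ) : deriv (fun s => pp t x s) y = -(sin y * cos y) := by
  have : HasDerivAt (fun s => pp t x s) (-((2 * sin y * cos y) / 2)) y := by
    have h := ((((hasDerivAt_sin y).pow 2).const_add (sin x ^ 2)).div_const 2).neg
    refine h.congr_deriv ?_
    push_cast; ring
  rw [this.deriv]; ring
theorem dt_0 (f : ℝ → ℝ → ℝ) (t x y : ℝ) : deriv (fun _s : ℝ => f x y) t = 0 := by simp

theorem cellular : IsEuler uu vv pp := by
  have habs : ∀ a b : ℝ, |a| ≤ 1 → |b| ≤ 1 → |a * b| ≤ 1 := fun a b ha hb => by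
    rw [abs_mul]; exact mul_le_one₀ ha (abs_nonneg _) hb
  refine ⟨?_, ⟨?_, ?_, ?_⟩, ?_, ?_, ?_, ⟨1, ?_⟩⟩
  · intro t x y
    simp only [uu, vv, pp, sin_add_two_pi, cos_add_two_pi, and_self]
  · unfold uu; fun_prop
  · unfold vv; fun_prop
  · unfold pp; fun_prop
  · intro t x y _
    rw [du_x, du_y, dp_x]
    have : deriv (fun s => uu s x y) t = 0 := by unfold uu; simp
    rw [this]
    unfold uu vv
    have h1 := sin_sq_add_cos_sq y
    linear_combination (sin x * cos x) * h1
  · intro t x y _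
    rw [dv_x, dv_y, dp_y]
    have : deriv (fun s => vv s x y) t = 0 := by unfold vv; simp
    rw [this]
    unfold uu vv
    have h1 := sin_sq_add_cos_sq x
    linear_combination (sin y * cos y) * h1
  · intro t x y _
    rw [du_x, dv_y]; ring
  · intro t x y _
    rw [du_x, du_y, dv_x, dv_y]
    unfold uu vv
    refine ⟨habs _ _ (abs_sin_le_one x) (abs_cos_le_one y), ?_, habs _ _ (abs_cos_le_one x) (abs_cos_le_one y), ?_,
      habs _ _ (abs_sin_le_one x) (abs_sin_le_one y), ?_⟩
    · rw [abs_neg]; exact habs _ _ (abs_cos_le_one x) (abs_sin_le_one y)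
    · rw [abs_neg]; exact habs _ _ (abs_sin_le_one x) (abs_sin_le_one y)
    · rw [abs_neg]; exact habs _ _ (abs_cos_le_one x) (abs_cos_le_one y)

/-- base points -/
noncomputable def bp (k : ℕ) : ℝ := 1 - 1 / ((k : ℝ) + 1)
noncomputable def Zs : Set ℝ := range bp
noncomputable def mp (k : ℕ) : ℝ := (bp k + bp (k + 1)) / 2
noncomputable def dl (k : ℕ) : ℝ := 1 / (2 * ((k : ℝ) + 1) * ((k : ℝ) + 2))

theorem bp_mono {j k : ℕ} (h : j ≤ k) : bp j ≤ bp k := by
  unfold bp
  have : (1 : ℝ) / ((k : ℝ) + 1) ≤ 1 / ((j : ℝ) + 1) := by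
    apply one_div_le_one_div_of_le (by positivity)
    have : (j : ℝ) ≤ k := by exact_mod_cast h
    linarith
  linarith

theorem bp_diff (k : ℕ) : bp (k + 1) - bp k = 2 * dl k := by
  unfold bp dl
  push_cast
  field_simp
  ring

theorem dl_pos (k : ℕ) : 0 < dl k := by unfold dl; positivity

theorem bp_mem (k : ℕ) : bp k ∈ Icc (0:ℝ) 1 := by
  constructor
  · unfold bp
    have : (1:ℝ) / ((k:ℝ) + 1) ≤ 1 := by
      rw [div_le_one (by positivity)]
      have : (0:ℝ) ≤ k := Nat.cast_nonneg k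
      linarith
    linarith
  · unfold bp
    have : (0:ℝ) < 1 / ((k:ℝ) + 1) := by positivity
    linarith

theorem infDist_mp (k : ℕ) : Metric.infDist (mp k) Zs = dl k := by
  have hd := bp_diff k
  have hp := dl_pos k
  apply le_antisymm
  · refine (Metric.infDist_le_dist_of_mem (mem_range_self k)).trans (le_of_eq ?_)
    rw [Real.dist_eq]
    have : mp k - bp k = dl k := by unfold mp; linarith
    rw [this, abs_of_pos hp]
  · show dl k ≤ Metric.infDist (mp k) (range bp)
    rw [Metric.le_infDist (range_nonempty bp)]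
    rintro _ ⟨i, rfl⟩
    rw [Real.dist_eq]
    rcases Nat.lt_or_ge k i with h | h
    · have := bp_mono (show k + 1 ≤ i from h)
      have h2 : mp k - bp i ≤ -(dl k) := by unfold mp; linarith
      rw [abs_of_nonpos (by linarith)]; linarith
    · have := bp_mono h
      have h2 : dl k ≤ mp k - bp i := by unfold mp; linarith
      exact h2.trans (le_abs_self _)

theorem infDist_bp (k : ℕ) : Metric.infDist (bp k) Zs = 0 := Metric.infDist_zero_of_mem (mem_range_self k)

/-- the curve: a graph over a segment of the y-axis with infinitely many teeth -/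
noncomputable def lc (s : ℝ) : ℂ := ⟨Metric.infDist s Zs, 1 - s⟩

theorem lc_lip : LipschitzWith 2 lc := by
  apply LipschitzWith.of_dist_le_mul
  intro s r
  rw [Complex.dist_eq]
  refine (Complex.norm_le_abs_re_add_abs_im _).trans ?_
  have h1 : |(lc s - lc r).re| ≤ dist s r := by
    have := (Metric.lipschitz_infDist_pt Zs).dist_le_mul s r
    simpa [lc, Real.dist_eq] using! this
  have h2 : |(lc s - lc r).im| ≤ dist s r := by
    have : (lc s - lc r).im = -(s - r) := by simp [lc]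
    rw [this, abs_neg, Real.dist_eq]
  push_cast
  linarith

theorem lc_inj : Function.Injective lc := by
  intro s r h
  have := congrArg Complex.im h
  simp only [lc] at this
  linarith

section flow
variable {Φ : ℝ → ℂ → ℂ} (hΦ : IsFlow uu vv Φ)
include hΦ

theorem flow_re (z : ℂ) (t : ℝ) (ht : 0 ≤ t) :
    HasDerivWithinAt (fun s => (Φ s z).re) (sin (Φ t z).re * cos (Φ t z).im) (Ici 0) t := by
  have h := (hΦ z).2 t ht
  exact Complex.reCLM.hasFDerivAt.comp_hasDerivWithinAt t h

theorem flow_im (z : ℂ) (t : ℝ) (ht : 0 ≤ t) :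
    HasDerivWithinAt (fun s => (Φ s z).im) (-(cos (Φ t z).re * sin (Φ t z).im)) (Ici 0) t := by
  have h := (hΦ z).2 t ht
  exact Complex.imCLM.hasFDerivAt.comp_hasDerivWithinAt t h

theorem tooth (t : ℝ) (ht : 0 ≤ t) (k : ℕ) (hk : exp (t / 2) ≤ (k : ℝ) + 1) :
    dl k * exp t * exp (-1) ≤ dist (Φ t (lc (bp k))) (Φ t (lc (mp k))) := by
  have hbase : (Φ t (lc (bp k))).re = 0 := by
    apply X_zero (X := fun s => (Φ s (lc (bp k))).re) (Y := fun s => (Φ s (lc (bp k))).im) (fun s hs => flow_re hΦ _ s hs) _ t ht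
    show (Φ 0 (lc (bp k))).re = 0
    rw [(hΦ _).1]
    exact infDist_bp k
  have h0re : (Φ 0 (lc (mp k))).re = dl k := by rw [(hΦ _).1]; exact infDist_mp k
  have h0im : (Φ 0 (lc (mp k))).im = 1 - mp k := by rw [(hΦ _).1]; rfl
  have hk1 : (0:ℝ) < (k:ℝ) + 1 := by positivity
  have hy1 : 0 ≤ 1 - mp k := by
    have h1 := (bp_mem k).2
    have h2 := (bp_mem (k+1)).2
    unfold mp; linarith
  have hy2 : 1 - mp k ≤ 1 / ((k:ℝ) + 1) := by
    have := bp_mono (Nat.le_succ k)
    have e : 1 - bp k = 1 / ((k:ℝ) + 1) := by unfold bp; ring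
    unfold mp
    have h3 : bp k ≤ bp (k + 1) := this
    linarith
  have hexp : exp t ≤ ((k:ℝ) + 1) ^ 2 := by
    have : exp t = (exp (t / 2)) ^ 2 := by rw [← exp_nat_mul]; congr 1; push_cast; ring
    rw [this]
    exact pow_le_pow_left₀ (exp_pos _).le hk 2
  have hsm : dl k * exp t ≤ 1 / 2 := by
    have h1 : dl k ≤ 1 / (2 * ((k:ℝ) + 1) ^ 2) := by
      unfold dl
      apply one_div_le_one_div_of_le (by positivity)
      nlinarith
    calc dl k * exp t ≤ 1 / (2 * ((k:ℝ) + 1) ^ 2) * ((k:ℝ) + 1) ^ 2 := by gcongr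
      _ = 1 / 2 := by field_simp
  have hy3 : (1 - mp k) ^ 2 ≤ 1 / ((k:ℝ) + 1) ^ 2 := by
    have := pow_le_pow_left₀ hy1 hy2 2
    rwa [div_pow, one_pow] at this
  have hy4 : (1 - mp k) ^ 2 * t ≤ 1 := by
    have h1 : t ≤ ((k:ℝ) + 1) ^ 2 := by
      have := Real.add_one_le_exp t
      linarith
    calc (1 - mp k) ^ 2 * t ≤ 1 / ((k:ℝ) + 1) ^ 2 * ((k:ℝ) + 1) ^ 2 := by gcongr
      _ = 1 := by field_simp
  have hkey := key (X := fun s => (Φ s (lc (mp k))).re) (Y := fun s => (Φ s (lc (mp k))).im)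
    (fun s hs => flow_re hΦ _ s hs) (fun s hs => flow_im hΦ _ s hs) (by
      show 0 < (Φ 0 (lc (mp k))).re
      rw [h0re]; exact dl_pos k) t ht (by
      show (Φ 0 (lc (mp k))).re * exp t ≤ 1 / 2
      rw [h0re]; exact hsm) (by
      show (Φ 0 (lc (mp k))).im ^ 2 / 2 ≤ 1
      rw [h0im]
      have : (1 - mp k) ^ 2 ≤ 1 := by
        refine hy3.trans ?_
        rw [div_le_one (by positivity)]
        nlinarith [show (0:ℝ) ≤ k from Nat.cast_nonneg k]
      linarith)
  simp only [h0re, h0im] at hkey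
  have h5 : dl k * exp t * exp (-1) ≤ (Φ t (lc (mp k))).re := by
    refine le_trans ?_ hkey
    rw [mul_assoc, ← exp_add]
    apply mul_le_mul_of_nonneg_left _ (dl_pos k).le
    apply exp_le_exp.2
    linarith
  refine h5.trans ?_
  rw [Complex.dist_eq]
  refine le_trans ?_ (Complex.abs_re_le_norm _)
  rw [Complex.sub_re, hbase, zero_sub, abs_neg]
  exact le_abs_self _

theorem length_ge (t : ℝ) (ht : 0 ≤ t) :
    ENNReal.ofReal (exp (-1) / 48 * exp (1 / 2 * t)) ≤ eVariationOn (fun s => Φ t (lc s)) (Icc 0 1) := by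
  set K : ℕ := ⌈exp (t / 2)⌉₊ with hK
  have hK1 : exp (t / 2) ≤ K := Nat.le_ceil _
  have hK2 : (K : ℝ) < exp (t / 2) + 1 := Nat.ceil_lt_add_one (exp_pos _).le
  have he1 : 1 ≤ exp (t / 2) := Real.one_le_exp (by linarith)
  set e0 : ℝ := exp (-1) / 48 with he0
  have he0p : 0 < e0 := by rw [he0]; positivity
  have hsum : ∀ n : ℕ, n ≤ K → (n : ℝ≥0∞) * ENNReal.ofReal e0 ≤ eVariationOn (fun s => Φ t (lc s)) (Icc (bp K) (bp (K + n))) := by
    intro n
    induction n with
    | zero => intro _; simp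
    | succ n ih =>
      intro hn
      have h1 := ih (by omega)
      have hab : bp K ≤ bp (K + n) := bp_mono (by omega)
      have hbc : bp (K + n) ≤ bp (K + (n + 1)) := bp_mono (by omega)
      have h2 := eVariationOn.Icc_add_Icc (fun s => Φ t (lc s)) (s := Set.univ) hab hbc (mem_univ _)
      simp only [univ_inter] at h2
      rw [← h2]
      push_cast
      rw [add_mul, one_mul]
      apply add_le_add h1
      have hk : exp (t / 2) ≤ ((K + n : ℕ) : ℝ) + 1 := by
        push_cast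
        have : (0:ℝ) ≤ n := Nat.cast_nonneg n
        linarith
      have h3 := tooth hΦ t ht (K + n) hk
      have h4 : e0 ≤ dl (K + n) * exp t * exp (-1) := by
        have hexp : exp t = (exp (t / 2)) ^ 2 := by rw [← exp_nat_mul]; congr 1; push_cast; ring
        have hn' : ((n:ℝ)) + 1 ≤ K := by exact_mod_cast hn
        have h5 : (K:ℝ) ≤ 2 * exp (t / 2) := by linarith
        have hKn : ((K + n : ℕ) : ℝ) + 1 ≤ 2 * K := by push_cast; linarith
        have hKn2 : ((K + n : ℕ) : ℝ) + 2 ≤ 3 * K := by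
          push_cast
          have : (1:ℝ) ≤ K := by linarith
          linarith
        have h6 : 2 * (((K + n : ℕ) : ℝ) + 1) * (((K + n : ℕ) : ℝ) + 2) ≤ 48 * exp t := by
          rw [hexp]
          calc 2 * (((K + n : ℕ) : ℝ) + 1) * (((K + n : ℕ) : ℝ) + 2) ≤ 2 * (2 * K) * (3 * K) := by gcongr
            _ = 12 * (K:ℝ) ^ 2 := by ring
            _ ≤ 12 * (2 * exp (t / 2)) ^ 2 := by gcongr
            _ = 48 * exp (t / 2) ^ 2 := by ring
        have h7 : 1 / (48 * exp t) ≤ dl (K + n) := by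
          unfold dl
          exact one_div_le_one_div_of_le (by positivity) h6
        calc e0 = 1 / (48 * exp t) * exp t * exp (-1) := by
              rw [he0]; field_simp
          _ ≤ dl (K + n) * exp t * exp (-1) := by gcongr
      have hmem1 : bp (K + n) ∈ Icc (bp (K + n)) (bp (K + (n + 1))) := left_mem_Icc.2 hbc
      have hmem2 : mp (K + n) ∈ Icc (bp (K + n)) (bp (K + (n + 1))) := by
        have : bp (K + n) ≤ bp (K + n + 1) := hbc
        constructor
        · unfold mp; linarith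
        · show mp (K + n) ≤ bp (K + n + 1)
          unfold mp; linarith
      have h8 := eVariationOn.edist_le (fun s => Φ t (lc s)) hmem1 hmem2
      refine le_trans ?_ h8
      rw [edist_dist]
      apply ENNReal.ofReal_le_ofReal
      exact h4.trans h3
  have h9 := hsum K le_rfl
  have h10 : eVariationOn (fun s => Φ t (lc s)) (Icc (bp K) (bp (K + K))) ≤ eVariationOn (fun s => Φ t (lc s)) (Icc 0 1) :=
    eVariationOn.mono _ (Icc_subset_Icc (bp_mem K).1 (bp_mem (K + K)).2)
  refine le_trans ?_ (h9.trans h10)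
  have e1 : (K : ℝ≥0∞) = ENNReal.ofReal (K : ℝ) := (ENNReal.ofReal_natCast K).symm
  rw [e1, ← ENNReal.ofReal_mul (Nat.cast_nonneg K)]
  apply ENNReal.ofReal_le_ofReal
  rw [mul_comm, show (1:ℝ) / 2 * t = t / 2 by ring]
  exact mul_le_mul_of_nonneg_right hK1 he0p.le

end flow

end Pool.Agent.H24.Eul
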