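import Pool.Agent.H24.EulB

set_option autoImplicit false

namespace Pool.Agent.H24.Eul

open Real Set
open scoped ENNReal NNReal

noncomputable def VF (z : ℂ) : ℂ := ⟨sin z.re * cos z.im, -(cos z.re * sin z.im)⟩

theorem VF_bound (z : ℂ) : ‖VF z‖ ≤ 2 := by
  have habs : ∀ a b : ℝ, |a| ≤ 1 → |b| ≤ 1 → |a * b| ≤ 1 := fun a b ha hb => by
    rw [abs_mul]; exact mul_le_one₀ ha (abs_nonneg _) hb
  refine (Complex.norm_le_abs_re_add_abs_im _).trans ?_
  have h1 : |(VF z).re| ≤ 1 := habs _ _ (abs_sin_le_one _) (abs_cos_le_one _)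
  have h2 : |(VF z).im| ≤ 1 := by
    show |-(cos z.re * sin z.im)| ≤ 1
    rw [abs_neg]; exact habs _ _ (abs_cos_le_one _) (abs_sin_le_one _)
  linarith

theorem sin_lip (a b : ℝ) : |sin a - sin b| ≤ |a - b| := by
  have h := Real.sin_sub_sin a b
  rw [h, abs_mul, abs_mul]
  have h1 : |sin ((a - b) / 2)| ≤ |(a - b) / 2| := Real.abs_sin_le_abs
  have h2 : |cos ((a + b) / 2)| ≤ 1 := abs_cos_le_one _
  have h3 : |(2:ℝ)| = 2 := by norm_num
  have h4 : |(a - b) / 2| = |a - b| / 2 := by rw [abs_div, h3]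
  rw [h3]
  rw [h4] at h1
  nlinarith [abs_nonneg (sin ((a - b) / 2)), abs_nonneg (cos ((a + b) / 2)), abs_nonneg (a - b)]

theorem cos_lip (a b : ℝ) : |cos a - cos b| ≤ |a - b| := by
  have h := sin_lip (π / 2 - a) (π / 2 - b)
  rw [Real.sin_pi_div_two_sub, Real.sin_pi_div_two_sub] at h
  have e : π / 2 - a - (π / 2 - b) = -(a - b) := by ring
  rwa [e, abs_neg] at h

theorem VF_lip : LipschitzWith 4 VF := by
  apply LipschitzWith.of_dist_le_mul
  intro z w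
  rw [Complex.dist_eq, Complex.dist_eq]
  refine (Complex.norm_le_abs_re_add_abs_im _).trans ?_
  have hre : |z.re - w.re| ≤ ‖z - w‖ := by
    have := Complex.abs_re_le_norm (z - w); rwa [Complex.sub_re] at this
  have him : |z.im - w.im| ≤ ‖z - w‖ := by
    have := Complex.abs_im_le_norm (z - w); rwa [Complex.sub_im] at this
  have prod : ∀ a b c e : ℝ, |b| ≤ 1 → |c| ≤ 1 → |a * b - c * e| ≤ |a - c| + |b - e| := by
    intro a b c e hb hc
    have : a * b - c * e = (a - c) * b + c * (b - e) := by ring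
    rw [this]
    refine (abs_add_le _ _).trans ?_
    rw [abs_mul, abs_mul]
    have h1 : |a - c| * |b| ≤ |a - c| * 1 := mul_le_mul_of_nonneg_left hb (abs_nonneg _)
    have h2 : |c| * |b - e| ≤ 1 * |b - e| := mul_le_mul_of_nonneg_right hc (abs_nonneg _)
    linarith
  have h1 : |(VF z - VF w).re| ≤ 2 * ‖z - w‖ := by
    have e : (VF z - VF w).re = sin z.re * cos z.im - sin w.re * cos w.im := rfl
    rw [e]
    refine (prod _ _ _ _ (abs_cos_le_one _) (abs_sin_le_one _)).trans ?_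
    have := sin_lip z.re w.re
    have := cos_lip z.im w.im
    linarith
  have h2 : |(VF z - VF w).im| ≤ 2 * ‖z - w‖ := by
    have e : (VF z - VF w).im = -(cos z.re * sin z.im - cos w.re * sin w.im) := by
      show -(cos z.re * sin z.im) - -(cos w.re * sin w.im) = _
      ring
    rw [e, abs_neg]
    refine (prod _ _ _ _ (abs_sin_le_one _) (abs_cos_le_one _)).trans ?_
    have := cos_lip z.re w.re
    have := sin_lip z.im w.im
    linarith
  push_cast
  linarith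

theorem sol (z : ℂ) (n : ℕ) : ∃ α : ℝ → ℂ, α 0 = z ∧
    ∀ t ∈ Icc (0:ℝ) n, HasDerivWithinAt α (VF (α t)) (Icc 0 n) t := by
  have hn : (0:ℝ) ≤ n := Nat.cast_nonneg n
  have hPL : IsPicardLindelof (fun _ : ℝ => VF) (tmin := 0) (tmax := (n:ℝ)) ⟨0, left_mem_Icc.2 hn⟩ z
      (2 * (n : ℝ≥0)) 0 2 4 := by
    refine ⟨fun t _ => VF_lip.lipschitzOnWith, fun x _ => continuousOn_const, fun t _ x _ => ?_, ?_⟩
    · exact VF_bound x
    · show ((2 : ℝ≥0) : ℝ) * max ((n:ℝ) - 0) (0 - 0) ≤ ((2 * (n : ℝ≥0) : ℝ≥0) : ℝ) - ((0 : ℝ≥0) : ℝ)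
      rw [sub_zero, sub_zero, max_eq_left hn]
      push_cast
      linarith
  obtain ⟨α, h1, h2⟩ := hPL.exists_eq_forall_mem_Icc_hasDerivWithinAt₀
  exact ⟨α, h1, h2⟩

noncomputable def sl (z : ℂ) (n : ℕ) : ℝ → ℂ := (sol z n).choose
theorem sl_0 (z : ℂ) (n : ℕ) : sl z n 0 = z := (sol z n).choose_spec.1
theorem sl_d (z : ℂ) (n : ℕ) : ∀ t ∈ Icc (0:ℝ) n, HasDerivWithinAt (sl z n) (VF (sl z n t)) (Icc 0 n) t := (sol z n).choose_spec.2

theorem sl_agree (z : ℂ) (n m : ℕ) (hnm : n ≤ m) (t : ℝ) (ht : t ∈ Icc (0:ℝ) n) : sl z n t = sl z m t := by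
  have hnm' : (n:ℝ) ≤ m := by exact_mod_cast hnm
  have h := ODE_solution_unique_of_mem_Icc_right (v := fun _ : ℝ => VF) (s := fun _ : ℝ => (Set.univ : Set ℂ)) (K := 4)
    (f := sl z n) (g := sl z m) (a := 0) (b := (n:ℝ))
    (fun t _ => VF_lip.lipschitzOnWith)
    (fun t ht => (sl_d z n t ht).continuousWithinAt)
    (fun t ht => (sl_d z n t ⟨ht.1, ht.2.le⟩).mono_of_mem_nhdsWithin (by
      refine Filter.mem_of_superset (Filter.inter_mem self_mem_nhdsWithin (mem_nhdsWithin_of_mem_nhds (Iic_mem_nhds ht.2))) ?_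
      rintro s ⟨h1, h2⟩
      exact ⟨ht.1.trans h1, h2⟩))
    (fun _ _ => trivial)
    (fun t ht => ((sl_d z m t ⟨ht.1, ht.2.trans hnm'⟩).continuousWithinAt).mono (Icc_subset_Icc_right hnm'))
    (fun t ht => (sl_d z m t ⟨ht.1, ht.2.le.trans hnm'⟩).mono_of_mem_nhdsWithin (by
      refine Filter.mem_of_superset (Filter.inter_mem self_mem_nhdsWithin (mem_nhdsWithin_of_mem_nhds (Iic_mem_nhds (ht.2.trans_le hnm')))) ?_
      rintro s ⟨h1, h2⟩
      exact ⟨ht.1.trans h1, h2⟩))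
    (fun _ _ => trivial)
    (by rw [sl_0, sl_0])
  exact h ht

theorem flow_exists : ∃ Φ : ℝ → ℂ → ℂ, IsFlow uu vv Φ := by
  refine ⟨fun t z => sl z (⌈t⌉₊ + 1) t, fun z => ⟨sl_0 _ _, fun t ht => ?_⟩⟩
  set N := ⌈t⌉₊ + 1 with hN
  have htN : t < N := by
    rw [hN]; push_cast
    have := Nat.le_ceil t
    linarith
  have hag : ∀ s ∈ Icc (0:ℝ) N, sl z (⌈s⌉₊ + 1) s = sl z N s := by
    intro s hs
    have hs1 : s ≤ ((⌈s⌉₊ + 1 : ℕ) : ℝ) := by
      push_cast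
      have := Nat.le_ceil s
      linarith
    rcases le_total (⌈s⌉₊ + 1) N with h | h
    · exact sl_agree z _ _ h s ⟨hs.1, hs1⟩
    · exact (sl_agree z _ _ h s hs).symm
  have h1 := (sl_d z N t ⟨ht, htN.le⟩).congr hag (hag t ⟨ht, htN.le⟩)
  have hmem : Icc (0:ℝ) N ∈ nhdsWithin t (Ici 0) := by
    refine Filter.mem_of_superset (Filter.inter_mem self_mem_nhdsWithin (mem_nhdsWithin_of_mem_nhds (Iic_mem_nhds htN))) ?_
    rintro s ⟨h1, h2⟩
    exact ⟨h1, h2⟩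
  have h2 := h1.mono_of_mem_nhdsWithin hmem
  exact h2

end Pool.Agent.H24.Eul
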