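import Mathlib

set_option autoImplicit false

universe u

namespace Pool.Agent.H24.FA

open FirstOrder FirstOrder.Language

/-- The operation symbols of the signature `L_1` of unital associative `k`-algebras:
`0`, `1`, `-`, `+`, `·` and one unary symbol for multiplication by each scalar of `k`. -/
inductive AlgFn (k : Type u) : ℕ → Type u
  | zero : AlgFn k 0
  | one : AlgFn k 0
  | neg : AlgFn k 1
  | smul (c : k) : AlgFn k 1
  | add : AlgFn k 2
  | mul : AlgFn k 2

/-- The only relation symbol: the unary predicate `P`. -/
inductive AlgRel : ℕ → Type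
  | P : AlgRel 1

/-- The signature `L_1 ∪ {P}`. -/
def algSig (k : Type u) : FirstOrder.Language.{u, 0} := ⟨AlgFn k, AlgRel⟩

/-- The pair `(F, A)` as a first-order structure. -/
@[reducible]
def pairStr (k : Type u) [Field k] (F : Type u) [Ring F] [Algebra k F] (A : Subalgebra k F) :
    (algSig k).Structure F where
  funMap := fun {n} f => match n, f with
    | _, AlgFn.zero => fun _ => 0
    | _, AlgFn.one => fun _ => 1
    | _, AlgFn.neg => fun v => - v 0
    | _, AlgFn.smul c => fun v => c • v 0
    | _, AlgFn.add => fun v => v 0 + v 1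
    | _, AlgFn.mul => fun v => v 0 * v 1
  RelMap := fun {n} r => match n, r with
    | _, AlgRel.P => fun v => v 0 ∈ A

/-- A unital associative `k`-algebra is free if it is isomorphic to the free algebra on some
set. -/
def IsFreeAlg (k : Type u) [Field k] (B : Type u) [Ring B] [Algebra k B] : Prop :=
  ∃ U : Type u, Nonempty (B ≃ₐ[k] FreeAlgebra k U)

/-- The set `T` of sentences axiomatizes `D₀` within `D`: for every free algebra `F` and
subalgebra `A` of `F`, the algebra `A` is free iff `(F, A)` is a model of `T`. -/
def AxiomatizesFreeness (k : Type u) [Field k] (T : (algSig k).Theory) : Prop :=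
  ∀ (F : Type u) [Ring F] [Algebra k F], IsFreeAlg k F → ∀ A : Subalgebra k F,
    (IsFreeAlg k A ↔ ∀ φ ∈ T, @Sentence.Realize (algSig k) F (pairStr k F A) φ)

end Pool.Agent.H24.FA
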