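import Mathlib
import Pool.Agent.H24.FADefs

set_option autoImplicit false

universe u

namespace Pool.Agent.H24.FA

open Polynomial

variable (k : Type u) [Field k]

section defs

variable (M : Type u)

abbrev FF : Type u := FreeAlgebra k (Option M)

noncomputable def yy : FF k M := FreeAlgebra.ι k none
variable {M} in
noncomputable def zz (m : M) : FF k M := FreeAlgebra.ι k (some m)

noncomputable def ev : k[X] →ₐ[k] FF k M := aeval (yy k M)

variable [AddCommGroup M] [Module k[X] M]

def gens : Set (FF k M) :=
  {yy k M} ∪ Set.range (fun m : M => yy k M * zz k m - zz k m * yy k M) ∪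
    Set.range (fun p : M × M => zz k (p.1 + p.2) - zz k p.1 - zz k p.2) ∪
    Set.range (fun p : k[X] × M => zz k (p.1 • p.2) - ev k M p.1 * zz k p.2)

noncomputable def AA : Subalgebra k (FF k M) := Algebra.adjoin k (gens k M)

lemma yy_mem : yy k M ∈ AA k M := Algebra.subset_adjoin (Or.inl (Or.inl (Or.inl rfl)))

variable {M} in
lemma comm_mem (m : M) : yy k M * zz k m - zz k m * yy k M ∈ AA k M :=
  Algebra.subset_adjoin (Or.inl (Or.inl (Or.inr ⟨m, rfl⟩)))

variable {M} in
lemma add_mem' (m m' : M) : zz k (m + m') - zz k m - zz k m' ∈ AA k M :=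
  Algebra.subset_adjoin (Or.inl (Or.inr ⟨(m, m'), rfl⟩))

variable {M} in
lemma smul_mem' (r : k[X]) (m : M) : zz k (r • m) - ev k M r * zz k m ∈ AA k M :=
  Algebra.subset_adjoin (Or.inr ⟨(r, m), rfl⟩)

lemma ev_mem (r : k[X]) : ev k M r ∈ AA k M := by
  have h : Algebra.adjoin k {yy k M} ≤ AA k M := by
    apply Algebra.adjoin_le
    intro x hx
    rw [Set.mem_singleton_iff] at hx
    rw [hx]
    exact yy_mem k M
  exact h (aeval_mem_adjoin_singleton k _)

end defs

section free

variable {M : Type u} [AddCommGroup M] [Module k[X] M] {I : Type u} (b : Module.Basis I k[X] M)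

noncomputable def sig (m : M) : FF k M := (b.repr m).sum (fun i p => ev k M p * zz k (b i))

lemma sig_add (m m' : M) : sig k b (m + m') = sig k b m + sig k b m' := by
  unfold sig
  rw [map_add]
  apply Finsupp.sum_add_index'
  · intro i; simp
  · intro i p q; rw [map_add, add_mul]

lemma sig_zero : sig k b 0 = 0 := by
  unfold sig
  simp

lemma sig_smul (r : k[X]) (m : M) : sig k b (r • m) = ev k M r * sig k b m := by
  unfold sig
  rw [map_smul, Finsupp.sum_smul_index (fun i => by simp), Finsupp.mul_sum]
  apply Finsupp.sum_congr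
  intro i _
  rw [map_mul, mul_assoc]

lemma sig_basis (i : I) : sig k b (b i) = zz k (b i) := by
  unfold sig
  rw [Module.Basis.repr_self, Finsupp.sum_single_index (by simp)]
  simp

/-- the free generators -/
abbrev Gen (b : Module.Basis I k[X] M) : Type u := Option (I ⊕ {m : M // m ∉ Set.range b})

noncomputable def thf : Gen k b → FF k M
  | none => yy k M
  | some (Sum.inl i) => yy k M * zz k (b i) - zz k (b i) * yy k M
  | some (Sum.inr m) => zz k m.1 - sig k b m.1

noncomputable def theta : FreeAlgebra k (Gen k b) →ₐ[k] FF k M := FreeAlgebra.lift k (thf k b)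

lemma range_le : (theta k b).range ≤ AA k M := by
  unfold theta
  rw [← Algebra.adjoin_range_eq_range_freeAlgebra_lift]
  apply Algebra.adjoin_le
  have hw : ∀ m : M, zz k m - sig k b m ∈ AA k M := by
    intro m
    have hm : m ∈ Submodule.span k[X] (Set.range b) := by
      rw [b.span_eq]
      trivial
    induction hm using Submodule.span_induction with
    | mem x hx =>
      obtain ⟨i, rfl⟩ := hx
      rw [sig_basis, sub_self]
      exact Subalgebra.zero_mem _
    | zero =>
      rw [sig_zero, sub_zero]
      have := smul_mem' k (0 : k[X]) (0 : M)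
      rw [map_zero, zero_mul, sub_zero, zero_smul] at this
      exact this
    | add x y _ _ hx hy =>
      rw [sig_add]
      have e : zz k (x + y) - (sig k b x + sig k b y) = (zz k (x + y) - zz k x - zz k y) +
          (zz k x - sig k b x) + (zz k y - sig k b y) := by abel
      rw [e]
      exact Subalgebra.add_mem _ (Subalgebra.add_mem _ (add_mem' k x y) hx) hy
    | smul r x _ hx =>
      rw [sig_smul]
      have e : zz k (r • x) - ev k M r * sig k b x = (zz k (r • x) - ev k M r * zz k x) +
          ev k M r * (zz k x - sig k b x) := by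
        rw [mul_sub]
        abel
      rw [e]
      exact Subalgebra.add_mem _ (smul_mem' k r x) (Subalgebra.mul_mem _ (ev_mem k M r) hx)
  rintro x ⟨g, rfl⟩
  rcases g with _ | i | m
  · exact yy_mem k M
  · exact comm_mem k (b i)
  · exact hw m.1

lemma theta_none : theta k b (FreeAlgebra.ι k none) = yy k M := FreeAlgebra.lift_ι_apply _ _

lemma ev_range (r : k[X]) : ev k M r ∈ (theta k b).range :=
  ⟨aeval (FreeAlgebra.ι k none) r, by
    change (theta k b) (aeval (FreeAlgebra.ι k none) r) = _
    rw [← aeval_algHom_apply, theta_none]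
    rfl⟩

lemma w_range (m : M) : zz k m - sig k b m ∈ (theta k b).range := by
  by_cases h : m ∈ Set.range b
  · obtain ⟨i, rfl⟩ := h
    rw [sig_basis, sub_self]
    exact Subalgebra.zero_mem _
  · exact ⟨FreeAlgebra.ι k (some (Sum.inr ⟨m, h⟩)), FreeAlgebra.lift_ι_apply _ _⟩

lemma le_range : AA k M ≤ (theta k b).range := by
  have hy : yy k M ∈ (theta k b).range := ⟨_, theta_none k b⟩
  apply Algebra.adjoin_le
  rintro x (((rfl | ⟨m, rfl⟩) | ⟨⟨m, m'⟩, rfl⟩) | ⟨⟨r, m⟩, rfl⟩)
  · exact hy
  · simp only
    have e1 : yy k M * zz k m - zz k m * yy k M =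
        (yy k M * (zz k m - sig k b m) - (zz k m - sig k b m) * yy k M) +
        (yy k M * sig k b m - sig k b m * yy k M) := by
      rw [mul_sub, sub_mul]
      abel
    have e2 : yy k M * sig k b m - sig k b m * yy k M =
        (b.repr m).sum (fun i p => ev k M p * (yy k M * zz k (b i) - zz k (b i) * yy k M)) := by
      unfold sig
      rw [Finsupp.mul_sum, Finsupp.sum_mul, ← Finsupp.sum_sub]
      apply Finsupp.sum_congr
      intro i _
      have hc : yy k M * ev k M (b.repr m i) = ev k M (b.repr m i) * yy k M := by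
        have h1 : ev k M X = yy k M := aeval_X _
        rw [← h1, ← map_mul, ← map_mul, mul_comm]
      rw [mul_sub, ← mul_assoc, hc, mul_assoc, mul_assoc]
    rw [e1, e2]
    refine Subalgebra.add_mem _ (Subalgebra.sub_mem _ (Subalgebra.mul_mem _ hy (w_range k b m))
      (Subalgebra.mul_mem _ (w_range k b m) hy)) ?_
    apply Subalgebra.sum_mem
    intro i _
    refine Subalgebra.mul_mem _ (ev_range k b _) ?_
    exact ⟨FreeAlgebra.ι k (some (Sum.inl i)), FreeAlgebra.lift_ι_apply _ _⟩
  · simp only
    have e : zz k (m + m') - zz k m - zz k m' = (zz k (m + m') - sig k b (m + m')) -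
        (zz k m - sig k b m) - (zz k m' - sig k b m') := by
      rw [sig_add]
      abel
    rw [e]
    exact Subalgebra.sub_mem _ (Subalgebra.sub_mem _ (w_range k b _) (w_range k b _))
      (w_range k b _)
  · simp only
    have e : zz k (r • m) - ev k M r * zz k m = (zz k (r • m) - sig k b (r • m)) -
        ev k M r * (zz k m - sig k b m) := by
      rw [sig_smul, mul_sub]
      abel
    rw [e]
    exact Subalgebra.sub_mem _ (w_range k b _) (Subalgebra.mul_mem _ (ev_range k b r)
      (w_range k b _))

/-! ### injectivity -/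

abbrev GG (b : Module.Basis I k[X] M) : Type u := FreeAlgebra k (Gen k b)

noncomputable def LL : GG k b →ₐ[k] Module.End k (GG k b) := Algebra.lmul k (GG k b)

noncomputable def Thf (c : GG k b) : Gen k b → Module.End k (GG k b × GG k b)
  | none => LinearMap.prod ((LL k b (FreeAlgebra.ι k none)) ∘ₗ LinearMap.fst k _ _)
      ((LL k b (FreeAlgebra.ι k none)) ∘ₗ LinearMap.snd k _ _ - (LL k b c) ∘ₗ
        LinearMap.fst k _ _)
  | some t => LinearMap.prod ((LL k b (FreeAlgebra.ι k (some t))) ∘ₗ LinearMap.fst k _ _) 0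

noncomputable def Th (c : GG k b) : GG k b →ₐ[k] Module.End k (GG k b × GG k b) :=
  FreeAlgebra.lift k (Thf k b c)

lemma Th_fst (c g : GG k b) : ∀ x : GG k b × GG k b, (Th k b c g x).1 = g * x.1 := by
  induction g using FreeAlgebra.induction with
  | grade0 r =>
    intro x
    rw [AlgHom.commutes, Module.algebraMap_end_apply, Algebra.algebraMap_eq_smul_one, smul_mul_assoc,
      one_mul]
    rfl
  | grade1 t =>
    intro x
    have : Th k b c (FreeAlgebra.ι k t) = Thf k b c t := FreeAlgebra.lift_ι_apply _ _
    rw [this]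
    rcases t with _ | t <;> rfl
  | mul a b' ha hb =>
    intro x
    rw [map_mul, Module.End.mul_apply, ha, hb, mul_assoc]
  | add a b' ha hb =>
    intro x
    rw [map_add, LinearMap.add_apply, Prod.fst_add, ha, hb, add_mul]

noncomputable def zeta (c : GG k b) : Module.End k (GG k b) :=
  (LinearMap.snd k _ _) ∘ₗ (LinearMap.applyₗ ((1, 0) : GG k b × GG k b)) ∘ₗ
    (Th k b c).toLinearMap

lemma zeta_apply (c g : GG k b) : zeta k b c g = (Th k b c g (1, 0)).2 := rfl

lemma zeta_comm (c : GG k b) : LL k b (FreeAlgebra.ι k none) * zeta k b c -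
    zeta k b c * LL k b (FreeAlgebra.ι k none) = LL k b c := by
  apply LinearMap.ext
  intro g
  rw [LinearMap.sub_apply, Module.End.mul_apply, Module.End.mul_apply]
  rw [zeta_apply k b c (LL k b (FreeAlgebra.ι k none) g)]
  have h1 : LL k b (FreeAlgebra.ι k none) g = FreeAlgebra.ι k none * g := rfl
  have h2 : Th k b c (FreeAlgebra.ι k none) = Thf k b c none := FreeAlgebra.lift_ι_apply _ _
  rw [h1, map_mul, Module.End.mul_apply, h2]
  have h3 : (Thf k b c none (Th k b c g (1, 0))).2 =
      LL k b (FreeAlgebra.ι k none) (Th k b c g (1, 0)).2 - LL k b c (Th k b c g (1, 0)).1 := rfl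
  rw [h3, Th_fst, mul_one, ← zeta_apply]
  abel

open Classical in
noncomputable def WW (m : M) : Module.End k (GG k b) :=
  if h : m ∉ Set.range b then LL k b (FreeAlgebra.ι k (some (Sum.inr ⟨m, h⟩))) else 0

noncomputable def SS (m : M) : Module.End k (GG k b) :=
  (b.repr m).sum (fun i p => aeval (LL k b (FreeAlgebra.ι k none)) p *
    zeta k b (FreeAlgebra.ι k (some (Sum.inl i))))

noncomputable def rhf : Option M → Module.End k (GG k b)
  | none => LL k b (FreeAlgebra.ι k none)
  | some m => WW k b m + SS k b m

noncomputable def rho : FF k M →ₐ[k] Module.End k (GG k b) := FreeAlgebra.lift k (rhf k b)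

lemma rho_yy : rho k b (yy k M) = LL k b (FreeAlgebra.ι k none) := FreeAlgebra.lift_ι_apply _ _

lemma rho_zz (m : M) : rho k b (zz k m) = WW k b m + SS k b m := FreeAlgebra.lift_ι_apply _ _

lemma rho_zz_basis (i : I) : rho k b (zz k (b i)) =
    zeta k b (FreeAlgebra.ι k (some (Sum.inl i))) := by
  rw [rho_zz]
  have h1 : WW k b (b i) = 0 := by
    unfold WW
    rw [dif_neg]
    simp
  have h2 : SS k b (b i) = zeta k b (FreeAlgebra.ι k (some (Sum.inl i))) := by
    unfold SS
    rw [Module.Basis.repr_self, Finsupp.sum_single_index (by simp)]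
    simp
  rw [h1, h2, zero_add]

lemma rho_sig (m : M) : rho k b (sig k b m) = SS k b m := by
  unfold sig SS
  rw [map_finsuppSum]
  apply Finsupp.sum_congr
  intro i _
  rw [map_mul, rho_zz_basis]
  congr 1
  unfold ev
  rw [← aeval_algHom_apply, rho_yy]

lemma rho_theta : (rho k b).comp (theta k b) = LL k b := by
  apply FreeAlgebra.hom_ext
  funext t
  change rho k b (theta k b (FreeAlgebra.ι k t)) = LL k b (FreeAlgebra.ι k t)
  have h : theta k b (FreeAlgebra.ι k t) = thf k b t := FreeAlgebra.lift_ι_apply _ _
  rw [h]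
  rcases t with _ | i | m
  · exact rho_yy k b
  · change rho k b (yy k M * zz k (b i) - zz k (b i) * yy k M) = _
    rw [map_sub, map_mul, map_mul, rho_yy, rho_zz_basis, zeta_comm]
  · change rho k b (zz k m.1 - sig k b m.1) = _
    rw [map_sub, rho_sig, rho_zz, add_sub_cancel_right]
    unfold WW
    rw [dif_pos m.2]

lemma theta_inj : Function.Injective (theta k b) := by
  intro x x' h
  have h1 : LL k b x = LL k b x' := by
    rw [← rho_theta]
    change rho k b (theta k b x) = rho k b (theta k b x')
    rw [h]
  have h2 : LL k b x 1 = LL k b x' 1 := by rw [h1]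
  have h3 : ∀ x : GG k b, LL k b x 1 = x := fun x => mul_one x
  rw [h3, h3] at h2
  exact h2

include b in
theorem AA_free : IsFreeAlg k (AA k M) := by
  have h : AA k M = (theta k b).range := le_antisymm (le_range k b) (range_le k b)
  exact ⟨Gen k b, ⟨(Subalgebra.equivOfEq _ _ h).trans
    (AlgEquiv.ofInjective (theta k b) (theta_inj k b)).symm⟩⟩

end free

end Pool.Agent.H24.FA
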