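import Mathlib
import Pool.Agent.H24.FA1

set_option autoImplicit false

universe u

namespace Pool.Agent.H24.FA

open Polynomial

variable (k : Type u) [Field k] (J : Type u)

/-- the product module -/
abbrev PM : Type u := J → k[X]

abbrev TZ : Type u := TrivSqZeroExt k[X] (PM k J)

/-- the action of `z_m` -/
noncomputable def zop (m : PM k J) : Module.End k (TZ k J) where
  toFun x := TrivSqZeroExt.inr (-(derivative x.fst • m))
  map_add' x y := by
    rw [TrivSqZeroExt.fst_add, map_add, add_smul, neg_add, TrivSqZeroExt.inr_add]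
  map_smul' c x := by
    rw [TrivSqZeroExt.fst_smul, derivative_smul, smul_assoc, ← smul_neg, TrivSqZeroExt.inr_smul]
    rfl

noncomputable def LT : TZ k J →ₐ[k] Module.End k (TZ k J) := Algebra.lmul k (TZ k J)

lemma LT_apply (x y : TZ k J) : LT k J x y = x * y := rfl

noncomputable def Pf : Option (PM k J) → Module.End k (TZ k J)
  | none => LT k J (TrivSqZeroExt.inl X)
  | some m => zop k J m

noncomputable def PP : FF k (PM k J) →ₐ[k] Module.End k (TZ k J) := FreeAlgebra.lift k (Pf k J)

lemma PP_yy : PP k J (yy k _) = LT k J (TrivSqZeroExt.inl X) := FreeAlgebra.lift_ι_apply _ _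

lemma PP_zz (m : PM k J) : PP k J (zz k m) = zop k J m := FreeAlgebra.lift_ι_apply _ _

lemma PP_ev (r : k[X]) : PP k J (ev k _ r) = LT k J (TrivSqZeroExt.inl r) := by
  have h : (PP k J).comp (ev k (PM k J)) =
      (LT k J).comp (TrivSqZeroExt.inlAlgHom k k[X] (PM k J)) := by
    apply Polynomial.algHom_ext
    simp only [AlgHom.comp_apply]
    have h1 : ev k (PM k J) X = yy k _ := aeval_X _
    rw [h1, PP_yy]
    rfl
  exact congrArg (fun f => f r) h

lemma zop_apply (m : PM k J) (x : TZ k J) :
    zop k J m x = TrivSqZeroExt.inr (-(derivative x.fst • m)) := rfl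

lemma key_id (m : PM k J) (p : k[X]) (n : PM k J) :
    (X : k[X]) • -(derivative p • m) - -(derivative (X * p) • m) = p • m := by
  rw [derivative_mul, derivative_X, one_mul, add_smul, mul_smul, smul_neg]
  abel

lemma PP_comm (m : PM k J) : PP k J (yy k _ * zz k m - zz k m * yy k _) =
    LT k J (TrivSqZeroExt.inr m) := by
  rw [map_sub, map_mul, map_mul, PP_yy, PP_zz]
  apply LinearMap.ext
  intro x
  rw [LinearMap.sub_apply, Module.End.mul_apply, Module.End.mul_apply, LT_apply, LT_apply,
    LT_apply, zop_apply, zop_apply, TrivSqZeroExt.inl_mul_inr, TrivSqZeroExt.fst_mul,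
    TrivSqZeroExt.fst_inl, ← TrivSqZeroExt.inr_sub, key_id k J m x.fst x.snd]
  apply TrivSqZeroExt.ext
  · rw [TrivSqZeroExt.fst_inr, TrivSqZeroExt.fst_mul, TrivSqZeroExt.fst_inr, zero_mul]
  · rw [TrivSqZeroExt.snd_inr, TrivSqZeroExt.snd_mul, TrivSqZeroExt.fst_inr,
      TrivSqZeroExt.snd_inr, zero_smul, zero_add, op_smul_eq_smul]

lemma PP_mem (a : FF k (PM k J)) (ha : a ∈ AA k (PM k J)) : PP k J a ∈ (LT k J).range := by
  have h : AA k (PM k J) ≤ (LT k J).range.comap (PP k J) := by
    apply Algebra.adjoin_le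
    rintro x (((rfl | ⟨m, rfl⟩) | ⟨⟨m, m'⟩, rfl⟩) | ⟨⟨r, m⟩, rfl⟩)
    · exact ⟨_, (PP_yy k J).symm⟩
    · exact ⟨_, (PP_comm k J m).symm⟩
    · have : PP k J (zz k (m + m') - zz k m - zz k m') = 0 := by
        rw [map_sub, map_sub, PP_zz, PP_zz, PP_zz]
        apply LinearMap.ext
        intro x
        rw [LinearMap.sub_apply, LinearMap.sub_apply]
        change TrivSqZeroExt.inr (-(derivative x.fst • (m + m'))) -
          TrivSqZeroExt.inr (-(derivative x.fst • m)) -
          TrivSqZeroExt.inr (-(derivative x.fst • m')) = 0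
        rw [← TrivSqZeroExt.inr_sub, ← TrivSqZeroExt.inr_sub, smul_add]
        have : -(derivative x.fst • m + derivative x.fst • m') - -(derivative x.fst • m) -
          -(derivative x.fst • m') = 0 := by abel
        rw [this]
        rfl
      change PP k J (zz k (m + m') - zz k m - zz k m') ∈ (LT k J).range
      rw [this]
      exact Subalgebra.zero_mem _
    · have : PP k J (zz k (r • m) - ev k _ r * zz k m) = 0 := by
        rw [map_sub, map_mul, PP_zz, PP_zz, PP_ev]
        apply LinearMap.ext
        intro x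
        rw [LinearMap.sub_apply, Module.End.mul_apply, LT_apply]
        change TrivSqZeroExt.inr (-(derivative x.fst • (r • m))) -
          TrivSqZeroExt.inl r * TrivSqZeroExt.inr (-(derivative x.fst • m)) = 0
        rw [TrivSqZeroExt.inl_mul_inr, ← TrivSqZeroExt.inr_sub, smul_neg, smul_comm]
        rw [sub_self]
        rfl
      change PP k J (zz k (r • m) - ev k _ r * zz k m) ∈ (LT k J).range
      rw [this]
      exact Subalgebra.zero_mem _
  exact h ha

lemma LT_inj : Function.Injective (LT k J) := by
  intro x y h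
  have h2 : LT k J x 1 = LT k J y 1 := by rw [h]
  rw [LT_apply, LT_apply, mul_one, mul_one] at h2
  exact h2

/-- the homomorphism to the trivial extension -/
noncomputable def ppi : AA k (PM k J) →ₐ[k] TZ k J :=
  ((AlgEquiv.ofInjective (LT k J) (LT_inj k J)).symm : _ →ₐ[k] TZ k J).comp
    (((PP k J).comp (AA k (PM k J)).val).codRestrict (LT k J).range
      (fun a => PP_mem k J a.1 a.2))

lemma ppi_spec (a : AA k (PM k J)) (x : TZ k J) (h : PP k J a.1 = LT k J x) : ppi k J a = x := by
  unfold ppi
  simp only [AlgHom.comp_apply]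
  rw [AlgEquiv.coe_toAlgHom, AlgEquiv.symm_apply_eq]
  apply Subtype.ext
  exact h

/-- if `A(R^J)` is free then `R^J` embeds into a free module -/
theorem embed (h : IsFreeAlg k (AA k (PM k J))) :
    ∃ (U : Type u) (Psi : PM k J →ₗ[k[X]] (U →₀ k[X])), Function.Injective Psi := by
  classical
  obtain ⟨U, ⟨φ⟩⟩ := h
  let eps : U → k[X] := fun u => (ppi k J (φ.symm (FreeAlgebra.ι k u))).fst
  let pU : FreeAlgebra k U →ₐ[k] TrivSqZeroExt k[X] (U →₀ k[X]) :=
    FreeAlgebra.lift k (fun u => TrivSqZeroExt.inl (eps u) +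
      TrivSqZeroExt.inr (Finsupp.single u 1))
  let hh : (U →₀ k[X]) →ₗ[k[X]] PM k J :=
    Finsupp.linearCombination k[X] (fun u => (ppi k J (φ.symm (FreeAlgebra.ι k u))).snd)
  have hcomp : ∀ a : AA k (PM k J), TrivSqZeroExt.map hh (pU (φ a)) = ppi k J a := by
    have h1 : (((TrivSqZeroExt.map hh).restrictScalars k).comp pU) =
        (ppi k J).comp (φ.symm : FreeAlgebra k U →ₐ[k] AA k (PM k J)) := by
      apply FreeAlgebra.hom_ext
      funext u
      simp only [Function.comp_apply, AlgHom.comp_apply]
      have h2 : pU (FreeAlgebra.ι k u) = TrivSqZeroExt.inl (eps u) +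
        TrivSqZeroExt.inr (Finsupp.single u 1) := FreeAlgebra.lift_ι_apply _ _
      rw [h2]
      change TrivSqZeroExt.map hh (TrivSqZeroExt.inl (eps u) +
        TrivSqZeroExt.inr (Finsupp.single u 1)) = ppi k J (φ.symm (FreeAlgebra.ι k u))
      rw [map_add, TrivSqZeroExt.map_inl, TrivSqZeroExt.map_inr]
      apply TrivSqZeroExt.ext
      · simp [eps]
      · simp [hh]
    intro a
    have h2 := congrArg (fun f => f (φ a)) h1
    simp only [AlgHom.comp_apply] at h2
    have h3 : (φ.symm : FreeAlgebra k U →ₐ[k] AA k (PM k J)) (φ a) = a := φ.symm_apply_apply a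
    rw [h3] at h2
    exact h2
  -- the commutators
  let cc : PM k J → AA k (PM k J) := fun m => ⟨_, comm_mem k m⟩
  let y' : AA k (PM k J) := ⟨yy k _, yy_mem k _⟩
  have hcc : ∀ m, ppi k J (cc m) = TrivSqZeroExt.inr m := fun m =>
    ppi_spec k J _ _ (PP_comm k J m)
  have hfst : ∀ a : AA k (PM k J), (pU (φ a)).fst = (ppi k J a).fst := by
    intro a
    rw [← hcomp, TrivSqZeroExt.fst_map]
  have hkill : ∀ v : AA k (PM k J), pU (φ (y' * v - v * y')) = 0 := by
    intro v
    rw [map_sub, map_sub, map_mul, map_mul, map_mul, map_mul, mul_comm, sub_self]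
  let Psi : PM k J →ₗ[k[X]] (U →₀ k[X]) :=
    { toFun := fun m => (pU (φ (cc m))).snd
      map_add' := by
        intro m m'
        have e : cc (m + m') = cc m + cc m' + (y' * ⟨_, add_mem' k m m'⟩ -
            ⟨_, add_mem' k m m'⟩ * y') := by
          apply Subtype.ext
          change yy k _ * zz k (m + m') - zz k (m + m') * yy k _ =
            (yy k _ * zz k m - zz k m * yy k _) + (yy k _ * zz k m' - zz k m' * yy k _) +
            (yy k _ * (zz k (m + m') - zz k m - zz k m') -
              (zz k (m + m') - zz k m - zz k m') * yy k _)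
          simp only [mul_sub, sub_mul]
          abel
        rw [e, map_add, map_add, hkill, add_zero, map_add, map_add, TrivSqZeroExt.snd_add]
      map_smul' := by
        intro r m
        let r' : AA k (PM k J) := ⟨ev k _ r, ev_mem k _ r⟩
        have e : cc (r • m) = r' * cc m + (y' * ⟨_, smul_mem' k r m⟩ -
            ⟨_, smul_mem' k r m⟩ * y') := by
          apply Subtype.ext
          change yy k _ * zz k (r • m) - zz k (r • m) * yy k _ =
            ev k _ r * (yy k _ * zz k m - zz k m * yy k _) +
            (yy k _ * (zz k (r • m) - ev k _ r * zz k m) -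
              (zz k (r • m) - ev k _ r * zz k m) * yy k _)
          have hc : yy k (PM k J) * ev k _ r = ev k _ r * yy k _ := by
            have h1 : ev k (PM k J) X = yy k _ := aeval_X _
            rw [← h1, ← map_mul, ← map_mul, mul_comm]
          simp only [mul_sub, sub_mul, ← mul_assoc, hc]
          abel
        have hr : (pU (φ r')).fst = r := by
          rw [hfst, ppi_spec k J r' _ (PP_ev k J r)]
          rfl
        have hc0 : (pU (φ (cc m))).fst = 0 := by
          rw [hfst, hcc]
          rfl
        rw [e, map_add, map_add, hkill, add_zero, map_mul, map_mul, TrivSqZeroExt.snd_mul, hr, hc0]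
        simp }
  refine ⟨U, Psi, ?_⟩
  intro m m' hm
  have h1 : ∀ m, hh (Psi m) = m := by
    intro m
    have h2 := hcomp (cc m)
    rw [hcc] at h2
    have h3 := congrArg TrivSqZeroExt.snd h2
    rw [TrivSqZeroExt.snd_map] at h3
    exact h3
  rw [← h1 m, ← h1 m', hm]

end Pool.Agent.H24.FA
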