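import Mathlib

set_option autoImplicit false

universe u

namespace Pool.Agent.H24.FA

open Polynomial

section embed

variable (k : Type u) [Field k]

abbrev JJ : Type u := ULift.{u} (List Bool)

/-- initial segments -/
def pref (f : ℕ → Bool) (n : ℕ) : List Bool := List.ofFn (fun i : Fin n => f i)

lemma pref_length (f : ℕ → Bool) (n : ℕ) : (pref f n).length = n := List.length_ofFn

lemma pref_inj {f g : ℕ → Bool} {n : ℕ} (h : pref f n = pref g n) : ∀ i < n, f i = g i := by
  intro i hi
  have := List.ofFn_injective h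
  exact congrFun this ⟨i, hi⟩

noncomputable def xx (f : ℕ → Bool) : JJ.{u} → k[X] :=
  fun s => if s.down = pref f s.down.length then X ^ s.down.length else 0

noncomputable def ww (f : ℕ → Bool) (m : ℕ) : JJ.{u} → k[X] :=
  fun s => if s.down = pref f s.down.length ∧ m ≤ s.down.length then X ^ (s.down.length - m)
    else 0

lemma xx_eq (f : ℕ → Bool) (m : ℕ) : xx k f = (∑ n ∈ Finset.range m,
    (X : k[X]) ^ n • Pi.single (M := fun _ : JJ.{u} => k[X]) (ULift.up (pref f n)) (1 : k[X])) +
      (X : k[X]) ^ m • ww k f m := by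
  funext s
  rw [Pi.add_apply, Finset.sum_apply, Pi.smul_apply]
  unfold xx ww
  by_cases hs : s.down = pref f s.down.length
  · by_cases hm : m ≤ s.down.length
    · rw [if_pos hs, if_pos ⟨hs, hm⟩, Finset.sum_eq_zero, zero_add, smul_eq_mul, ← pow_add]
      · congr 1
        omega
      · intro n hn
        rw [Finset.mem_range] at hn
        rw [Pi.smul_apply, Pi.single_apply, if_neg, smul_zero]
        intro h
        have := congrArg (fun s => s.down.length) h
        simp only [pref_length] at this
        omega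
    · rw [if_pos hs, if_neg (fun h => hm h.2), smul_zero, add_zero,
        Finset.sum_eq_single s.down.length]
      · rw [Pi.smul_apply, Pi.single_apply, if_pos, smul_eq_mul, mul_one]
        apply ULift.down_injective
        exact hs
      · intro n _ hn
        rw [Pi.smul_apply, Pi.single_apply, if_neg, smul_zero]
        intro h
        apply hn
        have := congrArg (fun s => s.down.length) h
        simp only [pref_length] at this
        omega
      · intro h
        rw [Finset.mem_range] at h
        omega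
  · rw [if_neg hs, if_neg (fun h => hs h.1), smul_zero, add_zero, Finset.sum_eq_zero]
    intro n _
    rw [Pi.smul_apply, Pi.single_apply, if_neg, smul_zero]
    intro h
    apply hs
    rw [h]
    simp only [pref_length]

lemma xx_indep : LinearIndependent k[X] (xx.{u} k) := by
  rw [linearIndependent_iff']
  intro s g hg f0 hf0
  -- a level at which `f0` differs from the others
  have h1 : ∀ f ∈ s, ∃ n, f ≠ f0 → ∀ N, n ≤ N → pref f N ≠ pref f0 N := by
    intro f _
    by_cases h : f = f0
    · exact ⟨0, fun h' => absurd h h'⟩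
    · obtain ⟨i, hi⟩ := Function.ne_iff.1 h
      refine ⟨i + 1, fun _ N hN h => hi (pref_inj h i (by omega))⟩
  choose! nn hnn using h1
  let N := s.sup nn
  have h2 := congrFun hg (ULift.up (pref f0 N))
  rw [Finset.sum_apply, Finset.sum_eq_single f0] at h2
  · rw [Pi.smul_apply] at h2
    unfold xx at h2
    simp only [pref_length, if_true] at h2
    rw [smul_eq_mul, Pi.zero_apply, mul_eq_zero] at h2
    rcases h2 with h2 | h2
    · exact h2
    · exact absurd h2 (pow_ne_zero _ X_ne_zero)
  · intro f hf hne
    rw [Pi.smul_apply]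
    unfold xx
    simp only [pref_length]
    rw [if_neg, smul_zero]
    intro h
    exact hnn f hf hne N (Finset.le_sup hf) h.symm
  · intro h
    exact absurd hf0 h

lemma card_contra {R : Type u} [CommRing R] [Nontrivial R] (W : Type u) [Countable W]
    (v : (ℕ → Bool) → (W →₀ R)) : ¬ LinearIndependent R v := by
  intro hi3
  have h1 := hi3.cardinal_lift_le_rank
  rw [rank_finsupp_self] at h1
  have h2 : Cardinal.mk W ≤ Cardinal.aleph0 := Cardinal.mk_le_aleph0
  have h3 : Cardinal.aleph0 < Cardinal.mk (ℕ → Bool) := by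
    have h5 : Cardinal.mk (ℕ → Bool) = 2 ^ Cardinal.aleph0.{0} := by
      simp
    rw [h5]
    exact Cardinal.cantor _
  have h4 : Cardinal.lift.{u} (Cardinal.mk (ℕ → Bool)) ≤ Cardinal.aleph0 := by
    refine le_trans h1 ?_
    rw [Cardinal.lift_le_aleph0, Cardinal.lift_le_aleph0]
    exact h2
  rw [Cardinal.lift_le_aleph0] at h4
  exact absurd (lt_of_lt_of_le h3 h4) (lt_irrefl _)

/-- the supports of the images of the unit vectors -/
def UU {U : Type u} (Psi : (JJ.{u} → k[X]) →ₗ[k[X]] (U →₀ k[X])) : Set U :=
  ⋃ s : JJ.{u}, ((Psi (Pi.single (M := fun _ : JJ.{u} => k[X]) s (1 : k[X]))).support : Set U)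

lemma UU_countable {U : Type u} (Psi : (JJ.{u} → k[X]) →ₗ[k[X]] (U →₀ k[X])) :
    (UU k Psi).Countable := by
  haveI : Countable JJ.{u} := inferInstance
  exact Set.countable_iUnion (fun s => Finset.countable_toSet _)

lemma hz {U : Type u} (Psi : (JJ.{u} → k[X]) →ₗ[k[X]] (U →₀ k[X])) (f : ℕ → Bool) (u : U)
    (hu : u ∉ UU k Psi) : Psi (xx k f) u = 0 := by
  have h0 : ∀ s : JJ.{u}, Psi (Pi.single (M := fun _ : JJ.{u} => k[X]) s (1 : k[X])) u = 0 := by
    intro s
    by_contra h
    apply hu
    unfold UU
    rw [Set.mem_iUnion]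
    exact ⟨s, Finsupp.mem_support_iff.2 h⟩
  have hd : ∀ m : ℕ, (X : k[X]) ^ m ∣ Psi (xx k f) u := by
    intro m
    rw [xx_eq k f m, map_add, map_sum, map_smul, Finsupp.add_apply, Finsupp.finsetSum_apply,
      Finset.sum_eq_zero, zero_add, Finsupp.smul_apply, smul_eq_mul]
    · exact Dvd.intro _ rfl
    · intro n _
      rw [map_smul, Finsupp.smul_apply, h0, smul_zero]
  ext d
  have := (X_pow_dvd_iff.1 (hd (d + 1))) d (by omega)
  rw [this, coeff_zero]

/-- `R^J` does not embed in a free module -/
theorem no_embed (U : Type u) (Psi : (JJ.{u} → k[X]) →ₗ[k[X]] (U →₀ k[X])) :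
    ¬ Function.Injective Psi := by
  intro hinj
  haveI : Countable (UU k Psi) := (UU_countable k Psi).to_subtype
  let pr : (U →₀ k[X]) →ₗ[k[X]] (UU k Psi →₀ k[X]) := Finsupp.lsubtypeDomain (UU k Psi)
  have hpr : ∀ (g : U →₀ k[X]) (u : UU k Psi), pr g u = g u.1 := fun g u => rfl
  apply card_contra (R := k[X]) (UU k Psi) (fun f => pr (Psi (xx k f)))
  rw [linearIndependent_iff']
  intro s g hg
  have hi1 := xx_indep k
  rw [linearIndependent_iff'] at hi1
  apply hi1 s g
  apply hinj
  rw [map_zero]
  ext1 u
  rw [Finsupp.zero_apply, map_sum, Finsupp.finsetSum_apply]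
  by_cases hu : u ∈ UU k Psi
  · have h1 := DFunLike.congr_fun hg ⟨u, hu⟩
    rw [Finsupp.finsetSum_apply, Finsupp.zero_apply] at h1
    rw [← h1]
    apply Finset.sum_congr rfl
    intro f _
    rw [map_smul]
    rfl
  · apply Finset.sum_eq_zero
    intro f _
    rw [map_smul, Finsupp.smul_apply, hz k Psi f u hu, smul_zero]

end embed

end Pool.Agent.H24.FA
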