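import Mathlib
import Pool.Agent.H24.FA1

set_option autoImplicit false

universe u

namespace Pool.Agent.H24.FA

open Polynomial

/-! ### frames -/

section frames

variable {R : Type u} [CommRing R]

/-- a split embedding -/
structure Frame (R : Type u) [CommRing R] (N M : Type u) [AddCommGroup N] [Module R N]
    [AddCommGroup M] [Module R M] where
  i : N →ₗ[R] M
  r : M →ₗ[R] N
  h : ∀ n, r (i n) = n

/-- every finite set is contained in a free direct summand of finite rank -/
def Sep (R : Type u) [CommRing R] (M : Type u) [AddCommGroup M] [Module R M] : Prop :=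
  ∀ T : Finset M, ∃ (N : Type u) (_ : AddCommGroup N) (_ : Module R N),
    Module.Free R N ∧ Module.Finite R N ∧ ∃ fr : Frame R N M, ∀ t ∈ T, ∃ n, fr.i n = t

variable {N M M' : Type u} [AddCommGroup N] [Module R N] [AddCommGroup M] [Module R M]
  [AddCommGroup M'] [Module R M']

/-- cover a frame and a finite set -/
lemma cover (hS : Sep R M) [Module.Finite R N] (fr : Frame R N M) (T : Finset M) :
    ∃ (N2 : Type u) (_ : AddCommGroup N2) (_ : Module R N2),
      Module.Free R N2 ∧ Module.Finite R N2 ∧ ∃ g : Frame R N2 M, (∀ t ∈ T, ∃ n, g.i n = t) ∧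
        ∀ n : N, ∃ n2, g.i n2 = fr.i n := by
  classical
  obtain ⟨s, hs⟩ := (Module.Finite.fg_top : (⊤ : Submodule R N).FG)
  obtain ⟨N2, i1, i2, h1, h2, g, hg⟩ := hS (T ∪ s.image fr.i)
  refine ⟨N2, i1, i2, h1, h2, g, fun t ht => hg t (Finset.mem_union_left _ ht), ?_⟩
  intro n
  have hn : n ∈ Submodule.span R (s : Set N) := by
    rw [hs]
    trivial
  have hle : Submodule.span R (s : Set N) ≤ (LinearMap.range g.i).comap fr.i := by
    rw [Submodule.span_le]
    intro x hx
    obtain ⟨n2, hn2⟩ := hg (fr.i x) (Finset.mem_union_right _ (Finset.mem_image_of_mem _ hx))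
    exact ⟨n2, hn2⟩
  obtain ⟨n2, hn2⟩ := hle hn
  exact ⟨n2, hn2⟩

lemma retr {N2 : Type u} [AddCommGroup N2] [Module R N2] (fr : Frame R N M) (g : Frame R N2 M)
    (hc : ∀ n : N, ∃ n2, g.i n2 = fr.i n) (n : N) : g.i (g.r (fr.i n)) = fr.i n := by
  obtain ⟨n2, hn2⟩ := hc n
  rw [← hn2, g.h]

variable [IsDomain R] [IsPrincipalIdealRing R]

/-- extension of a frame by rank one -/
lemma ext1 (hS : Sep R M) (hinf : ¬ Module.Finite R M) [Module.Finite R N] (fr : Frame R N M) :
    ∃ fr' : Frame R (N × R) M, ∀ n, fr'.i (n, 0) = fr.i n := by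
  classical
  -- an element outside the range
  have hm : ∃ m, ∀ n, fr.i n ≠ m := by
    by_contra hcon
    push Not at hcon
    exact hinf (Module.Finite.of_surjective fr.i hcon)
  obtain ⟨m, hm⟩ := hm
  obtain ⟨N2, i1, i2, h1, h2, g, hg, hc⟩ := cover hS fr {m}
  obtain ⟨w, hw⟩ := hg m (Finset.mem_singleton_self _)
  have hre := retr fr g hc
  let e : N →ₗ[R] N2 := g.r ∘ₗ fr.i
  let e' : N2 →ₗ[R] N := fr.r ∘ₗ g.i
  have hee : ∀ n, e' (e n) = n := by
    intro n
    change fr.r (g.i (g.r (fr.i n))) = n
    rw [hre, fr.h]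
  let C : Submodule R N2 := LinearMap.ker e'
  haveI : Module.Free R C := inferInstance
  let pr : N2 →ₗ[R] C := LinearMap.codRestrict C (LinearMap.id - e ∘ₗ e') (by
    intro x
    change e' (x - e (e' x)) = 0
    rw [map_sub, hee, sub_self])
  have hpr : ∀ x, ((pr x : C) : N2) = x - e (e' x) := fun x => rfl
  -- `C` is nonzero
  have hC : pr w ≠ 0 := by
    intro h0
    have h3 := hpr w
    rw [h0] at h3
    have h4 : w = e (e' w) := by
      rw [← sub_eq_zero]
      exact h3.symm
    apply hm (e' w)
    rw [← hre, ← hw]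
    change g.i (e (e' w)) = g.i w
    rw [← h4]
  let B := Module.Free.chooseBasis R C
  have hne : Nonempty (Module.Free.ChooseBasisIndex R C) := by
    by_contra h
    rw [not_nonempty_iff] at h
    apply hC
    apply B.repr.injective
    exact Subsingleton.elim _ _
  obtain ⟨i0⟩ := hne
  let c0 : N2 := (B i0 : C)
  have hc0 : e' c0 = 0 := (B i0).2
  have hprc0 : pr c0 = B i0 := by
    apply Subtype.ext
    rw [hpr, hc0, map_zero, sub_zero]
  have hpre : ∀ n, pr (e n) = 0 := by
    intro n
    apply Subtype.ext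
    rw [hpr, hee, sub_self]
    rfl
  refine ⟨⟨fr.i.coprod (LinearMap.toSpanSingleton R M (g.i c0)),
    fr.r.prod ((B.coord i0) ∘ₗ pr ∘ₗ g.r), ?_⟩, ?_⟩
  · rintro ⟨n, a⟩
    rw [LinearMap.coprod_apply, LinearMap.toSpanSingleton_apply]
    rw [LinearMap.prod_apply]
    apply Prod.ext
    · change fr.r (fr.i n + a • g.i c0) = n
      rw [map_add, fr.h, map_smul]
      have : fr.r (g.i c0) = 0 := hc0
      rw [this, smul_zero, add_zero]
    · change B.coord i0 (pr (g.r (fr.i n + a • g.i c0))) = a
      rw [map_add, map_smul, g.h, map_add, map_smul, hprc0]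
      have : pr (g.r (fr.i n)) = 0 := hpre n
      rw [this, zero_add, map_smul, Module.Basis.coord_apply, Module.Basis.repr_self,
        Finsupp.single_eq_same, smul_eq_mul, mul_one]
  · intro n
    change fr.i n + (0 : R) • g.i c0 = fr.i n
    rw [zero_smul, add_zero]

lemma extn (hS : Sep R M) (hinf : ¬ Module.Finite R M) [Module.Finite R N] (fr : Frame R N M)
    (n : ℕ) : ∃ fr' : Frame R (N × (Fin n → R)) M, ∀ a, fr'.i (a, 0) = fr.i a := by
  induction n with
  | zero =>
    refine ⟨⟨fr.i ∘ₗ LinearMap.fst R _ _, fr.r.prod 0, ?_⟩, ?_⟩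
    · rintro ⟨a, v⟩
      apply Prod.ext
      · exact fr.h a
      · exact Subsingleton.elim _ _
    · intro a
      rfl
  | succ n ih =>
    obtain ⟨f1, h1⟩ := ih
    obtain ⟨f2, h2⟩ := ext1 hS hinf f1
    let E : (N × (Fin (n + 1) → R)) →ₗ[R] (N × (Fin n → R)) × R :=
      { toFun := fun x => ((x.1, fun j => x.2 j.succ), x.2 0)
        map_add' := fun x y => rfl
        map_smul' := fun c x => rfl }
    let E' : (N × (Fin n → R)) × R →ₗ[R] (N × (Fin (n + 1) → R)) :=
      { toFun := fun x => (x.1.1, Fin.cons (α := fun _ => R) x.2 x.1.2)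
        map_add' := fun x y => by
          apply Prod.ext
          · rfl
          · funext j
            refine Fin.cases ?_ (fun j => ?_) j <;> rfl
        map_smul' := fun c x => by
          apply Prod.ext
          · rfl
          · funext j
            refine Fin.cases ?_ (fun j => ?_) j <;> rfl }
    have hE : ∀ x, E' (E x) = x := by
      intro x
      apply Prod.ext
      · rfl
      · funext j
        refine Fin.cases ?_ (fun j => ?_) j <;> rfl
    refine ⟨⟨f2.i ∘ₗ E, E' ∘ₗ f2.r, ?_⟩, ?_⟩
    · intro x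
      change E' (f2.r (f2.i (E x))) = x
      rw [f2.h, hE]
    · intro a
      change f2.i (E (a, 0)) = fr.i a
      rw [← h1, ← h2]
      rfl

/-- one round of the game -/
lemma game (hS : Sep R M) (hS' : Sep R M') (hinf : ¬ Module.Finite R M') [Module.Finite R N]
    (fr : Frame R N M) (fr' : Frame R N M') (T : Finset M) :
    ∃ (N2 : Type u) (_ : AddCommGroup N2) (_ : Module R N2),
      Module.Finite R N2 ∧ ∃ (g : Frame R N2 M) (g' : Frame R N2 M') (e : N →ₗ[R] N2),
        (∀ n, g.i (e n) = fr.i n) ∧ (∀ n, g'.i (e n) = fr'.i n) ∧ ∀ t ∈ T, ∃ n, g.i n = t := by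
  classical
  obtain ⟨N2, i1, i2, h1, h2, g, hg, hc⟩ := cover hS fr T
  have hre := retr fr g hc
  let e : N →ₗ[R] N2 := g.r ∘ₗ fr.i
  let e' : N2 →ₗ[R] N := fr.r ∘ₗ g.i
  have hee : ∀ n, e' (e n) = n := by
    intro n
    change fr.r (g.i (g.r (fr.i n))) = n
    rw [hre, fr.h]
  let C : Submodule R N2 := LinearMap.ker e'
  haveI : Module.Free R C := inferInstance
  haveI : Module.Finite R C := inferInstance
  let pr : N2 →ₗ[R] C := LinearMap.codRestrict C (LinearMap.id - e ∘ₗ e') (by
    intro x
    change e' (x - e (e' x)) = 0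
    rw [map_sub, hee, sub_self])
  have hpr : ∀ x, ((pr x : C) : N2) = x - e (e' x) := fun x => rfl
  let B : Module.Basis (Fin (Module.finrank R C)) R C := Module.finBasis R C
  obtain ⟨f1, hf1⟩ := extn hS' hinf fr' (Module.finrank R C)
  let E : N2 →ₗ[R] N × (Fin (Module.finrank R C) → R) := e'.prod (B.equivFun.toLinearMap ∘ₗ pr)
  let E' : N × (Fin (Module.finrank R C) → R) →ₗ[R] N2 :=
    e.coprod (C.subtype ∘ₗ B.equivFun.symm.toLinearMap)
  have hE : ∀ x, E' (E x) = x := by
    intro x
    change e (e' x) + ((B.equivFun.symm (B.equivFun (pr x)) : C) : N2) = x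
    rw [LinearEquiv.symm_apply_apply, hpr]
    abel
  refine ⟨N2, i1, i2, h2, g, ⟨f1.i ∘ₗ E, E' ∘ₗ f1.r, ?_⟩, e, hre, ?_, hg⟩
  · intro x
    change E' (f1.r (f1.i (E x))) = x
    rw [f1.h, hE]
  · intro n
    change f1.i (e' (e n), B.equivFun (pr (e n))) = fr'.i n
    have hpre : pr (e n) = 0 := by
      apply Subtype.ext
      rw [hpr, hee, sub_self]
      rfl
    rw [hee, hpre, map_zero, hf1]

end frames

/-! ### separability of the two modules -/

section sep

variable (R : Type u) [CommRing R]

lemma sep_finsupp (ι : Type u) : Sep R (ι →₀ R) := by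
  classical
  intro T
  let s : Finset ι := T.biUnion (fun t => t.support)
  let up : (↥(s : Set ι) →₀ R) →ₗ[R] (ι →₀ R) :=
    Finsupp.lmapDomain R R (fun x : ↥(s : Set ι) => x.1)
  let dn : (ι →₀ R) →ₗ[R] (↥(s : Set ι) →₀ R) := Finsupp.lsubtypeDomain (s : Set ι)
  have hdn : ∀ t a, dn t a = t a.1 := fun t a => rfl
  have hup : ∀ n (a : ↥(s : Set ι)), up n a.1 = n a := fun n a =>
    Finsupp.mapDomain_apply Subtype.val_injective n a
  refine ⟨↥(s : Set ι) →₀ R, inferInstance, inferInstance, inferInstance, ?_, ?_⟩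
  · haveI : Finite ↥(s : Set ι) := s.finite_toSet
    infer_instance
  · refine ⟨⟨up, dn, ?_⟩, ?_⟩
    · intro n
      ext1 a
      rw [hdn, hup]
    · intro t ht
      refine ⟨dn t, ?_⟩
      ext1 a
      by_cases ha : a ∈ s
      · exact (hup (dn t) ⟨a, ha⟩).trans (hdn t _)
      · have h1 : up (dn t) a = 0 := by
          apply Finsupp.mapDomain_notin_range
          rintro ⟨x, rfl⟩
          exact ha x.2
        change up (dn t) a = t a
        rw [h1]
        by_contra h
        apply ha
        exact Finset.mem_biUnion.2 ⟨t, ht, Finsupp.mem_support_iff.2 (Ne.symm h)⟩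

variable [IsDomain R] [IsPrincipalIdealRing R]

lemma sep_pi (J : Type u) : Sep R (J → R) := by
  classical
  intro T
  let x : J → (T → R) := fun j t => t.1 j
  let D : Submodule R (T → R) := Submodule.span R (Set.range x)
  haveI : Module.Finite R D := inferInstance
  haveI : Module.Free R D := inferInstance
  let x' : J → D := fun j => ⟨x j, Submodule.subset_span ⟨j, rfl⟩⟩
  let d := Module.finBasis R D
  have hb : ∀ t, ∃ c : J →₀ R, c.sum (fun j a => a • x' j) = d t := by
    intro t
    obtain ⟨c, hc⟩ := (Finsupp.mem_span_range_iff_exists_finsupp (R := R)).1 (d t).2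
    refine ⟨c, ?_⟩
    apply Subtype.ext
    rw [← hc]
    have := map_finsuppSum D.subtype c (fun j a => a • x' j)
    exact this
  choose c hc using hb
  refine ⟨Module.Dual R D, inferInstance, inferInstance, inferInstance, inferInstance, ?_⟩
  let ii : Module.Dual R D →ₗ[R] (J → R) :=
    { toFun := fun φ j => φ (x' j)
      map_add' := fun φ ψ => rfl
      map_smul' := fun a φ => rfl }
  let rr : (J → R) →ₗ[R] Module.Dual R D :=
    { toFun := fun y => d.constr R (fun t => (c t).sum (fun j a => a * y j))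
      map_add' := by
        intro y y'
        rw [← map_add]
        congr 1
        funext t
        rw [Pi.add_apply, ← Finsupp.sum_add]
        apply Finsupp.sum_congr
        intro j _
        rw [Pi.add_apply, mul_add]
      map_smul' := by
        intro a y
        rw [RingHom.id_apply, ← map_smul]
        congr 1
        funext t
        rw [Pi.smul_apply, Finsupp.smul_sum]
        apply Finsupp.sum_congr
        intro j _
        rw [Pi.smul_apply, smul_eq_mul, smul_eq_mul]
        ring }
  refine ⟨⟨ii, rr, ?_⟩, ?_⟩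
  · intro φ
    apply d.ext
    intro t
    change (d.constr R (fun t => (c t).sum (fun j a => a * φ (x' j)))) (d t) = φ (d t)
    rw [Module.Basis.constr_basis, ← hc t, map_finsuppSum]
    apply Finsupp.sum_congr
    intro j _
    rw [map_smul, smul_eq_mul]
  · intro t ht
    refine ⟨(LinearMap.proj (⟨t, ht⟩ : T)) ∘ₗ D.subtype, ?_⟩
    funext j
    rfl

omit [IsPrincipalIdealRing R] in
lemma not_finite_pi (J : Type u) [Infinite J] : ¬ Module.Finite R (J → R) := by
  classical
  intro h
  have h1 := Pi.linearIndependent_single_one J R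
  have := h1.finite
  exact not_finite J

omit [IsPrincipalIdealRing R] in
lemma not_finite_finsupp (J : Type u) [Infinite J] : ¬ Module.Finite R (J →₀ R) := by
  classical
  intro h
  have h1 := Finsupp.linearIndependent_single_one R J
  have := h1.finite
  exact not_finite J

end sep

end Pool.Agent.H24.FA
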