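import Mathlib
import Pool.Agent.H24.FA2
import Pool.Agent.H24.FA3
import Pool.Agent.H24.FA4

set_option autoImplicit false

universe u

namespace Pool.Agent.H24.FA

open Polynomial FirstOrder FirstOrder.Language

variable (k : Type u) [Field k]

section functor

variable {N M M' : Type u} [AddCommGroup N] [Module k[X] N] [AddCommGroup M] [Module k[X] M]
  [AddCommGroup M'] [Module k[X] M']

/-- functoriality of the free algebra -/
noncomputable def Fm (f : N →ₗ[k[X]] M) : FF k N →ₐ[k] FF k M :=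
  FreeAlgebra.lift k (fun o => FreeAlgebra.ι k (o.map f))

lemma Fm_yy (f : N →ₗ[k[X]] M) : Fm k f (yy k N) = yy k M := FreeAlgebra.lift_ι_apply _ _

lemma Fm_zz (f : N →ₗ[k[X]] M) (n : N) : Fm k f (zz k n) = zz k (f n) :=
  FreeAlgebra.lift_ι_apply _ _

lemma Fm_ev (f : N →ₗ[k[X]] M) (r : k[X]) : Fm k f (ev k N r) = ev k M r := by
  unfold ev
  rw [← aeval_algHom_apply, Fm_yy]

lemma Fm_comp (g : M →ₗ[k[X]] M') (f : N →ₗ[k[X]] M) (a : FF k N) :
    Fm k g (Fm k f a) = Fm k (g ∘ₗ f) a := by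
  have h : (Fm k g).comp (Fm k f) = Fm k (g ∘ₗ f) := by
    apply FreeAlgebra.hom_ext
    funext o
    rcases o with _ | n
    · change Fm k g (Fm k f (yy k N)) = Fm k (g ∘ₗ f) (yy k N)
      rw [Fm_yy, Fm_yy, Fm_yy]
    · change Fm k g (Fm k f (zz k n)) = Fm k (g ∘ₗ f) (zz k n)
      rw [Fm_zz, Fm_zz, Fm_zz]
      rfl
  exact congrArg (fun F => F a) h

lemma Fm_id' (f : N →ₗ[k[X]] N) (hf : ∀ n, f n = n) (a : FF k N) : Fm k f a = a := by
  have h : Fm k f = AlgHom.id k _ := by
    apply FreeAlgebra.hom_ext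
    funext o
    rcases o with _ | n
    · exact Fm_yy k f
    · change Fm k f (zz k n) = zz k n
      rw [Fm_zz, hf]
  rw [h]
  rfl

lemma Fm_AA (f : N →ₗ[k[X]] M) {a : FF k N} (ha : a ∈ AA k N) : Fm k f a ∈ AA k M := by
  have h : AA k N ≤ (AA k M).comap (Fm k f) := by
    apply Algebra.adjoin_le
    rintro x (((rfl | ⟨m, rfl⟩) | ⟨⟨m, m'⟩, rfl⟩) | ⟨⟨r, m⟩, rfl⟩)
    · change Fm k f (yy k N) ∈ AA k M
      rw [Fm_yy]
      exact yy_mem k M
    · change Fm k f (yy k N * zz k m - zz k m * yy k N) ∈ AA k M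
      rw [map_sub, map_mul, map_mul, Fm_yy, Fm_zz]
      exact comm_mem k (f m)
    · change Fm k f (zz k (m + m') - zz k m - zz k m') ∈ AA k M
      rw [map_sub, map_sub, Fm_zz, Fm_zz, Fm_zz, map_add]
      exact add_mem' k (f m) (f m')
    · change Fm k f (zz k (r • m) - ev k N r * zz k m) ∈ AA k M
      rw [map_sub, map_mul, Fm_zz, Fm_zz, Fm_ev, map_smul]
      exact smul_mem' k r (f m)
  exact h ha

lemma frame_inv (fr : Frame k[X] N M) (a : FF k N) : Fm k fr.r (Fm k fr.i a) = a := by
  rw [Fm_comp]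
  exact Fm_id' k _ fr.h a

lemma frame_AA (fr : Frame k[X] N M) (a : FF k N) : Fm k fr.i a ∈ AA k M ↔ a ∈ AA k N := by
  constructor
  · intro h
    have := Fm_AA k fr.r h
    rwa [frame_inv] at this
  · exact Fm_AA k fr.i

/-- every element of `F(M)` involves finitely many elements of `M` -/
lemma support (a : FF k M) : ∃ T : Finset M, ∀ (N : Type u) [AddCommGroup N] [Module k[X] N]
    (f : N →ₗ[k[X]] M), (∀ t ∈ T, ∃ n, f n = t) → ∃ a' : FF k N, Fm k f a' = a := by
  classical
  induction a using FreeAlgebra.induction with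
  | grade0 r => exact ⟨∅, fun N _ _ f _ => ⟨algebraMap k _ r, AlgHom.commutes _ _⟩⟩
  | grade1 o =>
    rcases o with _ | m
    · exact ⟨∅, fun N _ _ f _ => ⟨yy k N, Fm_yy k f⟩⟩
    · refine ⟨{m}, fun N _ _ f h => ?_⟩
      obtain ⟨n, hn⟩ := h m (Finset.mem_singleton_self _)
      exact ⟨zz k n, by rw [Fm_zz, hn]; rfl⟩
  | mul a b ha hb =>
    obtain ⟨T, hT⟩ := ha
    obtain ⟨T', hT'⟩ := hb
    refine ⟨T ∪ T', fun N _ _ f h => ?_⟩
    obtain ⟨a', ha'⟩ := hT N f (fun t ht => h t (Finset.mem_union_left _ ht))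
    obtain ⟨b', hb'⟩ := hT' N f (fun t ht => h t (Finset.mem_union_right _ ht))
    exact ⟨a' * b', by rw [map_mul, ha', hb']⟩
  | add a b ha hb =>
    obtain ⟨T, hT⟩ := ha
    obtain ⟨T', hT'⟩ := hb
    refine ⟨T ∪ T', fun N _ _ f h => ?_⟩
    obtain ⟨a', ha'⟩ := hT N f (fun t ht => h t (Finset.mem_union_left _ ht))
    obtain ⟨b', hb'⟩ := hT' N f (fun t ht => h t (Finset.mem_union_right _ ht))
    exact ⟨a' + b', by rw [map_add, ha', hb']⟩

end functor

section game

/-- the structure `Φ(M)` -/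
noncomputable instance strF (M : Type u) [AddCommGroup M] [Module k[X] M] :
    (algSig k).Structure (FF k M) := pairStr k (FF k M) (AA k M)

variable {N M M' : Type u} [AddCommGroup N] [Module k[X] N] [AddCommGroup M] [Module k[X] M]
  [AddCommGroup M'] [Module k[X] M']

lemma term_realize {α : Type*} (t : (algSig k).Term α) (f : N →ₗ[k[X]] M) (v : α → FF k N) :
    t.realize (fun a => Fm k f (v a)) = Fm k f (t.realize v) := by
  induction t with
  | var a => rfl
  | func g ts ih =>
    rw [Term.realize_func, Term.realize_func]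
    have h : (fun i => (ts i).realize (fun a => Fm k f (v a))) =
      fun i => Fm k f ((ts i).realize v) := funext ih
    rw [h]
    cases g with
    | zero => exact (map_zero (Fm k f)).symm
    | one => exact (map_one (Fm k f)).symm
    | neg => exact (map_neg (Fm k f) _).symm
    | smul c => exact (map_smul (Fm k f) c _).symm
    | add => exact (map_add (Fm k f) _ _).symm
    | mul => exact (map_mul (Fm k f) _ _).symm

theorem realize_iff (hS : Sep k[X] M) (hS' : Sep k[X] M') (hinf : ¬ Module.Finite k[X] M)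
    (hinf' : ¬ Module.Finite k[X] M') {α : Type} {n : ℕ} (φ : (algSig k).BoundedFormula α n) :
    ∀ (N : Type u) [AddCommGroup N] [Module k[X] N] [Module.Finite k[X] N]
      (fr : Frame k[X] N M) (fr' : Frame k[X] N M') (v : α → FF k N) (xs : Fin n → FF k N),
      φ.Realize (fun a => Fm k fr.i (v a)) (fun j => Fm k fr.i (xs j)) ↔
        φ.Realize (fun a => Fm k fr'.i (v a)) (fun j => Fm k fr'.i (xs j)) := by
  induction φ with
  | falsum => intro N _ _ _ fr fr' v xs; rfl
  | equal t1 t2 =>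
    intro N _ _ _ fr fr' v xs
    have key : ∀ {M : Type u} [AddCommGroup M] [Module k[X] M] (fr : Frame k[X] N M),
        (BoundedFormula.equal t1 t2).Realize (fun a => Fm k fr.i (v a))
          (fun j => Fm k fr.i (xs j)) ↔
        t1.realize (Sum.elim v xs) = t2.realize (Sum.elim v xs) := by
      intro M _ _ fr
      have hse : (Sum.elim (fun a => Fm k fr.i (v a)) (fun j => Fm k fr.i (xs j))) =
          fun x => Fm k fr.i (Sum.elim v xs x) := by
        funext x
        rcases x with x | x <;> rfl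
      simp only [BoundedFormula.Realize]
      rw [hse, term_realize, term_realize]
      constructor
      · intro h
        rw [← frame_inv k fr (t1.realize (Sum.elim v xs)), h, frame_inv]
      · intro h
        rw [h]
    rw [key fr, key fr']
  | rel r ts =>
    intro N _ _ _ fr fr' v xs
    have key : ∀ {M : Type u} [AddCommGroup M] [Module k[X] M] (fr : Frame k[X] N M),
        (BoundedFormula.rel r ts).Realize (fun a => Fm k fr.i (v a))
          (fun j => Fm k fr.i (xs j)) ↔
        Structure.RelMap r (fun i => (ts i).realize (Sum.elim v xs)) := by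
      intro M _ _ fr
      have hse : (Sum.elim (fun a => Fm k fr.i (v a)) (fun j => Fm k fr.i (xs j))) =
          fun x => Fm k fr.i (Sum.elim v xs x) := by
        funext x
        rcases x with x | x <;> rfl
      simp only [BoundedFormula.Realize]
      have h : (fun i => (ts i).realize (Sum.elim (fun a => Fm k fr.i (v a))
          (fun j => Fm k fr.i (xs j)))) =
          fun i => Fm k fr.i ((ts i).realize (Sum.elim v xs)) := by
        funext i
        rw [hse, term_realize]
      rw [h]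
      cases r with
      | P => exact frame_AA k fr _
    rw [key fr, key fr']
  | imp φ ψ ih1 ih2 =>
    intro N _ _ _ fr fr' v xs
    rw [BoundedFormula.realize_imp, BoundedFormula.realize_imp, ih1 N fr fr' v xs,
      ih2 N fr fr' v xs]
  | all φ ih =>
    intro N _ _ _ fr fr' v xs
    rw [BoundedFormula.realize_all, BoundedFormula.realize_all]
    have hsn : ∀ {N2 M : Type u} [AddCommGroup N2] [Module k[X] N2] [AddCommGroup M]
        [Module k[X] M] (f : N →ₗ[k[X]] N2) (g : N2 →ₗ[k[X]] M) (h : N →ₗ[k[X]] M)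
        (_ : ∀ n, g (f n) = h n) (a : FF k N), Fm k h a = Fm k g (Fm k f a) := by
      intro N2 M _ _ _ _ f g h hh a
      rw [Fm_comp]
      congr 2
      ext1 n
      exact (hh n).symm
    have hsnoc : ∀ {N2 M : Type u} [AddCommGroup N2] [Module k[X] N2] [AddCommGroup M]
        [Module k[X] M] (f : N →ₗ[k[X]] N2) (g : N2 →ₗ[k[X]] M) (h : N →ₗ[k[X]] M)
        (_ : ∀ n, g (f n) = h n) (w : FF k N2),
        (Fin.snoc (fun j => Fm k h (xs j)) (Fm k g w) : Fin (_ + 1) → FF k M) =
          fun j => Fm k g ((Fin.snoc (fun j => Fm k f (xs j)) w : Fin (_ + 1) → FF k N2) j) := by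
      intro N2 M _ _ _ _ f g h hh w
      funext j
      refine Fin.lastCases ?_ (fun j => ?_) j
      · rw [Fin.snoc_last, Fin.snoc_last]
      · rw [Fin.snoc_castSucc, Fin.snoc_castSucc]
        exact hsn f g h hh (xs j)
    constructor
    · intro H a'
      obtain ⟨T, hT⟩ := support k a'
      obtain ⟨N2, i1, i2, i3, g', g, e, he', he, hc⟩ := game hS' hS hinf fr' fr T
      obtain ⟨w, rfl⟩ := hT N2 g'.i hc
      have h1 := H (Fm k g.i w)
      rw [hsnoc e g.i fr.i he w] at h1
      rw [hsnoc e g'.i fr'.i he' w]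
      have h2 : (fun a => Fm k fr.i (v a)) = fun a => Fm k g.i (Fm k e (v a)) :=
        funext fun a => hsn e g.i fr.i he (v a)
      have h3 : (fun a => Fm k fr'.i (v a)) = fun a => Fm k g'.i (Fm k e (v a)) :=
        funext fun a => hsn e g'.i fr'.i he' (v a)
      rw [h2] at h1
      rw [h3]
      exact (ih N2 g g' _ _).1 h1
    · intro H a
      obtain ⟨T, hT⟩ := support k a
      obtain ⟨N2, i1, i2, i3, g, g', e, he, he', hc⟩ := game hS hS' hinf' fr fr' T
      obtain ⟨w, rfl⟩ := hT N2 g.i hc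
      have h1 := H (Fm k g'.i w)
      rw [hsnoc e g'.i fr'.i he' w] at h1
      rw [hsnoc e g.i fr.i he w]
      have h2 : (fun a => Fm k fr'.i (v a)) = fun a => Fm k g'.i (Fm k e (v a)) :=
        funext fun a => hsn e g'.i fr'.i he' (v a)
      have h3 : (fun a => Fm k fr.i (v a)) = fun a => Fm k g.i (Fm k e (v a)) :=
        funext fun a => hsn e g.i fr.i he (v a)
      rw [h2] at h1
      rw [h3]
      exact (ih N2 g g' _ _).2 h1

end game

lemma sentence_iff (s : (algSig k).Sentence) {M : Type u} [AddCommGroup M] [Module k[X] M]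
    (z : Frame k[X] PUnit.{u + 1} M) :
    @Sentence.Realize (algSig k) (FF k M) (pairStr k _ (AA k M)) s ↔
      BoundedFormula.Realize (L := algSig k) (M := FF k M) s
        (fun a : Empty => Fm k z.i (a.elim)) (fun j : Fin 0 => Fm k z.i (j.elim0)) := by
  have key : ∀ (a b : Empty → FF k M) (c d : Fin 0 → FF k M),
      BoundedFormula.Realize (L := algSig k) (M := FF k M) s a c ↔
      BoundedFormula.Realize (L := algSig k) (M := FF k M) s b d := by
    intro a b c d
    rw [Subsingleton.elim a b, Subsingleton.elim c d]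
  unfold Sentence.Realize Formula.Realize
  exact key _ _ _ _

/-- the two pairs satisfy the same sentences -/
theorem same_sentences (s : (algSig k).Sentence) :
    @Sentence.Realize (algSig k) (FF k (ULift.{u} ℕ →₀ k[X]))
      (pairStr k _ (AA k (ULift.{u} ℕ →₀ k[X]))) s ↔
    @Sentence.Realize (algSig k) (FF k (PM k JJ.{u})) (pairStr k _ (AA k (PM k JJ.{u}))) s := by
  have h1 : Sep k[X] (ULift.{u} ℕ →₀ k[X]) := sep_finsupp k[X] _
  have h2 : Sep k[X] (PM k JJ.{u}) := sep_pi k[X] _
  have h3 : ¬ Module.Finite k[X] (ULift.{u} ℕ →₀ k[X]) := not_finite_finsupp k[X] _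
  have h4 : ¬ Module.Finite k[X] (PM k JJ.{u}) := not_finite_pi k[X] _
  -- zero frames
  have z1 : Frame k[X] PUnit.{u + 1} (ULift.{u} ℕ →₀ k[X]) := ⟨0, 0, fun n => rfl⟩
  have z2 : Frame k[X] PUnit.{u + 1} (PM k JJ.{u}) := ⟨0, 0, fun n => rfl⟩
  rw [sentence_iff k s z1, sentence_iff k s z2]
  exact realize_iff k h1 h2 h3 h4 s PUnit.{u + 1} z1 z2 (fun e => e.elim) (fun e => e.elim0)

theorem final : ¬ ∃ T : (algSig k).Theory, AxiomatizesFreeness k T := by
  rintro ⟨T, hT⟩
  have h1 := hT (FF k (ULift.{u} ℕ →₀ k[X])) ⟨_, ⟨AlgEquiv.refl⟩⟩ (AA k (ULift.{u} ℕ →₀ k[X]))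
  have h2 := hT (FF k (PM k JJ.{u})) ⟨_, ⟨AlgEquiv.refl⟩⟩ (AA k (PM k JJ.{u}))
  have hf : IsFreeAlg k (AA k (ULift.{u} ℕ →₀ k[X])) := AA_free k (Finsupp.basisSingleOne)
  have h3 := h1.1 hf
  have h4 : IsFreeAlg k (AA k (PM k JJ.{u})) := h2.2 (fun φ hφ => (same_sentences k φ).1 (h3 φ hφ))
  obtain ⟨U, Psi, hPsi⟩ := embed k JJ.{u} h4
  exact no_embed k U Psi hPsi

end Pool.Agent.H24.FA
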