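import Mathlib

set_option autoImplicit false

namespace Pool.Agent.H24.Hru

/-- elements: `(n, true)` is a point, `(n, false)` is a colour -/
abbrev El := ℕ × Bool

/-- points of a finite set of elements -/
def pts (S : Finset El) : Finset El := S.filter (fun e => e.2 = true)
/-- colours of a finite set of elements -/
def cls (S : Finset El) : Finset El := S.filter (fun e => e.2 = false)

/-- relations inside a set -/
def relIn (R : Finset (Finset El)) (S : Finset El) : Finset (Finset El) :=
  R.filter (fun r => r ⊆ S)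

/-- predimension -/
def dl (R : Finset (Finset El)) (S : Finset El) : ℤ :=
  (S.card : ℤ) - ((relIn R S).card : ℤ)

structure Cfg where
  D : Finset El
  R : Finset (Finset El)

structure Good (c : Cfg) : Prop where
  sub : ∀ r ∈ c.R, r ⊆ c.D
  three : ∀ r ∈ c.R, (pts r).card = 3
  one : ∀ r ∈ c.R, (cls r).card = 1
  few : ∀ r ∈ c.R, ∀ r' ∈ c.R, r ≠ r' → (r ∩ r').card ≤ 2
  four : ∀ S : Finset El, S ⊆ c.D → 4 ≤ (pts S).card → 4 ≤ dl c.R S

def Strong (c : Cfg) (A : Finset El) : Prop :=
  A ⊆ c.D ∧ ∀ S : Finset El, A ⊆ S → S ⊆ c.D → dl c.R A ≤ dl c.R S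

structure PI (c : Cfg) (F : Finset (El × El)) : Prop where
  kind : ∀ p ∈ F, p.1.2 = p.2.2
  inj : ∀ p ∈ F, ∀ q ∈ F, p.1 = q.1 ↔ p.2 = q.2
  rel : ∀ G : Finset (El × El), G ⊆ F → (G.image Prod.fst ∈ c.R ↔ G.image Prod.snd ∈ c.R)
  sl : Strong c (F.image Prod.fst)
  sr : Strong c (F.image Prod.snd)

structure Ext (c c' : Cfg) : Prop where
  sub : c.D ⊆ c'.D
  rel : ∀ r : Finset El, r ⊆ c.D → (r ∈ c'.R ↔ r ∈ c.R)
  str : Strong c' c.D

theorem mem_relIn {R : Finset (Finset El)} {S r : Finset El} :
    r ∈ relIn R S ↔ r ∈ R ∧ r ⊆ S := by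
  simp [relIn]

theorem card_split (S : Finset El) : S.card = (pts S).card + (cls S).card := by
  unfold pts cls
  rw [← Finset.card_filter_add_card_filter_not (s := S) (fun e : El => e.2 = true)]
  congr 2
  ext e
  simp

theorem relIn_inter (R : Finset (Finset El)) (S T : Finset El) :
    relIn R (S ∩ T) = relIn R S ∩ relIn R T := by
  ext r
  simp only [mem_relIn, Finset.mem_inter, Finset.subset_inter_iff]
  tauto

theorem submod (R : Finset (Finset El)) (S T : Finset El) :
    dl R (S ∪ T) + dl R (S ∩ T) ≤ dl R S + dl R T := by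
  unfold dl
  have h1 := Finset.card_union_add_card_inter S T
  have h2 := Finset.card_union_add_card_inter (relIn R S) (relIn R T)
  rw [← relIn_inter] at h2
  have h3 : relIn R S ∪ relIn R T ⊆ relIn R (S ∪ T) := by
    intro r hr
    simp only [Finset.mem_union, mem_relIn] at hr ⊢
    rcases hr with h | h
    · exact ⟨h.1, h.2.trans Finset.subset_union_left⟩
    · exact ⟨h.1, h.2.trans Finset.subset_union_right⟩
  have h4 := Finset.card_le_card h3
  omega

theorem strong_inter {c : Cfg} {A S : Finset El} (h : Strong c A) (hS : S ⊆ c.D) :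
    dl c.R (S ∩ A) ≤ dl c.R S := by
  have h1 := submod c.R S A
  have h2 := h.2 (S ∪ A) Finset.subset_union_right (Finset.union_subset hS h.1)
  omega

theorem dl_ext {c c' : Cfg} (h : Ext c c') {S : Finset El} (hS : S ⊆ c.D) :
    dl c'.R S = dl c.R S := by
  have : relIn c'.R S = relIn c.R S := by
    ext r
    simp only [mem_relIn]
    constructor
    · rintro ⟨h1, h2⟩
      exact ⟨(h.rel r (h2.trans hS)).1 h1, h2⟩
    · rintro ⟨h1, h2⟩
      exact ⟨(h.rel r (h2.trans hS)).2 h1, h2⟩
  unfold dl
  rw [this]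

theorem strong_ext {c c' : Cfg} (h : Ext c c') {A : Finset El} (hA : Strong c A) :
    Strong c' A := by
  refine ⟨hA.1.trans h.sub, fun S hAS hS => ?_⟩
  have h1 := strong_inter h.str hS
  have h2 := hA.2 (S ∩ c.D) (Finset.subset_inter hAS hA.1) Finset.inter_subset_right
  rw [dl_ext h hA.1]
  rw [dl_ext h Finset.inter_subset_right] at h1
  omega

theorem ext_trans {a b c : Cfg} (h : Ext a b) (h' : Ext b c) : Ext a c := by
  refine ⟨h.sub.trans h'.sub, fun r hr => ?_, strong_ext h' h.str⟩
  rw [h'.rel r (hr.trans h.sub), h.rel r hr]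

theorem strong_self (c : Cfg) : Strong c c.D := by
  refine ⟨subset_rfl, fun S h1 h2 => ?_⟩
  rw [Finset.Subset.antisymm h1 h2]

theorem ext_refl (c : Cfg) : Ext c c := by
  refine ⟨subset_rfl, fun r _ => Iff.rfl, strong_self c⟩

theorem pi_ext {c c' : Cfg} (h : Ext c c') {F : Finset (El × El)} (hF : PI c F) : PI c' F := by
  refine ⟨hF.kind, hF.inj, fun G hG => ?_, strong_ext h hF.sl, strong_ext h hF.sr⟩
  rw [h.rel _ ((Finset.image_subset_image hG).trans hF.sl.1),
    h.rel _ ((Finset.image_subset_image hG).trans hF.sr.1)]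
  exact hF.rel G hG

/-- swapping a partial isomorphism -/
theorem pi_swap {c : Cfg} {F : Finset (El × El)} (hF : PI c F) :
    PI c (F.image Prod.swap) := by
  have e1 : ∀ G : Finset (El × El), (G.image Prod.swap).image Prod.fst = G.image Prod.snd := by
    intro G
    rw [Finset.image_image]
    rfl
  have e2 : ∀ G : Finset (El × El), (G.image Prod.swap).image Prod.snd = G.image Prod.fst := by
    intro G
    rw [Finset.image_image]
    rfl
  have e3 : ∀ G : Finset (El × El), (G.image Prod.swap).image Prod.swap = G := by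
    intro G
    rw [Finset.image_image]
    ext x
    simp
  refine ⟨?_, ?_, ?_, ?_, ?_⟩
  · intro p hp
    obtain ⟨q, hq, rfl⟩ := Finset.mem_image.1 hp
    exact (hF.kind q hq).symm
  · intro p hp q hq
    obtain ⟨p', hp', rfl⟩ := Finset.mem_image.1 hp
    obtain ⟨q', hq', rfl⟩ := Finset.mem_image.1 hq
    exact (hF.inj p' hp' q' hq').symm
  · intro G hG
    have h1 : G.image Prod.swap ⊆ F := by
      have := Finset.image_subset_image (f := Prod.swap) hG
      rwa [e3] at this
    have h2 := hF.rel _ h1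
    rw [e1, e2] at h2
    exact h2.symm
  · rw [e1]; exact hF.sr
  · rw [e2]; exact hF.sl

theorem strong_unique {c : Cfg} {A : Finset El} (hA : Strong c A) {y : El} (hy : y ∈ c.D)
    (hyA : y ∉ A) {r r' : Finset El} (hr : r ∈ c.R) (hr' : r' ∈ c.R)
    (h1 : r ⊆ insert y A) (h2 : r' ⊆ insert y A) (h3 : y ∈ r) (h4 : y ∈ r') : r = r' := by
  by_contra hne
  have key := hA.2 (insert y A) (Finset.subset_insert _ _)
    (Finset.insert_subset hy hA.1)
  have hn : ∀ q : Finset El, y ∈ q → q ∉ relIn c.R A := by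
    intro q hq hq'
    exact hyA ((mem_relIn.1 hq').2 hq)
  have hsub : insert r (insert r' (relIn c.R A)) ⊆ relIn c.R (insert y A) := by
    intro q hq
    simp only [Finset.mem_insert] at hq
    rcases hq with rfl | rfl | hq
    · exact mem_relIn.2 ⟨hr, h1⟩
    · exact mem_relIn.2 ⟨hr', h2⟩
    · exact mem_relIn.2 ⟨(mem_relIn.1 hq).1, (mem_relIn.1 hq).2.trans (Finset.subset_insert _ _)⟩
  have hc := Finset.card_le_card hsub
  rw [Finset.card_insert_of_notMem, Finset.card_insert_of_notMem (hn r' h4)] at hc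
  · unfold dl at key
    rw [Finset.card_insert_of_notMem hyA] at key
    push_cast at key
    omega
  · simp only [Finset.mem_insert, not_or]
    exact ⟨hne, hn r h3⟩

theorem strong_insert {c : Cfg} {A : Finset El} (hA : Strong c A) {y : El} (hy : y ∈ c.D)
    (hyA : y ∉ A) {r : Finset El} (hr : r ∈ c.R)
    (h1 : r ⊆ insert y A) (h3 : y ∈ r) : Strong c (insert y A) := by
  refine ⟨Finset.insert_subset hy hA.1, fun S hS hSD => ?_⟩
  have h5 := hA.2 S ((Finset.subset_insert _ _).trans hS) hSD
  have hn : r ∉ relIn c.R A := fun hq' => hyA ((mem_relIn.1 hq').2 h3)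
  have hsub : insert r (relIn c.R A) ⊆ relIn c.R (insert y A) := by
    intro q hq
    simp only [Finset.mem_insert] at hq
    rcases hq with rfl | hq
    · exact mem_relIn.2 ⟨hr, h1⟩
    · exact mem_relIn.2 ⟨(mem_relIn.1 hq).1, (mem_relIn.1 hq).2.trans (Finset.subset_insert _ _)⟩
  have hc := Finset.card_le_card hsub
  rw [Finset.card_insert_of_notMem hn] at hc
  have h6 : dl c.R (insert y A) ≤ dl c.R A := by
    unfold dl
    rw [Finset.card_insert_of_notMem hyA]
    push_cast
    omega
  omega

/-- the pair graph restricted: subsets of a graph of a bijection are determined by projections -/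
theorem graph_fst_inj {F : Finset (El × El)} (hF : ∀ p ∈ F, ∀ q ∈ F, p.1 = q.1 ↔ p.2 = q.2)
    {G H : Finset (El × El)} (hG : G ⊆ F) (hH : H ⊆ F) (h : G.image Prod.fst = H.image Prod.fst) :
    G = H := by
  have key : ∀ {G H : Finset (El × El)}, G ⊆ F → H ⊆ F → G.image Prod.fst = H.image Prod.fst →
      G ⊆ H := by
    intro G H hG hH h p hp
    have : p.1 ∈ H.image Prod.fst := h ▸ Finset.mem_image_of_mem _ hp
    obtain ⟨q, hq, hqp⟩ := Finset.mem_image.1 this
    have h2 := (hF q (hH hq) p (hG hp)).1 hqp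
    have : q = p := Prod.ext hqp h2
    exact this ▸ hq
  exact Finset.Subset.antisymm (key hG hH h) (key hH hG h.symm)

theorem graph_snd_inj {F : Finset (El × El)} (hF : ∀ p ∈ F, ∀ q ∈ F, p.1 = q.1 ↔ p.2 = q.2)
    {G H : Finset (El × El)} (hG : G ⊆ F) (hH : H ⊆ F) (h : G.image Prod.snd = H.image Prod.snd) :
    G = H := by
  have key : ∀ {G H : Finset (El × El)}, G ⊆ F → H ⊆ F → G.image Prod.snd = H.image Prod.snd →
      G ⊆ H := by
    intro G H hG hH h p hp
    have : p.2 ∈ H.image Prod.snd := h ▸ Finset.mem_image_of_mem _ hp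
    obtain ⟨q, hq, hqp⟩ := Finset.mem_image.1 this
    have h2 := (hF q (hH hq) p (hG hp)).2 hqp
    have : q = p := Prod.ext h2 hqp
    exact this ▸ hq
  exact Finset.Subset.antisymm (key hG hH h) (key hH hG h.symm)

theorem insert_inj_of_notMem {a : El} {S T : Finset El} (hS : a ∉ S) (hT : a ∉ T)
    (h : insert a S = insert a T) : S = T := by
  rw [← Finset.erase_insert hS, h, Finset.erase_insert hT]

/-- forced extension of a partial isomorphism -/
theorem forced {c : Cfg} {F : Finset (El × El)} (hF : PI c F) {y x : El} (hyD : y ∈ c.D)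
    (hxD : x ∈ c.D) (hy : y ∉ F.image Prod.fst) (hx : x ∉ F.image Prod.snd) (hk : y.2 = x.2)
    {G0 : Finset (El × El)} (hG0 : G0 ⊆ F) (hr1 : insert y (G0.image Prod.fst) ∈ c.R)
    (hr2 : insert x (G0.image Prod.snd) ∈ c.R) : PI c (insert (y, x) F) := by
  have hG1 : G0.image Prod.fst ⊆ F.image Prod.fst := Finset.image_subset_image hG0
  have hG2 : G0.image Prod.snd ⊆ F.image Prod.snd := Finset.image_subset_image hG0
  refine ⟨?_, ?_, ?_, ?_, ?_⟩
  · intro p hp
    rcases Finset.mem_insert.1 hp with rfl | hp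
    · exact hk
    · exact hF.kind p hp
  · intro p hp q hq
    rcases Finset.mem_insert.1 hp with rfl | hp <;> rcases Finset.mem_insert.1 hq with rfl | hq
    · simp
    · constructor
      · intro h
        exact absurd (Finset.mem_image.2 ⟨q, hq, h.symm⟩) hy
      · intro h
        exact absurd (Finset.mem_image.2 ⟨q, hq, h.symm⟩) hx
    · constructor
      · intro h
        exact absurd (Finset.mem_image.2 ⟨p, hp, h⟩) hy
      · intro h
        exact absurd (Finset.mem_image.2 ⟨p, hp, h⟩) hx
    · exact hF.inj p hp q hq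
  · intro G hG
    by_cases hyx : (y, x) ∈ G
    · obtain ⟨G1, hG1', hn, rfl⟩ : ∃ G1, G1 ⊆ F ∧ (y, x) ∉ G1 ∧ G = insert (y, x) G1 := by
        refine ⟨G.erase (y, x), ?_, Finset.notMem_erase _ _, (Finset.insert_erase hyx).symm⟩
        intro p hp
        have h1 := Finset.mem_of_mem_erase hp
        have h2 := Finset.ne_of_mem_erase hp
        rcases Finset.mem_insert.1 (hG h1) with h | h
        · exact absurd h h2
        · exact h
      rw [Finset.image_insert, Finset.image_insert]
      have hs1 : G1.image Prod.fst ⊆ F.image Prod.fst := Finset.image_subset_image hG1'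
      have hs2 : G1.image Prod.snd ⊆ F.image Prod.snd := Finset.image_subset_image hG1'
      constructor
      · intro h
        have h7 := strong_unique hF.sl hyD hy h hr1 (Finset.insert_subset_insert _ hs1)
          (Finset.insert_subset_insert _ hG1) (Finset.mem_insert_self _ _)
          (Finset.mem_insert_self _ _)
        have h8 := insert_inj_of_notMem (fun h => hy (hs1 h)) (fun h => hy (hG1 h)) h7
        rw [graph_fst_inj hF.inj hG1' hG0 h8]
        exact hr2
      · intro h
        have h7 := strong_unique hF.sr hxD hx h hr2 (Finset.insert_subset_insert _ hs2)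
          (Finset.insert_subset_insert _ hG2) (Finset.mem_insert_self _ _)
          (Finset.mem_insert_self _ _)
        have h8 := insert_inj_of_notMem (fun h => hx (hs2 h)) (fun h => hx (hG2 h)) h7
        rw [graph_snd_inj hF.inj hG1' hG0 h8]
        exact hr1
    · apply hF.rel
      intro p hp
      rcases Finset.mem_insert.1 (hG hp) with h | h
      · exact absurd (h ▸ hp) hyx
      · exact h
  · rw [Finset.image_insert]
    exact strong_insert hF.sl hyD hy hr1 (Finset.insert_subset_insert _ hG1)
      (Finset.mem_insert_self _ _)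
  · rw [Finset.image_insert]
    exact strong_insert hF.sr hxD hx hr2 (Finset.insert_subset_insert _ hG2)
      (Finset.mem_insert_self _ _)

/-- every partial isomorphism extends to a maximal one -/
theorem exists_max {c : Cfg} {F : Finset (El × El)} (hF : PI c F) :
    ∃ F', F ⊆ F' ∧ PI c F' ∧ ∀ F'', F' ⊆ F'' → PI c F'' → F'' = F' := by
  classical
  have hfin : {F' : Finset (El × El) | F ⊆ F' ∧ PI c F'}.Finite := by
    apply Set.Finite.subset (Finset.finite_toSet (c.D ×ˢ c.D).powerset)
    rintro F' ⟨_, h⟩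
    simp only [Finset.coe_powerset, Set.mem_preimage, Set.mem_powerset_iff]
    intro p hp
    have hp' : p ∈ F' := hp
    have h1 : p.1 ∈ c.D := h.sl.1 (Finset.mem_image_of_mem _ hp')
    have h2 : p.2 ∈ c.D := h.sr.1 (Finset.mem_image_of_mem _ hp')
    have h3 : p ∈ c.D ×ˢ c.D := Finset.mem_product.2 ⟨h1, h2⟩
    exact h3
  obtain ⟨F', hF', hmax⟩ := hfin.exists_maximalFor Finset.card _ ⟨F, subset_rfl, hF⟩
  refine ⟨F', hF'.1, hF'.2, fun F'' h1 h2 => ?_⟩
  have h3 := hmax (j := F'') ⟨hF'.1.trans h1, h2⟩ (Finset.card_le_card h1)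
  exact (Finset.eq_of_subset_of_card_le h1 h3).symm

end Pool.Agent.H24.Hru
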