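import Pool.Agent.H24.Hru1

set_option autoImplicit false

namespace Pool.Agent.H24.Hru

/-- the data of a copy map -/
structure Cp (c : Cfg) (F : Finset (El × El)) (g : El → El) : Prop where
  on : ∀ p ∈ F, g p.1 = p.2
  out : ∀ e, e ∈ c.D → e ∉ F.image Prod.fst → g e ∉ c.D
  kind : ∀ e, (g e).2 = e.2
  inj : Set.InjOn g c.D

theorem exists_cp {c : Cfg} {F : Finset (El × El)} (hF : PI c F) : ∃ g, Cp c F g := by
  classical
  let K := c.D.sup Prod.fst + 1
  have hK : ∀ e ∈ c.D, e.1 < K := by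
    intro e he
    have : e.1 ≤ c.D.sup Prod.fst := Finset.le_sup (f := Prod.fst) he
    omega
  let g : El → El := fun e => if h : ∃ e', (e, e') ∈ F then h.choose else (e.1 + K, e.2)
  have h1 : ∀ p ∈ F, g p.1 = p.2 := by
    intro p hp
    have h : ∃ e', (p.1, e') ∈ F := ⟨p.2, hp⟩
    simp only [g, dif_pos h]
    exact (hF.inj _ h.choose_spec p hp).1 rfl
  have h2 : ∀ e, e ∉ F.image Prod.fst → g e = (e.1 + K, e.2) := by
    intro e he
    have h : ¬ ∃ e', (e, e') ∈ F := by
      rintro ⟨e', h'⟩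
      exact he (Finset.mem_image.2 ⟨_, h', rfl⟩)
    simp only [g, dif_neg h]
  have h3 : ∀ e, e ∉ F.image Prod.fst → g e ∉ c.D := by
    intro e he h
    rw [h2 e he] at h
    have := hK _ h
    simp at this
  refine ⟨g, h1, fun e _ he => h3 e he, ?_, ?_⟩
  · intro e
    by_cases he : e ∈ F.image Prod.fst
    · obtain ⟨p, hp, rfl⟩ := Finset.mem_image.1 he
      rw [h1 p hp]
      exact (hF.kind p hp).symm
    · rw [h2 e he]
  · intro a ha b hb hab
    by_cases ha' : a ∈ F.image Prod.fst <;> by_cases hb' : b ∈ F.image Prod.fst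
    · obtain ⟨p, hp, rfl⟩ := Finset.mem_image.1 ha'
      obtain ⟨q, hq, rfl⟩ := Finset.mem_image.1 hb'
      rw [h1 p hp, h1 q hq] at hab
      exact (hF.inj p hp q hq).2 hab
    · exfalso
      obtain ⟨p, hp, rfl⟩ := Finset.mem_image.1 ha'
      rw [h1 p hp] at hab
      apply h3 b hb'
      rw [← hab]
      exact hF.sr.1 (Finset.mem_image_of_mem _ hp)
    · exfalso
      obtain ⟨p, hp, rfl⟩ := Finset.mem_image.1 hb'
      rw [h1 p hp] at hab
      apply h3 a ha'
      rw [hab]
      exact hF.sr.1 (Finset.mem_image_of_mem _ hp)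
    · rw [h2 a ha', h2 b hb'] at hab
      simp only [Prod.mk.injEq, add_left_inj] at hab
      exact Prod.ext hab.1 hab.2

section
variable {c : Cfg} {F : Finset (El × El)} {g : El → El}

theorem img_inj (hg : Cp c F g) {r s : Finset El} (hr : r ⊆ c.D) (hs : s ⊆ c.D)
    (h : r.image g = s.image g) : r = s := by
  have key : ∀ {r s : Finset El}, r ⊆ c.D → s ⊆ c.D → r.image g = s.image g → r ⊆ s := by
    intro r s hr hs h e he
    have : g e ∈ s.image g := h ▸ Finset.mem_image_of_mem _ he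
    obtain ⟨q, hq, hqe⟩ := Finset.mem_image.1 this
    have := hg.inj (hs hq) (hr he) hqe
    exact this ▸ hq
  exact Finset.Subset.antisymm (key hr hs h) (key hs hr h.symm)

theorem img_card (hg : Cp c F g) {r : Finset El} (hr : r ⊆ c.D) : (r.image g).card = r.card :=
  Finset.card_image_of_injOn (hg.inj.mono (by exact_mod_cast hr))

theorem img_pts (hg : Cp c F g) (r : Finset El) : pts (r.image g) = (pts r).image g := by
  ext e
  simp only [pts, Finset.mem_filter, Finset.mem_image]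
  constructor
  · rintro ⟨⟨a, ha, rfl⟩, h⟩
    exact ⟨a, ⟨ha, by rw [← hg.kind a]; exact h⟩, rfl⟩
  · rintro ⟨a, ⟨ha, h⟩, rfl⟩
    exact ⟨⟨a, ha, rfl⟩, by rw [hg.kind a]; exact h⟩

theorem img_cls (hg : Cp c F g) (r : Finset El) : cls (r.image g) = (cls r).image g := by
  ext e
  simp only [cls, Finset.mem_filter, Finset.mem_image]
  constructor
  · rintro ⟨⟨a, ha, rfl⟩, h⟩
    exact ⟨a, ⟨ha, by rw [← hg.kind a]; exact h⟩, rfl⟩
  · rintro ⟨a, ⟨ha, h⟩, rfl⟩
    exact ⟨⟨a, ha, rfl⟩, by rw [hg.kind a]; exact h⟩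

theorem pts_sub (r : Finset El) : pts r ⊆ r := Finset.filter_subset _ _
theorem cls_sub (r : Finset El) : cls r ⊆ r := Finset.filter_subset _ _

theorem img_mem_D (hF : PI c F) (hg : Cp c F g) {e : El} (he : e ∈ c.D) :
    g e ∈ c.D ↔ e ∈ F.image Prod.fst := by
  constructor
  · intro h
    by_contra h'
    exact hg.out e he h' h
  · intro h
    obtain ⟨p, hp, rfl⟩ := Finset.mem_image.1 h
    rw [hg.on p hp]
    exact hF.sr.1 (Finset.mem_image_of_mem _ hp)

theorem graph_part (hg : Cp c F g) {r : Finset El} (hr : r ⊆ F.image Prod.fst) :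
    (F.filter (fun p => p.1 ∈ r)).image Prod.fst = r ∧
    (F.filter (fun p => p.1 ∈ r)).image Prod.snd = r.image g := by
  constructor
  · ext e
    simp only [Finset.mem_image, Finset.mem_filter]
    constructor
    · rintro ⟨p, ⟨_, h⟩, rfl⟩
      exact h
    · intro he
      obtain ⟨p, hp, rfl⟩ := Finset.mem_image.1 (hr he)
      exact ⟨p, ⟨hp, he⟩, rfl⟩
  · ext e
    simp only [Finset.mem_image, Finset.mem_filter]
    constructor
    · rintro ⟨p, ⟨hp, h⟩, rfl⟩
      exact ⟨p.1, h, hg.on p hp⟩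
    · rintro ⟨a, ha, rfl⟩
      obtain ⟨p, hp, rfl⟩ := Finset.mem_image.1 (hr ha)
      exact ⟨p, ⟨hp, ha⟩, (hg.on p hp).symm⟩

theorem img_rel (hF : PI c F) (hg : Cp c F g) {r : Finset El} (hr : r ⊆ F.image Prod.fst) :
    r ∈ c.R ↔ r.image g ∈ c.R := by
  have h := graph_part hg hr
  have := hF.rel _ (Finset.filter_subset (fun p => p.1 ∈ r) F)
  rw [h.1, h.2] at this
  exact this

theorem pre_rel (hF : PI c F) (hg : Cp c F g) {r : Finset El} (hr : r ⊆ F.image Prod.snd)
    (hrR : r ∈ c.R) : ∃ r0 ∈ c.R, r0 ⊆ F.image Prod.fst ∧ r0.image g = r := by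
  have e1 : (F.filter (fun p => p.2 ∈ r)).image Prod.snd = r := by
    ext e
    simp only [Finset.mem_image, Finset.mem_filter]
    constructor
    · rintro ⟨p, ⟨_, h⟩, rfl⟩
      exact h
    · intro he
      obtain ⟨p, hp, rfl⟩ := Finset.mem_image.1 (hr he)
      exact ⟨p, ⟨hp, he⟩, rfl⟩
  refine ⟨(F.filter (fun p => p.2 ∈ r)).image Prod.fst, ?_, ?_, ?_⟩
  · rw [hF.rel _ (Finset.filter_subset _ _), e1]
    exact hrR
  · exact Finset.image_subset_image (Finset.filter_subset _ _)
  · rw [Finset.image_image]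
    conv_rhs => rw [← e1]
    apply Finset.image_congr
    intro p hp
    have hp' : p ∈ F := by
      have : p ∈ F.filter (fun p => p.2 ∈ r) := hp
      exact (Finset.mem_filter.1 this).1
    exact hg.on p hp'

/-- the amalgam -/
def am (c : Cfg) (g : El → El) : Cfg :=
  ⟨c.D ∪ c.D.image g, c.R ∪ c.R.image (fun r => r.image g)⟩

theorem mem_amR {r : Finset El} :
    r ∈ (am c g).R ↔ r ∈ c.R ∨ ∃ r0 ∈ c.R, r0.image g = r := by
  simp [am, Finset.mem_image]

theorem inter_sub (hF : PI c F) (hg : Cp c F g) {u : Finset El} (h1 : u ⊆ c.D)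
    (h2 : u ⊆ c.D.image g) : u ⊆ F.image Prod.snd := by
  intro e he
  obtain ⟨a, ha, rfl⟩ := Finset.mem_image.1 (h2 he)
  have h3 := (img_mem_D hF hg ha).1 (h1 he)
  obtain ⟨p, hp, rfl⟩ := Finset.mem_image.1 h3
  rw [hg.on p hp]
  exact Finset.mem_image_of_mem _ hp

/-- an image relation lying in D is a relation of c -/
theorem img_in (hc : Good c) (hF : PI c F) (hg : Cp c F g) {r0 : Finset El} (h0 : r0 ∈ c.R)
    (h : r0.image g ⊆ c.D) : r0.image g ∈ c.R := by
  have : r0 ⊆ F.image Prod.fst := by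
    intro e he
    exact (img_mem_D hF hg (hc.sub r0 h0 he)).1 (h (Finset.mem_image_of_mem _ he))
  exact (img_rel hF hg this).1 h0

theorem am_rel (hc : Good c) (hF : PI c F) (hg : Cp c F g) {r : Finset El} (hr : r ⊆ c.D) :
    r ∈ (am c g).R ↔ r ∈ c.R := by
  rw [mem_amR]
  constructor
  · rintro (h | ⟨r0, h0, rfl⟩)
    · exact h
    · exact img_in hc hF hg h0 hr
  · exact Or.inl

/-- main inequality -/
theorem main_ineq (hc : Good c) (hF : PI c F) (hg : Cp c F g) {S : Finset El}
    (hS : S ⊆ (am c g).D) :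
    dl c.R (S ∩ c.D) + dl c.R (c.D.filter (fun e => g e ∈ S)) -
      dl c.R (c.D.filter (fun e => g e ∈ S) ∩ F.image Prod.fst) ≤ dl (am c g).R S := by
  set S1 := S ∩ c.D with hS1
  set S2 := c.D.filter (fun e => g e ∈ S) with hS2
  set S0 := S2 ∩ F.image Prod.fst with hS0
  have hS2D : S2 ⊆ c.D := Finset.filter_subset _ _
  have hS0D : S0 ⊆ c.D := Finset.inter_subset_left.trans hS2D
  have e1 : S = S1 ∪ S2.image g := by
    ext e
    simp only [hS1, hS2, Finset.mem_union, Finset.mem_inter, Finset.mem_image, Finset.mem_filter]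
    constructor
    · intro he
      have := hS he
      simp only [am, Finset.mem_union, Finset.mem_image] at this
      rcases this with h | ⟨a, ha, rfl⟩
      · exact Or.inl ⟨he, h⟩
      · exact Or.inr ⟨a, ⟨ha, he⟩, rfl⟩
    · rintro (h | ⟨a, ⟨_, h⟩, rfl⟩)
      · exact h.1
      · exact h
  have e2 : S1 ∩ S2.image g = S0.image g := by
    ext e
    simp only [Finset.mem_inter, Finset.mem_image, hS0]
    constructor
    · rintro ⟨h1, a, ha, rfl⟩
      have haD := hS2D ha
      have h1' : g a ∈ c.D := (Finset.mem_inter.1 h1).2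
      have h3 := (img_mem_D hF hg haD).1 h1'
      exact ⟨a, ⟨ha, Finset.mem_image.1 h3⟩, rfl⟩
    · rintro ⟨a, ⟨ha, h3⟩, rfl⟩
      refine ⟨?_, a, ha, rfl⟩
      have haD := hS2D ha
      have h4 := (img_mem_D hF hg haD).2 (Finset.mem_image.2 h3)
      exact Finset.mem_inter.2 ⟨(Finset.mem_filter.1 ha).2, h4⟩
  have n0 := Finset.card_union_add_card_inter S1 (S2.image g)
  rw [← e1, e2, img_card hg hS2D, img_card hg hS0D] at n0
  have e3 : relIn (am c g).R S ⊆ relIn c.R S1 ∪ (relIn c.R S2).image (fun r => r.image g) := by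
    intro r hr
    obtain ⟨h1, h2⟩ := mem_relIn.1 hr
    rw [Finset.mem_union]
    rcases mem_amR.1 h1 with h | ⟨r0, h0, rfl⟩
    · left
      exact mem_relIn.2 ⟨h, Finset.subset_inter h2 (hc.sub r h)⟩
    · right
      refine Finset.mem_image.2 ⟨r0, mem_relIn.2 ⟨h0, ?_⟩, rfl⟩
      intro e he
      exact Finset.mem_filter.2 ⟨hc.sub r0 h0 he, h2 (Finset.mem_image_of_mem _ he)⟩
  have n1 := Finset.card_le_card e3
  have n2 := Finset.card_union_add_card_inter (relIn c.R S1)
    ((relIn c.R S2).image (fun r => r.image g))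
  have injR : ∀ T : Finset El, T ⊆ c.D →
      ((relIn c.R T).image (fun r => r.image g)).card = (relIn c.R T).card := by
    intro T hT
    apply Finset.card_image_of_injOn
    intro a ha b hb hab
    have ha' : a ∈ relIn c.R T := ha
    have hb' : b ∈ relIn c.R T := hb
    exact img_inj hg ((mem_relIn.1 ha').2.trans hT) ((mem_relIn.1 hb').2.trans hT) hab
  have e4 : (relIn c.R S0).image (fun r => r.image g) ⊆
      relIn c.R S1 ∩ (relIn c.R S2).image (fun r => r.image g) := by
    intro r hr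
    obtain ⟨r0, h0, rfl⟩ := Finset.mem_image.1 hr
    obtain ⟨h1, h2⟩ := mem_relIn.1 h0
    have h2A : r0 ⊆ F.image Prod.fst := h2.trans Finset.inter_subset_right
    rw [Finset.mem_inter]
    constructor
    · refine mem_relIn.2 ⟨(img_rel hF hg h2A).1 h1, ?_⟩
      intro e he
      obtain ⟨a, ha, rfl⟩ := Finset.mem_image.1 he
      have ha2 : a ∈ S2 := Finset.inter_subset_left (h2 ha)
      exact Finset.mem_inter.2 ⟨(Finset.mem_filter.1 ha2).2,
        (img_mem_D hF hg (hS2D ha2)).2 (h2A ha)⟩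
    · exact Finset.mem_image.2 ⟨r0, mem_relIn.2 ⟨h1, h2.trans Finset.inter_subset_left⟩, rfl⟩
  have n3 := Finset.card_le_card e4
  rw [injR S0 hS0D] at n3
  rw [injR S2 hS2D] at n2
  unfold dl
  omega

theorem S0_eq (hF : PI c F) (hg : Cp c F g) (S : Finset El) :
    dl c.R (c.D.filter (fun e => g e ∈ S) ∩ F.image Prod.fst) =
      dl c.R ((S ∩ c.D) ∩ F.image Prod.snd) := by
  set S2 := c.D.filter (fun e => g e ∈ S) with hS2
  set S0 := S2 ∩ F.image Prod.fst with hS0
  have hS2D : S2 ⊆ c.D := Finset.filter_subset _ _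
  have hS0D : S0 ⊆ c.D := Finset.inter_subset_left.trans hS2D
  have e1 : (S ∩ c.D) ∩ F.image Prod.snd = S0.image g := by
    ext e
    simp only [Finset.mem_inter, hS0, hS2, Finset.mem_image, Finset.mem_filter]
    constructor
    · rintro ⟨⟨h1, h2⟩, p, hp, rfl⟩
      refine ⟨p.1, ⟨⟨hF.sl.1 (Finset.mem_image_of_mem _ hp), ?_⟩, p, hp, rfl⟩, hg.on p hp⟩
      rw [hg.on p hp]; exact h1
    · rintro ⟨a, ⟨⟨h1, h2⟩, p, hp, rfl⟩, rfl⟩
      refine ⟨⟨h2, ?_⟩, p, hp, (hg.on p hp).symm⟩
      exact (img_mem_D hF hg h1).2 (Finset.mem_image_of_mem _ hp)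
  have e2 : relIn c.R (S0.image g) = (relIn c.R S0).image (fun r => r.image g) := by
    ext r
    constructor
    · intro hr
      obtain ⟨h1, h2⟩ := mem_relIn.1 hr
      have h3 : r ⊆ F.image Prod.snd := by
        rw [← e1] at h2
        exact h2.trans Finset.inter_subset_right
      obtain ⟨r0, h0, hA, rfl⟩ := pre_rel hF hg h3 h1
      refine Finset.mem_image.2 ⟨r0, mem_relIn.2 ⟨h0, ?_⟩, rfl⟩
      intro e he
      obtain ⟨a, ha, hae⟩ := Finset.mem_image.1 (h2 (Finset.mem_image_of_mem g he))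
      have := hg.inj (hS0D ha) (hF.sl.1 (hA he)) hae
      exact this ▸ ha
    · intro hr
      obtain ⟨r0, h0, rfl⟩ := Finset.mem_image.1 hr
      obtain ⟨h1, h2⟩ := mem_relIn.1 h0
      refine mem_relIn.2 ⟨(img_rel hF hg (h2.trans Finset.inter_subset_right)).1 h1, ?_⟩
      exact Finset.image_subset_image h2
  rw [e1]
  unfold dl
  rw [e2, img_card hg hS0D]
  congr 2
  symm
  apply Finset.card_image_of_injOn
  intro a ha b hb hab
  have ha' : a ∈ relIn c.R S0 := ha
  have hb' : b ∈ relIn c.R S0 := hb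
  exact img_inj hg ((mem_relIn.1 ha').2.trans hS0D) ((mem_relIn.1 hb').2.trans hS0D) hab

theorem ineq1 (hc : Good c) (hF : PI c F) (hg : Cp c F g) {S : Finset El}
    (hS : S ⊆ (am c g).D) : dl c.R (S ∩ c.D) ≤ dl (am c g).R S := by
  have h := main_ineq hc hF hg hS
  have h2 := strong_inter hF.sl (Finset.filter_subset (fun e => g e ∈ S) c.D)
  omega

theorem ineq2 (hc : Good c) (hF : PI c F) (hg : Cp c F g) {S : Finset El}
    (hS : S ⊆ (am c g).D) : dl c.R (c.D.filter (fun e => g e ∈ S)) ≤ dl (am c g).R S := by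
  have h := main_ineq hc hF hg hS
  have h2 := strong_inter hF.sr (S := S ∩ c.D) Finset.inter_subset_right
  rw [S0_eq hF hg] at h
  omega

theorem am_ext (hc : Good c) (hF : PI c F) (hg : Cp c F g) : Ext c (am c g) := by
  refine ⟨Finset.subset_union_left, fun r hr => am_rel hc hF hg hr, Finset.subset_union_left,
    fun S hDS hS => ?_⟩
  have h1 := ineq1 hc hF hg hS
  rw [Finset.inter_eq_right.2 hDS] at h1
  have : dl (am c g).R c.D = dl c.R c.D := by
    have : relIn (am c g).R c.D = relIn c.R c.D := by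
      ext r
      simp only [mem_relIn]
      constructor
      · rintro ⟨a, b⟩
        exact ⟨(am_rel hc hF hg b).1 a, b⟩
      · rintro ⟨a, b⟩
        exact ⟨(am_rel hc hF hg b).2 a, b⟩
    unfold dl
    rw [this]
  rw [this]
  exact h1

theorem am_str (hc : Good c) (hF : PI c F) (hg : Cp c F g) : Strong (am c g) (c.D.image g) := by
  refine ⟨Finset.subset_union_right, fun S hDS hS => ?_⟩
  have h1 := ineq2 hc hF hg hS
  have h2 : c.D.filter (fun e => g e ∈ S) = c.D := by
    apply Finset.filter_true_of_mem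
    intro e he
    exact hDS (Finset.mem_image_of_mem _ he)
  rw [h2] at h1
  refine le_trans ?_ h1
  have h3 : c.R.image (fun r => r.image g) ⊆ relIn (am c g).R (c.D.image g) := by
    intro r hr
    obtain ⟨r0, h0, rfl⟩ := Finset.mem_image.1 hr
    exact mem_relIn.2 ⟨mem_amR.2 (Or.inr ⟨r0, h0, rfl⟩),
      Finset.image_subset_image (hc.sub r0 h0)⟩
  have h4 := Finset.card_le_card h3
  rw [Finset.card_image_of_injOn] at h4
  · have h5 : relIn c.R c.D = c.R := by
      apply Finset.filter_true_of_mem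
      exact hc.sub
    unfold dl
    rw [h5, img_card hg subset_rfl]
    omega
  · intro a ha b hb hab
    exact img_inj hg (hc.sub a ha) (hc.sub b hb) hab

end

end Pool.Agent.H24.Hru
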