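import Pool.Agent.H24.Hru2

set_option autoImplicit false

namespace Pool.Agent.H24.Hru

section
variable {c : Cfg} {F : Finset (El × El)} {g : El → El}

theorem rel_card (hc : Good c) {r : Finset El} (hr : r ∈ c.R) : r.card = 4 := by
  rw [card_split, hc.three r hr, hc.one r hr]

theorem am_three (hc : Good c) (hg : Cp c F g) {r : Finset El} (hr : r ∈ (am c g).R) :
    (pts r).card = 3 := by
  rcases mem_amR.1 hr with h | ⟨r0, h0, rfl⟩
  · exact hc.three r h
  · rw [img_pts hg, img_card hg ((pts_sub r0).trans (hc.sub r0 h0))]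
    exact hc.three r0 h0

theorem am_one (hc : Good c) (hg : Cp c F g) {r : Finset El} (hr : r ∈ (am c g).R) :
    (cls r).card = 1 := by
  rcases mem_amR.1 hr with h | ⟨r0, h0, rfl⟩
  · exact hc.one r h
  · rw [img_cls hg, img_card hg ((cls_sub r0).trans (hc.sub r0 h0))]
    exact hc.one r0 h0

theorem kind_eq {u : Finset El} {x x' : El} (hx : x ∉ u) (hx' : x' ∉ u)
    (h : (pts (insert x u)).card = (pts (insert x' u)).card) : x.2 = x'.2 := by
  have key : ∀ z : El, z ∉ u → (pts (insert z u)).card = (pts u).card + if z.2 = true then 1 else 0 := by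
    intro z hz
    unfold pts
    rw [Finset.filter_insert]
    split_ifs with h1
    · rw [Finset.card_insert_of_notMem]
      intro h2
      exact hz (Finset.filter_subset _ _ h2)
    · rfl
  rw [key x hx, key x' hx'] at h
  cases h1 : x.2 <;> cases h2 : x'.2 <;> simp [h1, h2] at h ⊢

/-- the key use of maximality -/
theorem mixed (hc : Good c) (hF : PI c F)
    (hmax : ∀ F'', F ⊆ F'' → PI c F'' → F'' = F) (hg : Cp c F g)
    {r1 r0 : Finset El} (h1 : r1 ∈ c.R) (h0 : r0 ∈ c.R) (hne : r1 ≠ r0.image g)
    (h3 : 3 ≤ (r1 ∩ r0.image g).card) :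
    (∃ r ∈ c.R, r.image g = r1) ∨ r0.image g ∈ c.R := by
  by_contra hcon
  push Not at hcon
  obtain ⟨hc1, hc2⟩ := hcon
  have hr0D := hc.sub r0 h0
  have hr1D := hc.sub r1 h1
  have h2R : r0.image g ∈ (am c g).R := mem_amR.2 (Or.inr ⟨r0, h0, rfl⟩)
  have c1 := rel_card hc h1
  have c2 : (r0.image g).card = 4 := by rw [img_card hg hr0D]; exact rel_card hc h0
  set r2 := r0.image g with hr2
  set u := r1 ∩ r2 with hu
  have hu4 : u.card ≠ 4 := by
    intro h4
    have e1 : u = r1 := Finset.eq_of_subset_of_card_le Finset.inter_subset_left (by omega)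
    have e2 : u = r2 := Finset.eq_of_subset_of_card_le Finset.inter_subset_right (by omega)
    exact hne (e1.symm.trans e2)
  have hu1 : u.card ≤ r1.card := Finset.card_le_card Finset.inter_subset_left
  have hu3 : u.card = 3 := by omega
  have hx : ∃ x, r1 \ u = {x} := by
    have h7 : (r1 \ u).card = r1.card - u.card :=
      Finset.card_sdiff_of_subset Finset.inter_subset_left
    exact Finset.card_eq_one.1 (by omega)
  have hx' : ∃ x', r2 \ u = {x'} := by
    have h7 : (r2 \ u).card = r2.card - u.card :=
      Finset.card_sdiff_of_subset Finset.inter_subset_right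
    exact Finset.card_eq_one.1 (by omega)
  obtain ⟨x, hx⟩ := hx
  obtain ⟨x', hx'⟩ := hx'
  have hxm : x ∈ r1 \ u := by rw [hx]; exact Finset.mem_singleton_self _
  have hxm' : x' ∈ r2 \ u := by rw [hx']; exact Finset.mem_singleton_self _
  have hx1 := (Finset.mem_sdiff.1 hxm).1
  have hxu := (Finset.mem_sdiff.1 hxm).2
  have hx1' := (Finset.mem_sdiff.1 hxm').1
  have hxu' := (Finset.mem_sdiff.1 hxm').2
  have er1 : r1 = insert x u := by
    rw [Finset.insert_eq, ← hx]
    exact (Finset.sdiff_union_of_subset Finset.inter_subset_left).symm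
  have er2 : r2 = insert x' u := by
    rw [Finset.insert_eq, ← hx']
    exact (Finset.sdiff_union_of_subset Finset.inter_subset_right).symm
  have huA : u ⊆ F.image Prod.snd := by
    apply inter_sub hF hg (Finset.inter_subset_left.trans hr1D)
    exact Finset.inter_subset_right.trans (Finset.image_subset_image hr0D)
  have hxA : x ∉ F.image Prod.snd := by
    intro h
    have : r1 ⊆ F.image Prod.snd := by
      rw [er1]
      exact Finset.insert_subset h huA
    obtain ⟨r, hr, _, hrr⟩ := pre_rel hF hg this h1
    exact hc1 r hr hrr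
  obtain ⟨y, hy, hyx⟩ := Finset.mem_image.1 hx1'
  have hyA : y ∉ F.image Prod.fst := by
    intro h
    apply hc2
    apply img_in hc hF hg h0
    rw [← hr2, er2]
    apply Finset.insert_subset
    · rw [← hyx]
      exact (img_mem_D hF hg (hr0D hy)).2 h
    · exact Finset.inter_subset_left.trans hr1D
  have hkind : y.2 = x.2 := by
    have h5 : x.2 = x'.2 := by
      apply kind_eq hxu hxu'
      rw [← er1, ← er2, am_three hc hg h2R, hc.three r1 h1]
    rw [h5, ← hyx, hg.kind y]
  have eG : (F.filter (fun p => p.2 ∈ u)).image Prod.snd = u := by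
    ext e
    simp only [Finset.mem_image, Finset.mem_filter]
    constructor
    · rintro ⟨p, ⟨_, h⟩, rfl⟩
      exact h
    · intro he
      obtain ⟨p, hp, rfl⟩ := Finset.mem_image.1 (huA he)
      exact ⟨p, ⟨hp, he⟩, rfl⟩
  have eH : ((F.filter (fun p => p.2 ∈ u)).image Prod.fst).image g = u := by
    rw [Finset.image_image]
    conv_rhs => rw [← eG]
    apply Finset.image_congr
    intro p hp
    have hp' : p ∈ F := by
      have : p ∈ F.filter (fun p => p.2 ∈ u) := hp
      exact (Finset.mem_filter.1 this).1
    exact hg.on p hp'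
  have hsubD : (F.filter (fun p => p.2 ∈ u)).image Prod.fst ⊆ c.D :=
    (Finset.image_subset_image (Finset.filter_subset _ _)).trans hF.sl.1
  have er0 : insert y ((F.filter (fun p => p.2 ∈ u)).image Prod.fst) = r0 := by
    apply img_inj hg (Finset.insert_subset (hr0D hy) hsubD) hr0D
    rw [Finset.image_insert, eH, hyx, ← er2]
  have hnew := forced hF (hr0D hy) (hr1D hx1) hyA hxA hkind
    (Finset.filter_subset (fun p => p.2 ∈ u) F) (by rw [er0]; exact h0)
    (by rw [eG, ← er1]; exact h1)
  have h9 := hmax _ (Finset.subset_insert _ _) hnew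
  apply hyA
  have : (y, x) ∈ F := by
    rw [← h9]
    exact Finset.mem_insert_self _ _
  exact Finset.mem_image_of_mem Prod.fst this

theorem img_few (hc : Good c) (hg : Cp c F g) {r s : Finset El} (hr : r ∈ c.R) (hs : s ∈ c.R)
    (hne : r.image g ≠ s.image g) : (r.image g ∩ s.image g).card ≤ 2 := by
  have hrs : r ≠ s := fun h => hne (by rw [h])
  have h1 := hc.few r hr s hs hrs
  have h2 : r.image g ∩ s.image g = (r ∩ s).image g := by
    ext e
    simp only [Finset.mem_inter, Finset.mem_image]
    constructor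
    · rintro ⟨⟨a, ha, rfl⟩, b, hb, hba⟩
      have := hg.inj (hc.sub s hs hb) (hc.sub r hr ha) hba
      subst this
      exact ⟨b, ⟨ha, hb⟩, rfl⟩
    · rintro ⟨a, ⟨ha, hb⟩, rfl⟩
      exact ⟨⟨a, ha, rfl⟩, a, hb, rfl⟩
  rw [h2]
  exact Finset.card_image_le.trans h1

theorem am_few (hc : Good c) (hF : PI c F)
    (hmax : ∀ F'', F ⊆ F'' → PI c F'' → F'' = F) (hg : Cp c F g)
    {r s : Finset El} (hr : r ∈ (am c g).R) (hs : s ∈ (am c g).R) (hne : r ≠ s) :
    (r ∩ s).card ≤ 2 := by
  have mix : ∀ r1 ∈ c.R, ∀ r0 ∈ c.R, r1 ≠ r0.image g → (r1 ∩ r0.image g).card ≤ 2 := by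
    intro r1 h1 r0 h0 hne
    by_contra hcon
    rcases mixed hc hF hmax hg h1 h0 hne (by omega) with ⟨r, hr, rfl⟩ | h
    · exact hcon (img_few hc hg hr h0 hne)
    · exact hcon (hc.few r1 h1 _ h hne)
  rcases mem_amR.1 hr with h | ⟨r0, h0, rfl⟩ <;> rcases mem_amR.1 hs with h' | ⟨s0, h0', rfl⟩
  · exact hc.few r h s h' hne
  · exact mix r h s0 h0' hne
  · rw [Finset.inter_comm]
    exact mix s h' r0 h0 hne.symm
  · exact img_few hc hg h0 h0' hne

/-- with at most three points there is at most one relation -/
theorem few_pts (hc : Good c) {S : Finset El} (hS : (pts S).card < 4) :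
    (relIn c.R S).card ≤ 1 := by
  rw [Finset.card_le_one]
  intro r hr s hs
  by_contra hne
  obtain ⟨h1, h2⟩ := mem_relIn.1 hr
  obtain ⟨h3, h4⟩ := mem_relIn.1 hs
  have p1 : pts r ⊆ pts S := Finset.filter_subset_filter _ h2
  have p2 : pts s ⊆ pts S := Finset.filter_subset_filter _ h4
  have e1 : pts r = pts S := Finset.eq_of_subset_of_card_le p1 (by rw [hc.three r h1]; omega)
  have e2 : pts s = pts S := Finset.eq_of_subset_of_card_le p2 (by rw [hc.three s h3]; omega)
  have h5 : pts r ⊆ r ∩ s := by
    apply Finset.subset_inter (pts_sub r)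
    rw [e1, ← e2]
    exact pts_sub s
  have h6 := Finset.card_le_card h5
  rw [hc.three r h1] at h6
  have := hc.few r h1 s h3 hne
  omega

theorem am_good (hc : Good c) (hF : PI c F)
    (hmax : ∀ F'', F ⊆ F'' → PI c F'' → F'' = F) (hg : Cp c F g) : Good (am c g) := by
  refine ⟨?_, fun r hr => am_three hc hg hr, fun r hr => am_one hc hg hr,
    fun r hr s hs hne => am_few hc hF hmax hg hr hs hne, ?_⟩
  · intro r hr
    rcases mem_amR.1 hr with h | ⟨r0, h0, rfl⟩
    · exact (hc.sub r h).trans Finset.subset_union_left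
    · exact (Finset.image_subset_image (hc.sub r0 h0)).trans Finset.subset_union_right
  · intro S hS h4
    have i1 := ineq1 hc hF hg hS
    have i2 := ineq2 hc hF hg hS
    by_cases hp1 : 4 ≤ (pts (S ∩ c.D)).card
    · exact (hc.four _ Finset.inter_subset_right hp1).trans i1
    by_cases hp2 : 4 ≤ (pts (c.D.filter (fun e => g e ∈ S))).card
    · exact (hc.four _ (Finset.filter_subset _ _) hp2).trans i2
    have f1 := few_pts hc (S := S ∩ c.D) (by omega)
    have f2 := few_pts hc (S := c.D.filter (fun e => g e ∈ S)) (by omega)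
    have e3 : relIn (am c g).R S ⊆ relIn c.R (S ∩ c.D) ∪
        (relIn c.R (c.D.filter (fun e => g e ∈ S))).image (fun r => r.image g) := by
      intro r hr
      obtain ⟨h1, h2⟩ := mem_relIn.1 hr
      rw [Finset.mem_union]
      rcases mem_amR.1 h1 with h | ⟨r0, h0, rfl⟩
      · left
        exact mem_relIn.2 ⟨h, Finset.subset_inter h2 (hc.sub r h)⟩
      · right
        refine Finset.mem_image.2 ⟨r0, mem_relIn.2 ⟨h0, ?_⟩, rfl⟩
        intro e he
        exact Finset.mem_filter.2 ⟨hc.sub r0 h0 he, h2 (Finset.mem_image_of_mem _ he)⟩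
    have n1 := Finset.card_le_card e3
    have n2 := Finset.card_union_le (relIn c.R (S ∩ c.D))
      ((relIn c.R (c.D.filter (fun e => g e ∈ S))).image (fun r => r.image g))
    have n3 : ((relIn c.R (c.D.filter (fun e => g e ∈ S))).image (fun r => r.image g)).card ≤
        (relIn c.R (c.D.filter (fun e => g e ∈ S))).card := Finset.card_image_le
    have hle2 : (relIn (am c g).R S).card ≤ 2 := by omega
    have hsp := card_split S
    unfold dl
    rcases Nat.eq_zero_or_pos (relIn (am c g).R S).card with h0 | hpos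
    · rw [h0]; push_cast; omega
    obtain ⟨r, hr⟩ := Finset.card_pos.1 hpos
    obtain ⟨hr1, hr2⟩ := mem_relIn.1 hr
    have hcl : 1 ≤ (cls S).card := by
      have h7 : cls r ⊆ cls S := Finset.filter_subset_filter _ hr2
      have h8 := Finset.card_le_card h7
      rw [am_one hc hg hr1] at h8
      exact h8
    rcases Nat.lt_or_ge (relIn (am c g).R S).card 2 with hlt | hge
    · omega
    · obtain ⟨s, t, hs, ht, hst⟩ : ∃ s t, s ∈ relIn (am c g).R S ∧ t ∈ relIn (am c g).R S ∧ s ≠ t := by
        obtain ⟨s, hs, t, ht, hst⟩ := Finset.one_lt_card.1 (show 1 < (relIn (am c g).R S).card by omega)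
        exact ⟨s, t, hs, ht, hst⟩
      obtain ⟨hs1, hs2⟩ := mem_relIn.1 hs
      obtain ⟨ht1, ht2⟩ := mem_relIn.1 ht
      have h10 := am_few hc hF hmax hg hs1 ht1 hst
      have h11 := Finset.card_union_add_card_inter s t
      have h12 := Finset.card_le_card (Finset.union_subset hs2 ht2)
      have cs : s.card = 4 := by rw [card_split, am_three hc hg hs1, am_one hc hg hs1]
      have ct : t.card = 4 := by rw [card_split, am_three hc hg ht1, am_one hc hg ht1]
      omega

theorem am_pi (hc : Good c) (hF : PI c F) (hg : Cp c F g) :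
    PI (am c g) (c.D.image (fun e => (e, g e))) := by
  have e1 : (c.D.image (fun e => (e, g e))).image Prod.fst = c.D := by
    rw [Finset.image_image]
    exact Finset.image_id
  have e2 : (c.D.image (fun e => (e, g e))).image Prod.snd = c.D.image g := by
    rw [Finset.image_image]
    rfl
  refine ⟨?_, ?_, ?_, ?_, ?_⟩
  · intro p hp
    obtain ⟨e, he, rfl⟩ := Finset.mem_image.1 hp
    exact (hg.kind e).symm
  · intro p hp q hq
    obtain ⟨e, he, rfl⟩ := Finset.mem_image.1 hp
    obtain ⟨e', he', rfl⟩ := Finset.mem_image.1 hq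
    constructor
    · intro h
      have h' : e = e' := h
      rw [h']
    · intro h
      exact hg.inj he he' h
  · intro G hG
    have hG1 : G.image Prod.fst ⊆ c.D := by
      rw [← e1]; exact Finset.image_subset_image hG
    have hG2 : G.image Prod.snd = (G.image Prod.fst).image g := by
      rw [Finset.image_image]
      apply Finset.image_congr
      intro p hp
      obtain ⟨e, he, rfl⟩ := Finset.mem_image.1 (hG hp)
      rfl
    rw [am_rel hc hF hg hG1, hG2]
    constructor
    · intro h
      exact mem_amR.2 (Or.inr ⟨_, h, rfl⟩)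
    · intro h
      rcases mem_amR.1 h with h | ⟨r0, h0, h⟩
      · have hA : G.image Prod.fst ⊆ F.image Prod.fst := by
          intro e he
          have h1 := hc.sub _ h (Finset.mem_image_of_mem g he)
          exact (img_mem_D hF hg (hG1 he)).1 h1
        exact (img_rel hF hg hA).2 h
      · have := img_inj hg (hc.sub r0 h0) hG1 h
        rw [← this]
        exact h0
  · rw [e1]
    exact (am_ext hc hF hg).str
  · rw [e2]
    exact am_str hc hF hg

/-- amalgamation step -/
theorem step (hc : Good c) (hF : PI c F) :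
    ∃ c' : Cfg, ∃ F' : Finset (El × El), Good c' ∧ Ext c c' ∧ PI c' F' ∧ F ⊆ F' ∧
      c.D ⊆ F'.image Prod.fst := by
  obtain ⟨F1, hFF1, hF1, hmax⟩ := exists_max hF
  obtain ⟨g, hg⟩ := exists_cp hF1
  refine ⟨am c g, c.D.image (fun e => (e, g e)), am_good hc hF1 hmax hg, am_ext hc hF1 hg,
    am_pi hc hF1 hg, ?_, ?_⟩
  · intro p hp
    have hp1 := hFF1 hp
    refine Finset.mem_image.2 ⟨p.1, hF1.sl.1 (Finset.mem_image_of_mem _ hp1), ?_⟩
    exact Prod.ext rfl (hg.on p hp1)
  · intro e he
    rw [Finset.image_image]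
    exact Finset.mem_image.2 ⟨e, he, rfl⟩

/-- colouring a triple -/
theorem color_step (hc : Good c) {t : Finset El} (ht : t ⊆ c.D) (h3 : t.card = 3)
    (hp : pts t = t) : ∃ c' : Cfg, Good c' ∧ Ext c c' ∧ ∃ r ∈ c'.R, t ⊆ r := by
  classical
  by_cases hex : ∃ r ∈ c.R, t ⊆ r
  · exact ⟨c, hc, ext_refl c, hex⟩
  push Not at hex
  let K := c.D.sup Prod.fst + 1
  let k : El := (K, false)
  have hk : k ∉ c.D := by
    intro h
    have : (k : El).1 ≤ c.D.sup Prod.fst := Finset.le_sup (f := Prod.fst) h
    simp only [k, K] at this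
    omega
  have hkt : k ∉ t := fun h => hk (ht h)
  have hpk : ∀ S : Finset El, pts (insert k S) = pts S := by
    intro S
    unfold pts
    rw [Finset.filter_insert]
    simp [k]
  have hclt : cls t = ∅ := by
    unfold cls
    rw [Finset.filter_eq_empty_iff]
    intro e he h
    rw [← hp] at he
    have := (Finset.mem_filter.1 he).2
    rw [this] at h
    simp at h
  let c' : Cfg := ⟨insert k c.D, insert (insert k t) c.R⟩
  have hsub : ∀ r ∈ c'.R, r ∈ c.R ∨ r = insert k t := by
    intro r hr
    rcases Finset.mem_insert.1 hr with h | h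
    · exact Or.inr h
    · exact Or.inl h
  have hrelD : ∀ r : Finset El, r ⊆ c.D → (r ∈ c'.R ↔ r ∈ c.R) := by
    intro r hr
    constructor
    · intro h
      rcases hsub r h with h | h
      · exact h
      · exfalso
        apply hk
        apply hr
        rw [h]
        exact Finset.mem_insert_self _ _
    · intro h
      exact Finset.mem_insert_of_mem h
  -- inequality
  have hdl : ∀ S : Finset El, S ⊆ c'.D → dl c.R (S ∩ c.D) ≤ dl c'.R S := by
    intro S hS
    by_cases hkS : k ∈ S
    · have e1 : S = insert k (S ∩ c.D) := by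
        ext e
        simp only [Finset.mem_insert, Finset.mem_inter]
        constructor
        · intro he
          rcases Finset.mem_insert.1 (hS he) with h | h
          · exact Or.inl h
          · exact Or.inr ⟨he, h⟩
        · rintro (h | h)
          · rw [h]; exact hkS
          · exact h.1
      have hkn : k ∉ S ∩ c.D := fun h => hk (Finset.mem_inter.1 h).2
      have e2 : S.card = (S ∩ c.D).card + 1 := by
        conv_lhs => rw [e1]
        exact Finset.card_insert_of_notMem hkn
      have e3 : relIn c'.R S ⊆ insert (insert k t) (relIn c.R (S ∩ c.D)) := by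
        intro r hr
        obtain ⟨h1, h2⟩ := mem_relIn.1 hr
        rcases hsub r h1 with h | h
        · exact Finset.mem_insert_of_mem (mem_relIn.2 ⟨h, Finset.subset_inter h2 (hc.sub r h)⟩)
        · rw [h]; exact Finset.mem_insert_self _ _
      have e4 := (Finset.card_le_card e3).trans (Finset.card_insert_le _ _)
      unfold dl
      omega
    · have e1 : S ∩ c.D = S := by
        apply Finset.inter_eq_left.2
        intro e he
        rcases Finset.mem_insert.1 (hS he) with h | h
        · exact absurd (h ▸ he) hkS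
        · exact h
      have hSD : S ⊆ c.D := Finset.inter_eq_left.1 e1
      have e2 : relIn c'.R S = relIn c.R S := by
        ext r
        simp only [mem_relIn]
        constructor
        · rintro ⟨a, b⟩
          exact ⟨(hrelD r (b.trans hSD)).1 a, b⟩
        · rintro ⟨a, b⟩
          exact ⟨(hrelD r (b.trans hSD)).2 a, b⟩
      rw [e1]
      unfold dl
      rw [e2]
  have hfewk : ∀ r ∈ c.R, (r ∩ insert k t).card ≤ 2 := by
    intro r hr
    have h1 : r ∩ insert k t = r ∩ t := by
      ext e
      simp only [Finset.mem_inter, Finset.mem_insert]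
      constructor
      · rintro ⟨h1, h2 | h2⟩
        · exact absurd (h2 ▸ hc.sub r hr h1) hk
        · exact ⟨h1, h2⟩
      · rintro ⟨h1, h2⟩
        exact ⟨h1, Or.inr h2⟩
    rw [h1]
    have h2 : (r ∩ t).card ≤ t.card := Finset.card_le_card Finset.inter_subset_right
    have h4 : (r ∩ t).card ≠ 3 := by
      intro h4
      have : r ∩ t = t := Finset.eq_of_subset_of_card_le Finset.inter_subset_right (by omega)
      exact hex r hr (Finset.inter_eq_right.1 this)
    omega
  refine ⟨c', ⟨?_, ?_, ?_, ?_, ?_⟩, ⟨?_, hrelD, ?_⟩, insert k t, Finset.mem_insert_self _ _,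
    Finset.subset_insert _ _⟩
  · intro r hr
    rcases hsub r hr with h | h
    · exact (hc.sub r h).trans (Finset.subset_insert _ _)
    · rw [h]; exact Finset.insert_subset_insert _ ht
  · intro r hr
    rcases hsub r hr with h | h
    · exact hc.three r h
    · rw [h, hpk, hp, h3]
  · intro r hr
    rcases hsub r hr with h | h
    · exact hc.one r h
    · have h9 := card_split (insert k t)
      rw [hpk, hp, Finset.card_insert_of_notMem hkt] at h9
      rw [h]; omega
  · intro r hr s hs hne
    rcases hsub r hr with h | h <;> rcases hsub s hs with h' | h'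
    · exact hc.few r h s h' hne
    · rw [h']; exact hfewk r h
    · rw [h, Finset.inter_comm]; exact hfewk s h'
    · exact absurd (h.trans h'.symm) hne
  · intro S hS h4
    refine le_trans (hc.four (S ∩ c.D) Finset.inter_subset_right ?_) (hdl S hS)
    have : pts S ⊆ pts (S ∩ c.D) := by
      intro e he
      obtain ⟨h1, h2⟩ := Finset.mem_filter.1 he
      refine Finset.mem_filter.2 ⟨Finset.mem_inter.2 ⟨h1, ?_⟩, h2⟩
      rcases Finset.mem_insert.1 (hS h1) with h | h
      · rw [h] at h2
        simp [k] at h2
      · exact h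
    exact h4.trans (Finset.card_le_card this)
  · exact Finset.subset_insert _ _
  · refine ⟨Finset.subset_insert _ _, fun S hDS hS => ?_⟩
    have h1 := hdl S hS
    rw [Finset.inter_eq_right.2 hDS] at h1
    refine le_trans ?_ h1
    have : relIn c'.R c.D = relIn c.R c.D := by
      ext r
      simp only [mem_relIn]
      constructor
      · rintro ⟨a, b⟩
        exact ⟨(hrelD r b).1 a, b⟩
      · rintro ⟨a, b⟩
        exact ⟨(hrelD r b).2 a, b⟩
    unfold dl
    rw [this]

end

end Pool.Agent.H24.Hru
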