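import Pool.Agent.H24.Hru3

set_option autoImplicit false

namespace Pool.Agent.H24.Hru

/-- adding a new point -/
theorem point_step {c : Cfg} (hc : Good c) :
    ∃ c' : Cfg, Good c' ∧ Ext c c' ∧ ∃ e ∈ c'.D, e ∉ c.D ∧ e.2 = true := by
  classical
  let K := c.D.sup Prod.fst + 1
  let k : El := (K, true)
  have hk : k ∉ c.D := by
    intro h
    have : (k : El).1 ≤ c.D.sup Prod.fst := Finset.le_sup (f := Prod.fst) h
    simp only [k, K] at this
    omega
  let c' : Cfg := ⟨insert k c.D, c.R⟩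
  have hdl : ∀ S : Finset El, k ∈ S → S ⊆ c'.D →
      dl c'.R S = dl c.R (S ∩ c.D) + 1 ∧ S = insert k (S ∩ c.D) := by
    intro S hkS hS
    have e1 : S = insert k (S ∩ c.D) := by
      ext e
      simp only [Finset.mem_insert, Finset.mem_inter]
      constructor
      · intro he
        rcases Finset.mem_insert.1 (hS he) with h | h
        · exact Or.inl h
        · exact Or.inr ⟨he, h⟩
      · rintro (h | h)
        · rw [h]; exact hkS
        · exact h.1
    have hkn : k ∉ S ∩ c.D := fun h => hk (Finset.mem_inter.1 h).2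
    have e2 : S.card = (S ∩ c.D).card + 1 := by
      conv_lhs => rw [e1]
      exact Finset.card_insert_of_notMem hkn
    have e3 : relIn c'.R S = relIn c.R (S ∩ c.D) := by
      ext r
      simp only [mem_relIn, Finset.subset_inter_iff]
      constructor
      · rintro ⟨h1, h2⟩
        exact ⟨h1, h2, hc.sub r h1⟩
      · rintro ⟨h1, h2, _⟩
        exact ⟨h1, h2⟩
    refine ⟨?_, e1⟩
    unfold dl
    rw [e3]
    omega
  refine ⟨c', ⟨?_, hc.three, hc.one, hc.few, ?_⟩, ⟨Finset.subset_insert _ _, ?_, ?_⟩, k,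
    Finset.mem_insert_self _ _, hk, rfl⟩
  · intro r hr
    exact (hc.sub r hr).trans (Finset.subset_insert _ _)
  · intro S hS h4
    by_cases hkS : k ∈ S
    · obtain ⟨h1, h2⟩ := hdl S hkS hS
      rw [h1]
      have hp : (pts S).card ≤ (pts (S ∩ c.D)).card + 1 := by
        have : pts S ⊆ insert k (pts (S ∩ c.D)) := by
          intro e he
          obtain ⟨h3, h4⟩ := Finset.mem_filter.1 he
          rw [h2] at h3
          rcases Finset.mem_insert.1 h3 with h | h
          · rw [h]; exact Finset.mem_insert_self _ _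
          · exact Finset.mem_insert_of_mem (Finset.mem_filter.2 ⟨h, h4⟩)
        exact (Finset.card_le_card this).trans (Finset.card_insert_le _ _)
      by_cases hp4 : 4 ≤ (pts (S ∩ c.D)).card
      · have := hc.four _ Finset.inter_subset_right hp4
        omega
      · have f1 := few_pts hc (S := S ∩ c.D) (by omega)
        have hsp := card_split (S ∩ c.D)
        unfold dl
        rcases Nat.eq_zero_or_pos (relIn c.R (S ∩ c.D)).card with h0 | hpos
        · rw [h0]; push_cast; omega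
        · obtain ⟨r, hr⟩ := Finset.card_pos.1 hpos
          obtain ⟨hr1, hr2⟩ := mem_relIn.1 hr
          have hcl : 1 ≤ (cls (S ∩ c.D)).card := by
            have h7 : cls r ⊆ cls (S ∩ c.D) := Finset.filter_subset_filter _ hr2
            have h8 := Finset.card_le_card h7
            rw [hc.one r hr1] at h8
            exact h8
          omega
    · have hSD : S ⊆ c.D := by
        intro e he
        rcases Finset.mem_insert.1 (hS he) with h | h
        · exact absurd (h ▸ he) hkS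
        · exact h
      exact hc.four S hSD h4
  · intro r _
    exact Iff.rfl
  · refine ⟨Finset.subset_insert _ _, fun S hDS hS => ?_⟩
    by_cases hkS : k ∈ S
    · obtain ⟨h1, h2⟩ := hdl S hkS hS
      rw [Finset.inter_eq_right.2 hDS] at h1
      change dl c.R c.D ≤ dl c'.R S
      omega
    · have hSD : S ⊆ c.D := by
        intro e he
        rcases Finset.mem_insert.1 (hS he) with h | h
        · exact absurd (h ▸ he) hkS
        · exact h
      rw [Finset.Subset.antisymm hDS hSD]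

/-- starting configuration: two triples of the same colour meeting in one point -/
def c0 : Cfg :=
  ⟨{(0, true), (1, true), (2, true), (3, true), (4, true), (0, false)},
    {{(0, true), (1, true), (2, true), (0, false)}, {(0, true), (3, true), (4, true), (0, false)}}⟩

theorem c0_good : Good c0 := by
  refine ⟨by decide, by decide, by decide, by decide, ?_⟩
  have : ∀ S ∈ c0.D.powerset, 4 ≤ (pts S).card → 4 ≤ dl c0.R S := by decide
  intro S hS
  exact this S (Finset.mem_powerset.2 hS)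

abbrev Task := Unit ⊕ (Finset (El × El) ⊕ Finset El)

def Sat (c c' : Cfg) : Task → Prop
  | Sum.inl _ => ∃ e ∈ c'.D, e ∉ c.D ∧ e.2 = true
  | Sum.inr (Sum.inl F) => PI c F → ∃ F', PI c' F' ∧ F ⊆ F' ∧ c.D ⊆ F'.image Prod.fst
  | Sum.inr (Sum.inr t) => t ⊆ c.D → t.card = 3 → pts t = t → ∃ r ∈ c'.R, t ⊆ r

theorem next_exists (c : {c : Cfg // Good c}) (τ : Task) :
    ∃ c' : {c : Cfg // Good c}, Ext c.1 c'.1 ∧ Sat c.1 c'.1 τ := by
  obtain ⟨c, hc⟩ := c
  rcases τ with u | F | t
  · obtain ⟨c', h1, h2, h3⟩ := point_step hc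
    exact ⟨⟨c', h1⟩, h2, h3⟩
  · by_cases hF : PI c F
    · obtain ⟨c', F', h1, h2, h3, h4, h5⟩ := step hc hF
      exact ⟨⟨c', h1⟩, h2, fun _ => ⟨F', h3, h4, h5⟩⟩
    · exact ⟨⟨c, hc⟩, ext_refl c, fun h => absurd h hF⟩
  · by_cases ht : t ⊆ c.D ∧ t.card = 3 ∧ pts t = t
    · obtain ⟨c', h1, h2, h3⟩ := color_step hc ht.1 ht.2.1 ht.2.2
      exact ⟨⟨c', h1⟩, h2, fun _ _ _ => h3⟩
    · refine ⟨⟨c, hc⟩, ext_refl c, fun h1 h2 h3 => absurd ⟨h1, h2, h3⟩ ht⟩

noncomputable def task (n : ℕ) : Task :=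
  ((Encodable.decode (α := Task) n.unpair.1)).getD (Sum.inl ())

theorem task_spec (t : Task) (k : ℕ) : ∃ n, k ≤ n ∧ task n = t := by
  refine ⟨Nat.pair (Encodable.encode t) k, Nat.right_le_pair _ _, ?_⟩
  unfold task
  rw [Nat.unpair_pair]
  simp

noncomputable def chain : ℕ → {c : Cfg // Good c}
  | 0 => ⟨c0, c0_good⟩
  | n + 1 => (next_exists (chain n) (task n)).choose

theorem chain_succ (n : ℕ) : Ext (chain n).1 (chain (n + 1)).1 ∧
    Sat (chain n).1 (chain (n + 1)).1 (task n) := by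
  have := (next_exists (chain n) (task n)).choose_spec
  exact this

theorem chain_ext {m n : ℕ} (h : m ≤ n) : Ext (chain m).1 (chain n).1 := by
  induction n, h using Nat.le_induction with
  | base => exact ext_refl _
  | succ n _ ih => exact ext_trans ih (chain_succ n).1

theorem T1 {n : ℕ} {F : Finset (El × El)} (hF : PI (chain n).1 F) (k : ℕ) :
    ∃ m, ∃ F', PI (chain m).1 F' ∧ F ⊆ F' ∧ (chain k).1.D ⊆ F'.image Prod.fst := by
  obtain ⟨m, hm, ht⟩ := task_spec (Sum.inr (Sum.inl F)) (max n k)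
  have h1 := (chain_succ m).2
  rw [ht] at h1
  obtain ⟨F', h2, h3, h4⟩ := h1 (pi_ext (chain_ext ((le_max_left _ _).trans hm)) hF)
  exact ⟨m + 1, F', h2, h3, ((chain_ext ((le_max_right _ _).trans hm)).sub).trans h4⟩

theorem T1' {n : ℕ} {F : Finset (El × El)} (hF : PI (chain n).1 F) (k : ℕ) :
    ∃ m, ∃ F', PI (chain m).1 F' ∧ F ⊆ F' ∧ (chain k).1.D ⊆ F'.image Prod.snd := by
  obtain ⟨m, F', h1, h2, h3⟩ := T1 (pi_swap hF) k
  refine ⟨m, F'.image Prod.swap, pi_swap h1, ?_, ?_⟩
  · intro p hp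
    refine Finset.mem_image.2 ⟨p.swap, h2 (Finset.mem_image_of_mem _ hp), by simp⟩
  · have : (F'.image Prod.swap).image Prod.snd = F'.image Prod.fst := by
      rw [Finset.image_image]; rfl
    rw [this]
    exact h3

theorem T11 {n : ℕ} {F : Finset (El × El)} (hF : PI (chain n).1 F) (k : ℕ) :
    ∃ m, ∃ F', PI (chain m).1 F' ∧ F ⊆ F' ∧ (chain k).1.D ⊆ F'.image Prod.fst ∧
      (chain k).1.D ⊆ F'.image Prod.snd := by
  obtain ⟨m, F1, h1, h2, h3⟩ := T1 hF k
  obtain ⟨m', F2, h4, h5, h6⟩ := T1' h1 k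
  exact ⟨m', F2, h4, h2.trans h5, h3.trans (Finset.image_subset_image h5), h6⟩

theorem T2 {n : ℕ} {t : Finset El} (ht : t ⊆ (chain n).1.D) (h3 : t.card = 3)
    (hp : pts t = t) : ∃ m, ∃ r ∈ (chain m).1.R, t ⊆ r := by
  obtain ⟨m, hm, hT⟩ := task_spec (Sum.inr (Sum.inr t)) n
  have h1 := (chain_succ m).2
  rw [hT] at h1
  exact ⟨m + 1, h1 (ht.trans (chain_ext hm).sub) h3 hp⟩

theorem T3 (k : ℕ) : ∃ m, ∃ e ∈ (chain m).1.D, e ∉ (chain k).1.D ∧ e.2 = true := by
  obtain ⟨m, hm, hT⟩ := task_spec (Sum.inl ()) k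
  have h1 := (chain_succ m).2
  rw [hT] at h1
  obtain ⟨e, h2, h3, h4⟩ := h1
  exact ⟨m + 1, e, h2, fun h => h3 ((chain_ext hm).sub h), h4⟩

end Pool.Agent.H24.Hru
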