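import Pool.Agent.H24.Hru4

set_option autoImplicit false

namespace Pool.Agent.H24.Hru

/-- union of the chain -/
def U : Set El := {e | ∃ n, e ∈ (chain n).1.D}
def RU : Set (Finset El) := {r | ∃ n, r ∈ (chain n).1.R}

theorem sub_stage {s : Finset El} (h : ∀ e ∈ s, e ∈ U) : ∃ n, s ⊆ (chain n).1.D := by
  classical
  induction s using Finset.induction_on with
  | empty => exact ⟨0, by simp⟩
  | insert a s _ ih =>
    obtain ⟨n, hn⟩ := ih (fun e he => h e (Finset.mem_insert_of_mem he))
    obtain ⟨m, hm⟩ := h a (Finset.mem_insert_self _ _)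
    refine ⟨max n m, Finset.insert_subset ?_ ?_⟩
    · exact (chain_ext (le_max_right n m)).sub hm
    · exact hn.trans (chain_ext (le_max_left n m)).sub

theorem mem_RU_iff {n : ℕ} {r : Finset El} (hr : r ⊆ (chain n).1.D) :
    r ∈ RU ↔ r ∈ (chain n).1.R := by
  constructor
  · rintro ⟨m, hm⟩
    have h1 : r ∈ (chain (max n m)).1.R := by
      have h2 := (chain m).2.sub r hm
      exact ((chain_ext (le_max_right n m)).rel r h2).2 hm
    exact ((chain_ext (le_max_left n m)).rel r hr).1 h1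
  · intro h
    exact ⟨n, h⟩

theorem RU_sub {r : Finset El} (hr : r ∈ RU) : ∀ e ∈ r, e ∈ U := by
  obtain ⟨n, hn⟩ := hr
  intro e he
  exact ⟨n, (chain n).2.sub r hn he⟩

theorem RU_few {r s : Finset El} (hr : r ∈ RU) (hs : s ∈ RU) (hne : r ≠ s) :
    (r ∩ s).card ≤ 2 := by
  obtain ⟨n, hn⟩ := hr
  obtain ⟨m, hm⟩ := hs
  have h1 : r ∈ (chain (max n m)).1.R :=
    ((chain_ext (le_max_left n m)).rel r ((chain n).2.sub r hn)).2 hn
  have h2 : s ∈ (chain (max n m)).1.R :=
    ((chain_ext (le_max_right n m)).rel s ((chain m).2.sub s hm)).2 hm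
  exact (chain (max n m)).2.few r h1 s h2 hne

theorem RU_one {r : Finset El} (hr : r ∈ RU) : (cls r).card = 1 := by
  obtain ⟨n, hn⟩ := hr
  exact (chain n).2.one r hn

theorem RU_three {r : Finset El} (hr : r ∈ RU) : (pts r).card = 3 := by
  obtain ⟨n, hn⟩ := hr
  exact (chain n).2.three r hn

/-- total isomorphism graphs -/
structure Tot (Γ : Set (El × El)) : Prop where
  mem : ∀ p ∈ Γ, p.1 ∈ U ∧ p.2 ∈ U
  dom : ∀ e ∈ U, ∃ e', (e, e') ∈ Γ
  ran : ∀ e' ∈ U, ∃ e, (e, e') ∈ Γ
  inj : ∀ p ∈ Γ, ∀ q ∈ Γ, p.1 = q.1 ↔ p.2 = q.2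
  kind : ∀ p ∈ Γ, p.1.2 = p.2.2
  rel : ∀ G : Finset (El × El), (∀ p ∈ G, p ∈ Γ) →
    (G.image Prod.fst ∈ RU ↔ G.image Prod.snd ∈ RU)

theorem exists_tot {n : ℕ} {F : Finset (El × El)} (hF : PI (chain n).1 F) :
    ∃ Γ : Set (El × El), Tot Γ ∧ ∀ p ∈ F, p ∈ Γ := by
  classical
  let P := {F : Finset (El × El) // ∃ n, PI (chain n).1 F}
  have hnext : ∀ (k : ℕ) (F : P), ∃ F' : P, F.1 ⊆ F'.1 ∧ (chain k).1.D ⊆ F'.1.image Prod.fst ∧
      (chain k).1.D ⊆ F'.1.image Prod.snd := by
    rintro k ⟨F, n, hF⟩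
    obtain ⟨m, F', h1, h2, h3, h4⟩ := T11 hF k
    exact ⟨⟨F', m, h1⟩, h2, h3, h4⟩
  choose nx hnx using hnext
  let s : ℕ → P := fun k => Nat.rec ⟨F, n, hF⟩ (fun k F' => nx k F') k
  have hs : ∀ k, s (k + 1) = nx k (s k) := fun k => rfl
  have hmono : ∀ {a b : ℕ}, a ≤ b → (s a).1 ⊆ (s b).1 := by
    intro a b hab
    induction b, hab using Nat.le_induction with
    | base => exact subset_rfl
    | succ b _ ih =>
      rw [hs]
      exact ih.trans (hnx b (s b)).1
  have hfin : ∀ G : Finset (El × El), (∀ p ∈ G, ∃ k, p ∈ (s k).1) → ∃ k, G ⊆ (s k).1 := by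
    intro G
    induction G using Finset.induction_on with
    | empty => intro _; exact ⟨0, by simp⟩
    | insert a G _ ih =>
      intro h
      obtain ⟨k, hk⟩ := ih (fun p hp => h p (Finset.mem_insert_of_mem hp))
      obtain ⟨l, hl⟩ := h a (Finset.mem_insert_self _ _)
      refine ⟨max k l, Finset.insert_subset ?_ ?_⟩
      · exact hmono (le_max_right k l) hl
      · exact hk.trans (hmono (le_max_left k l))
  refine ⟨{p | ∃ k, p ∈ (s k).1}, ⟨?_, ?_, ?_, ?_, ?_, ?_⟩, fun p hp => ⟨0, hp⟩⟩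
  · rintro p ⟨k, hk⟩
    obtain ⟨m, hm⟩ := (s k).2
    exact ⟨⟨m, hm.sl.1 (Finset.mem_image_of_mem _ hk)⟩, ⟨m, hm.sr.1 (Finset.mem_image_of_mem _ hk)⟩⟩
  · rintro e ⟨k, hk⟩
    have h1 := (hnx k (s k)).2.1 hk
    obtain ⟨p, hp, rfl⟩ := Finset.mem_image.1 h1
    exact ⟨p.2, k + 1, hp⟩
  · rintro e ⟨k, hk⟩
    have h1 := (hnx k (s k)).2.2 hk
    obtain ⟨p, hp, rfl⟩ := Finset.mem_image.1 h1
    exact ⟨p.1, k + 1, hp⟩
  · rintro p ⟨k, hk⟩ q ⟨l, hl⟩
    obtain ⟨m, hm⟩ := (s (max k l)).2
    exact hm.inj p (hmono (le_max_left k l) hk) q (hmono (le_max_right k l) hl)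
  · rintro p ⟨k, hk⟩
    obtain ⟨m, hm⟩ := (s k).2
    exact hm.kind p hk
  · intro G hG
    obtain ⟨k, hk⟩ := hfin G hG
    obtain ⟨m, hm⟩ := (s k).2
    have h1 := hm.rel G hk
    rw [mem_RU_iff ((Finset.image_subset_image hk).trans hm.sl.1),
      mem_RU_iff ((Finset.image_subset_image hk).trans hm.sr.1)]
    exact h1

/-- the point set -/
abbrev X : Type := {e : El // e ∈ U ∧ e.2 = true}

/-- underlying set of elements of a finite set of points -/
def und (t : Finset X) : Finset El := t.image Subtype.val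

theorem und_card (t : Finset X) : (und t).card = t.card :=
  Finset.card_image_of_injective _ Subtype.val_injective

theorem und_pts (t : Finset X) : pts (und t) = und t := by
  apply Finset.filter_true_of_mem
  intro e he
  obtain ⟨x, _, rfl⟩ := Finset.mem_image.1 he
  exact x.2.2

theorem und_U (t : Finset X) : ∀ e ∈ und t, e ∈ U := by
  intro e he
  obtain ⟨x, _, rfl⟩ := Finset.mem_image.1 he
  exact x.2.1

/-- colour relation -/
def Col (k : El) (t : Finset X) : Prop := k.2 = false ∧ insert k (und t) ∈ RU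

theorem col_notMem {k : El} {t : Finset X} (h : k.2 = false) : k ∉ und t := by
  intro hk
  obtain ⟨x, _, rfl⟩ := Finset.mem_image.1 hk
  have := x.2.2
  rw [h] at this
  simp at this

theorem col_exists {t : Finset X} (ht : t.card = 3) : ∃ k, Col k t := by
  obtain ⟨n, hn⟩ := sub_stage (und_U t)
  obtain ⟨m, r, hr, hsub⟩ := T2 hn (by rw [und_card, ht]) (und_pts t)
  have h1 := (chain m).2.one r hr
  obtain ⟨k, hk⟩ := Finset.card_eq_one.1 h1
  have hkr : k ∈ cls r := by rw [hk]; exact Finset.mem_singleton_self _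
  obtain ⟨hk1, hk2⟩ := Finset.mem_filter.1 hkr
  refine ⟨k, hk2, m, ?_⟩
  have h2 : insert k (und t) = r := by
    apply Finset.eq_of_subset_of_card_le (Finset.insert_subset hk1 hsub)
    rw [Finset.card_insert_of_notMem (col_notMem hk2), und_card, ht]
    have h3 := rel_card (chain m).2 hr
    omega
  rw [h2]
  exact hr

theorem col_unique {k k' : El} {t : Finset X} (ht : t.card = 3) (h : Col k t) (h' : Col k' t) :
    k = k' := by
  by_contra hne
  have h1 : insert k (und t) ≠ insert k' (und t) := by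
    intro he
    have : k ∈ insert k' (und t) := he ▸ Finset.mem_insert_self _ _
    rcases Finset.mem_insert.1 this with h2 | h2
    · exact hne h2
    · exact col_notMem h.1 h2
  have h2 := RU_few h.2 h'.2 h1
  have h3 : und t ⊆ insert k (und t) ∩ insert k' (und t) :=
    Finset.subset_inter (Finset.subset_insert _ _) (Finset.subset_insert _ _)
  have h4 := Finset.card_le_card h3
  rw [und_card, ht] at h4
  omega

/-- action on finite sets -/
def act {Y : Type} (g : Equiv.Perm Y) (s : Finset Y) : Finset Y := s.map g.toEmbedding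

theorem act_card {Y : Type} (g : Equiv.Perm Y) (s : Finset Y) : (act g s).card = s.card :=
  Finset.card_map _

theorem act_mul {Y : Type} (g h : Equiv.Perm Y) (s : Finset Y) :
    act (g * h) s = act g (act h s) := by
  unfold act
  rw [Finset.map_map]
  rfl

theorem act_one {Y : Type} (s : Finset Y) : act 1 s = s := by
  unfold act
  exact Finset.map_refl

theorem act_inv {Y : Type} (g : Equiv.Perm Y) (s : Finset Y) : act g (act g⁻¹ s) = s := by
  rw [← act_mul, mul_inv_cancel, act_one]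

theorem act_inv' {Y : Type} (g : Equiv.Perm Y) (s : Finset Y) : act g⁻¹ (act g s) = s := by
  rw [← act_mul, inv_mul_cancel, act_one]

/-- same colour -/
def SC (s t : Finset X) : Prop := ∃ k, Col k s ∧ Col k t

/-- the group of all permutations preserving the partition of triples into colours -/
def Gp : Subgroup (Equiv.Perm X) where
  carrier := {g | ∀ s t : Finset X, s.card = 3 → t.card = 3 → (SC (act g s) (act g t) ↔ SC s t)}
  mul_mem' := by
    intro g h hg hh s t hs ht
    rw [act_mul, act_mul, hg _ _ (by rw [act_card, hs]) (by rw [act_card, ht]), hh _ _ hs ht]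
  one_mem' := by
    intro s t _ _
    rw [act_one, act_one]
  inv_mem' := by
    intro g hg s t hs ht
    have := hg (act g⁻¹ s) (act g⁻¹ t) (by rw [act_card, hs]) (by rw [act_card, ht])
    rw [act_inv, act_inv] at this
    exact this.symm

theorem mem_Gp {g : Equiv.Perm X} : g ∈ Gp ↔
    ∀ s t : Finset X, s.card = 3 → t.card = 3 → (SC (act g s) (act g t) ↔ SC s t) := Iff.rfl

/-- a total graph gives an element of the group -/
theorem perm_of_tot {Γ : Set (El × El)} (hΓ : Tot Γ) :
    ∃ g ∈ Gp, ∀ x y : X, (x.1, y.1) ∈ Γ → g x = y := by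
  classical
  have hf : ∀ x : X, ∃ y : X, (x.1, y.1) ∈ Γ := by
    intro x
    obtain ⟨e', he'⟩ := hΓ.dom x.1 x.2.1
    refine ⟨⟨e', (hΓ.mem _ he').2, ?_⟩, he'⟩
    rw [← hΓ.kind _ he']
    exact x.2.2
  have hb : ∀ y : X, ∃ x : X, (x.1, y.1) ∈ Γ := by
    intro y
    obtain ⟨e, he⟩ := hΓ.ran y.1 y.2.1
    refine ⟨⟨e, (hΓ.mem _ he).1, ?_⟩, he⟩
    have := hΓ.kind _ he
    change e.2 = y.1.2 at this
    rw [this]
    exact y.2.2
  choose f hf using hf
  choose b hb using hb
  have hfu : ∀ x y : X, (x.1, y.1) ∈ Γ → f x = y := by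
    intro x y h
    apply Subtype.ext
    exact (hΓ.inj _ (hf x) _ h).1 rfl
  let g : Equiv.Perm X :=
    { toFun := f
      invFun := b
      left_inv := by
        intro x
        apply Subtype.ext
        exact (hΓ.inj _ (hb (f x)) _ (hf x)).2 rfl
      right_inv := by
        intro y
        exact hfu _ _ (hb y) }
  have hgf : ∀ x, g x = f x := fun x => rfl
  -- colours
  have hcol : ∀ k k' : El, (k, k') ∈ Γ → ∀ s : Finset X, (Col k s ↔ Col k' (act g s)) := by
    intro k k' hk s
    let G : Finset (El × El) := insert (k, k') (s.image (fun x => (x.1, (f x).1)))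
    have e1 : G.image Prod.fst = insert k (und s) := by
      simp only [G, Finset.image_insert, Finset.image_image, und]
      rfl
    have e2 : G.image Prod.snd = insert k' (und (act g s)) := by
      simp only [G, Finset.image_insert, Finset.image_image, und, act]
      congr 1
      ext e
      simp only [Finset.mem_image, Finset.mem_map, Function.comp_apply]
      constructor
      · rintro ⟨x, hx, rfl⟩
        exact ⟨g x, ⟨x, hx, rfl⟩, rfl⟩
      · rintro ⟨y, ⟨x, hx, rfl⟩, rfl⟩
        exact ⟨x, hx, rfl⟩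
    have h3 := hΓ.rel G (by
      intro p hp
      rcases Finset.mem_insert.1 hp with rfl | hp
      · exact hk
      · obtain ⟨x, _, rfl⟩ := Finset.mem_image.1 hp
        exact hf x)
    rw [e1, e2] at h3
    have h4 := hΓ.kind _ hk
    change k.2 = k'.2 at h4
    unfold Col
    rw [h3, h4]
  have hUcol : ∀ k s, Col k s → k ∈ U := fun k s h => RU_sub h.2 k (Finset.mem_insert_self _ _)
  refine ⟨g, ?_, fun x y h => hfu x y h⟩
  rw [mem_Gp]
  intro s t _ _
  constructor
  · rintro ⟨k', h1, h2⟩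
    obtain ⟨k, hk⟩ := hΓ.ran k' (hUcol _ _ h1)
    exact ⟨k, (hcol k k' hk s).2 h1, (hcol k k' hk t).2 h2⟩
  · rintro ⟨k, h1, h2⟩
    obtain ⟨k', hk⟩ := hΓ.dom k (hUcol _ _ h1)
    exact ⟨k', (hcol k k' hk s).1 h1, (hcol k k' hk t).1 h2⟩

/-- four-point sets are strong -/
theorem strong_four {c : Cfg} (hc : Good c) {A : Finset El} (hA : A ⊆ c.D) (hp : pts A = A)
    (h4 : A.card = 4) : Strong c A := by
  refine ⟨hA, fun S hAS hS => ?_⟩
  have h1 : relIn c.R A = ∅ := by
    rw [Finset.eq_empty_iff_forall_notMem]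
    intro r hr
    obtain ⟨h1, h2⟩ := mem_relIn.1 hr
    have h3 := hc.one r h1
    obtain ⟨k, hk⟩ := Finset.card_eq_one.1 h3
    have hkr : k ∈ cls r := by rw [hk]; exact Finset.mem_singleton_self _
    obtain ⟨hk1, hk2⟩ := Finset.mem_filter.1 hkr
    have h5 := h2 hk1
    rw [← hp] at h5
    have h6 := (Finset.mem_filter.1 h5).2
    rw [hk2] at h6
    simp at h6
  have h2 : dl c.R A = 4 := by
    unfold dl
    rw [h1, h4]
    simp
  rw [h2]
  apply hc.four S hS
  have : A ⊆ pts S := by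
    rw [← hp]
    exact Finset.filter_subset_filter _ hAS
  rw [← h4]
  exact Finset.card_le_card this

theorem trans4 (a b : Fin 4 ↪ X) : ∃ g ∈ Gp, ∀ i, g (a i) = b i := by
  classical
  let F : Finset (El × El) := Finset.univ.image (fun i => ((a i).1, (b i).1))
  obtain ⟨n, hn⟩ := sub_stage (s := F.image Prod.fst ∪ F.image Prod.snd) (by
    intro e he
    rcases Finset.mem_union.1 he with h | h
    · obtain ⟨p, hp, rfl⟩ := Finset.mem_image.1 h
      obtain ⟨i, _, rfl⟩ := Finset.mem_image.1 hp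
      exact (a i).2.1
    · obtain ⟨p, hp, rfl⟩ := Finset.mem_image.1 h
      obtain ⟨i, _, rfl⟩ := Finset.mem_image.1 hp
      exact (b i).2.1)
  have hp1 : ∀ G : Finset (El × El), G ⊆ F → pts (G.image Prod.fst) = G.image Prod.fst := by
    intro G hG
    apply Finset.filter_true_of_mem
    intro e he
    obtain ⟨p, hp, rfl⟩ := Finset.mem_image.1 he
    obtain ⟨i, _, rfl⟩ := Finset.mem_image.1 (hG hp)
    exact (a i).2.2
  have hp2 : ∀ G : Finset (El × El), G ⊆ F → pts (G.image Prod.snd) = G.image Prod.snd := by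
    intro G hG
    apply Finset.filter_true_of_mem
    intro e he
    obtain ⟨p, hp, rfl⟩ := Finset.mem_image.1 he
    obtain ⟨i, _, rfl⟩ := Finset.mem_image.1 (hG hp)
    exact (b i).2.2
  have hnR : ∀ s : Finset El, pts s = s → s ∉ (chain n).1.R := by
    intro s hs h
    have h1 := (chain n).2.one s h
    have h2 := card_split s
    rw [hs] at h2
    omega
  have hc1 : (F.image Prod.fst).card = 4 := by
    rw [Finset.image_image, Finset.card_image_of_injective]
    · simp
    · intro i j hij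
      exact a.injective (Subtype.ext hij)
  have hc2 : (F.image Prod.snd).card = 4 := by
    rw [Finset.image_image, Finset.card_image_of_injective]
    · simp
    · intro i j hij
      exact b.injective (Subtype.ext hij)
  have hF : PI (chain n).1 F := by
    refine ⟨?_, ?_, ?_, ?_, ?_⟩
    · intro p hp
      obtain ⟨i, _, rfl⟩ := Finset.mem_image.1 hp
      change (a i).1.2 = (b i).1.2
      rw [(a i).2.2, (b i).2.2]
    · intro p hp q hq
      obtain ⟨i, _, rfl⟩ := Finset.mem_image.1 hp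
      obtain ⟨j, _, rfl⟩ := Finset.mem_image.1 hq
      constructor
      · intro h
        have : i = j := a.injective (Subtype.ext h)
        rw [this]
      · intro h
        have : i = j := b.injective (Subtype.ext h)
        rw [this]
    · intro G hG
      constructor
      · intro h
        exact absurd h (hnR _ (hp1 G hG))
      · intro h
        exact absurd h (hnR _ (hp2 G hG))
    · exact strong_four (chain n).2 (Finset.subset_union_left.trans hn) (hp1 F subset_rfl) hc1
    · exact strong_four (chain n).2 (Finset.subset_union_right.trans hn) (hp2 F subset_rfl) hc2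
  obtain ⟨Γ, hΓ, hFΓ⟩ := exists_tot hF
  obtain ⟨g, hg, hgx⟩ := perm_of_tot hΓ
  refine ⟨g, hg, fun i => hgx _ _ (hFΓ _ ?_)⟩
  exact Finset.mem_image.2 ⟨i, Finset.mem_univ _, rfl⟩

theorem X_infinite : Infinite X := by
  classical
  by_contra hcon
  rw [not_infinite_iff_finite] at hcon
  haveI := Fintype.ofFinite X
  obtain ⟨n, hn⟩ := sub_stage (und_U (Finset.univ : Finset X))
  obtain ⟨m, e, h1, h2, h3⟩ := T3 n
  apply h2
  apply hn
  exact Finset.mem_image.2 ⟨⟨e, ⟨m, h1⟩, h3⟩, Finset.mem_univ _, rfl⟩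

/-- the block: the triples of colour `(0, false)` -/
def Blk : Set (Finset X) := {s | s.card = 3 ∧ Col (0, false) s}

theorem blk_block (g : Equiv.Perm X) (hg : g ∈ Gp) :
    act g '' Blk = Blk ∨ Disjoint (act g '' Blk) Blk := by
  rw [mem_Gp] at hg
  by_cases hd : Disjoint (act g '' Blk) Blk
  · exact Or.inr hd
  left
  rw [Set.not_disjoint_iff] at hd
  obtain ⟨_, ⟨s, hs, rfl⟩, hgs⟩ := hd
  apply Set.Subset.antisymm
  · rintro _ ⟨t, ht, rfl⟩
    refine ⟨by rw [act_card, ht.1], ?_⟩
    obtain ⟨k, h1, h2⟩ := (hg s t hs.1 ht.1).2 ⟨_, hs.2, ht.2⟩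
    have := col_unique hgs.1 h1 hgs.2
    rw [this] at h2
    exact h2
  · intro t ht
    refine ⟨act g⁻¹ t, ⟨by rw [act_card, ht.1], ?_⟩, act_inv g t⟩
    have h3 : SC (act g s) (act g (act g⁻¹ t)) := by
      rw [act_inv]
      exact ⟨_, hgs.2, ht.2⟩
    obtain ⟨k, h1, h2⟩ := (hg s (act g⁻¹ t) hs.1 (by rw [act_card, ht.1])).1 h3
    have := col_unique hs.1 h1 hs.2
    rw [this] at h2
    exact h2

def p0 (i : ℕ) (h : (i, true) ∈ c0.D) : X := ⟨(i, true), ⟨0, h⟩, rfl⟩

end Pool.Agent.H24.Hru
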