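import Mathlib

set_option autoImplicit false

universe u

namespace Pool.Agent.H24.Infinitary

open FirstOrder FirstOrder.Language

/-- The formulas of `L_{∞,∞}` over the first-order signature `L`, with free variables in `V`:
atomic formulas, negations, conjunctions of arbitrary sets of formulas, and universal
quantification over arbitrary sets `W` of variables. -/
inductive Fml (L : FirstOrder.Language.{0, 0}) : Type → Type 1
  | eq {V : Type} (s t : L.Term V) : Fml L V
  | rel {V : Type} {n : ℕ} (R : L.Relations n) (ts : Fin n → L.Term V) : Fml L V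
  | neg {V : Type} (φ : Fml L V) : Fml L V
  | conj {V : Type} (I : Type) (φ : I → Fml L V) : Fml L V
  | all {V : Type} (W : Type) (φ : Fml L (V ⊕ W)) : Fml L V

/-- Satisfaction of an `L_{∞,∞}`-formula in a structure. -/
def Fml.Realize {L : FirstOrder.Language.{0, 0}} {M : Type u} [L.Structure M] :
    {V : Type} → Fml L V → (V → M) → Prop
  | _, .eq s t, v => s.realize v = t.realize v
  | _, .rel R ts, v => Structure.RelMap R (fun i => (ts i).realize v)
  | _, .neg φ, v => ¬ φ.Realize v
  | _, .conj _ φ, v => ∀ i, (φ i).Realize v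
  | _, .all W φ, v => ∀ w : W → M, φ.Realize (Sum.elim v w)

/-- A sentence of `L_{∞,∞}` is a formula without free variables; `M ⊨ φ`. -/
def Models {L : FirstOrder.Language.{0, 0}} (M : Type u) [L.Structure M] (φ : Fml L Empty) : Prop :=
  φ.Realize (fun e : Empty => (e.elim : M))

section generic

variable {L : FirstOrder.Language.{0, 0}}

/-- disjunction -/
def Fml.disj {V : Type} (I : Type) (φ : I → Fml L V) : Fml L V :=
  .neg (.conj I (fun i => .neg (φ i)))

lemma realize_disj {M : Type u} [L.Structure M] {V : Type} (I : Type) (φ : I → Fml L V)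
    (v : V → M) : (Fml.disj I φ).Realize v ↔ ∃ i, (φ i).Realize v := by
  unfold Fml.disj
  simp only [Fml.Realize]
  push Not
  rfl

/-- `φ` respects the equalities and the operations among the named elements -/
def Good {n : ℕ} (S : L.Structure (Fin n)) {M : Type u} [L.Structure M] {V : Type}
    (v : V → M) (φ : V → Fin n) : Prop :=
  (∀ b b' : V, v b = v b' → φ b = φ b') ∧
  (∀ (m : ℕ) (f : L.Functions m) (a : Fin m → V) (b : V),
    v b = Structure.funMap f (fun i => v (a i)) → φ b = S.funMap f (fun i => φ (a i)))

/-- the formula expressing `Good` -/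
def goodF {n : ℕ} (S : L.Structure (Fin n)) {V : Type} (φ : V → Fin n) : Fml L V :=
  .conj ({p : V × V // φ p.1 ≠ φ p.2} ⊕
      {p : (Σ m : ℕ, L.Functions m × (Fin m → V) × V) //
        φ p.2.2.2 ≠ S.funMap p.2.1 (fun i => φ (p.2.2.1 i))})
    (fun x => match x with
      | Sum.inl p => .neg (.eq (Term.var p.1.1) (Term.var p.1.2))
      | Sum.inr p => .neg (.eq (Term.var p.1.2.2.2)
          (Term.func p.1.2.1 (fun i => Term.var (p.1.2.2.1 i)))))

lemma realize_goodF {n : ℕ} (S : L.Structure (Fin n)) {M : Type u} [L.Structure M] {V : Type}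
    (v : V → M) (φ : V → Fin n) : (goodF S φ).Realize v ↔ Good S v φ := by
  unfold goodF Good
  simp only [Fml.Realize]
  constructor
  · intro h
    constructor
    · intro b b' hb
      by_contra hne
      have := h (Sum.inl ⟨(b, b'), hne⟩)
      simp only [Fml.Realize, Term.realize_var] at this
      exact this hb
    · intro m f a b hb
      by_contra hne
      have := h (Sum.inr ⟨⟨m, f, a, b⟩, hne⟩)
      simp only [Fml.Realize, Term.realize_var, Term.realize_func] at this
      exact this hb
  · rintro ⟨h1, h2⟩ (⟨⟨b, b'⟩, hne⟩ | ⟨⟨m, f, a, b⟩, hne⟩)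
    · simp only [Fml.Realize, Term.realize_var]
      exact fun h => hne (h1 b b' h)
    · simp only [Fml.Realize, Term.realize_var, Term.realize_func]
      exact fun h => hne (h2 m f a b h)

/-- homomorphism to a finite structure -/
def IsHomTo {n : ℕ} (S : L.Structure (Fin n)) {M : Type u} [L.Structure M] (h : M → Fin n) :
    Prop :=
  ∀ (m : ℕ) (f : L.Functions m) (a : Fin m → M),
    h (Structure.funMap f a) = S.funMap f (fun i => h (a i))

/-- compactness -/
lemma compactness {n : ℕ} (S : L.Structure (Fin n)) {M : Type u} [L.Structure M] (x : M)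
    (c : Fin n)
    (H : ∀ k : ℕ, ∀ s : Fin k → M, ∃ φ : Unit ⊕ Fin k → Fin n, φ (Sum.inl ()) = c ∧
      Good S (Sum.elim (fun _ => x) s) φ) :
    ∃ h : M → Fin n, IsHomTo S h ∧ h x = c := by
  classical
  -- a partial homomorphism for every finite set
  have hT : ∀ T : Finset M, ∃ h : M → Fin n, (x ∈ T → h x = c) ∧
      ∀ (m : ℕ) (f : L.Functions m) (a : Fin m → M), (∀ i, a i ∈ T) →
        Structure.funMap f a ∈ T → h (Structure.funMap f a) = S.funMap f (fun i => h (a i)) := by
    intro T
    obtain ⟨φ, hc, hg1, hg2⟩ := H T.card (fun i => (T.equivFin.symm i).1)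
    refine ⟨fun m => if hm : m ∈ T then φ (Sum.inr (T.equivFin ⟨m, hm⟩)) else c, ?_, ?_⟩
    · intro hx
      simp only [hx, dif_pos]
      rw [← hc]
      apply hg1
      simp
    · intro m f a ha hfa
      simp only [hfa, ha, dif_pos]
      apply hg2 m f (fun i => Sum.inr (T.equivFin ⟨a i, ha i⟩))
      simp
  choose h hx hh using hT
  let U : Ultrafilter (Finset M) := Ultrafilter.of Filter.atTop
  have hU : ∀ T : Finset M, ∀ᶠ T' in (U : Filter (Finset M)), T ⊆ T' := fun T =>
    Filter.Eventually.filter_mono (Ultrafilter.of_le _) (Filter.eventually_ge_atTop T)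
  have hlim : ∀ m : M, ∃ v : Fin n, ∀ᶠ T in (U : Filter (Finset M)), h T m = v := by
    intro m
    obtain ⟨v, hv⟩ := Ultrafilter.eq_pure_of_finite (U.map (fun T => h T m))
    refine ⟨v, ?_⟩
    have h1 : ({v} : Set (Fin n)) ∈ U.map (fun T => h T m) := by
      rw [hv]
      exact rfl
    exact h1
  choose g hg using hlim
  refine ⟨g, ?_, ?_⟩
  · intro m f a
    have h1 := hU (insert (Structure.funMap f a) (Finset.univ.image a))
    have h2 : ∀ᶠ T in (U : Filter (Finset M)), ∀ i, h T (a i) = g (a i) := by
      rw [Filter.eventually_all]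
      exact fun i => hg (a i)
    have h3 := hg (Structure.funMap f a)
    obtain ⟨T, h1, h2, h3⟩ := (h1.and (h2.and h3)).exists
    rw [← h3, hh T m f a (fun i => h1 (by simp)) (h1 (by simp))]
    congr 1
    funext i
    exact h2 i
  · obtain ⟨T, h1, h2⟩ := ((hU {x}).and (hg x)).exists
    rw [← h2]
    exact hx T (h1 (by simp))

/-- the part of the sentence expressing residual finiteness; `e` is a constant symbol -/
def rfF (L : FirstOrder.Language.{0, 0}) (e : L.Functions 0) : Fml L Empty :=
  .all Unit (.disj ({_u : Unit // True} ⊕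
    (Σ n : ℕ, {p : L.Structure (Fin n) × Fin n // p.2 ≠ p.1.funMap e ![]}))
    (fun x => match x with
      | Sum.inl _ => .eq (Term.var (Sum.inr ())) (Term.func e ![])
      | Sum.inr ⟨n, p⟩ => .conj ℕ (fun k => .all (Fin k)
          (.disj {φ : (Empty ⊕ Unit) ⊕ Fin k → Fin n // φ (Sum.inl (Sum.inr ())) = p.1.2}
            (fun φ => goodF p.1.1 φ.1)))))

theorem realize_rfF (e : L.Functions 0) (M : Type u) [L.Structure M] :
    Models M (rfF L e) ↔ ∀ x : M, x ≠ Structure.funMap e ![] →
      ∃ (n : ℕ) (S : L.Structure (Fin n)) (h : M → Fin n), IsHomTo S h ∧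
        h x ≠ h (Structure.funMap e ![]) := by
  unfold Models rfF
  simp only [Fml.Realize, realize_disj]
  constructor
  · intro H x hx
    obtain ⟨i, hi⟩ := H (fun _ => x)
    rcases i with i | ⟨n, ⟨⟨S, c⟩, hc⟩⟩
    · exfalso
      simp only [Fml.Realize, Term.realize_var, Sum.elim_inr, Term.realize_func] at hi
      apply hx
      rw [hi]
      congr 1
      funext j
      exact j.elim0
    · simp only [Fml.Realize, realize_disj, realize_goodF] at hi
      obtain ⟨h, h1, h2⟩ := compactness S x c (by
        intro k s
        obtain ⟨⟨φ, hφ⟩, hg1, hg2⟩ := hi k s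
        refine ⟨fun w => φ (Sum.map (fun _ => Sum.inr ()) id w), hφ, ?_, ?_⟩
        · intro b b' hb
          apply hg1
          rcases b with b | b <;> rcases b' with b' | b' <;> simpa using hb
        · intro m f a b hb
          apply hg2
          have e1 : ∀ w : Unit ⊕ Fin k, Sum.elim (Sum.elim (fun e : Empty => (e.elim : M))
              (fun _ : Unit => x)) s (Sum.map (fun _ => Sum.inr ()) id w) =
              Sum.elim (fun _ : Unit => x) s w := by
            rintro (w | w) <;> rfl
          rw [e1, hb]
          congr 1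
          funext i
          rw [e1])
      refine ⟨n, S, h, h1, ?_⟩
      rw [h2, h1 0 e (![])]
      intro h3
      apply hc
      simp only
      rw [h3]
      congr 1
      funext j
      exact j.elim0
  · intro H w
    by_cases hx : w () = Structure.funMap e ![]
    · refine ⟨Sum.inl ⟨(), trivial⟩, ?_⟩
      simp only [Fml.Realize, Term.realize_var, Sum.elim_inr, Term.realize_func]
      rw [hx]
      congr 1
      funext j
      exact j.elim0
    · obtain ⟨n, S, h, h1, h2⟩ := H (w ()) hx
      have he : h (Structure.funMap e ![]) = S.funMap e ![] := by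
        rw [h1]
        congr 1
        funext j
        exact j.elim0
      refine ⟨Sum.inr ⟨n, ⟨(S, h (w ())), ?_⟩⟩, ?_⟩
      · simp only
        rw [← he]
        exact h2
      · simp only [Fml.Realize, realize_disj, realize_goodF]
        intro k s
        refine ⟨⟨fun b => h (Sum.elim (Sum.elim (fun e : Empty => (e.elim : M)) w) s b), rfl⟩, ?_, ?_⟩
        · intro b b' hb
          simp only
          rw [hb]
        · intro m f a b hb
          simp only
          rw [hb, h1]

/-- transfer to `Fin n` -/
lemma exists_fin {M : Type u} [L.Structure M] {Q : Type u} [L.Structure Q] [Finite Q] (h : M → Q)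
    (hh : ∀ (m : ℕ) (f : L.Functions m) (a : Fin m → M),
      h (Structure.funMap f a) = Structure.funMap f (fun i => h (a i))) (x y : M)
    (hxy : h x ≠ h y) :
    ∃ (n : ℕ) (S : L.Structure (Fin n)) (h : M → Fin n), IsHomTo S h ∧ h x ≠ h y := by
  obtain ⟨n, ⟨e⟩⟩ := Finite.exists_equiv_fin Q
  refine ⟨n, ⟨fun f v => e (Structure.funMap f (fun i => e.symm (v i))),
    fun r v => Structure.RelMap r (fun i => e.symm (v i))⟩, fun m => e (h m), ?_, ?_⟩
  · intro m f a
    simp [hh]
  · exact fun he => hxy (e.injective he)

/-- an identity as a sentence -/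
def idF (s t : L.Term (Fin 3)) : Fml L Empty :=
  .all (Fin 3) (.eq (s.relabel Sum.inr) (t.relabel Sum.inr))

lemma realize_idF (s t : L.Term (Fin 3)) (M : Type u) [L.Structure M] :
    Models M (idF s t) ↔ ∀ v : Fin 3 → M, s.realize v = t.realize v := by
  unfold Models idF
  simp only [Fml.Realize, Term.realize_relabel]
  rfl

end generic

end Pool.Agent.H24.Infinitary
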