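import Mathlib

set_option autoImplicit false

namespace Pool.Agent.H24.Joh

open scoped Topology

/-- every nonempty directed subset has a supremum -/
def IsDcpo (P : Type) [PartialOrder P] : Prop :=
  ∀ D : Set P, D.Nonempty → DirectedOn (· ≤ ·) D → ∃ s, IsLUB D s

/-- the Scott topology of a poset -/
def scott (P : Type) [PartialOrder P] : TopologicalSpace P where
  IsOpen U := IsUpperSet U ∧ ∀ D : Set P, D.Nonempty → DirectedOn (· ≤ ·) D → ∀ s, IsLUB D s → s ∈ U → (D ∩ U).Nonempty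
  isOpen_univ := ⟨isUpperSet_univ, fun D hD _ _ _ _ => by simpa using hD⟩
  isOpen_inter := by
    rintro U V ⟨hU1, hU2⟩ ⟨hV1, hV2⟩
    refine ⟨hU1.inter hV1, fun D hD hdir s hs hsU => ?_⟩
    obtain ⟨x, hxD, hxU⟩ := hU2 D hD hdir s hs hsU.1
    obtain ⟨y, hyD, hyV⟩ := hV2 D hD hdir s hs hsU.2
    obtain ⟨z, hzD, hxz, hyz⟩ := hdir x hxD y hyD
    exact ⟨z, hzD, hU1 hxz hxU, hV1 hyz hyV⟩
  isOpen_sUnion := by
    intro S hS
    refine ⟨isUpperSet_sUnion fun U hU => (hS U hU).1, fun D hD hdir s hs hsU => ?_⟩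
    obtain ⟨U, hU, hsU⟩ := hsU
    obtain ⟨x, hxD, hxU⟩ := (hS U hU).2 D hD hdir s hs hsU
    exact ⟨x, hxD, U, hU, hxU⟩

/-- `K` is an intersection of open sets -/
def Saturated {X : Type} (τ : TopologicalSpace X) (K : Set X) : Prop :=
  ∃ 𝒰 : Set (Set X), (∀ U ∈ 𝒰, IsOpen[τ] U) ∧ K = ⋂₀ 𝒰

/-- well-filtered spaces -/
def WellFiltered {X : Type} (τ : TopologicalSpace X) : Prop :=
  @T0Space X τ ∧ ∀ 𝒦 : Set (Set X), 𝒦.Nonempty → DirectedOn (· ⊇ ·) 𝒦 →
    (∀ K ∈ 𝒦, @IsCompact X τ K ∧ Saturated τ K) → ∀ U : Set X, IsOpen[τ] U → ⋂₀ 𝒦 ⊆ U → ∃ K ∈ 𝒦, K ⊆ U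

/-- the topology is compatible with the order: the closure of a point is the set of elements below it -/
def Compatible (P : Type) [PartialOrder P] (τ : TopologicalSpace P) : Prop :=
  ∀ x : P, @closure P τ {x} = Set.Iic x

/-- well-filtered dcpo: a dcpo some compatible topology of which is well-filtered -/
def IsWFDcpo (P : Type) [PartialOrder P] : Prop :=
  IsDcpo P ∧ ∃ τ : TopologicalSpace P, Compatible P τ ∧ WellFiltered τ

/-- Johnstone's dcpo -/
@[ext] structure J where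
  a : ℕ
  b : ℕ∞

instance : LE J := ⟨fun x y => (x.a = y.a ∧ x.b ≤ y.b) ∨ (y.b = ⊤ ∧ x.b ≤ (y.a : ℕ∞))⟩

theorem J.le_def (x y : J) : x ≤ y ↔ (x.a = y.a ∧ x.b ≤ y.b) ∨ (y.b = ⊤ ∧ x.b ≤ (y.a : ℕ∞)) := Iff.rfl

theorem no_top {n : ℕ} (h : (⊤ : ℕ∞) ≤ n) : False := ENat.natCast_ne_top n (top_le_iff.1 h)

instance : PartialOrder J where
  le_refl x := Or.inl ⟨rfl, le_rfl⟩
  le_trans x y z hxy hyz := by
    rw [J.le_def] at *
    rcases hxy with ⟨h1, h2⟩ | ⟨h1, h2⟩ <;> rcases hyz with ⟨h3, h4⟩ | ⟨h3, h4⟩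
    · exact Or.inl ⟨h1.trans h3, h2.trans h4⟩
    · exact Or.inr ⟨h3, h2.trans h4⟩
    · rw [h1] at h4
      exact Or.inr ⟨top_le_iff.1 h4, by rw [← h3]; exact h2⟩
    · rw [h1] at h4
      exact (no_top h4).elim
  le_antisymm x y hxy hyx := by
    rw [J.le_def] at *
    rcases hxy with ⟨h1, h2⟩ | ⟨h1, h2⟩ <;> rcases hyx with ⟨h3, h4⟩ | ⟨h3, h4⟩
    · exact J.ext h1 (le_antisymm h2 h4)
    · rw [h3] at h2
      exact (no_top (h2.trans h4)).elim
    · rw [h1] at h4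
      exact (no_top (h4.trans h2)).elim
    · rw [h1] at h4
      exact (no_top h4).elim

/-- the maximal elements -/
def im (m : ℕ) : J := ⟨m, ⊤⟩
def em (m k : ℕ) : J := ⟨m, (k : ℕ∞)⟩

theorem le_im (x : J) (m : ℕ) : x ≤ im m ↔ x.a = m ∨ x.b ≤ (m : ℕ∞) := by
  rw [J.le_def]
  constructor
  · rintro (⟨h1, _⟩ | ⟨_, h2⟩)
    · exact Or.inl h1
    · exact Or.inr h2
  · rintro (h | h)
    · exact Or.inl ⟨h, le_top⟩
    · exact Or.inr ⟨rfl, h⟩

theorem im_le (m : ℕ) (x : J) (h : im m ≤ x) : x = im m := by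
  rcases (J.le_def _ _).1 h with ⟨h1, h2⟩ | ⟨h1, h2⟩
  · exact J.ext h1.symm (top_le_iff.1 h2)
  · exact (no_top h2).elim

theorem J.cases (x : J) : (∃ m, x = im m) ∨ ∃ m k, x = em m k := by
  obtain ⟨a, b⟩ := x
  by_cases h : b = ⊤
  · left; exact ⟨a, by rw [h]; rfl⟩
  · right
    lift b to ℕ using h
    exact ⟨a, b, rfl⟩

/-- an element above all `em m k` is `im m` -/
theorem above_col (m : ℕ) (x : J) (h : ∀ k, em m k ≤ x) : x = im m := by
  rcases J.cases x with ⟨n, rfl⟩ | ⟨n, l, rfl⟩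
  · have h1 := (le_im _ _).1 (h (n + 1))
    rcases h1 with h1 | h1
    · have : m = n := h1
      rw [this]
    · have : ((n + 1 : ℕ) : ℕ∞) ≤ (n : ℕ∞) := h1
      have := Nat.cast_le.1 this
      omega
  · have h1 := (J.le_def _ _).1 (h (l + 1))
    rcases h1 with ⟨_, h1⟩ | ⟨h1, _⟩
    · have : ((l + 1 : ℕ) : ℕ∞) ≤ (l : ℕ∞) := h1
      have := Nat.cast_le.1 this
      omega
    · exact (ENat.natCast_ne_top l h1).elim

theorem em_le_im (m k n : ℕ) (h : k ≤ n) : em m k ≤ im n := (le_im _ _).2 (Or.inr (Nat.cast_le.2 h))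
theorem em_le_im' (m k : ℕ) : em m k ≤ im m := (le_im _ _).2 (Or.inl rfl)

/-- directed sets in `J` have suprema -/
theorem J_dcpo : IsDcpo J := by
  intro D hD hdir
  by_cases hT : ∃ x ∈ D, x.b = ⊤
  · obtain ⟨x, hx, hxb⟩ := hT
    have hxi : x = im x.a := J.ext rfl hxb
    refine ⟨x, ?_, fun u hu => hu hx⟩
    intro y hy
    obtain ⟨z, hz, h1, h2⟩ := hdir x hx y hy
    rw [hxi] at h1
    have := im_le _ _ h1
    rw [← hxi] at this
    rw [← this]; exact h2
  · push Not at hT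
    obtain ⟨x0, hx0⟩ := hD
    have hcol : ∀ y ∈ D, y.a = x0.a := by
      intro y hy
      obtain ⟨z, hz, h1, h2⟩ := hdir x0 hx0 y hy
      rcases (J.le_def _ _).1 h1 with ⟨h1, _⟩ | ⟨h1, _⟩
      · rcases (J.le_def _ _).1 h2 with ⟨h2, _⟩ | ⟨h2, _⟩
        · rw [h1, h2]
        · exact (hT z hz h2).elim
      · exact (hT z hz h1).elim
    refine ⟨⟨x0.a, sSup (J.b '' D)⟩, ?_, ?_⟩
    · intro y hy
      exact Or.inl ⟨hcol y hy, le_sSup ⟨y, hy, rfl⟩⟩
    · intro u hu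
      by_cases hu1 : u.a = x0.a
      · left
        refine ⟨hu1.symm, ?_⟩
        by_cases hub : u.b = ⊤
        · rw [hub]; exact le_top
        · apply sSup_le
          rintro _ ⟨y, hy, rfl⟩
          rcases (J.le_def _ _).1 (hu hy) with ⟨_, h⟩ | ⟨h, _⟩
          · exact h
          · exact (hub h).elim
      · right
        have key : ∀ y ∈ D, u.b = ⊤ ∧ y.b ≤ (u.a : ℕ∞) := by
          intro y hy
          rcases (J.le_def _ _).1 (hu hy) with ⟨h, _⟩ | h
          · exact (hu1 (by rw [← h, hcol y hy])).elim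
          · exact h
        refine ⟨(key x0 hx0).1, ?_⟩
        apply sSup_le
        rintro _ ⟨y, hy, rfl⟩
        exact (key y hy).2

/-- `J` with a new top element -/
abbrev PT := WithTop J

theorem dir_J (D : Set PT) (hdir : DirectedOn (· ≤ ·) D) (hT : (⊤ : PT) ∉ D) :
    DirectedOn (· ≤ ·) {x : J | (x : PT) ∈ D} := by
  intro x hx y hy
  obtain ⟨z, hz, h1, h2⟩ := hdir _ hx _ hy
  have hzt : z ≠ ⊤ := fun h => hT (h ▸ hz)
  lift z to J using hzt
  exact ⟨z, hz, WithTop.coe_le_coe.1 h1, WithTop.coe_le_coe.1 h2⟩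

theorem lub_J (D : Set PT) (hD : D.Nonempty) (hdir : DirectedOn (· ≤ ·) D) (hT : (⊤ : PT) ∉ D) :
    ∃ s : J, IsLUB D (s : PT) := by
  have hD' : {x : J | (x : PT) ∈ D}.Nonempty := by
    obtain ⟨z, hz⟩ := hD
    have hzt : z ≠ ⊤ := fun h => hT (h ▸ hz)
    lift z to J using hzt
    exact ⟨z, hz⟩
  obtain ⟨s, hs⟩ := J_dcpo _ hD' (dir_J D hdir hT)
  refine ⟨s, ?_, ?_⟩
  · intro z hz
    have hzt : z ≠ ⊤ := fun h => hT (h ▸ hz)
    lift z to J using hzt
    exact WithTop.coe_le_coe.2 (hs.1 hz)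
  · intro u hu
    by_cases hut : u = ⊤
    · rw [hut]; exact le_top
    · lift u to J using hut
      exact WithTop.coe_le_coe.2 (hs.2 fun y hy => WithTop.coe_le_coe.1 (hu hy))

theorem PT_dcpo : IsDcpo PT := by
  intro D hD hdir
  by_cases hT : (⊤ : PT) ∈ D
  · exact ⟨⊤, fun _ _ => le_top, fun u hu => hu hT⟩
  · obtain ⟨s, hs⟩ := lub_J D hD hdir hT
    exact ⟨_, hs⟩

/-- the open sets of the sober topology -/
def Op (V : Set PT) : Prop := V = ∅ ∨ ((⊤ : PT) ∈ V ∧ IsUpperSet V ∧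
  (∀ m, ((im m : J) : PT) ∈ V → ∃ k, ((em m k : J) : PT) ∈ V) ∧ ∃ x : J, (x : PT) ∈ V)

theorem Op_cofin {V : Set PT} (hV : Op V) (hne : V.Nonempty) : ∃ k0, ∀ n, k0 ≤ n → ((im n : J) : PT) ∈ V := by
  rcases hV with rfl | ⟨_, h2, h3, x, hx⟩
  · exact (Set.not_nonempty_empty hne).elim
  · rcases J.cases x with ⟨m, rfl⟩ | ⟨m, k, rfl⟩
    · obtain ⟨k, hk⟩ := h3 m hx
      exact ⟨k, fun n hn => h2 (WithTop.coe_le_coe.2 (em_le_im m k n hn)) hk⟩
    · exact ⟨k, fun n hn => h2 (WithTop.coe_le_coe.2 (em_le_im m k n hn)) hx⟩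

theorem Op_upper {V : Set PT} (hV : Op V) : IsUpperSet V := by
  rcases hV with rfl | ⟨_, h2, _⟩
  · exact isUpperSet_empty
  · exact h2

/-- the compatible topology -/
@[reducible] def tau : TopologicalSpace PT where
  IsOpen := Op
  isOpen_univ := Or.inr ⟨trivial, isUpperSet_univ, fun m _ => ⟨0, trivial⟩, im 0, trivial⟩
  isOpen_inter := by
    intro U V hU hV
    by_cases hUe : U.Nonempty
    · by_cases hVe : V.Nonempty
      · obtain ⟨k1, hk1⟩ := Op_cofin hU hUe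
        obtain ⟨k2, hk2⟩ := Op_cofin hV hVe
        rcases hU with rfl | ⟨a1, a2, a3, _⟩
        · exact (Set.not_nonempty_empty hUe).elim
        rcases hV with rfl | ⟨b1, b2, b3, _⟩
        · exact (Set.not_nonempty_empty hVe).elim
        refine Or.inr ⟨⟨a1, b1⟩, a2.inter b2, ?_, im (max k1 k2), hk1 _ (le_max_left _ _), hk2 _ (le_max_right _ _)⟩
        rintro m ⟨h1, h2⟩
        obtain ⟨k, hk⟩ := a3 m h1
        obtain ⟨l, hl⟩ := b3 m h2
        refine ⟨max k l, a2 (WithTop.coe_le_coe.2 ?_) hk, b2 (WithTop.coe_le_coe.2 ?_) hl⟩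
        · exact Or.inl ⟨rfl, Nat.cast_le.2 (le_max_left _ _)⟩
        · exact Or.inl ⟨rfl, Nat.cast_le.2 (le_max_right _ _)⟩
      · rw [Set.not_nonempty_iff_eq_empty] at hVe
        left; rw [hVe, Set.inter_empty]
    · rw [Set.not_nonempty_iff_eq_empty] at hUe
      left; rw [hUe, Set.empty_inter]
  isOpen_sUnion := by
    intro S hS
    by_cases hne : ∃ U ∈ S, U.Nonempty
    · right
      obtain ⟨U, hU, hUe⟩ := hne
      have hU' := hS U hU
      rcases hU' with rfl | ⟨a1, _, _, x, hx⟩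
      · exact (Set.not_nonempty_empty hUe).elim
      refine ⟨⟨U, hU, a1⟩, isUpperSet_sUnion fun V hV => Op_upper (hS V hV), ?_, x, ⟨U, hU, hx⟩⟩
      rintro m ⟨V, hV, hm⟩
      rcases hS V hV with rfl | ⟨_, _, b3, _⟩
      · exact hm.elim
      · obtain ⟨k, hk⟩ := b3 m hm
        exact ⟨k, V, hV, hk⟩
    · left
      push Not at hne
      rw [Set.sUnion_eq_empty]
      intro U hU
      exact hne U hU

theorem compl_Iic_Op (x : J) : Op ((Set.Iic (x : PT))ᶜ) := by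
  right
  refine ⟨?_, (isLowerSet_Iic _).compl, ?_, ?_⟩
  · intro h
    exact WithTop.coe_ne_top (le_antisymm le_top (Set.mem_Iic.1 h))
  · intro m hm
    by_contra hcon
    push Not at hcon
    apply hm
    have : ∀ k, em m k ≤ x := fun k => by
      have := hcon k
      rw [Set.mem_compl_iff, not_not] at this
      exact WithTop.coe_le_coe.1 this
    rw [above_col m x this]
    exact Set.mem_Iic.2 le_rfl
  · refine ⟨im (x.a + 1), fun h => ?_⟩
    have h1 : im (x.a + 1) ≤ x := WithTop.coe_le_coe.1 h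
    have h2 := im_le _ _ h1
    have h3 : x.a = x.a + 1 := congrArg J.a h2
    omega

theorem tau_compat : Compatible PT tau := by
  intro x
  letI := tau
  apply Set.Subset.antisymm
  · apply closure_minimal
    · exact Set.singleton_subset_iff.2 (Set.mem_Iic.2 le_rfl)
    · by_cases hx : x = ⊤
      · rw [hx, Set.Iic_top]; exact isClosed_univ
      · lift x to J using hx
        exact ⟨compl_Iic_Op x⟩
  · intro y hy
    rw [mem_closure_iff]
    intro U hU hyU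
    exact ⟨x, (Op_upper hU) hy hyU, rfl⟩

end Pool.Agent.H24.Joh
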