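import Mathlib

set_option autoImplicit false

namespace Pool.Agent.H24.PZ

open Set Filter Cardinal

/-! ### Many non-principal ultrafilters -/

abbrev D := Finset ℕ × Finset (Finset ℕ)

open Classical in
noncomputable def tr (F : Finset ℕ) (X : Set ℕ) : Finset ℕ := F.filter (· ∈ X)

def E (X : Set ℕ) : Set D := {d | tr d.1 X ∈ d.2}

def W (𝒳 : Set (Set ℕ)) (i : Finset (Set ℕ) × ℕ) : Set D :=
  {d | (∀ X ∈ i.1, (d ∈ E X ↔ X ∈ 𝒳)) ∧ ∀ n < i.2, n ∈ d.1}

theorem W_nonempty (𝒳 : Set (Set ℕ)) (i : Finset (Set ℕ) × ℕ) : (W 𝒳 i).Nonempty := by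
  classical
  obtain ⟨P, N⟩ := i
  have hsep : ∀ X Y : Set ℕ, ∃ m, X ≠ Y → ¬ (m ∈ X ↔ m ∈ Y) := by
    intro X Y
    by_cases h : X = Y
    · exact ⟨0, fun h' => absurd h h'⟩
    · have : ∃ m, ¬ (m ∈ X ↔ m ∈ Y) := by
        by_contra hcon
        push Not at hcon
        exact h (Set.ext hcon)
      obtain ⟨m, hm⟩ := this
      exact ⟨m, fun _ => hm⟩
  choose g hg using hsep
  let M := N + ((P ×ˢ P).sup (fun q => g q.1 q.2)) + 1
  refine ⟨(Finset.range M, (P.filter (· ∈ 𝒳)).image (tr (Finset.range M))), ?_, ?_⟩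
  · intro X hX
    simp only [E, Set.mem_setOf_eq, Finset.mem_image, Finset.mem_filter]
    constructor
    · rintro ⟨Y, ⟨hY, hY2⟩, h⟩
      by_cases hXY : Y = X
      · rwa [← hXY]
      · exfalso
        apply hg Y X hXY
        have hlt : g Y X < M := by
          have : g Y X ≤ (P ×ˢ P).sup (fun q => g q.1 q.2) :=
            Finset.le_sup (f := fun q : Set ℕ × Set ℕ => g q.1 q.2) (b := (Y, X))
              (Finset.mem_product.2 ⟨hY, hX⟩)
          omega
        have h2 := Finset.ext_iff.1 h (g Y X)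
        simp only [tr, Finset.mem_filter, Finset.mem_range, hlt, true_and] at h2
        exact h2
    · intro h
      exact ⟨X, ⟨hX, h⟩, rfl⟩
  · intro n hn
    simp only [Finset.mem_range]
    have : n < N := hn
    omega

theorem exists_uf (𝒳 : Set (Set ℕ)) : ∃ u : Ultrafilter D, ∀ i, W 𝒳 i ∈ u := by
  classical
  have hdir : Directed (· ≥ ·) (fun i : Finset (Set ℕ) × ℕ => Filter.principal (W 𝒳 i)) := by
    intro i j
    refine ⟨(i.1 ∪ j.1, max i.2 j.2), ?_, ?_⟩
    · simp only [ge_iff_le, Filter.le_principal_iff, Filter.mem_principal]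
      intro d hd
      exact ⟨fun X hX => hd.1 X (Finset.mem_union_left _ hX),
        fun n hn => hd.2 n (lt_of_lt_of_le hn (le_max_left _ _))⟩
    · simp only [ge_iff_le, Filter.le_principal_iff, Filter.mem_principal]
      intro d hd
      exact ⟨fun X hX => hd.1 X (Finset.mem_union_right _ hX),
        fun n hn => hd.2 n (lt_of_lt_of_le hn (le_max_right _ _))⟩
  have hne : (⨅ i, Filter.principal (W 𝒳 i)).NeBot :=
    Filter.iInf_neBot_of_directed hdir (fun i => Filter.principal_neBot_iff.2 (W_nonempty 𝒳 i))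
  refine ⟨Ultrafilter.of (⨅ i, Filter.principal (W 𝒳 i)), fun i => ?_⟩
  exact Ultrafilter.of_le _ (Filter.mem_iInf_of_mem i (Filter.mem_principal_self _))

noncomputable def uf (𝒳 : Set (Set ℕ)) : Ultrafilter D := (exists_uf 𝒳).choose

theorem uf_spec (𝒳 : Set (Set ℕ)) (i) : W 𝒳 i ∈ uf 𝒳 := (exists_uf 𝒳).choose_spec i

theorem uf_inj : Function.Injective uf := by
  classical
  intro 𝒳 𝒴 h
  ext X
  have h1 := uf_spec 𝒳 ({X}, 0)
  have h2 := uf_spec 𝒴 ({X}, 0)
  rw [h] at h1
  obtain ⟨d, hd1, hd2⟩ := (uf 𝒴).nonempty_of_mem (Filter.inter_mem h1 h2)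
  have e1 := hd1.1 X (by simp)
  have e2 := hd2.1 X (by simp)
  exact e1.symm.trans e2

theorem uf_nonprincipal (𝒳 : Set (Set ℕ)) (d : D) : ({d}ᶜ : Set D) ∈ uf 𝒳 := by
  classical
  have h1 := uf_spec 𝒳 (∅, d.1.sup id + 2)
  refine Filter.mem_of_superset h1 ?_
  intro d' hd' hcon
  rw [Set.mem_singleton_iff] at hcon
  subst hcon
  have h2 := hd'.2 (d'.1.sup id + 1) (by simp)
  have h3 : d'.1.sup id + 1 ≤ d'.1.sup id := Finset.le_sup (f := id) h2
  omega

/-- non-principal ultrafilters on ℕ -/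
def NP := {p : Ultrafilter ℕ // ∀ n, ({n}ᶜ : Set ℕ) ∈ p}

theorem card_NP : 2 ^ continuum ≤ #NP := by
  classical
  obtain ⟨e⟩ : Nonempty (D ≃ ℕ) := nonempty_equiv_of_countable
  have h : #(Set (Set ℕ)) ≤ #NP := by
    refine Cardinal.mk_le_of_injective (f := fun 𝒳 => ⟨(uf 𝒳).map e, ?_⟩) ?_
    · intro n
      rw [Ultrafilter.mem_map]
      have : (e ⁻¹' ({n}ᶜ : Set ℕ)) = ({e.symm n}ᶜ : Set D) := by
        ext d
        simp [Equiv.eq_symm_apply]
      rw [this]
      exact uf_nonprincipal 𝒳 _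
    · intro 𝒳 𝒴 h
      have h2 := congrArg Subtype.val h
      simp only at h2
      apply uf_inj
      have h3 := congrArg (Ultrafilter.map e.symm) h2
      rw [Ultrafilter.map_map, Ultrafilter.map_map] at h3
      simpa using h3
  simpa using h

/-! ### The choice of representatives -/

def rel (p q : NP) : Prop := ∃ h : Equiv.Perm ℕ, q.1 = p.1.map h

theorem rel_equiv : Equivalence rel where
  refl p := ⟨Equiv.refl _, by simp⟩
  symm := by
    rintro p q ⟨h, hq⟩
    refine ⟨h.symm, ?_⟩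
    rw [hq, Ultrafilter.map_map]
    simp
  trans := by
    rintro p q r ⟨h, hq⟩ ⟨h', hr⟩
    refine ⟨h.trans h', ?_⟩
    rw [hr, hq, Ultrafilter.map_map]
    rfl

def relSetoid : Setoid NP := ⟨rel, rel_equiv⟩

theorem card_quot : 2 ^ continuum ≤ #(Quotient relSetoid) := by
  by_contra hcon
  rw [not_le] at hcon
  have h1 : #NP ≤ #(Quotient relSetoid × Equiv.Perm ℕ) := by
    have hx : ∀ x : NP, ∃ σ : Equiv.Perm ℕ, x.1 = (Quotient.out (Quotient.mk relSetoid x)).1.map σ := by
      intro x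
      have h : relSetoid (Quotient.out (Quotient.mk relSetoid x)) x := Quotient.mk_out x
      exact h
    choose σ hσ using hx
    refine Cardinal.mk_le_of_injective (f := fun x => (Quotient.mk relSetoid x, σ x)) ?_
    intro x y h
    simp only [Prod.mk.injEq] at h
    apply Subtype.ext
    rw [hσ x, hσ y, h.1, h.2]
  have h2 : #(Equiv.Perm ℕ) ≤ continuum := by
    have : #(Equiv.Perm ℕ) ≤ #(ℕ → ℕ) :=
      Cardinal.mk_le_of_injective (f := fun σ => (σ : ℕ → ℕ)) DFunLike.coe_injective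
    simpa using this
  have h3 : #(Quotient relSetoid × Equiv.Perm ℕ) < 2 ^ continuum := by
    rw [Cardinal.mk_prod]
    simp only [Cardinal.lift_id]
    refine Cardinal.mul_lt_of_lt ?_ hcon (lt_of_le_of_lt h2 (Cardinal.cantor _))
    exact Cardinal.aleph0_le_continuum.trans (Cardinal.cantor _).le
  exact absurd (card_NP.trans h1) (not_le.2 h3)

theorem exists_family : ∃ P : Set (Set ℕ) → NP, ∀ a b, a ≠ b → ¬ ∃ h : Equiv.Perm ℕ, (P b).1 = (P a).1.map h := by
  have h : #(Set (Set ℕ)) ≤ #(Quotient relSetoid) := by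
    refine le_trans ?_ card_quot
    simp
  obtain ⟨f⟩ := (Cardinal.le_def _ _).1 h
  refine ⟨fun a => Quotient.out (f a), ?_⟩
  rintro a b hab ⟨g, hg⟩
  apply hab
  apply f.injective
  have h1 : rel (Quotient.out (f a)) (Quotient.out (f b)) := ⟨g, hg⟩
  have h2 : Quotient.mk relSetoid (Quotient.out (f a)) = Quotient.mk relSetoid (Quotient.out (f b)) :=
    Quotient.sound h1
  rwa [Quotient.out_eq, Quotient.out_eq] at h2

/-! ### The ideals -/

noncomputable def e : ℤ ≃ ℕ × ℕ := Classical.choice (nonempty_equiv_of_countable)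

/-- the slice of `A` at `n` -/
def sl (A : Set ℤ) (n : ℕ) : Set ℕ := {m | e.symm (n, m) ∈ A}

/-- the set with prescribed slices -/
def un (f : ℕ → Set ℕ) : Set ℤ := {z | (e z).2 ∈ f (e z).1}

@[simp] theorem sl_un (f : ℕ → Set ℕ) (n : ℕ) : sl (un f) n = f n := by
  ext m; simp [sl, un]

theorem sl_union (A B : Set ℤ) (n : ℕ) : sl (A ∪ B) n = sl A n ∪ sl B n := rfl
theorem sl_inter (A B : Set ℤ) (n : ℕ) : sl (A ∩ B) n = sl A n ∩ sl B n := rfl
theorem sl_diff (A B : Set ℤ) (n : ℕ) : sl (A \ B) n = sl A n \ sl B n := rfl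
theorem sl_empty (n : ℕ) : sl ∅ n = ∅ := rfl
theorem sl_mono {A B : Set ℤ} (h : A ⊆ B) (n : ℕ) : sl A n ⊆ sl B n := fun _ hm => h hm

theorem subset_of_sl {A B : Set ℤ} (h : ∀ n, sl A n ⊆ sl B n) : A ⊆ B := by
  intro z hz
  have h1 : (e z).2 ∈ sl A (e z).1 := by simpa [sl] using hz
  simpa [sl] using h _ h1

noncomputable abbrev k0 : Ultrafilter ℕ := Filter.hyperfilter ℕ

theorem fin_k0 {S : Set ℕ} (h : S.Finite) : S ∉ k0 := Set.Finite.notMem_hyperfilter h

theorem inf_of_k0 {S : Set ℕ} (h : S ∈ k0) : S.Infinite := fun hf => fin_k0 hf h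

theorem union_k0 {S T : Set ℕ} (hS : S ∉ k0) (hT : T ∉ k0) : S ∪ T ∉ k0 := by
  rw [Ultrafilter.union_mem_iff]
  tauto

/-- membership in the ideal attached to `p` -/
def mI (p : Ultrafilter ℕ) (A : Set ℤ) : Prop := (∀ n, sl A n ∉ k0) ∧ {n | (sl A n).Finite} ∈ p

theorem mI_mono {p : Ultrafilter ℕ} {A B : Set ℤ} (h : A ⊆ B) (hB : mI p B) : mI p A :=
  ⟨fun n hn => hB.1 n (Filter.mem_of_superset hn (sl_mono h n)),
    Filter.mem_of_superset hB.2 (fun n hn => Set.Finite.subset hn (sl_mono h n))⟩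

theorem mI_union {p : Ultrafilter ℕ} {A B : Set ℤ} (hA : mI p A) (hB : mI p B) : mI p (A ∪ B) :=
  ⟨fun n => union_k0 (hA.1 n) (hB.1 n),
    Filter.mem_of_superset (Filter.inter_mem hA.2 hB.2) (fun _ hn => Set.Finite.union hn.1 hn.2)⟩

theorem mI_empty (p : Ultrafilter ℕ) : mI p ∅ := by
  refine ⟨fun n => fin_k0 (by simp [sl_empty]), ?_⟩
  have : {n : ℕ | (sl ∅ n).Finite} = Set.univ := by
    ext n; simp [sl_empty]
  rw [this]
  exact Filter.univ_mem

def II (p : Ultrafilter ℕ) : Order.Ideal (Set ℤ) where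
  carrier := {A | mI p A}
  lower' := fun _ _ h hB => mI_mono h hB
  nonempty' := ⟨∅, mI_empty p⟩
  directed' := fun A hA B hB => ⟨A ∪ B, mI_union hA hB, subset_union_left, subset_union_right⟩

theorem mem_II (p : Ultrafilter ℕ) (A : Set ℤ) : A ∈ II p ↔ mI p A := Iff.rfl

/-- columns -/
def Cn (n : ℕ) : Set ℤ := un (fun k => if k = n then Set.univ else ∅)

theorem sl_Cn_self (n : ℕ) : sl (Cn n) n = Set.univ := by simp [Cn]
theorem sl_Cn_ne {n k : ℕ} (h : k ≠ n) : sl (Cn n) k = ∅ := by simp [Cn, h]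

/-- For a non-principal `p`, a set contained in one column is in the ideal iff its slice is small. -/
theorem mI_col {p : Ultrafilter ℕ} (hp : ∀ n, ({n}ᶜ : Set ℕ) ∈ p) {A : Set ℤ} {n : ℕ}
    (h : ∀ k, k ≠ n → sl A k = ∅) (hn : sl A n ∉ k0) : mI p A := by
  constructor
  · intro k
    by_cases hk : k = n
    · rw [hk]; exact hn
    · rw [h k hk]; exact fin_k0 Set.finite_empty
  · refine Filter.mem_of_superset (hp n) ?_
    intro k hk
    have : k ≠ n := hk
    show (sl A k).Finite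
    rw [h k this]
    exact Set.finite_empty

theorem exists_half (S : Set ℕ) (hS : S.Infinite) :
    ∃ S' ⊆ S, S'.Infinite ∧ (S \ S').Infinite := by
  classical
  let g := hS.natEmbedding
  let S1 : Set ℕ := Set.range (fun n : ℕ => (g (2 * n) : ℕ))
  let S2 : Set ℕ := Set.range (fun n : ℕ => (g (2 * n + 1) : ℕ))
  have hinj1 : Function.Injective (fun n : ℕ => (g (2 * n) : ℕ)) := by
    intro a b h
    have := g.injective (Subtype.ext h)
    omega
  have hinj2 : Function.Injective (fun n : ℕ => (g (2 * n + 1) : ℕ)) := by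
    intro a b h
    have := g.injective (Subtype.ext h)
    omega
  refine ⟨S1, ?_, Set.infinite_range_of_injective hinj1, ?_⟩
  · rintro _ ⟨n, rfl⟩
    exact (g (2 * n)).2
  · refine (Set.infinite_range_of_injective hinj2).mono ?_
    rintro _ ⟨n, rfl⟩
    refine ⟨(g (2 * n + 1)).2, ?_⟩
    rintro ⟨k, hk⟩
    have := g.injective (Subtype.ext hk)
    omega

theorem exists_small (S : Set ℕ) (hS : S.Infinite) :
    ∃ S' ⊆ S, S'.Infinite ∧ S' ∉ k0 := by
  obtain ⟨S', h1, h2, h3⟩ := exists_half S hS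
  by_cases h : S' ∈ k0
  · refine ⟨S \ S', diff_subset, h3, ?_⟩
    intro h4
    have := Filter.inter_mem h h4
    have h5 : S' ∩ (S \ S') = ∅ := by
      ext x; simp
    rw [h5] at this
    exact fin_k0 Set.finite_empty this
  · exact ⟨S', h1, h2, h⟩

/-! ### The abstract comparison -/

/-- `A ≤ B` in the quotient by the ideal of `p` -/
def le (p : Ultrafilter ℕ) (A B : Set ℤ) : Prop := mI p (A \ B)

theorem le_refl (p : Ultrafilter ℕ) (A : Set ℤ) : le p A A := by
  unfold le; rw [Set.sdiff_self]; exact mI_empty p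

theorem le_of_subset {p : Ultrafilter ℕ} {A B : Set ℤ} (h : A ⊆ B) : le p A B := by
  unfold le; rw [Set.sdiff_eq_empty.2 h]; exact mI_empty p

theorem le_trans {p : Ultrafilter ℕ} {A B C : Set ℤ} (h1 : le p A B) (h2 : le p B C) : le p A C := by
  refine mI_mono ?_ (mI_union h1 h2)
  intro z hz
  by_cases h : z ∈ B
  · exact Or.inr ⟨h, hz.2⟩
  · exact Or.inl ⟨hz.1, h⟩

theorem mI_of_le {p : Ultrafilter ℕ} {A B : Set ℤ} (h : le p A B) (hB : mI p B) : mI p A := by
  refine mI_mono ?_ (mI_union h hB)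
  intro z hz
  by_cases h : z ∈ B
  · exact Or.inr h
  · exact Or.inl ⟨hz, h⟩

theorem le_k0 {p : Ultrafilter ℕ} {A B : Set ℤ} (h : le p A B) {n : ℕ} (hA : sl A n ∈ k0) :
    sl B n ∈ k0 := by
  by_contra hB
  have h1 : (sl B n)ᶜ ∈ k0 := Ultrafilter.compl_mem_iff_notMem.2 hB
  exact h.1 n (Filter.inter_mem hA h1)

def atom (p : Ultrafilter ℕ) (A : Set ℤ) : Prop :=
  ¬ mI p A ∧ ∀ B, le p B A → mI p B ∨ le p A B

theorem atom_Cn {p : Ultrafilter ℕ} (hp : ∀ n, ({n}ᶜ : Set ℕ) ∈ p) (n : ℕ) : atom p (Cn n) := by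
  constructor
  · intro h
    have := h.1 n
    rw [sl_Cn_self] at this
    exact this Filter.univ_mem
  · intro B hB
    by_cases h : sl B n ∈ k0
    · right
      apply mI_col hp (n := n)
      · intro k hk
        rw [sl_diff, sl_Cn_ne hk, Set.empty_sdiff]
      · rw [sl_diff, sl_Cn_self]
        intro h2
        have := Filter.inter_mem h h2
        have h5 : sl B n ∩ (Set.univ \ sl B n) = ∅ := by
          ext x; simp
        rw [h5] at this
        exact fin_k0 Set.finite_empty this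
    · left
      refine mI_of_le (B := B ∩ Cn n) ?_ ?_
      · unfold le
        rw [Set.sdiff_self_inter]
        exact hB
      · apply mI_col hp (n := n)
        · intro k hk
          rw [sl_inter, sl_Cn_ne hk, Set.inter_empty]
        · rw [sl_inter, sl_Cn_self, Set.inter_univ]
          exact h

theorem atom_eq {p : Ultrafilter ℕ} (hp : ∀ n, ({n}ᶜ : Set ℕ) ∈ p) {A : Set ℤ} (hA : atom p A) :
    ∃ n, le p A (Cn n) ∧ le p (Cn n) A := by
  classical
  by_cases h : ∃ n, sl A n ∈ k0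
  · obtain ⟨n, hn⟩ := h
    refine ⟨n, ?_, ?_⟩
    · have h1 : le p (Cn n ∩ A) A := le_of_subset Set.inter_subset_right
      rcases hA.2 _ h1 with h2 | h2
      · exfalso
        apply h2.1 n
        rw [sl_inter, sl_Cn_self, Set.univ_inter]
        exact hn
      · exact le_trans h2 (le_of_subset Set.inter_subset_left)
    · apply mI_col hp (n := n)
      · intro k hk
        rw [sl_diff, sl_Cn_ne hk, Set.empty_sdiff]
      · rw [sl_diff, sl_Cn_self]
        intro h2
        have := Filter.inter_mem hn h2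
        have h5 : sl A n ∩ (Set.univ \ sl A n) = ∅ := by
          ext x; simp
        rw [h5] at this
        exact fin_k0 Set.finite_empty this
  · exfalso
    push Not at h
    have h1 : {n | (sl A n).Finite} ∉ p := fun h2 => hA.1 ⟨h, h2⟩
    have h2 : ∀ n, ∃ S' ⊆ sl A n, (sl A n).Infinite → (S'.Infinite ∧ (sl A n \ S').Infinite) := by
      intro n
      by_cases hn : (sl A n).Infinite
      · obtain ⟨S', a, b, c⟩ := exists_half _ hn
        exact ⟨S', a, fun _ => ⟨b, c⟩⟩
      · exact ⟨∅, Set.empty_subset _, fun h => absurd h hn⟩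
    choose f hf1 hf2 using h2
    have hsub : un f ⊆ A := subset_of_sl (fun n => by rw [sl_un]; exact hf1 n)
    rcases hA.2 (un f) (le_of_subset hsub) with h3 | h3
    · apply h1
      refine Filter.mem_of_superset h3.2 ?_
      intro n hn
      by_contra hcon
      have : (sl (un f) n).Finite := hn
      rw [sl_un] at this
      exact (hf2 n hcon).1 this
    · apply h1
      refine Filter.mem_of_superset h3.2 ?_
      intro n hn
      by_contra hcon
      have : (sl (A \ un f) n).Finite := hn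
      rw [sl_diff, sl_un] at this
      exact (hf2 n hcon).2 this

theorem Cn_inj {p : Ultrafilter ℕ} {n k : ℕ} (h : le p (Cn n) (Cn k)) : n = k := by
  by_contra hne
  have h1 := le_k0 h (n := n) (by rw [sl_Cn_self]; exact Filter.univ_mem)
  rw [sl_Cn_ne hne] at h1
  exact fin_k0 Set.finite_empty h1

/-- The main comparison: an isomorphism of the quotients gives a permutation. -/
theorem comparison {p q : Ultrafilter ℕ} (hp : ∀ n, ({n}ᶜ : Set ℕ) ∈ p) (hq : ∀ n, ({n}ᶜ : Set ℕ) ∈ q)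
    (f : Set ℤ → Set ℤ)
    (hz : ∀ A, mI p A ↔ mI q (f A))
    (hle : ∀ A B, le p A B ↔ le q (f A) (f B))
    (hinter : ∀ A B, mI p (A ∩ B) ↔ mI q (f A ∩ f B))
    (hsurj : ∀ C, ∃ A, le q (f A) C ∧ le q C (f A)) :
    ∃ h : Equiv.Perm ℕ, q = p.map h := by
  classical
  -- atoms are preserved
  have hatom : ∀ A, atom p A → atom q (f A) := by
    intro A hA
    refine ⟨fun h => hA.1 ((hz A).2 h), ?_⟩
    intro B' hB'
    obtain ⟨B, hB1, hB2⟩ := hsurj B'
    have h1 : le p B A := (hle B A).2 (le_trans hB1 hB')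
    rcases hA.2 B h1 with h2 | h2
    · left
      exact mI_of_le hB2 ((hz B).1 h2)
    · right
      exact le_trans ((hle A B).1 h2) hB1
  have hatom' : ∀ A, atom q (f A) → atom p A := by
    intro A hA
    refine ⟨fun h => hA.1 ((hz A).1 h), ?_⟩
    intro B hB
    rcases hA.2 (f B) ((hle B A).1 hB) with h2 | h2
    · exact Or.inl ((hz B).2 h2)
    · exact Or.inr ((hle A B).2 h2)
  have hh : ∀ n, ∃ k, le q (f (Cn n)) (Cn k) ∧ le q (Cn k) (f (Cn n)) :=
    fun n => atom_eq hq (hatom _ (atom_Cn hp n))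
  choose h h1 h2 using hh
  have hinj : Function.Injective h := by
    intro a b hab
    have h3 : le q (f (Cn a)) (f (Cn b)) := le_trans (h1 a) (by rw [hab]; exact h2 b)
    exact Cn_inj ((hle _ _).2 h3)
  have hsur : Function.Surjective h := by
    intro t
    obtain ⟨A, hA1, hA2⟩ := hsurj (Cn t)
    have hAt : atom q (f A) := by
      have := atom_Cn hq t
      refine ⟨fun hm => this.1 (mI_of_le hA2 hm), ?_⟩
      intro B hB
      rcases this.2 B (le_trans hB hA1) with h3 | h3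
      · exact Or.inl h3
      · exact Or.inr (le_trans hA1 h3)
    obtain ⟨n, hn1, hn2⟩ := atom_eq hp (hatom' A hAt)
    refine ⟨n, ?_⟩
    have h3 : le q (Cn (h n)) (Cn t) := le_trans (h2 n) (le_trans ((hle _ _).1 hn2) hA1)
    exact Cn_inj h3
  refine ⟨Equiv.ofBijective h ⟨hinj, hsur⟩, ?_⟩
  -- the key implication
  have key : ∀ T : Set ℕ, T ∈ q → h ⁻¹' T ∈ p := by
    intro T hT
    by_contra hS
    let bS : Set ℤ := un (fun n => if h n ∈ T then Set.univ else ∅)
    have hbS1 : ∀ n, h n ∈ T → sl bS n = Set.univ := fun n hn => by simp [bS, hn]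
    have hbS2 : ∀ n, h n ∉ T → sl bS n = ∅ := fun n hn => by simp [bS, hn]
    have hinf : ∀ t, t ∈ T → (sl (f bS) t).Infinite := by
      intro t ht
      obtain ⟨n, rfl⟩ := hsur t
      have h3 : Cn n ⊆ bS := by
        apply subset_of_sl
        intro k
        by_cases hk : k = n
        · rw [hk, hbS1 n ht]; exact Set.subset_univ _
        · rw [sl_Cn_ne hk]; exact Set.empty_subset _
      have h4 : le q (Cn (h n)) (f bS) := le_trans (h2 n) ((hle _ _).1 (le_of_subset h3))
      exact inf_of_k0 (le_k0 h4 (by rw [sl_Cn_self]; exact Filter.univ_mem))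
    have hch : ∀ t, ∃ S' ⊆ sl (f bS) t, S' ∉ k0 ∧ (t ∈ T → S'.Infinite) := by
      intro t
      by_cases ht : t ∈ T
      · obtain ⟨S', a, b, c⟩ := exists_small _ (hinf t ht)
        exact ⟨S', a, c, fun _ => b⟩
      · exact ⟨∅, Set.empty_subset _, fin_k0 Set.finite_empty, fun h => absurd h ht⟩
    choose c hc1 hc2 hc3 using hch
    have hsub : un c ⊆ f bS := subset_of_sl (fun n => by rw [sl_un]; exact hc1 n)
    obtain ⟨A, hA1, hA2⟩ := hsurj (un c)
    have hnz : ¬ mI q (un c) := by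
      intro hm
      have h5 := Filter.inter_mem hm.2 hT
      obtain ⟨t, ht1, ht2⟩ := q.nonempty_of_mem h5
      have h6 : (sl (un c) t).Finite := ht1
      rw [sl_un] at h6
      exact hc3 t ht2 h6
    have hAnz : ¬ mI p A := fun hm => hnz (mI_of_le hA2 ((hz A).1 hm))
    apply hAnz
    have hAle : le p A bS := (hle _ _).2 (le_trans hA1 (le_of_subset hsub))
    constructor
    · intro n hn
      -- A meets the column n in a nonzero element
      have h7 : ¬ mI p (A ∩ Cn n) := by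
        intro hm
        apply hm.1 n
        rw [sl_inter, sl_Cn_self, Set.inter_univ]
        exact hn
      apply h7
      rw [hinter]
      refine mI_of_le (B := un c ∩ Cn (h n)) ?_ ?_
      · refine mI_mono ?_ (mI_union hA1 (h1 n))
        intro z hz
        by_cases hz2 : z ∈ un c
        · exact Or.inr ⟨hz.1.2, fun h8 => hz.2 ⟨hz2, h8⟩⟩
        · exact Or.inl ⟨hz.1.1, hz2⟩
      · apply mI_col hq (n := h n)
        · intro k hk
          rw [sl_inter, sl_Cn_ne hk, Set.inter_empty]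
        · rw [sl_inter, sl_Cn_self, Set.inter_univ, sl_un]
          exact hc2 _
    · have h8 : (h ⁻¹' T)ᶜ ∈ p := Ultrafilter.compl_mem_iff_notMem.2 hS
      refine Filter.mem_of_superset (Filter.inter_mem hAle.2 h8) ?_
      intro n hn
      have h9 : (sl (A \ bS) n).Finite := hn.1
      rw [sl_diff, hbS2 n hn.2, Set.sdiff_empty] at h9
      exact h9
  apply Ultrafilter.eq_of_le
  intro T hT
  by_contra hcon
  have hT2 : Tᶜ ∈ q := Ultrafilter.compl_mem_iff_notMem.2 hcon
  have h3 := key _ hT2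
  have h4 : h ⁻¹' T ∈ p := hT
  have h5 := Filter.inter_mem h3 h4
  obtain ⟨x, hx1, hx2⟩ := p.nonempty_of_mem h5
  exact hx1 hx2

theorem main : ∃ F : Set (Set ℕ) → Order.Ideal (Set ℤ),
      ∀ a b : Set (Set ℕ), a ≠ b →
        ¬ ∃ f : Set ℤ → Set ℤ,
          (∀ A B : Set ℤ, symmDiff A B ∈ F a ↔ symmDiff (f A) (f B) ∈ F b) ∧
          (∀ C : Set ℤ, ∃ A : Set ℤ, symmDiff (f A) C ∈ F b) ∧
          (∀ A B : Set ℤ, symmDiff (f (A ∩ B)) (f A ∩ f B) ∈ F b) ∧
          (∀ A : Set ℤ, symmDiff (f Aᶜ) (f A)ᶜ ∈ F b) := by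
  obtain ⟨P, hP⟩ := exists_family
  refine ⟨fun a => II (P a).1, ?_⟩
  rintro a b hab ⟨f, h1, h2, h3, h4⟩
  simp only [mem_II] at h1 h2 h3 h4
  apply hP a b hab
  set p := (P a).1
  set q := (P b).1
  -- symmetric difference versus mutual inequality
  have hsd : ∀ (r : Ultrafilter ℕ) (A B : Set ℤ), mI r (symmDiff A B) → le r A B ∧ le r B A := by
    intro r A B h
    rw [Set.symmDiff_def] at h
    exact ⟨mI_mono Set.subset_union_left h, mI_mono Set.subset_union_right h⟩
  have hsd' : ∀ (r : Ultrafilter ℕ) (A : Set ℤ), mI r (symmDiff A ∅) ↔ mI r A := by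
    intro r A
    rw [← Set.bot_eq_empty, symmDiff_bot]
  have hf0 : mI q (f ∅) := by
    have e1 := (hsd _ _ _ (h3 ∅ ∅ᶜ)).1
    rw [Set.inter_compl_self] at e1
    refine mI_of_le e1 ?_
    have e2 := (hsd _ _ _ (h4 ∅)).1
    refine mI_mono ?_ e2
    intro z hz
    exact ⟨hz.2, fun h => h hz.1⟩
  have hz : ∀ A, mI p A ↔ mI q (f A) := by
    intro A
    rw [← hsd' p A, h1 A ∅]
    constructor
    · intro h
      exact mI_of_le (hsd _ _ _ h).1 hf0
    · intro h
      rw [Set.symmDiff_def]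
      exact mI_union (mI_mono Set.sdiff_subset h) (mI_mono Set.sdiff_subset hf0)
  have hinter : ∀ A B, mI p (A ∩ B) ↔ mI q (f A ∩ f B) := by
    intro A B
    rw [hz]
    have := hsd _ _ _ (h3 A B)
    exact ⟨fun h => mI_of_le this.2 h, fun h => mI_of_le this.1 h⟩
  have hle : ∀ A B, le p A B ↔ le q (f A) (f B) := by
    intro A B
    have e1 : A \ B = A ∩ Bᶜ := Set.sdiff_eq A B
    unfold le
    rw [e1, hinter]
    have e2 := hsd _ _ _ (h4 B)
    constructor
    · intro h
      refine mI_mono ?_ (mI_union h e2.2)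
      intro z hz
      by_cases hz2 : z ∈ f Bᶜ
      · exact Or.inl ⟨hz.1, hz2⟩
      · exact Or.inr ⟨hz.2, hz2⟩
    · intro h
      refine mI_mono ?_ (mI_union h e2.1)
      intro z hz
      by_cases hz2 : z ∈ f B
      · exact Or.inr ⟨hz.2, fun h => h hz2⟩
      · exact Or.inl ⟨hz.1, hz2⟩
  exact comparison (P a).2 (P b).2 f hz hle hinter (fun C => by
    obtain ⟨A, hA⟩ := h2 C
    exact ⟨A, (hsd _ _ _ hA).1, (hsd _ _ _ hA).2⟩)

end Pool.Agent.H24.PZ
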