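import Mathlib

set_option autoImplicit false

namespace Pool.Agent.H24.Reg

open FirstOrder FirstOrder.Language

/-- one unary operation symbol for every natural number -/
inductive Fn : ℕ → Type
  | h (i : ℕ) : Fn 1

/-- the language with countably many unary operations -/
def L : FirstOrder.Language.{0, 0} := ⟨Fn, fun _ => Empty⟩

/-- the term `h_i t` -/
def hT {α : Type} (i : ℕ) (t : L.Term α) : L.Term α := Term.func (L := L) (l := 1) (Fn.h i) ![t]

/-- the operation in a structure -/
def op {M : Type} [L.Structure M] (i : ℕ) (y : M) : M :=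
  Structure.funMap (L := L) (n := 1) (Fn.h i) ![y]

@[simp] lemma realize_hT {M α : Type} [L.Structure M] (i : ℕ) (t : L.Term α) (v : α → M) :
    (hT i t).realize v = op i (t.realize v) := by
  unfold hT op
  rw [Term.realize_func]
  congr 1
  funext j
  fin_cases j
  rfl

lemma funMap_eq {M : Type} [L.Structure M] (i : ℕ) (v : Fin 1 → M) :
    Structure.funMap (L := L) (n := 1) (Fn.h i) v = op i (v 0) := by
  unfold op
  congr 1
  funext j
  fin_cases j
  rfl

/-- the variable term -/
abbrev v0 : L.Term (Fin 1) := Term.var 0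

/-- the identities `h_i h_j h_k y = h_i y` and `h_i h_j y = h_i h_k y` -/
def E : Set (Σ n : ℕ, L.Term (Fin n) × L.Term (Fin n)) :=
  {e | (∃ i j k : ℕ, e = ⟨1, (hT i (hT j (hT k v0)), hT i v0)⟩) ∨
    (∃ i j k : ℕ, e = ⟨1, (hT i (hT j v0), hT i (hT k v0))⟩)}

/-- being a model of the identities -/
def Mod (M : Type) [L.Structure M] : Prop :=
  ∀ e ∈ E, ∀ v : Fin e.1 → M, e.2.1.realize v = e.2.2.realize v

lemma mod_iff (M : Type) [L.Structure M] : Mod M ↔
    (∀ (i j k : ℕ) (y : M), op i (op j (op k y)) = op i y) ∧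
    (∀ (i j k : ℕ) (y : M), op i (op j y) = op i (op k y)) := by
  constructor
  · intro hM
    constructor
    · intro i j k y
      have := hM ⟨1, (hT i (hT j (hT k v0)), hT i v0)⟩ (Or.inl ⟨i, j, k, rfl⟩) (fun _ => y)
      simpa using this
    · intro i j k y
      have := hM ⟨1, (hT i (hT j v0), hT i (hT k v0))⟩ (Or.inr ⟨i, j, k, rfl⟩) (fun _ => y)
      simpa using this
  · rintro ⟨h1, h2⟩ e he v
    rcases he with ⟨i, j, k, rfl⟩ | ⟨i, j, k, rfl⟩
    · simp [h1]
    · simp [h2 i j k]

/-- the one-generated free algebra -/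
inductive D : Type
  | x : D
  | y (i : ℕ) : D
  | z (i : ℕ) : D

/-- the operations on `D` -/
def D.op (i : ℕ) : D → D
  | .x => .y i
  | .y _ => .z i
  | .z _ => .y i

/-- the free algebra on `n` generators -/
def Fr (n : ℕ) : Type := Fin n × D

instance (n : ℕ) : L.Structure (Fr n) where
  funMap {k} f := match k, f with
    | _, Fn.h i => fun v => ((v 0).1, D.op i (v 0).2)
  RelMap r := Empty.elim r

lemma op_fr {n : ℕ} (i : ℕ) (p : Fr n) : op i p = ((p.1, D.op i p.2) : Fr n) := rfl

lemma mod_fr (n : ℕ) : Mod (Fr n) := by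
  rw [mod_iff]
  constructor
  · rintro i j k ⟨s, d⟩
    cases d <;> simp [op_fr, D.op]
  · rintro i j k ⟨s, d⟩
    cases d <;> simp [op_fr, D.op]

/-- generators -/
def gen {n : ℕ} (s : Fin n) : Fr n := (s, D.x)

/-- the homomorphism out of the free algebra -/
def liftFun {n : ℕ} {M : Type} [L.Structure M] (f : Fin n → M) : Fr n → M
  | (s, D.x) => f s
  | (s, D.y i) => op i (f s)
  | (s, D.z i) => op i (op 0 (f s))

lemma liftFun_op {n : ℕ} {M : Type} [L.Structure M] (hM : Mod M) (f : Fin n → M) (i : ℕ)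
    (p : Fr n) : liftFun f (op i p) = op i (liftFun f p) := by
  rw [mod_iff] at hM
  obtain ⟨s, d⟩ := p
  cases d with
  | x => rfl
  | y j => exact (hM.2 i 0 j (f s))
  | z j => exact (hM.1 i j 0 (f s)).symm

/-- the lift as a homomorphism -/
def liftHom {n : ℕ} {M : Type} [L.Structure M] (hM : Mod M) (f : Fin n → M) : L.Hom (Fr n) M where
  toFun := liftFun f
  map_fun' {k} g v := by
    match k, g with
    | _, Fn.h i =>
      rw [funMap_eq]
      change liftFun f (op i (v 0)) = _
      rw [liftFun_op hM]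
      rw [funMap_eq]
      rfl
  map_rel' r := Empty.elim r

lemma hom_op {M N : Type} [L.Structure M] [L.Structure N] (φ : L.Hom M N) (i : ℕ) (y : M) :
    φ (op i y) = op i (φ y) := by
  unfold op
  rw [Hom.map_fun]
  congr 1
  funext j
  fin_cases j
  rfl

lemma equiv_op {M N : Type} [L.Structure M] [L.Structure N] (φ : L.Equiv M N) (i : ℕ) (y : M) :
    φ (op i y) = op i (φ y) := by
  unfold op
  rw [Equiv.map_fun]
  congr 1
  funext j
  fin_cases j
  rfl

lemma fr_free (n : ℕ) (M : Type) [L.Structure M] (hM : Mod M) (f : Fin n → M) :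
    ∃! φ : L.Hom (Fr n) M, ⇑φ ∘ gen = f := by
  refine ⟨liftHom hM f, rfl, ?_⟩
  intro φ hφ
  ext ⟨s, d⟩
  have h0 : ∀ s, φ (gen s) = f s := fun s => congrFun hφ s
  cases d with
  | x => exact h0 s
  | y i =>
    have : ((s, D.y i) : Fr n) = op i (gen s) := rfl
    rw [this, hom_op, h0]
    rfl
  | z i =>
    have : ((s, D.z i) : Fr n) = op i (op 0 (gen s)) := rfl
    rw [this, hom_op, hom_op, h0]
    rfl

/-! ### facts on an arbitrary free algebra -/

section free

variable {n : ℕ} {F : Type} [L.Structure F] {ι : Fin n → F}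

lemma free_gen (hF : Mod F)
    (hfree : ∀ (M : Type) [L.Structure M], Mod M → ∀ f : Fin n → M, ∃! h : L.Hom F M, ⇑h ∘ ι = f)
    (y : F) : (∃ s, y = ι s) ∨ (∃ s i, y = op i (ι s)) ∨ (∃ s i, y = op i (op 0 (ι s))) := by
  obtain ⟨g, hg, -⟩ := hfree (Fr n) (mod_fr n) gen
  obtain ⟨idh, -, huniq⟩ := hfree F hF ι
  have h1 : (liftHom hF ι).comp g = Hom.id L F := by
    rw [huniq ((liftHom hF ι).comp g), ← huniq (Hom.id L F)]
    · rfl
    · funext s
      have := congrFun hg s
      simp only [Function.comp_apply] at this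
      simp only [Function.comp_apply, Hom.comp_apply, this]
      rfl
  have h2 : y = liftFun ι (g y) := by
    have := DFunLike.congr_fun h1 y
    exact this.symm
  rw [h2]
  rcases g y with ⟨s, d⟩
  cases d with
  | x => exact Or.inl ⟨s, rfl⟩
  | y i => exact Or.inr (Or.inl ⟨s, i, rfl⟩)
  | z i => exact Or.inr (Or.inr ⟨s, i, rfl⟩)

lemma free_term (hF : Mod F)
    (hfree : ∀ (M : Type) [L.Structure M], Mod M → ∀ f : Fin n → M, ∃! h : L.Hom F M, ⇑h ∘ ι = f)
    (y : F) : ∃ t : L.Term (Fin n), t.realize ι = y := by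
  rcases free_gen hF hfree y with ⟨s, h⟩ | ⟨s, i, h⟩ | ⟨s, i, h⟩
  · exact ⟨Term.var s, by rw [h]; rfl⟩
  · exact ⟨hT i (Term.var s), by rw [h, realize_hT]; rfl⟩
  · exact ⟨hT i (hT 0 (Term.var s)), by rw [h, realize_hT, realize_hT]; rfl⟩

lemma free_not_im
    (hfree : ∀ (M : Type) [L.Structure M], Mod M → ∀ f : Fin n → M, ∃! h : L.Hom F M, ⇑h ∘ ι = f)
    (s : Fin n) (i : ℕ) (w : F) : ι s ≠ op i w := by
  intro h
  obtain ⟨g, hg, -⟩ := hfree (Fr n) (mod_fr n) gen
  have h1 : g (ι s) = gen s := congrFun hg s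
  rw [h, hom_op, op_fr] at h1
  have h2 : D.op i (g w).2 = D.x := congrArg Prod.snd h1
  rcases hd : (g w).2 with _ | j | j <;> rw [hd] at h2 <;> simp [D.op] at h2

lemma free_inj
    (hfree : ∀ (M : Type) [L.Structure M], Mod M → ∀ f : Fin n → M, ∃! h : L.Hom F M, ⇑h ∘ ι = f) :
    Function.Injective ι := by
  intro s t h
  obtain ⟨g, hg, -⟩ := hfree (Fr n) (mod_fr n) gen
  have h1 : g (ι s) = gen s := congrFun hg s
  have h2 : g (ι t) = gen t := congrFun hg t
  rw [h, h2] at h1
  exact (congrArg Prod.fst h1).symm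

/-- the formula saying that `v_s` is not in the image of `h_i` -/
def notIm {m : ℕ} (s : Fin m) (i : ℕ) : L.Formula (Fin m) :=
  BoundedFormula.all (BoundedFormula.not
    (Term.bdEqual (Term.var (Sum.inl s)) (hT i (Term.var (Sum.inr 0)))))

lemma realize_notIm {M : Type} [L.Structure M] {m : ℕ} (s : Fin m) (i : ℕ) (a : Fin m → M) :
    (notIm s i).Realize a ↔ ∀ w : M, a s ≠ op i w := by
  unfold notIm Formula.Realize
  simp [Fin.snoc]

end free

theorem separable (n : ℕ) (F : Type) [L.Structure F] (ι : Fin n → F) (hF : Mod F)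
    (hfree : ∀ (M : Type) [L.Structure M], Mod M → ∀ f : Fin n → M, ∃! h : L.Hom F M, ⇑h ∘ ι = f)
    (H : Type) [L.Structure H] (hH : Mod H)
    (hLG : ∀ (m : ℕ) (T : Set (L.Formula (Fin m))),
            {φ : L.Formula (Fin m) | ∀ a : Fin m → F,
                (∀ ψ ∈ T, ψ.Realize a) → φ.Realize a} =
            {φ : L.Formula (Fin m) | ∀ a : Fin m → H,
                (∀ ψ ∈ T, ψ.Realize a) → φ.Realize a}) :
    Nonempty (L.Equiv F H) := by
  -- a tuple in `H` with the type of the generators
  obtain ⟨a, ha⟩ : ∃ a : Fin n → H, ∀ ψ : L.Formula (Fin n), ψ.Realize ι → ψ.Realize a := by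
    by_contra hcon
    push Not at hcon
    have h1 : (⊥ : L.Formula (Fin n)) ∈ {φ : L.Formula (Fin n) | ∀ a : Fin n → H,
        (∀ ψ ∈ {ψ : L.Formula (Fin n) | ψ.Realize ι}, ψ.Realize a) → φ.Realize a} := by
      intro a ha
      obtain ⟨ψ, h2, h3⟩ := hcon a
      exact absurd (ha ψ h2) h3
    rw [← hLG] at h1
    exact h1 ι (fun ψ hψ => hψ)
  have ha' : ∀ ψ : L.Formula (Fin n), ψ.Realize a → ψ.Realize ι := by
    intro ψ h
    by_contra hc
    have h1 : (ψ.not).Realize ι := by rw [Formula.realize_not]; exact hc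
    have h2 := ha _ h1
    rw [Formula.realize_not] at h2
    exact h2 h
  obtain ⟨φ, hφ, -⟩ := hfree H hH a
  have hterm : ∀ t : L.Term (Fin n), φ (t.realize ι) = t.realize a := by
    intro t
    rw [← hφ]
    exact (HomClass.realize_term φ).symm
  have hinj : Function.Injective φ := by
    intro y y' h
    obtain ⟨t, rfl⟩ := free_term hF hfree y
    obtain ⟨t', rfl⟩ := free_term hF hfree y'
    rw [hterm, hterm] at h
    have h1 : (t.equal t').Realize a := by rw [Formula.realize_equal]; exact h
    have h2 := ha' _ h1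
    rw [Formula.realize_equal] at h2
    exact h2
  have hsurj : Function.Surjective φ := by
    intro h
    -- a tuple in `F` with the type of `(a,h)`
    obtain ⟨c, hc⟩ : ∃ c : Fin (n+1) → F, ∀ ψ : L.Formula (Fin (n+1)),
        ψ.Realize (Fin.snoc a h : Fin (n+1) → H) → ψ.Realize c := by
      by_contra hcon
      push Not at hcon
      have h1 : (⊥ : L.Formula (Fin (n+1))) ∈ {φ : L.Formula (Fin (n+1)) | ∀ c : Fin (n+1) → F,
          (∀ ψ ∈ {ψ : L.Formula (Fin (n+1)) | ψ.Realize (Fin.snoc a h : Fin (n+1) → H)},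
            ψ.Realize c) → φ.Realize c} := by
        intro c hc
        obtain ⟨ψ, h2, h3⟩ := hcon c
        exact absurd (hc ψ h2) h3
      rw [hLG] at h1
      exact h1 (Fin.snoc a h : Fin (n+1) → H) (fun ψ hψ => hψ)
    have hc' : ∀ ψ : L.Formula (Fin (n+1)), ψ.Realize c →
        ψ.Realize (Fin.snoc a h : Fin (n+1) → H) := by
      intro ψ h1
      by_contra hcc
      have h2 : (ψ.not).Realize (Fin.snoc a h : Fin (n+1) → H) := by
        rw [Formula.realize_not]; exact hcc
      have h3 := hc _ h2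
      rw [Formula.realize_not] at h3
      exact h3 h1
    have hgenc : ∀ s : Fin n, ∃ t, c (Fin.castSucc s) = ι t := by
      intro s
      have hnot : ∀ i w, c (Fin.castSucc s) ≠ op i w := by
        intro i
        rw [← realize_notIm]
        apply hc
        rw [realize_notIm]
        have h1 : (notIm s i).Realize ι := by
          rw [realize_notIm]
          exact fun w => free_not_im hfree s i w
        have h2 := ha _ h1
        rw [realize_notIm] at h2
        intro w
        rw [Fin.snoc_castSucc]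
        exact h2 w
      rcases free_gen hF hfree (c (Fin.castSucc s)) with ⟨t, h1⟩ | ⟨t, i, h1⟩ | ⟨t, i, h1⟩
      · exact ⟨t, h1⟩
      · exact absurd h1 (hnot _ _)
      · exact absurd h1 (hnot _ _)
    choose τ hτ using hgenc
    have hτinj : Function.Injective τ := by
      intro s t hst
      by_contra hne
      have h1 : c (Fin.castSucc s) = c (Fin.castSucc t) := by rw [hτ, hτ, hst]
      have h2 : ((Term.var (Fin.castSucc s) : L.Term (Fin (n+1))).equal
          (Term.var (Fin.castSucc t))).Realize c := by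
        rw [Formula.realize_equal]; exact h1
      have h3 := hc' _ h2
      rw [Formula.realize_equal] at h3
      simp only [Term.realize_var, Fin.snoc_castSucc] at h3
      have h4 : ((Term.var s : L.Term (Fin n)).equal (Term.var t)).Realize a := by
        rw [Formula.realize_equal]; exact h3
      have h5 := ha' _ h4
      rw [Formula.realize_equal] at h5
      exact hne (free_inj hfree h5)
    have hτsurj : Function.Surjective τ := Finite.injective_iff_surjective.1 hτinj
    -- the last coordinate is a term in the others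
    obtain ⟨t, ht⟩ := free_term hF hfree (c (Fin.last n))
    choose ρ hρ using hτsurj
    have h1 : c (Fin.last n) = (t.relabel (fun s => Fin.castSucc (ρ s))).realize c := by
      rw [Term.realize_relabel, ← ht]
      congr 1
      funext s
      simp only [Function.comp_apply]
      rw [hτ, hρ]
    have h2 : ((Term.var (Fin.last n) : L.Term (Fin (n+1))).equal
        (t.relabel (fun s => Fin.castSucc (ρ s)))).Realize c := by
      rw [Formula.realize_equal]; exact h1
    have h3 := hc' _ h2
    rw [Formula.realize_equal] at h3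
    simp only [Term.realize_var, Fin.snoc_last, Term.realize_relabel] at h3
    refine ⟨(t.relabel ρ).realize ι, ?_⟩
    rw [hterm, Term.realize_relabel, h3]
    congr 1
    funext s
    simp
  refine ⟨⟨Equiv.ofBijective φ ⟨hinj, hsurj⟩, ?_, ?_⟩⟩
  · intro k f x
    exact φ.map_fun f x
  · intro k r
    exact Empty.elim r

/-! ### The two elements with the same type -/

/-- a permutation of `D` -/
def sw (N : ℕ) : D → D
  | .x => .y N
  | .y i => if i < N then .z i else if i = N then .x else .z (i - 1)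
  | .z i => if i < N then .y i else .y (i + 1)

lemma sw_sw (N : ℕ) (d : D) : sw N (sw N d) = d := by
  cases d with
  | x => simp [sw]
  | y i =>
    by_cases h1 : i < N
    · simp [sw, h1]
    · by_cases h2 : i = N
      · simp [sw, h2]
      · have h3 : ¬ (i - 1 < N) := by omega
        simp only [sw, h1, h2, if_false, h3]
        congr 1
        omega
  | z i =>
    by_cases h1 : i < N
    · simp [sw, h1]
    · have h2 : ¬ (i + 1 < N) := by omega
      have h3 : ¬ (i + 1 = N) := by omega
      simp [sw, h1, h2, h3]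

lemma sw_op (N i : ℕ) (hi : i < N) (d : D) : sw N (D.op i d) = D.op i (sw N d) := by
  cases d with
  | x => simp [sw, D.op, hi]
  | y j =>
    by_cases h1 : j < N
    · simp [sw, D.op, hi, h1]
    · by_cases h2 : j = N
      · simp [sw, D.op, hi, h2]
      · simp [sw, D.op, hi, h1, h2]
  | z j =>
    by_cases h1 : j < N
    · simp [sw, D.op, hi, h1]
    · simp [sw, D.op, hi, h1]

/-- the permutation on the free algebra -/
def Sw (n N : ℕ) (p : Fr n) : Fr n := (p.1, sw N p.2)

lemma Sw_Sw (n N : ℕ) (p : Fr n) : Sw n N (Sw n N p) = p := by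
  unfold Sw
  simp only [sw_sw]
  rfl

lemma Sw_op (n N i : ℕ) (hi : i < N) (p : Fr n) : Sw n N (op i p) = op i (Sw n N p) := by
  simp only [op_fr, Sw, sw_op N i hi]

lemma term_bound {n : ℕ} {α : Type} (t : L.Term α) : ∃ N : ℕ, ∀ M, N ≤ M → ∀ v : α → Fr n,
    t.realize (fun a => Sw n M (v a)) = Sw n M (t.realize v) := by
  induction t with
  | var a => exact ⟨0, fun M _ v => rfl⟩
  | @func l f ts ih =>
    match l, f, ts, ih with
    | _, Fn.h i, ts, ih =>
      obtain ⟨N, hN⟩ := ih 0
      refine ⟨max N (i+1), fun M hM v => ?_⟩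
      rw [Term.realize_func, Term.realize_func, funMap_eq, funMap_eq, hN M (le_trans (le_max_left _ _) hM),
        Sw_op]
      have := le_trans (le_max_right N (i+1)) hM
      omega

lemma formula_bound {n : ℕ} {α : Type} {k : ℕ} (φ : L.BoundedFormula α k) :
    ∃ N : ℕ, ∀ M, N ≤ M → ∀ (v : α → Fr n) (xs : Fin k → Fr n),
    (φ.Realize (fun a => Sw n M (v a)) (fun a => Sw n M (xs a)) ↔ φ.Realize v xs) := by
  induction φ with
  | falsum => exact ⟨0, fun M _ v xs => Iff.rfl⟩
  | equal t1 t2 =>
    obtain ⟨N1, h1⟩ := term_bound (n := n) t1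
    obtain ⟨N2, h2⟩ := term_bound (n := n) t2
    refine ⟨max N1 N2, fun M hM v xs => ?_⟩
    have e : (Sum.elim (fun a => Sw n M (v a)) (fun a => Sw n M (xs a))) =
        fun a => Sw n M (Sum.elim v xs a) := by
      funext a; cases a <;> rfl
    change Term.realize _ t1 = Term.realize _ t2 ↔ Term.realize _ t1 = Term.realize _ t2
    rw [e, h1 M (le_trans (le_max_left _ _) hM), h2 M (le_trans (le_max_right _ _) hM)]
    constructor
    · intro h
      have := congrArg (Sw n M) h
      rwa [Sw_Sw, Sw_Sw] at this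
    · intro h
      rw [h]
  | rel r ts => exact Empty.elim r
  | imp f1 f2 ih1 ih2 =>
    obtain ⟨N1, h1⟩ := ih1
    obtain ⟨N2, h2⟩ := ih2
    refine ⟨max N1 N2, fun M hM v xs => ?_⟩
    rw [BoundedFormula.realize_imp, BoundedFormula.realize_imp,
      h1 M (le_trans (le_max_left _ _) hM), h2 M (le_trans (le_max_right _ _) hM)]
  | all f ih =>
    obtain ⟨N, h⟩ := ih
    refine ⟨N, fun M hM v xs => ?_⟩
    rw [BoundedFormula.realize_all, BoundedFormula.realize_all]
    constructor
    · intro h1 a
      have h2 := h1 (Sw n M a)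
      rw [← h M hM v (Fin.snoc xs a)]
      convert h2 using 1
      funext j
      refine Fin.lastCases ?_ (fun j => ?_) j
      · simp
      · simp
    · intro h1 a
      have h2 := h1 (Sw n M a)
      rw [← h M hM v (Fin.snoc xs (Sw n M a))] at h2
      convert h2 using 1
      funext j
      refine Fin.lastCases ?_ (fun j => ?_) j
      · simp [Sw_Sw]
      · simp

/-- elements of the one-generated free algebra -/
def px : Fr 1 := (0, D.x)
/-- elements of the one-generated free algebra -/
def py (i : ℕ) : Fr 1 := (0, D.y i)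
/-- elements of the one-generated free algebra -/
def pz (i : ℕ) : Fr 1 := (0, D.z i)

lemma Sw_pz (N : ℕ) : Sw 1 (N+1) (pz 0) = py 0 := by
  unfold Sw pz py
  simp [sw]

theorem same_type (φ : L.Formula (Fin 1)) :
    φ.Realize (fun _ => py 0) ↔ φ.Realize (fun _ => pz 0) := by
  obtain ⟨N, hN⟩ := formula_bound (n := 1) φ
  have h := hN (N+1) (Nat.le_succ N) (fun _ => pz 0) default
  rw [Sw_pz] at h
  unfold Formula.Realize
  rw [← h]
  have e2 : (fun a : Fin 0 => Sw 1 (N+1) ((default : Fin 0 → Fr 1) a)) = default := by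
    funext a; exact a.elim0
  rw [e2]

lemma px_not_im (i : ℕ) (w : Fr 1) : px ≠ op i w := by
  intro h
  rw [op_fr] at h
  have h2 : D.x = D.op i w.2 := congrArg Prod.snd h
  rcases hd : w.2 with _ | j | j <;> rw [hd] at h2 <;> simp [D.op] at h2

lemma fr1_cases (p : Fr 1) : p = px ∨ (∃ i, p = op i px) ∨ (∃ i, p = op i (op 0 px)) := by
  obtain ⟨s, d⟩ := p
  have hs : s = 0 := Subsingleton.elim _ _
  subst hs
  cases d with
  | x => exact Or.inl rfl
  | y i => exact Or.inr (Or.inl ⟨i, rfl⟩)
  | z i => exact Or.inr (Or.inr ⟨i, rfl⟩)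

theorem no_aut : ¬ ∃ σ : L.Equiv (Fr 1) (Fr 1),
    ⇑σ ∘ (fun _ : Fin 1 => pz 0) = (fun _ => py 0) := by
  rintro ⟨σ, hσ⟩
  have h0 : σ (pz 0) = py 0 := congrFun hσ 0
  have hx : σ px = px := by
    -- not in the image
    have hnot : ∀ i w, σ px ≠ op i w := by
      intro i w hw
      obtain ⟨u, rfl⟩ := σ.surjective w
      rw [← equiv_op] at hw
      exact px_not_im i u (σ.injective hw)
    rcases fr1_cases (σ px) with h | ⟨i, h⟩ | ⟨i, h⟩
    · exact h
    · exact absurd h (hnot _ _)
    · exact absurd h (hnot _ _)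
  have h1 : pz 0 = op 0 (op 0 px) := rfl
  rw [h1, equiv_op, equiv_op, hx] at h0
  have h2 : D.z 0 = D.y 0 := congrArg Prod.snd h0
  cases h2

end Pool.Agent.H24.Reg
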