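import Mathlib

set_option autoImplicit false

namespace Pool.Agent.H24.SDiv

open FirstOrder FirstOrder.Language Cardinal

/-! ### A Lowenheim-Skolem lemma for subrings closed under countably many unary functions -/

inductive UFun (ι : Type) : ℕ → Type
  | mk : ι → UFun ι 1

def LU (ι : Type) : FirstOrder.Language.{0, 0} := ⟨UFun ι, fun _ => Empty⟩

theorem card_LU_le (ι : Type) [Countable ι] : (Language.ring.sum (LU ι)).card ≤ ℵ₀ := by
  have h1 : Countable (Σ n, (LU ι).Functions n) := by
    have : ∀ n, Countable ((LU ι).Functions n) := by
      intro n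
      have hinj : Function.Injective (fun f : UFun ι n => match n, f with | _, UFun.mk i => i) := by
        rintro ⟨i⟩ ⟨j⟩ h
        simpa using h
      exact hinj.countable
    infer_instance
  have h2 : Countable (Σ n, (LU ι).Relations n) := by
    have : ∀ n, Countable ((LU ι).Relations n) := by
      intro n
      show Countable Empty
      infer_instance
    infer_instance
  have h3 : (LU ι).card ≤ ℵ₀ := by
    have : Countable (LU ι).Symbols := by
      unfold Language.Symbols
      infer_instance
    exact Cardinal.mk_le_aleph0_iff.2 this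
  rw [card_sum]
  simp only [Cardinal.lift_id, FirstOrder.Ring.card_ring]
  refine (add_le_add (Cardinal.natCast_lt_aleph0 (n := 5)).le h3).trans ?_
  simp

theorem exists_subring_elem {ι : Type} [Countable ι] (M : Type) [Ring M] [Infinite M]
    (F : ι → M → M) (s : Set M) (hs : s.Countable) :
    ∃ T : Subring M, (T : Set M).Countable ∧ s ⊆ T ∧ (∀ i, ∀ x ∈ T, F i x ∈ T) ∧
      ∀ ψ : Language.ring.Sentence,
        (@Sentence.Realize Language.ring T (Ring.compatibleRingOfRing T).toStructure ψ ↔
        @Sentence.Realize Language.ring M (Ring.compatibleRingOfRing M).toStructure ψ) := by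
  letI := Ring.compatibleRingOfRing M
  letI : (LU ι).Structure M :=
    { funMap := fun {n} f x => match n, f, x with | _, UFun.mk i, x => F i (x 0)
      RelMap := fun {n} r _ => r.elim }
  obtain ⟨S, hsS, hS⟩ := exists_elementarySubstructure_card_eq (Language.ring.sum (LU ι)) (M := M)
    s (ℵ₀ : Cardinal.{0}) le_rfl (by simpa using hs) (by simpa using card_LU_le ι)
    (by simp)
  have hfun : ∀ {n} (f : Language.ring.Functions n) (x : Fin n → M), (∀ i, x i ∈ S) →
      Structure.funMap f x ∈ S := by
    intro n f x hx
    exact S.toSubstructure.fun_mem (Sum.inl f) x hx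
  have hadd : ∀ a b, a ∈ S → b ∈ S → a + b ∈ S := by
    intro a b ha hb
    have := hfun Ring.addFunc ![a, b] (by intro i; fin_cases i <;> simpa)
    simpa using this
  have hmul : ∀ a b, a ∈ S → b ∈ S → a * b ∈ S := by
    intro a b ha hb
    have := hfun Ring.mulFunc ![a, b] (by intro i; fin_cases i <;> simpa)
    simpa using this
  have hneg : ∀ a, a ∈ S → -a ∈ S := by
    intro a ha
    have := hfun Ring.negFunc ![a] (by intro i; fin_cases i; simpa)
    simpa using this
  have hzero : (0 : M) ∈ S := by
    have := hfun Ring.zeroFunc ![] (by intro i; exact i.elim0)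
    simpa using this
  have hone : (1 : M) ∈ S := by
    have := hfun Ring.oneFunc ![] (by intro i; exact i.elim0)
    simpa using this
  let T : Subring M :=
    { carrier := S
      mul_mem' := fun {a b} ha hb => hmul a b ha hb
      one_mem' := hone
      add_mem' := fun {a b} ha hb => hadd a b ha hb
      zero_mem' := hzero
      neg_mem' := fun {a} ha => hneg a ha }
  refine ⟨T, ?_, hsS, ?_, ?_⟩
  · have : #S = ℵ₀ := by simpa using hS
    exact Cardinal.mk_le_aleph0_iff.1 this.le
  · intro i x hx
    have hx2 : x ∈ S := hx
    exact S.toSubstructure.fun_mem (Sum.inr (UFun.mk i)) ![x] (by intro j; fin_cases j; exact hx2)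
  · intro ψ
    letI i1 : Language.ring.Structure S := (Ring.compatibleRingOfRing T).toStructure
    haveI : (LHom.sumInl : Language.ring →ᴸ (Language.ring.sum (LU ι))).IsExpansionOn S := by
      constructor
      · intro n f x
        cases f <;> rfl
      · intro n r x
        exact r.elim
    have h1 := LHom.realize_onSentence (M := S)
      (LHom.sumInl : Language.ring →ᴸ (Language.ring.sum (LU ι))) ψ
    have h2 := LHom.realize_onSentence (M := M)
      (LHom.sumInl : Language.ring →ᴸ (Language.ring.sum (LU ι))) ψ
    have h3 := S.realize_sentence ((LHom.sumInl : Language.ring →ᴸ (Language.ring.sum (LU ι))).onSentence ψ)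
    exact (h1.symm.trans h3).trans h2

end Pool.Agent.H24.SDiv
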