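import Mathlib

set_option autoImplicit false

namespace Pool.Agent.H24.SDiv

open Cardinal

/-! ### Countably generated division algebras over an uncountable algebraically closed field -/

theorem linInd_key {F E : Type} [Field F] [Ring E] [Algebra F E] (v : F → E)
    (h : ∀ (s : Finset F) (m : F → F), ∑ i ∈ s, m i • v i = 0 → ∀ i ∈ s, m i = 0) :
    LinearIndependent F v := by
  rw [linearIndependent_iff']
  exact h

theorem linInd_sub_inv {F E : Type} [Field F] [DivisionRing E] [Algebra F E] {x : E}
    (H : Transcendental F x) :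
    LinearIndependent F fun a ↦ (x - algebraMap F E a)⁻¹ := by
  classical
  rw [transcendental_iff] at H
  apply linInd_key
  intro s m hm i hi
  have hnz : ∀ a : F, x - algebraMap F E a ≠ 0 := by
    intro a h
    have h5 : Polynomial.aeval x (Polynomial.X - Polynomial.C a) = 0 := by
      rw [map_sub, Polynomial.aeval_X, Polynomial.aeval_C, h]
    exact Polynomial.X_sub_C_ne_zero a (H _ h5)
  let b : E := Polynomial.aeval x (s.prod fun j ↦ (Polynomial.X - Polynomial.C j : Polynomial F))
  have h1 : ∀ i ∈ s, m i • ((x - algebraMap F E i)⁻¹ * b) =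
      m i • Polynomial.aeval x ((s.erase i).prod fun j ↦ (Polynomial.X - Polynomial.C j : Polynomial F)) := by
    intro i hi
    have : b = (x - algebraMap F E i) *
        Polynomial.aeval x ((s.erase i).prod fun j ↦ (Polynomial.X - Polynomial.C j : Polynomial F)) := by
      simp only [b]
      rw [← s.mul_prod_erase _ hi, map_mul]
      simp
    rw [this, ← mul_assoc, inv_mul_cancel₀ (hnz i), one_mul]
  replace hm := congrArg (fun t => t * b) hm
  simp only [zero_mul, Finset.sum_mul, smul_mul_assoc] at hm
  rw [Finset.sum_congr rfl h1] at hm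
  let p : Polynomial F := s.sum fun i ↦ .C (m i) * (s.erase i).prod fun j ↦ .X - .C j
  have hp : Polynomial.aeval x p = 0 := by
    rw [← hm]
    simp only [p, map_sum, map_mul, Polynomial.aeval_C, Algebra.smul_def]
  have hp0 := H p hp
  have hm2 := congrArg (Polynomial.eval i) hp0
  have h2 : ∀ j ∈ s.erase i, m j * ((s.erase j).prod fun x ↦ i - x) = 0 := fun j hj ↦ by
    have := Finset.mem_erase_of_ne_of_mem (Finset.ne_of_mem_erase hj).symm hi
    simp_rw [← (s.erase j).prod_erase_mul _ this, sub_self, mul_zero]
  simp only [p, Polynomial.eval_finsetSum, Polynomial.eval_mul, Polynomial.eval_C,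
    Polynomial.eval_prod, Polynomial.eval_sub, Polynomial.eval_X, Polynomial.eval_zero] at hm2
  rw [← s.sum_erase_add _ hi, Finset.sum_eq_zero h2, zero_add] at hm2
  exact eq_zero_of_ne_zero_of_mul_right_eq_zero (Finset.prod_ne_zero_iff.2 fun j hj ↦
    sub_ne_zero.2 (Finset.ne_of_mem_erase hj).symm) hm2

theorem comm_of_rank_le {D : Type} [DivisionRing D] [Algebra ℂ D]
    (h : Module.rank ℂ D ≤ ℵ₀) (a b : D) : a * b = b * a := by
  have hint : Algebra.IsIntegral ℂ D := by
    constructor
    intro x
    rw [← isAlgebraic_iff_isIntegral]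
    by_contra hx
    have h1 := (linInd_sub_inv hx).cardinal_le_rank
    have h2 := h1.trans h
    rw [Cardinal.mk_complex] at h2
    exact absurd h2 (not_le.2 Cardinal.aleph0_lt_continuum)
  obtain ⟨c, hc⟩ := (IsAlgClosed.algebraMap_bijective_of_isIntegral (k := ℂ) (K := D)).2 a
  rw [← hc]
  exact Algebra.commutes c b

end Pool.Agent.H24.SDiv
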