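import Mathlib

set_option autoImplicit false

namespace Pool.Agent.H24.SDiv

open Cardinal

/-! ### The quaternion algebra over a polynomial ring in countably many variables -/

abbrev va (n : ℕ) : ℕᵒᵈ := OrderDual.toDual n

abbrev AA (k : Type) [CommRing k] := MvPolynomial ℕᵒᵈ k

abbrev RR (k : Type) [CommRing k] :=
  QuaternionAlgebra (AA k) (MvPolynomial.X (va 0)) 0 (MvPolynomial.X (va 1))

/-- functoriality of quaternion algebras -/
def qmap {A B : Type} [CommRing A] [CommRing B] (f : A →+* B) (a c : A) (a' c' : B)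
    (ha : f a = a') (hc : f c = c') : QuaternionAlgebra A a 0 c →+* QuaternionAlgebra B a' 0 c' where
  toFun x := ⟨f x.re, f x.imI, f x.imJ, f x.imK⟩
  map_one' := by ext <;> simp
  map_zero' := by ext <;> simp
  map_add' x y := by ext <;> simp
  map_mul' x y := by
    subst ha hc
    ext <;> simp

section generic
variable {A : Type} [CommRing A] (a c : A)

theorem q_ij : (⟨0, 1, 0, 0⟩ : QuaternionAlgebra A a 0 c) * ⟨0, 0, 1, 0⟩ =
    -(⟨0, 0, 1, 0⟩ * ⟨0, 1, 0, 0⟩) := by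
  ext <;> simp

theorem q_iijj : (⟨a * c, 0, 0, 0⟩ : QuaternionAlgebra A a 0 c) =
    (⟨0, 1, 0, 0⟩ * ⟨0, 1, 0, 0⟩) * (⟨0, 0, 1, 0⟩ * ⟨0, 0, 1, 0⟩) := by
  ext <;> simp

theorem q_mul (x y : A) : (⟨x * y, 0, 0, 0⟩ : QuaternionAlgebra A a 0 c) =
    ⟨x, 0, 0, 0⟩ * ⟨y, 0, 0, 0⟩ := by
  ext <;> simp

theorem q_add (x y : A) : (⟨x + y, 0, 0, 0⟩ : QuaternionAlgebra A a 0 c) =
    ⟨x, 0, 0, 0⟩ + ⟨y, 0, 0, 0⟩ := by
  ext <;> simp

theorem q_neg (x : A) : (⟨-x, 0, 0, 0⟩ : QuaternionAlgebra A a 0 c) = -⟨x, 0, 0, 0⟩ := by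
  ext <;> simp

theorem q_one : (⟨1, 0, 0, 0⟩ : QuaternionAlgebra A a 0 c) = 1 := by
  ext <;> simp

theorem q_zero : (⟨0, 0, 0, 0⟩ : QuaternionAlgebra A a 0 c) = 0 := by
  ext <;> simp

theorem q_decomp (x y z w : A) : (⟨x, y, z, w⟩ : QuaternionAlgebra A a 0 c) =
    ⟨x, 0, 0, 0⟩ + ⟨y, 0, 0, 0⟩ * ⟨0, 1, 0, 0⟩ + ⟨z, 0, 0, 0⟩ * ⟨0, 0, 1, 0⟩ +
      ⟨w, 0, 0, 0⟩ * (⟨0, 1, 0, 0⟩ * ⟨0, 0, 1, 0⟩) := by
  ext <;> simp

end generic

open MvPolynomial in
theorem aniso_aux (k : Type) [Field k] (a b : AA k) (i : ℕᵒᵈ) (h : a ≠ 0 ∨ b ≠ 0) :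
    a ^ 2 - X i * b ^ 2 ≠ 0 ∧
    (MonomialOrder.lex.degree (a ^ 2 - X i * b ^ 2) = 2 • MonomialOrder.lex.degree a ∨
     MonomialOrder.lex.degree (a ^ 2 - X i * b ^ 2) = Finsupp.single i 1 + 2 • MonomialOrder.lex.degree b) := by
  classical
  set m : MonomialOrder ℕᵒᵈ := MonomialOrder.lex with hm
  have hXi : (X i : AA k) ≠ 0 := X_ne_zero i
  by_cases ha : a = 0
  · have hb : b ≠ 0 := by tauto
    subst ha
    have e1 : (0 : AA k) ^ 2 - X i * b ^ 2 = -(X i * b ^ 2) := by ring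
    rw [e1]
    refine ⟨neg_ne_zero.2 (mul_ne_zero hXi (pow_ne_zero 2 hb)), Or.inr ?_⟩
    rw [MonomialOrder.degree_neg, MonomialOrder.degree_mul hXi (pow_ne_zero 2 hb),
      MonomialOrder.degree_X, MonomialOrder.degree_pow]
  by_cases hb : b = 0
  · subst hb
    have e1 : a ^ 2 - X i * (0 : AA k) ^ 2 = a ^ 2 := by ring
    rw [e1]
    exact ⟨pow_ne_zero 2 ha, Or.inl (MonomialOrder.degree_pow _ _)⟩
  have d1 : m.degree (a ^ 2) = 2 • m.degree a := MonomialOrder.degree_pow _ _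
  have d2 : m.degree (-(X i * b ^ 2)) = Finsupp.single i 1 + 2 • m.degree b := by
    rw [MonomialOrder.degree_neg, MonomialOrder.degree_mul hXi (pow_ne_zero 2 hb),
      MonomialOrder.degree_X, MonomialOrder.degree_pow]
  have hne : m.degree (a ^ 2) ≠ m.degree (-(X i * b ^ 2)) := by
    rw [d1, d2]
    intro h
    have := DFunLike.congr_fun h i
    simp at this
    omega
  have e1 : a ^ 2 - X i * b ^ 2 = a ^ 2 + -(X i * b ^ 2) := by ring
  have hdeg := MonomialOrder.degree_add_of_ne hne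
  rw [e1]
  constructor
  · intro h0
    have : a ^ 2 = X i * b ^ 2 := by linear_combination h0
    apply hne
    rw [this, MonomialOrder.degree_neg]
  · rw [← d1, ← d2]
    rcases le_total (m.toSyn (m.degree (a ^ 2))) (m.toSyn (m.degree (-(X i * b ^ 2)))) with h' | h'
    · right
      rw [sup_eq_right.2 h'] at hdeg
      exact m.toSyn.injective hdeg
    · left
      rw [sup_eq_left.2 h'] at hdeg
      exact m.toSyn.injective hdeg

open MvPolynomial in
theorem aniso (k : Type) [Field k] (a b c d : AA k)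
    (h : a ^ 2 - X (va 0) * b ^ 2 - X (va 1) * (c ^ 2 - X (va 0) * d ^ 2) = 0) :
    a = 0 ∧ b = 0 ∧ c = 0 ∧ d = 0 := by
  have h01 : va 0 ≠ va 1 := by decide
  by_cases hcd : c ≠ 0 ∨ d ≠ 0
  · exfalso
    obtain ⟨n1, p1⟩ := aniso_aux k c d (va 0) hcd
    have hX : (X (va 1) : AA k) ≠ 0 := X_ne_zero _
    have e : a ^ 2 - X (va 0) * b ^ 2 = X (va 1) * (c ^ 2 - X (va 0) * d ^ 2) := by
      linear_combination h
    have hab : a ≠ 0 ∨ b ≠ 0 := by
      by_contra hcon
      push Not at hcon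
      rw [hcon.1, hcon.2] at e
      have : X (va 1) * (c ^ 2 - X (va 0) * d ^ 2) = 0 := by
        rw [← e]; ring
      exact (mul_ne_zero hX n1) this
    obtain ⟨n2, p2⟩ := aniso_aux k a b (va 0) hab
    have e2 := congrArg (fun t => MonomialOrder.lex.degree t) e
    beta_reduce at e2
    rw [MonomialOrder.degree_mul hX n1, MonomialOrder.degree_X] at e2
    have e3 := DFunLike.congr_fun e2 (va 1)
    rw [Finsupp.add_apply, Finsupp.single_eq_same] at e3
    have q1 : ∃ t, (MonomialOrder.lex.degree (a ^ 2 - X (va 0) * b ^ 2)) (va 1) = 2 * t := by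
      rcases p2 with p | p
      · exact ⟨_, by rw [p, Finsupp.smul_apply, smul_eq_mul]⟩
      · refine ⟨(MonomialOrder.lex.degree b) (va 1), ?_⟩
        rw [p, Finsupp.add_apply, Finsupp.smul_apply, smul_eq_mul, Finsupp.single_eq_of_ne h01.symm, zero_add]
    have q2 : ∃ t, (MonomialOrder.lex.degree (c ^ 2 - X (va 0) * d ^ 2)) (va 1) = 2 * t := by
      rcases p1 with p | p
      · exact ⟨_, by rw [p, Finsupp.smul_apply, smul_eq_mul]⟩
      · refine ⟨(MonomialOrder.lex.degree d) (va 1), ?_⟩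
        rw [p, Finsupp.add_apply, Finsupp.smul_apply, smul_eq_mul, Finsupp.single_eq_of_ne h01.symm, zero_add]
    obtain ⟨t1, q1⟩ := q1
    obtain ⟨t2, q2⟩ := q2
    rw [q1, q2] at e3
    omega
  · push Not at hcd
    obtain ⟨hc, hd⟩ := hcd
    subst hc hd
    by_cases hab : a ≠ 0 ∨ b ≠ 0
    · exfalso
      obtain ⟨n2, _⟩ := aniso_aux k a b (va 0) hab
      apply n2
      linear_combination h
    · push Not at hab
      exact ⟨hab.1, hab.2, rfl, rfl⟩


abbrev FF (k : Type) [Field k] := FractionRing (AA k)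

noncomputable abbrev xx (k : Type) [Field k] : FF k := algebraMap (AA k) (FF k) (MvPolynomial.X (va 0))
noncomputable abbrev yy (k : Type) [Field k] : FF k := algebraMap (AA k) (FF k) (MvPolynomial.X (va 1))

abbrev DD (k : Type) [Field k] := QuaternionAlgebra (FF k) (xx k) 0 (yy k)

theorem anisoF (k : Type) [Field k] (a b c d : FF k)
    (h : a ^ 2 - xx k * b ^ 2 - yy k * (c ^ 2 - xx k * d ^ 2) = 0) :
    a = 0 ∧ b = 0 ∧ c = 0 ∧ d = 0 := by
  classical
  obtain ⟨s, hs⟩ := IsLocalization.exist_integer_multiples_of_finset (nonZeroDivisors (AA k))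
    ({a, b, c, d} : Finset (FF k))
  have hs0 : algebraMap (AA k) (FF k) (s : AA k) ≠ 0 := by
    have := nonZeroDivisors.coe_ne_zero s
    intro h0
    exact this ((IsFractionRing.injective (AA k) (FF k)) (by rw [h0, map_zero]))
  obtain ⟨a', ha'⟩ := hs a (by simp)
  obtain ⟨b', hb'⟩ := hs b (by simp)
  obtain ⟨c', hc'⟩ := hs c (by simp)
  obtain ⟨d', hd'⟩ := hs d (by simp)
  rw [Algebra.smul_def] at ha' hb' hc' hd'
  set S := algebraMap (AA k) (FF k) (s : AA k) with hS
  have key : a' ^ 2 - MvPolynomial.X (va 0) * b' ^ 2 -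
      MvPolynomial.X (va 1) * (c' ^ 2 - MvPolynomial.X (va 0) * d' ^ 2) = 0 := by
    apply IsFractionRing.injective (AA k) (FF k)
    rw [map_zero]
    simp only [map_sub, map_mul, map_pow, ha', hb', hc', hd']
    have : S ^ 2 * (a ^ 2 - xx k * b ^ 2 - yy k * (c ^ 2 - xx k * d ^ 2)) = 0 := by rw [h, mul_zero]
    linear_combination this
  obtain ⟨h1, h2, h3, h4⟩ := aniso k a' b' c' d' key
  refine ⟨?_, ?_, ?_, ?_⟩
  · rw [h1, map_zero] at ha'
    exact (mul_eq_zero.1 ha'.symm).resolve_left hs0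
  · rw [h2, map_zero] at hb'
    exact (mul_eq_zero.1 hb'.symm).resolve_left hs0
  · rw [h3, map_zero] at hc'
    exact (mul_eq_zero.1 hc'.symm).resolve_left hs0
  · rw [h4, map_zero] at hd'
    exact (mul_eq_zero.1 hd'.symm).resolve_left hs0

noncomputable def nrm {k : Type} [Field k] (q : DD k) : FF k :=
  q.re ^ 2 - xx k * q.imI ^ 2 - yy k * (q.imJ ^ 2 - xx k * q.imK ^ 2)

theorem nrm_ne_zero {k : Type} [Field k] (q : DD k) (hq : q ≠ 0) : nrm q ≠ 0 := by
  intro h
  obtain ⟨h1, h2, h3, h4⟩ := anisoF k _ _ _ _ h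
  apply hq
  ext <;> simpa

theorem mul_star_nrm {k : Type} [Field k] (q : DD k) :
    q * star q = algebraMap (FF k) (DD k) (nrm q) := by
  rw [QuaternionAlgebra.algebraMap_eq]
  ext <;> simp [nrm] <;> ring

theorem star_mul_nrm {k : Type} [Field k] (q : DD k) :
    star q * q = algebraMap (FF k) (DD k) (nrm q) := by
  rw [QuaternionAlgebra.algebraMap_eq]
  ext <;> simp [nrm] <;> ring

theorem isUnit_or (k : Type) [Field k] (q : DD k) : IsUnit q ∨ q = 0 := by
  by_cases hq : q = 0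
  · exact Or.inr hq
  · left
    have hn := nrm_ne_zero q hq
    refine ⟨⟨q, star q * algebraMap (FF k) (DD k) (nrm q)⁻¹, ?_, ?_⟩, rfl⟩
    · rw [← mul_assoc, mul_star_nrm, ← map_mul, mul_inv_cancel₀ hn, map_one]
    · rw [mul_assoc, Algebra.commutes (nrm q)⁻¹ q, ← mul_assoc, star_mul_nrm, ← map_mul,
        mul_inv_cancel₀ hn, map_one]

noncomputable instance instDivDD (k : Type) [Field k] : DivisionRing (DD k) :=
  DivisionRing.ofIsUnitOrEqZero (isUnit_or k)

/-- the surjections, for a countable field -/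
theorem exists_surj (k : Type) [Field k] [Countable k] (f : RR k) (hf : f ≠ 0) :
    ∃ φ : RR k →+* DD k, Function.Surjective φ ∧ φ f ≠ 0 := by
  classical
  haveI : Countable (FF k) := by
    have h1 : #(AA k) ≤ ℵ₀ := by
      refine (MvPolynomial.cardinalMk_le_max (σ := ℕᵒᵈ) (R := k)).trans ?_
      simp
    have h2 : Countable (AA k) := Cardinal.mk_le_aleph0_iff.1 h1
    have h3 : Function.Surjective (fun p : AA k × nonZeroDivisors (AA k) =>
        IsLocalization.mk' (FF k) p.1 p.2) := by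
      intro z
      obtain ⟨x, y, h⟩ := IsLocalization.exists_mk'_eq (nonZeroDivisors (AA k)) z
      exact ⟨(x, y), h⟩
    exact h3.countable
  obtain ⟨e, he⟩ := exists_surjective_nat (FF k)
  -- a bound for the variables used
  obtain ⟨N, hN⟩ : ∃ N : ℕ, 2 ≤ N ∧ ∀ i ∈ f.re.vars ∪ f.imI.vars ∪ f.imJ.vars ∪ f.imK.vars,
      OrderDual.ofDual i < N := by
    refine ⟨(f.re.vars ∪ f.imI.vars ∪ f.imJ.vars ∪ f.imK.vars).sup (fun i => OrderDual.ofDual i + 1) + 2,
      by omega, ?_⟩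
    intro i hi
    have : OrderDual.ofDual i + 1 ≤
      (f.re.vars ∪ f.imI.vars ∪ f.imJ.vars ∪ f.imK.vars).sup (fun i => OrderDual.ofDual i + 1) :=
      Finset.le_sup (f := fun i : ℕᵒᵈ => OrderDual.ofDual i + 1) hi
    omega
  let g : ℕᵒᵈ → FF k := fun i => if OrderDual.ofDual i < N then
    algebraMap (AA k) (FF k) (MvPolynomial.X i) else e (OrderDual.ofDual i - N)
  let ψ : AA k →+* FF k := MvPolynomial.eval₂Hom (algebraMap k (FF k)) g
  have hψX : ∀ i, OrderDual.ofDual i < N → ψ (MvPolynomial.X i) = algebraMap (AA k) (FF k) (MvPolynomial.X i) := by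
    intro i hi
    simp [ψ, g, hi]
  have hψs : Function.Surjective ψ := by
    intro z
    obtain ⟨n, hn⟩ := he z
    refine ⟨MvPolynomial.X (va (n + N)), ?_⟩
    have : ¬ (n + N < N) := by omega
    simp [ψ, g, hn, va]
  have hψeq : ∀ p : AA k, (∀ i ∈ p.vars, OrderDual.ofDual i < N) → ψ p = algebraMap (AA k) (FF k) p := by
    intro p hp
    have h1 : algebraMap (AA k) (FF k) p = MvPolynomial.eval₂Hom (algebraMap k (FF k))
        (fun i => algebraMap (AA k) (FF k) (MvPolynomial.X i)) p := by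
      have : algebraMap (AA k) (FF k) = MvPolynomial.eval₂Hom (algebraMap k (FF k))
        (fun i => algebraMap (AA k) (FF k) (MvPolynomial.X i)) := by
        apply MvPolynomial.ringHom_ext
        · intro r
          rw [MvPolynomial.eval₂Hom_C, ← MvPolynomial.algebraMap_eq,
            ← IsScalarTower.algebraMap_apply k (AA k) (FF k)]
        · intro i
          rw [MvPolynomial.eval₂Hom_X']
      exact congrArg (fun h => h p) this
    rw [h1]
    apply MvPolynomial.eval₂Hom_congr' rfl _ rfl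
    intro i hi _
    simp [g, hp i hi]
  refine ⟨qmap ψ _ _ _ _ (hψX (va 0) (by show 0 < N; omega)) (hψX (va 1) (by show 1 < N; omega)), ?_, ?_⟩
  · intro q
    obtain ⟨a, ha⟩ := hψs q.re
    obtain ⟨b, hb⟩ := hψs q.imI
    obtain ⟨c, hc⟩ := hψs q.imJ
    obtain ⟨d, hd⟩ := hψs q.imK
    exact ⟨⟨a, b, c, d⟩, by ext <;> simpa [qmap]⟩
  · intro h0
    apply hf
    have inj := IsFractionRing.injective (AA k) (FF k)
    have r1 := congrArg QuaternionAlgebra.re h0
    have r2 := congrArg QuaternionAlgebra.imI h0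
    have r3 := congrArg QuaternionAlgebra.imJ h0
    have r4 := congrArg QuaternionAlgebra.imK h0
    simp only [qmap, RingHom.coe_mk, MonoidHom.coe_mk, OneHom.coe_mk, QuaternionAlgebra.re_zero,
      QuaternionAlgebra.imI_zero, QuaternionAlgebra.imJ_zero, QuaternionAlgebra.imK_zero] at r1 r2 r3 r4
    have m1 : ∀ i ∈ f.re.vars, OrderDual.ofDual i < N := fun i hi => hN.2 i (by simp [hi])
    have m2 : ∀ i ∈ f.imI.vars, OrderDual.ofDual i < N := fun i hi => hN.2 i (by simp [hi])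
    have m3 : ∀ i ∈ f.imJ.vars, OrderDual.ofDual i < N := fun i hi => hN.2 i (by simp [hi])
    have m4 : ∀ i ∈ f.imK.vars, OrderDual.ofDual i < N := fun i hi => hN.2 i (by simp [hi])
    rw [hψeq _ m1] at r1
    rw [hψeq _ m2] at r2
    rw [hψeq _ m3] at r3
    rw [hψeq _ m4] at r4
    have s1 : f.re = 0 := inj (by rw [r1, map_zero])
    have s2 : f.imI = 0 := inj (by rw [r2, map_zero])
    have s3 : f.imJ = 0 := inj (by rw [r3, map_zero])
    have s4 : f.imK = 0 := inj (by rw [r4, map_zero])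
    ext1 <;> simp [s1, s2, s3, s4]

end Pool.Agent.H24.SDiv
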