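import Mathlib
import Pool.Agent.H24.SDivA
import Pool.Agent.H24.SDivB
import Pool.Agent.H24.SDivC

set_option autoImplicit false

namespace Pool.Agent.H24.SDiv

open Cardinal FirstOrder

/-! ### Division quotients of the quaternion algebra over the complex numbers -/

theorem rank_RR : Module.rank ℂ (RR ℂ) ≤ ℵ₀ := by
  have h1 : Module.rank ℂ (AA ℂ) ≤ ℵ₀ := by
    rw [← (MvPolynomial.basisMonomials ℕᵒᵈ ℂ).mk_eq_rank'']
    exact Cardinal.mk_le_aleph0_iff.2 (by
      haveI : Countable ℕᵒᵈ := inferInstanceAs (Countable ℕ)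
      infer_instance)
  have h2 : Module.rank ℂ (RR ℂ) = Module.rank ℂ (Fin 4 → AA ℂ) :=
    ((QuaternionAlgebra.linearEquivTuple (MvPolynomial.X (va 0) : AA ℂ) 0
      (MvPolynomial.X (va 1))).restrictScalars ℂ).rank_eq
  rw [h2, rank_fun_eq_lift_mul]
  simp only [Cardinal.lift_id, Fintype.card_fin]
  refine (mul_le_mul' (Cardinal.natCast_lt_aleph0 (n := 4)).le h1).trans ?_
  simp

theorem division_quotient_kills {D : Type} [DivisionRing D] (φ : RR ℂ →ₙ+* D)
    (hφ : Function.Surjective φ) :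
    φ ⟨MvPolynomial.X (va 0) * MvPolynomial.X (va 1), 0, 0, 0⟩ = 0 := by
  have h1 : φ 1 = 1 := by
    obtain ⟨r, hr⟩ := hφ 1
    have : φ (1 * r) = φ 1 * φ r := map_mul φ 1 r
    rw [one_mul, hr, mul_one] at this
    exact this.symm
  let ψ : RR ℂ →+* D := { φ with map_one' := h1 }
  have hψ : ∀ x, ψ x = φ x := fun x => rfl
  have hψs : Function.Surjective ψ := hφ
  letI : Algebra ℂ D := (ψ.comp (algebraMap ℂ (RR ℂ))).toAlgebra' (by
    intro c x
    obtain ⟨r, rfl⟩ := hψs x
    rw [RingHom.comp_apply, ← map_mul, ← map_mul, Algebra.commutes])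
  let ℓ : RR ℂ →ₗ[ℂ] D :=
    { toFun := ψ
      map_add' := map_add ψ
      map_smul' := by
        intro c x
        rw [Algebra.smul_def, Algebra.smul_def, map_mul]
        rfl }
  have hrank : Module.rank ℂ D ≤ ℵ₀ :=
    (LinearMap.rank_le_of_surjective ℓ hψs).trans rank_RR
  have hcomm := comm_of_rank_le hrank
  set i : RR ℂ := ⟨0, 1, 0, 0⟩ with hi
  set j : RR ℂ := ⟨0, 0, 1, 0⟩ with hj
  have e1 : i * j = -(j * i) := q_ij _ _
  have e2 : (⟨MvPolynomial.X (va 0) * MvPolynomial.X (va 1), 0, 0, 0⟩ : RR ℂ) = (i * i) * (j * j) :=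
    q_iijj _ _
  have e3 : ψ i * ψ j = 0 := by
    have h2 : ψ i * ψ j = -(ψ j * ψ i) := by
      rw [← map_mul, e1, map_neg, map_mul]
    rw [hcomm (ψ j) (ψ i)] at h2
    have h3 : (2 : D) * (ψ i * ψ j) = 0 := by
      rw [two_mul]
      nth_rewrite 1 [h2]
      simp
    haveI : CharZero D := charZero_of_injective_algebraMap (algebraMap ℂ D).injective
    exact (mul_eq_zero.1 h3).resolve_left two_ne_zero
  rw [← hψ, e2, map_mul, map_mul, map_mul, mul_assoc, ← mul_assoc (ψ i) (ψ j) (ψ j), e3, zero_mul,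
    mul_zero]

/-! ### The countable elementary subring -/

theorem main_aux : ∃ T : Subring (RR ℂ),
    (∀ f : T, f ≠ 0 → ∃ (D : Type) (_ : DivisionRing D) (φ : T →+* D),
      Function.Surjective φ ∧ φ f ≠ 0) ∧
    ∀ ψ : Language.ring.Sentence,
        (@Language.Sentence.Realize Language.ring T (Ring.compatibleRingOfRing T).toStructure ψ ↔
        @Language.Sentence.Realize Language.ring (RR ℂ)
          (Ring.compatibleRingOfRing (RR ℂ)).toStructure ψ) := by
  classical
  haveI hcN : Countable ℕᵒᵈ := inferInstanceAs (Countable ℕ)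
  let F : (((ℕᵒᵈ →₀ ℕ) × Fin 4) ⊕ Unit) → RR ℂ → RR ℂ := fun t q =>
    match t with
    | Sum.inl (m, s) => ⟨MvPolynomial.C (MvPolynomial.coeff m
        (QuaternionAlgebra.equivTuple _ _ _ q s)), 0, 0, 0⟩
    | Sum.inr _ => ⟨MvPolynomial.C (MvPolynomial.coeff 0 q.re)⁻¹, 0, 0, 0⟩
  have hinf : Infinite (RR ℂ) := by
    refine Infinite.of_injective (fun n : ℕ => (⟨MvPolynomial.C (n : ℂ), 0, 0, 0⟩ : RR ℂ)) ?_
    intro a b h
    have := congrArg QuaternionAlgebra.re h
    simpa using this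
  let s : Set (RR ℂ) := Set.range (fun n : ℕ => (⟨MvPolynomial.X (va n), 0, 0, 0⟩ : RR ℂ)) ∪
    {⟨0, 1, 0, 0⟩, ⟨0, 0, 1, 0⟩}
  have hs : s.Countable := (Set.countable_range _).union (by simp)
  obtain ⟨T, hTc, hsT, hF, hel⟩ := exists_subring_elem (RR ℂ) F s hs
  refine ⟨T, ?_, hel⟩
  have hX : ∀ i : ℕᵒᵈ, (⟨MvPolynomial.X i, 0, 0, 0⟩ : RR ℂ) ∈ T :=
    fun i => hsT (Or.inl ⟨OrderDual.ofDual i, rfl⟩)
  have hi : (⟨0, 1, 0, 0⟩ : RR ℂ) ∈ T := hsT (Or.inr (by simp))
  have hj : (⟨0, 0, 1, 0⟩ : RR ℂ) ∈ T := hsT (Or.inr (by simp))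
  let cc : ℂ → RR ℂ := fun c => ⟨MvPolynomial.C c, 0, 0, 0⟩
  have cc_inj : Function.Injective cc := by
    intro a b h
    have := congrArg QuaternionAlgebra.re h
    simpa [cc] using this
  let k₀ : Subfield ℂ :=
    { carrier := {c | cc c ∈ T}
      mul_mem' := by
        intro a b ha hb
        have : cc (a * b) = cc a * cc b := by
          simp only [cc, MvPolynomial.C_mul]
          exact q_mul _ _ _ _
        show cc (a * b) ∈ T
        rw [this]; exact T.mul_mem ha hb
      one_mem' := by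
        have : cc 1 = 1 := q_one _ _
        show cc 1 ∈ T
        rw [this]; exact T.one_mem
      add_mem' := by
        intro a b ha hb
        have : cc (a + b) = cc a + cc b := by
          simp only [cc, MvPolynomial.C_add]
          exact q_add _ _ _ _
        show cc (a + b) ∈ T
        rw [this]; exact T.add_mem ha hb
      zero_mem' := by
        have : cc 0 = 0 := by
          simp only [cc, MvPolynomial.C_0]
          exact q_zero _ _
        show cc 0 ∈ T
        rw [this]; exact T.zero_mem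
      neg_mem' := by
        intro a ha
        have : cc (-a) = -cc a := by
          simp only [cc, MvPolynomial.C_neg]
          exact q_neg _ _ _
        show cc (-a) ∈ T
        rw [this]; exact T.neg_mem ha
      inv_mem' := by
        intro a ha
        have : cc a⁻¹ = F (Sum.inr ()) (cc a) := by simp [F, cc]
        show cc a⁻¹ ∈ T
        rw [this]; exact hF (Sum.inr ()) _ ha }
  have hk₀ : ∀ c : ℂ, c ∈ k₀ ↔ cc c ∈ T := fun c => Iff.rfl
  haveI : Countable k₀ := by
    haveI : Countable T := hTc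
    have hinj : Function.Injective (fun c : k₀ => (⟨cc c, c.2⟩ : T)) := by
      intro a b h
      have := congrArg Subtype.val h
      exact Subtype.ext (cc_inj this)
    exact hinj.countable
  let ι : AA k₀ →+* AA ℂ := MvPolynomial.map k₀.subtype
  have hιX : ∀ i, ι (MvPolynomial.X i) = MvPolynomial.X i := fun i => by simp [ι]
  let ρ : RR k₀ →+* RR ℂ := qmap ι _ _ _ _ (hιX _) (hιX _)
  have hιinj : Function.Injective ι := MvPolynomial.map_injective _ k₀.subtype.injective
  have hρinj : Function.Injective ρ := by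
    intro a b h
    have r1 := congrArg QuaternionAlgebra.re h
    have r2 := congrArg QuaternionAlgebra.imI h
    have r3 := congrArg QuaternionAlgebra.imJ h
    have r4 := congrArg QuaternionAlgebra.imK h
    ext1
    · exact hιinj r1
    · exact hιinj r2
    · exact hιinj r3
    · exact hιinj r4
  have hιT : ∀ p : AA k₀, (⟨ι p, 0, 0, 0⟩ : RR ℂ) ∈ T := by
    intro p
    induction p using MvPolynomial.induction_on with
    | C a =>
      have : (⟨ι (MvPolynomial.C a), 0, 0, 0⟩ : RR ℂ) = cc a := by simp [ι, cc]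
      rw [this]; exact a.2
    | add p q hp hq =>
      have : (⟨ι (p + q), 0, 0, 0⟩ : RR ℂ) = ⟨ι p, 0, 0, 0⟩ + ⟨ι q, 0, 0, 0⟩ := by
        rw [map_add]
        exact q_add _ _ _ _
      rw [this]; exact T.add_mem hp hq
    | mul_X p i hp =>
      have : (⟨ι (p * MvPolynomial.X i), 0, 0, 0⟩ : RR ℂ) =
          ⟨ι p, 0, 0, 0⟩ * ⟨MvPolynomial.X i, 0, 0, 0⟩ := by
        rw [map_mul, hιX]
        exact q_mul _ _ _ _
      rw [this]; exact T.mul_mem hp (hX i)
  have hρT : ∀ q : RR k₀, ρ q ∈ T := by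
    intro q
    have : ρ q = ⟨ι q.re, 0, 0, 0⟩ + ⟨ι q.imI, 0, 0, 0⟩ * ⟨0, 1, 0, 0⟩ +
        ⟨ι q.imJ, 0, 0, 0⟩ * ⟨0, 0, 1, 0⟩ +
        ⟨ι q.imK, 0, 0, 0⟩ * (⟨0, 1, 0, 0⟩ * ⟨0, 0, 1, 0⟩) :=
      q_decomp _ _ _ _ _ _
    rw [this]
    exact T.add_mem (T.add_mem (T.add_mem (hιT _) (T.mul_mem (hιT _) hi)) (T.mul_mem (hιT _) hj))
      (T.mul_mem (hιT _) (T.mul_mem hi hj))
  have hTρ : ∀ q ∈ T, ∃ p, ρ p = q := by
    intro q hq
    have hcoef : ∀ (m : ℕᵒᵈ →₀ ℕ) (t : Fin 4),
        MvPolynomial.coeff m (QuaternionAlgebra.equivTuple _ _ _ q t) ∈ k₀ := by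
      intro m t
      exact hF (Sum.inl (m, t)) q hq
    have hrange : ∀ t : Fin 4, ∃ p, ι p = QuaternionAlgebra.equivTuple _ _ _ q t := by
      intro t
      have := (MvPolynomial.mem_range_map_iff_coeffs_subset (f := k₀.subtype)
        (x := QuaternionAlgebra.equivTuple _ _ _ q t)).2 (by
          intro c hc
          rw [Finset.mem_coe, MvPolynomial.mem_coeffs_iff] at hc
          obtain ⟨m, _, rfl⟩ := hc
          exact ⟨⟨_, hcoef m t⟩, rfl⟩)
      exact this
    obtain ⟨a, ha⟩ := hrange 0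
    obtain ⟨b, hb⟩ := hrange 1
    obtain ⟨c, hc⟩ := hrange 2
    obtain ⟨d, hd⟩ := hrange 3
    refine ⟨⟨a, b, c, d⟩, ?_⟩
    ext1
    · exact ha
    · exact hb
    · exact hc
    · exact hd
  let ρ' : RR k₀ →+* T := ρ.codRestrict T hρT
  have hbij : Function.Bijective ρ' := by
    constructor
    · intro a b h
      exact hρinj (congrArg Subtype.val h)
    · intro q
      obtain ⟨p, hp⟩ := hTρ q q.2
      exact ⟨p, Subtype.ext hp⟩
  let e := RingEquiv.ofBijective ρ' hbij
  intro f hf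
  have hf' : e.symm f ≠ 0 := by simpa using hf
  obtain ⟨φ, hφs, hφf⟩ := exists_surj k₀ (e.symm f) hf'
  refine ⟨DD k₀, instDivDD k₀, φ.comp e.symm.toRingHom, ?_, ?_⟩
  · exact hφs.comp e.symm.surjective
  · exact hφf

end Pool.Agent.H24.SDiv
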