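import Mathlib

set_option autoImplicit false

namespace Pool.Agent.H24.SDivDefs

open FirstOrder

/-- Unital reading: the unital ring `R` is a subdirect product of division rings: there are a family
`D i` of division rings and an injective unital ring homomorphism `φ : R → ∏ D i` all of whose
coordinates are surjective. -/
def SubdirectDivUnital (R : Type) [Ring R] : Prop :=
  ∃ (ι : Type) (D : ι → Type) (_ : ∀ i, DivisionRing (D i)) (φ : R →+* (∀ i, D i)),
    Function.Injective φ ∧ ∀ i, Function.Surjective (fun r => φ r i)

/-- Non-unital reading: the same, for a ring that need not have a unit, and homomorphisms that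
respect addition and multiplication only. -/
def SubdirectDivNonUnital (R : Type) [NonUnitalRing R] : Prop :=
  ∃ (ι : Type) (D : ι → Type) (_ : ∀ i, DivisionRing (D i)) (φ : R →ₙ+* (∀ i, D i)),
    Function.Injective φ ∧ ∀ i, Function.Surjective (fun r => φ r i)

/-- The function symbols `+, -, ·, 0` of the language of rings without a symbol for the unit. -/
inductive RngFunc : ℕ → Type
  | add : RngFunc 2
  | mul : RngFunc 2
  | neg : RngFunc 1
  | zero : RngFunc 0

/-- The first-order language `(+, -, ·, 0)` of rings without a symbol for the unit. -/
def rngLang : FirstOrder.Language.{0, 0} := ⟨RngFunc, fun _ => Empty⟩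

/-- The structure for the language `(+, -, ·, 0)` on a ring that need not have a unit. -/
def rngStructure (R : Type) [NonUnitalRing R] : rngLang.Structure R where
  funMap := fun {n} f =>
    match n, f with
    | _, .add => fun x => x 0 + x 1
    | _, .mul => fun x => x 0 * x 1
    | _, .neg => fun x => -x 0
    | _, .zero => fun _ => 0
  RelMap := fun {_} r => Empty.elim r

end Pool.Agent.H24.SDivDefs
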