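import Mathlib
import Pool.Agent.H24.SDivD
import Pool.Agent.H24.SDivDefs

set_option autoImplicit false

namespace Pool.Agent.H24.SDiv

open Cardinal FirstOrder Pool.Agent.H24.SDivDefs

theorem nonUnital_of_unital (R : Type) [Ring R] (h : SubdirectDivUnital R) :
    SubdirectDivNonUnital R := by
  obtain ⟨ι, D, hD, φ, h1, h2⟩ := h
  exact ⟨ι, D, hD, φ, h1, h2⟩

theorem unital_of (R : Type) [Ring R]
    (h : ∀ f : R, f ≠ 0 → ∃ (D : Type) (_ : DivisionRing D) (φ : R →+* D),
      Function.Surjective φ ∧ φ f ≠ 0) : SubdirectDivUnital R := by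
  classical
  choose D hD φ hφ hφf using h
  refine ⟨{f : R // f ≠ 0}, fun f => D f.1 f.2, fun f => hD f.1 f.2,
    Pi.ringHom (fun f => φ f.1 f.2), ?_, ?_⟩
  · rw [injective_iff_map_eq_zero]
    intro a ha
    by_contra hne
    apply hφf a hne
    exact congrFun ha ⟨a, hne⟩
  · intro f
    exact hφ f.1 f.2

theorem not_nonUnital : ¬ SubdirectDivNonUnital (RR ℂ) := by
  rintro ⟨ι, D, hD, φ, h1, h2⟩
  have h3 : (⟨MvPolynomial.X (va 0) * MvPolynomial.X (va 1), 0, 0, 0⟩ : RR ℂ) ≠ 0 := by
    intro h
    have := congrArg QuaternionAlgebra.re h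
    have h4 : (MvPolynomial.X (va 0) * MvPolynomial.X (va 1) : AA ℂ) = 0 := this
    exact mul_ne_zero (MvPolynomial.X_ne_zero _) (MvPolynomial.X_ne_zero _) h4
  apply h3
  apply h1
  rw [map_zero]
  funext i
  letI := hD i
  let ψ : RR ℂ →ₙ+* D i := (Pi.evalNonUnitalRingHom D i).comp φ
  exact division_quotient_kills ψ (h2 i)

theorem witness : ∃ (R S : Type) (_ : Ring R) (_ : Ring S) (_ : Ring.CompatibleRing R)
    (_ : Ring.CompatibleRing S),
    (R ≅[Language.ring] S) ∧ SubdirectDivUnital R ∧ ¬ SubdirectDivNonUnital S := by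
  obtain ⟨T, h1, h2⟩ := main_aux
  refine ⟨T, RR ℂ, inferInstance, inferInstance, Ring.compatibleRingOfRing T,
    Ring.compatibleRingOfRing (RR ℂ), ?_, unital_of T h1, not_nonUnital⟩
  letI := Ring.compatibleRingOfRing T
  letI := Ring.compatibleRingOfRing (RR ℂ)
  rw [Language.elementarilyEquivalent_iff]
  exact h2

theorem unital_reading : ¬ ∃ T : Language.ring.Theory,
    ∀ (R : Type) [Ring R] [Ring.CompatibleRing R], (R ⊨ T ↔ SubdirectDivUnital R) := by
  rintro ⟨T, hT⟩
  obtain ⟨R, S, iR, iS, cR, cS, hRS, hR, hS⟩ := witness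
  have h1 : R ⊨ T := (hT R).2 hR
  have h2 : S ⊨ T := (hRS.theory_model_iff).1 h1
  exact hS (nonUnital_of_unital S ((hT S).1 h2))

/-- the language map forgetting nothing but the unit symbol -/
def rngToRing : rngLang →ᴸ Language.ring where
  onFunction := fun {n} f =>
    match n, f with
    | _, .add => ringFunc.add
    | _, .mul => ringFunc.mul
    | _, .neg => ringFunc.neg
    | _, .zero => ringFunc.zero
  onRelation := fun {_} r => Empty.elim r

theorem isExp (R : Type) [Ring R] [Ring.CompatibleRing R] :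
    @Language.LHom.IsExpansionOn rngLang Language.ring rngToRing R (rngStructure R) _ := by
  letI := rngStructure R
  constructor
  · intro n f x
    cases f
    · exact Ring.CompatibleRing.funMap_add x
    · exact Ring.CompatibleRing.funMap_mul x
    · exact Ring.CompatibleRing.funMap_neg x
    · exact Ring.CompatibleRing.funMap_zero x
  · intro n r x
    exact r.elim

theorem nonUnital_reading : ¬ ∃ T : rngLang.Theory,
    ∀ (R : Type) [NonUnitalRing R],
      (@Language.Theory.Model rngLang R (rngStructure R) T ↔ SubdirectDivNonUnital R) := by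
  rintro ⟨T, hT⟩
  obtain ⟨R, S, iR, iS, cR, cS, hRS, hR, hS⟩ := witness
  apply hS
  rw [← hT S]
  have h1 := (hT R).2 (nonUnital_of_unital R hR)
  letI := rngStructure R
  letI := rngStructure S
  haveI := isExp R
  haveI := isExp S
  rw [Language.Theory.model_iff] at h1 ⊢
  intro ψ hψ
  have h2 := h1 ψ hψ
  rw [← Language.LHom.realize_onSentence (M := R) rngToRing ψ] at h2
  rw [← Language.LHom.realize_onSentence (M := S) rngToRing ψ]
  exact (hRS.realize_sentence _).1 h2

end Pool.Agent.H24.SDiv
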