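import Mathlib

set_option autoImplicit false

namespace Pool.Agent.H24.Subsum

open scoped BigOperators

/-- rapidly decreasing weights -/
noncomputable def beta (M : ℕ → ℝ) : ℕ → ℝ
  | 0 => 1
  | (m+1) => beta M m / (4 * M (m+1))

variable {M : ℕ → ℝ} (hM : ∀ m, 1 ≤ M m)
include hM

theorem beta_pos (m : ℕ) : 0 < beta M m := by
  induction m with
  | zero => simp [beta]
  | succ m ih =>
    have := hM (m+1)
    simp only [beta]
    apply div_pos ih
    linarith

theorem M_beta (m : ℕ) : M (m+1) * beta M (m+1) = beta M m / 4 := by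
  have := hM (m+1)
  simp only [beta]
  field_simp

theorem beta_succ (m : ℕ) : beta M (m+1) ≤ beta M m * (1/4) := by
  have h1 := M_beta hM m
  have h2 := hM (m+1)
  have h3 := beta_pos hM (m+1)
  nlinarith

theorem beta_add (k j : ℕ) : beta M (k+j) ≤ beta M k * (1/4)^j := by
  induction j with
  | zero => simp
  | succ j ih =>
    have := beta_succ hM (k+j)
    calc beta M (k+(j+1)) ≤ beta M (k+j) * (1/4) := this
      _ ≤ beta M k * (1/4)^j * (1/4) := by gcongr
      _ = _ := by ring

theorem M_beta_add (k j : ℕ) : M (j + (k+1)) * beta M (j + (k+1)) ≤ beta M k * (1/4)^(j+1) := by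
  have h1 := M_beta hM (k + j)
  have h2 := beta_add hM k j
  have e : j + (k+1) = k + j + 1 := by ring
  rw [e, h1, pow_succ]
  linarith

theorem M_beta_nonneg (m : ℕ) : 0 ≤ M m * beta M m :=
  mul_nonneg (by linarith [hM m]) (beta_pos hM m).le

theorem summ_geo (k : ℕ) : Summable (fun j : ℕ => beta M k * (1/4 : ℝ)^(j+1)) := by
  have : Summable (fun j : ℕ => (1/4 : ℝ)^j) := summable_geometric_of_lt_one (by norm_num) (by norm_num)
  have h2 := (summable_nat_add_iff 1).2 this
  exact h2.mul_left _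

theorem tsum_geo (k : ℕ) : ∑' j : ℕ, beta M k * (1/4 : ℝ)^(j+1) = beta M k / 3 := by
  have : ∑' j : ℕ, (1/4 : ℝ)^j = (1 - 1/4)⁻¹ := tsum_geometric_of_lt_one (by norm_num) (by norm_num)
  rw [tsum_mul_left]
  have h2 : ∑' j : ℕ, (1/4 : ℝ)^(j+1) = (1/4) * ∑' j : ℕ, (1/4 : ℝ)^j := by
    rw [← tsum_mul_left]
    congr 1; ext j; ring
  rw [h2, this]; ring

theorem summ_Mbeta : Summable (fun m => M m * beta M m) := by
  rw [← summable_nat_add_iff 1]
  refine Summable.of_nonneg_of_le (fun j => M_beta_nonneg hM _) (fun j => ?_) (summ_geo hM 0)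
  have := M_beta_add hM 0 j
  simpa using! this

theorem summ_of_le {d : ℕ → ℝ} (hd : ∀ m, |d m| ≤ M m) : Summable (fun m => d m * beta M m) := by
  apply Summable.of_norm
  refine Summable.of_nonneg_of_le (fun j => norm_nonneg _) (fun m => ?_) (summ_Mbeta hM)
  rw [Real.norm_eq_abs, abs_mul, abs_of_pos (beta_pos hM m)]
  exact mul_le_mul_of_nonneg_right (hd m) (beta_pos hM m).le

theorem uniq (d : ℕ → ℝ) (hd : ∀ m, |d m| ≤ M m) (hint : ∀ m, d m ≠ 0 → 1 ≤ |d m|)
    (h0 : ∑' m, d m * beta M m = 0) : ∀ m, d m = 0 := by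
  classical
  by_contra hcon
  push Not at hcon
  let k := Nat.find hcon
  have hk : d k ≠ 0 := Nat.find_spec hcon
  have hlt : ∀ m < k, d m = 0 := fun m hm => by
    by_contra h
    exact Nat.find_min hcon hm h
  have hs := summ_of_le hM hd
  have h1 := hs.sum_add_tsum_nat_add (k+1)
  rw [h0, Finset.sum_range_succ, Finset.sum_eq_zero (fun i hi => by
    rw [hlt i (Finset.mem_range.1 hi)]; ring)] at h1
  have h2 : |∑' i, d (i + (k+1)) * beta M (i + (k+1))| ≤ beta M k / 3 := by
    rw [← tsum_geo hM k]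
    have hsn : Summable (fun i => |d (i + (k+1)) * beta M (i + (k+1))|) := by
      refine Summable.of_nonneg_of_le (fun j => abs_nonneg _) (fun j => ?_) (summ_geo hM k)
      rw [abs_mul, abs_of_pos (beta_pos hM _)]
      exact (mul_le_mul_of_nonneg_right (hd _) (beta_pos hM _).le).trans (M_beta_add hM k j)
    calc |∑' i, d (i + (k+1)) * beta M (i + (k+1))| ≤ ∑' i, |d (i + (k+1)) * beta M (i + (k+1))| := by
          have := norm_tsum_le_tsum_norm (f := fun i => d (i + (k+1)) * beta M (i + (k+1))) hsn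
          simpa using! this
      _ ≤ _ := by
          refine hsn.tsum_le_tsum (fun j => ?_) (summ_geo hM k)
          rw [abs_mul, abs_of_pos (beta_pos hM _)]
          exact (mul_le_mul_of_nonneg_right (hd _) (beta_pos hM _).le).trans (M_beta_add hM k j)
  have h3 : |d k * beta M k| ≤ beta M k / 3 := by
    have : d k * beta M k = - ∑' i, d (i + (k+1)) * beta M (i + (k+1)) := by linarith
    rw [this, abs_neg]; exact h2
  rw [abs_mul, abs_of_pos (beta_pos hM k)] at h3
  have h4 := hint k hk
  have h5 := beta_pos hM k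
  nlinarith

end Pool.Agent.H24.Subsum
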