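import Pool.Agent.H24.SubsumA

set_option autoImplicit false

namespace Pool.Agent.H24.Subsum

open scoped BigOperators

abbrev Prs := Sigma fun N : ℕ => Fin N

abbrev Jt := ℕ ⊕ Prs

variable (D : ℕ → (ℕ →₀ ℕ))

/-- sign of the list number `m` in the pair `p` -/
def sg (p : Prs) (m : ℕ) : ℤ :=
  if D m p.1 = 2 * (p.2 : ℕ) + 1 then 1 else if D m p.1 = 2 * (p.2 : ℕ) + 2 then -1 else 0

def Fs (m : ℕ) : Finset Prs := (D m).support.sigma (fun _ => Finset.univ)

theorem sg_zero {p : Prs} {m : ℕ} (h : p ∉ Fs D m) : sg D p m = 0 := by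
  have : D m p.1 = 0 := by
    by_contra h2
    apply h
    simp [Fs, h2]
  unfold sg
  rw [this]
  rw [if_neg (by omega), if_neg (by omega)]

theorem abs_sg (p : Prs) (m : ℕ) : |sg D p m| ≤ 1 := by
  unfold sg
  split_ifs <;> simp

noncomputable def Mf (m : ℕ) : ℝ := 1 + (Fs D m).card

theorem Mf_ge (m : ℕ) : 1 ≤ Mf D m := by
  unfold Mf
  have : (0 : ℝ) ≤ (Fs D m).card := Nat.cast_nonneg _
  linarith

noncomputable abbrev bt (m : ℕ) : ℝ := beta (Mf D) m

theorem bt_pos (m : ℕ) : 0 < bt D m := beta_pos (Mf_ge D) m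

noncomputable def X : Jt → ℝ
  | Sum.inl m => bt D m
  | Sum.inr p => ∑' m, (sg D p m : ℝ) * bt D m

theorem abs_sgR (p : Prs) (m : ℕ) : |(sg D p m : ℝ)| ≤ 1 := by
  have := abs_sg D p m
  exact_mod_cast this

theorem summ_bt : Summable (bt D) := by
  have := summ_of_le (Mf_ge D) (d := fun _ => (1:ℝ)) (fun m => by simpa using! Mf_ge D m)
  simpa using! this

theorem summ_sg (p : Prs) : Summable (fun m => (sg D p m : ℝ) * bt D m) :=
  summ_of_le (Mf_ge D) (d := fun m => (sg D p m : ℝ)) (fun m => (abs_sgR D p m).trans (Mf_ge D m))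

/-- joint summability -/
theorem summ_joint : Summable (fun q : ℕ × Prs => |(sg D q.2 q.1 : ℝ)| * bt D q.1) := by
  rw [summable_prod_of_nonneg (fun q => mul_nonneg (abs_nonneg _) (bt_pos D _).le)]
  constructor
  · intro m
    apply summable_of_ne_finset_zero (s := Fs D m)
    intro p hp
    simp [sg_zero D hp]
  · refine Summable.of_nonneg_of_le (fun m => tsum_nonneg fun p => mul_nonneg (abs_nonneg _) (bt_pos D _).le) (fun m => ?_) (summ_Mbeta (Mf_ge D))
    rw [tsum_eq_sum (s := Fs D m) (fun p hp => by simp [sg_zero D hp])]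
    calc ∑ p ∈ Fs D m, |(sg D p m : ℝ)| * bt D m ≤ ∑ p ∈ Fs D m, 1 * bt D m := by
          apply Finset.sum_le_sum
          intro p _
          exact mul_le_mul_of_nonneg_right (abs_sgR D p m) (bt_pos D _).le
      _ = (Fs D m).card * bt D m := by simp
      _ ≤ Mf D m * bt D m := by
          apply mul_le_mul_of_nonneg_right _ (bt_pos D _).le
          unfold Mf; linarith

theorem summ_joint' : Summable (fun q : Prs × ℕ => |(sg D q.1 q.2 : ℝ)| * bt D q.2) := by
  have := (Equiv.prodComm Prs ℕ).summable_iff.2 (summ_joint D)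
  simpa [Function.comp_def] using! this

theorem summ_X : Summable (fun j => |X D j|) := by
  apply Summable.sum
  · have : ((fun j => |X D j|) ∘ Sum.inl) = bt D := by
      ext m
      simp [X, abs_of_pos (bt_pos D m)]
    rw [this]; exact summ_bt D
  · have h1 := (summable_prod_of_nonneg (f := fun q : Prs × ℕ => |(sg D q.1 q.2 : ℝ)| * bt D q.2)
      (fun q => mul_nonneg (abs_nonneg _) (bt_pos D _).le)).1 (summ_joint' D)
    refine Summable.of_nonneg_of_le (fun p => abs_nonneg _) (fun p => ?_) h1.2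
    simp only [Function.comp, X]
    have h2 := h1.1 p
    have h3 : Summable (fun m => ‖(sg D p m : ℝ) * bt D m‖) := by
      refine h2.congr (fun m => ?_)
      rw [Real.norm_eq_abs, abs_mul, abs_of_pos (bt_pos D m)]
    have h4 := norm_tsum_le_tsum_norm h3
    rw [Real.norm_eq_abs] at h4
    refine h4.trans (le_of_eq ?_)
    congr 1; ext m
    rw [Real.norm_eq_abs, abs_mul, abs_of_pos (bt_pos D m)]

/-- integer weight -/
def wt (η : Jt → Bool) (m : ℕ) : ℤ :=
  (if η (Sum.inl m) = true then 1 else 0) + ∑ p ∈ Fs D m, (if η (Sum.inr p) = true then sg D p m else 0)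

theorem val_eq (η : Jt → Bool) :
    ∑' j, (if η j = true then X D j else 0) = ∑' m, (wt D η m : ℝ) * bt D m := by
  classical
  have hs : Summable (fun j => if η j = true then X D j else 0) := by
    apply Summable.of_norm
    refine Summable.of_nonneg_of_le (fun j => norm_nonneg _) (fun j => ?_) (summ_X D)
    split_ifs
    · simp
    · simp
  have hinl : Summable (fun m => if η (Sum.inl m) = true then X D (Sum.inl m) else 0) :=
    hs.comp_injective Sum.inl_injective
  have hinr : Summable (fun p => if η (Sum.inr p) = true then X D (Sum.inr p) else 0) :=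
    hs.comp_injective Sum.inr_injective
  rw [Summable.tsum_sum hinl hinr]
  have h1 : ∑' p, (if η (Sum.inr p) = true then X D (Sum.inr p) else 0)
      = ∑' p, ∑' m, (if η (Sum.inr p) = true then (sg D p m : ℝ) * bt D m else 0) := by
    congr 1; ext p
    split_ifs with h
    · rfl
    · simp
  have hjoint : Summable (fun q : Prs × ℕ => (if η (Sum.inr q.1) = true then (sg D q.1 q.2 : ℝ) * bt D q.2 else 0)) := by
    apply Summable.of_norm
    refine Summable.of_nonneg_of_le (fun j => norm_nonneg _) (fun q => ?_) (summ_joint' D)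
    split_ifs
    · rw [Real.norm_eq_abs, abs_mul, abs_of_pos (bt_pos D _)]
    · rw [norm_zero]; exact mul_nonneg (abs_nonneg _) (bt_pos D _).le
  have h2 : ∑' p, ∑' m, (if η (Sum.inr p) = true then (sg D p m : ℝ) * bt D m else 0)
      = ∑' m, ∑' p, (if η (Sum.inr p) = true then (sg D p m : ℝ) * bt D m else 0) :=
    (Summable.tsum_comm (f := fun p m => (if η (Sum.inr p) = true then (sg D p m : ℝ) * bt D m else 0)) hjoint).symm
  have h3 : ∀ m, ∑' p, (if η (Sum.inr p) = true then (sg D p m : ℝ) * bt D m else 0)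
      = ((∑ p ∈ Fs D m, (if η (Sum.inr p) = true then sg D p m else 0) : ℤ) : ℝ) * bt D m := by
    intro m
    rw [tsum_eq_sum (s := Fs D m) (fun p hp => by simp [sg_zero D hp])]
    push_cast
    rw [Finset.sum_mul]
    apply Finset.sum_congr rfl
    intro p _
    split_ifs <;> simp
  have hsum3 : Summable (fun m => ((∑ p ∈ Fs D m, (if η (Sum.inr p) = true then sg D p m else 0) : ℤ) : ℝ) * bt D m) := by
    have h4 : Summable (fun q : ℕ × Prs => (if η (Sum.inr q.2) = true then (sg D q.2 q.1 : ℝ) * bt D q.1 else 0)) := by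
      have := (Equiv.prodComm ℕ Prs).summable_iff.2 hjoint
      simpa [Function.comp_def] using! this
    refine (h4.prod).congr (fun m => ?_)
    exact h3 m
  rw [h1, h2]
  have h5 : ∑' m, ∑' p, (if η (Sum.inr p) = true then (sg D p m : ℝ) * bt D m else 0)
     = ∑' m, ((∑ p ∈ Fs D m, (if η (Sum.inr p) = true then sg D p m else 0) : ℤ) : ℝ) * bt D m := by
    congr 1; ext m; exact h3 m
  rw [h5, ← Summable.tsum_add hinl hsum3]
  congr 1; ext m
  unfold wt
  by_cases h : η (Sum.inl m) = true
  · simp only [h, if_true, X]; push_cast; ring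
  · simp [h]

theorem abs_wt_sub (η ζ : Jt → Bool) (m : ℕ) : |((wt D η m - wt D ζ m : ℤ) : ℝ)| ≤ Mf D m := by
  have h1 : |wt D η m - wt D ζ m| ≤ 1 + (Fs D m).card := by
    unfold wt
    have e : (if η (Sum.inl m) = true then (1:ℤ) else 0) + ∑ p ∈ Fs D m, (if η (Sum.inr p) = true then sg D p m else 0)
      - ((if ζ (Sum.inl m) = true then (1:ℤ) else 0) + ∑ p ∈ Fs D m, (if ζ (Sum.inr p) = true then sg D p m else 0))
      = ((if η (Sum.inl m) = true then (1:ℤ) else 0) - (if ζ (Sum.inl m) = true then (1:ℤ) else 0))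
       + ∑ p ∈ Fs D m, ((if η (Sum.inr p) = true then sg D p m else 0) - (if ζ (Sum.inr p) = true then sg D p m else 0)) := by
      rw [Finset.sum_sub_distrib]; ring
    rw [e]
    refine (abs_add_le _ _).trans ?_
    apply add_le_add
    · split_ifs <;> simp
    · refine (Finset.abs_sum_le_sum_abs _ _).trans ?_
      calc ∑ p ∈ Fs D m, |(if η (Sum.inr p) = true then sg D p m else 0) - (if ζ (Sum.inr p) = true then sg D p m else 0)|
          ≤ ∑ p ∈ Fs D m, 1 := by
            apply Finset.sum_le_sum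
            intro p _
            have := abs_sg D p m
            split_ifs <;> simp [this]
        _ = _ := by simp
  unfold Mf
  exact_mod_cast h1

theorem wt_eq {η ζ : Jt → Bool}
    (h : ∑' j, (if η j = true then X D j else 0) = ∑' j, (if ζ j = true then X D j else 0)) (m : ℕ) :
    wt D η m = wt D ζ m := by
  rw [val_eq, val_eq] at h
  have hs : ∀ θ : Jt → Bool, Summable (fun m => (wt D θ m : ℝ) * bt D m) := by
    intro θ
    have := summ_of_le (Mf_ge D) (d := fun m => ((wt D θ m - wt D (fun _ => false) m : ℤ) : ℝ))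
      (fun m => abs_wt_sub D θ _ m)
    refine this.congr (fun m => ?_)
    have : wt D (fun _ => false) m = 0 := by simp [wt]
    rw [this]; simp
  have h1 : ∑' m, ((wt D η m - wt D ζ m : ℤ) : ℝ) * bt D m = 0 := by
    have : ∑' m, ((wt D η m - wt D ζ m : ℤ) : ℝ) * bt D m = ∑' m, ((wt D η m : ℝ) * bt D m - (wt D ζ m : ℝ) * bt D m) := by
      congr 1; ext m; push_cast; ring
    rw [this, Summable.tsum_sub (hs η) (hs ζ), h]; ring
  have h2 := uniq (Mf_ge D) (fun m => ((wt D η m - wt D ζ m : ℤ) : ℝ)) (fun m => abs_wt_sub D η ζ m)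
    (fun m hm => by
      have : (wt D η m - wt D ζ m : ℤ) ≠ 0 := by exact_mod_cast hm
      have := Int.one_le_abs this
      exact_mod_cast this) h1 m
  have h3 : (wt D η m - wt D ζ m : ℤ) = 0 := by exact_mod_cast h2
  omega

end Pool.Agent.H24.Subsum
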