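import Pool.Agent.H24.SubsumB

set_option autoImplicit false

namespace Pool.Agent.H24.Subsum

open scoped BigOperators

variable {D : ℕ → (ℕ →₀ ℕ)}

/-- the fibre over `t` -/
abbrev Fib (D : ℕ → (ℕ →₀ ℕ)) (t : ℝ) := {η : Jt → Bool // ∑' j, (if η j = true then X D j else 0) = t}

/-- an auxiliary integer: signed difference of indicators -/
def dif (a b : Bool) : ℤ := (if a = true then 1 else 0) - (if b = true then 1 else 0)

theorem wt_sub (η ζ : Jt → Bool) (m : ℕ) :
    wt D η m - wt D ζ m = dif (η (Sum.inl m)) (ζ (Sum.inl m))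
      + ∑ p ∈ Fs D m, dif (η (Sum.inr p)) (ζ (Sum.inr p)) * sg D p m := by
  unfold wt dif
  have e : ∑ p ∈ Fs D m, ((if η (Sum.inr p) = true then (1:ℤ) else 0) - (if ζ (Sum.inr p) = true then 1 else 0)) * sg D p m
     = ∑ p ∈ Fs D m, (if η (Sum.inr p) = true then sg D p m else 0) - ∑ p ∈ Fs D m, (if ζ (Sum.inr p) = true then sg D p m else 0) := by
    rw [← Finset.sum_sub_distrib]
    apply Finset.sum_congr rfl
    intro p _
    split_ifs <;> simp
  rw [e]; ring

theorem dif_self (a : Bool) : dif a a = 0 := by simp [dif]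

theorem dif_le (a b : Bool) : -1 ≤ dif a b ∧ dif a b ≤ 1 := by
  cases a <;> cases b <;> simp [dif]

theorem dif_ne {a b : Bool} (h : a ≠ b) : dif a b = 1 ∨ dif a b = -1 := by
  cases a <;> cases b <;> simp_all [dif]

/-- a code for the entry at a coordinate giving sign +1 -/
theorem code (a b : Bool) (h : a ≠ b) (i : ℕ) : ∃ c : ℕ, c ≠ 0 ∧
    dif a b * (if c = 2 * i + 1 then 1 else if c = 2 * i + 2 then -1 else 0) = 1 ∧
    ∀ i' : ℕ, i' ≠ i → (if c = 2 * i' + 1 then (1:ℤ) else if c = 2 * i' + 2 then -1 else 0) = 0 := by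
  rcases dif_ne h with h1 | h1
  · refine ⟨2 * i + 1, by omega, by rw [h1]; simp, fun i' hi => ?_⟩
    rw [if_neg (by omega), if_neg (by omega)]
  · refine ⟨2 * i + 2, by omega, by rw [h1, if_neg (by omega), if_pos rfl]; norm_num, fun i' hi => ?_⟩
    rw [if_neg (by omega), if_neg (by omega)]

/-- two representations cannot differ in two different groups -/
theorem no_two (hD : Function.Surjective D) {t : ℝ} (η ζ : Fib D t) (p q : Prs) (hpq : p.1 ≠ q.1)
    (hp : η.1 (Sum.inr p) ≠ ζ.1 (Sum.inr p)) (hq : η.1 (Sum.inr q) ≠ ζ.1 (Sum.inr q)) : False := by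
  classical
  obtain ⟨a, ha0, ha1, ha2⟩ := code _ _ hp (p.2 : ℕ)
  obtain ⟨b, hb0, hb1, hb2⟩ := code _ _ hq (q.2 : ℕ)
  obtain ⟨m, hm⟩ := hD (Finsupp.single p.1 a + Finsupp.single q.1 b)
  have e1 : D m p.1 = a := by
    rw [hm]; simp [Finsupp.single_apply, Ne.symm hpq]
  have e2 : D m q.1 = b := by
    rw [hm]; simp [Finsupp.single_apply, hpq]
  have e3 : ∀ n, n ≠ p.1 → n ≠ q.1 → D m n = 0 := by
    intro n h1 h2
    rw [hm]; simp [Finsupp.single_apply, Ne.symm h1, Ne.symm h2]
  have hw := wt_eq D (η.2.trans ζ.2.symm) m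
  have hs := wt_sub (D := D) η.1 ζ.1 m
  have hne : p ≠ q := fun h => hpq (by rw [h])
  have hsub : ({p, q} : Finset Prs) ⊆ Fs D m := by
    intro r hr
    rw [Finset.mem_insert, Finset.mem_singleton] at hr
    rcases hr with rfl | rfl
    · simp [Fs, e1, ha0]
    · simp [Fs, e2, hb0]
  rw [← Finset.sum_subset hsub, Finset.sum_pair hne] at hs
  · have s1 : dif (η.1 (Sum.inr p)) (ζ.1 (Sum.inr p)) * sg D p m = 1 := by
      unfold sg; rw [e1]; exact ha1
    have s2 : dif (η.1 (Sum.inr q)) (ζ.1 (Sum.inr q)) * sg D q m = 1 := by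
      unfold sg; rw [e2]; exact hb1
    rw [s1, s2] at hs
    have := dif_le (η.1 (Sum.inl m)) (ζ.1 (Sum.inl m))
    omega
  · intro r _ hr
    rw [Finset.mem_insert, Finset.mem_singleton] at hr
    push Not at hr
    have : sg D r m = 0 := by
      by_cases h1 : r.1 = p.1
      · have h2 : (r.2 : ℕ) ≠ (p.2 : ℕ) := by
          intro h3
          apply hr.1
          obtain ⟨rn, ri⟩ := r
          obtain ⟨pn, pi⟩ := p
          simp only at h1
          subst h1
          simp only at h3
          rw [Fin.ext h3]
        have e4 : D m r.1 = a := by rw [show D m r.1 = D m p.1 from congrArg (D m) h1]; exact e1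
        unfold sg; rw [e4]; exact ha2 _ h2
      · by_cases h1' : r.1 = q.1
        · have h2 : (r.2 : ℕ) ≠ (q.2 : ℕ) := by
            intro h3
            apply hr.2
            obtain ⟨rn, ri⟩ := r
            obtain ⟨qn, qi⟩ := q
            simp only at h1'
            subst h1'
            simp only at h3
            rw [Fin.ext h3]
          have e4 : D m r.1 = b := by rw [show D m r.1 = D m q.1 from congrArg (D m) h1']; exact e2
          unfold sg; rw [e4]; exact hb2 _ h2
        · unfold sg; rw [e3 _ h1 h1', if_neg (by omega), if_neg (by omega)]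
    rw [this, mul_zero]

/-- a representation is determined by its part on the pairs -/
theorem det {t : ℝ} (η ζ : Fib D t) (h : ∀ p, η.1 (Sum.inr p) = ζ.1 (Sum.inr p)) : η = ζ := by
  apply Subtype.ext
  funext j
  rcases j with m | p
  · have hw := wt_eq D (η.2.trans ζ.2.symm) m
    have hs := wt_sub (D := D) η.1 ζ.1 m
    rw [Finset.sum_eq_zero (fun p _ => by rw [h p, dif_self, zero_mul])] at hs
    by_contra hne
    rcases dif_ne hne with h1 | h1 <;> omega
  · exact h p

theorem fin_fib (hD : Function.Surjective D) (t : ℝ) : Finite (Fib D t) := by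
  classical
  by_cases hsub : Subsingleton (Fib D t)
  · exact Finite.of_subsingleton
  · rw [not_subsingleton_iff_nontrivial] at hsub
    obtain ⟨η0, η1, hne⟩ := hsub.exists_pair_ne
    have : ∃ p, η0.1 (Sum.inr p) ≠ η1.1 (Sum.inr p) := by
      by_contra hcon
      push Not at hcon
      exact hne (det _ _ hcon)
    obtain ⟨p, hp⟩ := this
    have key : ∀ η : Fib D t, ∀ q : Prs, q.1 ≠ p.1 → η.1 (Sum.inr q) = η0.1 (Sum.inr q) := by
      intro η q hq
      by_contra hcon
      have h1 : η0.1 (Sum.inr q) = η1.1 (Sum.inr q) := by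
        by_contra h
        exact no_two hD η0 η1 p q (Ne.symm hq) hp h
      have h2 : η.1 (Sum.inr p) = η0.1 (Sum.inr p) := by
        by_contra h
        exact no_two hD η η0 p q (Ne.symm hq) h hcon
      exact no_two hD η η1 p q (Ne.symm hq) (by rw [h2]; exact hp) (by rw [← h1]; exact hcon)
    apply Finite.of_injective (fun η : Fib D t => fun i : Fin p.1 => η.1 (Sum.inr ⟨p.1, i⟩))
    intro η ζ h
    apply det
    intro q
    by_cases hq : q.1 = p.1
    · obtain ⟨qn, qi⟩ := q
      simp only at hq
      subst hq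
      exact congrFun h qi
    · rw [key η q hq, key ζ q hq]

/-- the representation attached to a subset `Q` of group `N` -/
noncomputable def rep (D : ℕ → (ℕ →₀ ℕ)) (N : ℕ) (Q : Fin N → Bool) : Jt → Bool := by
  classical
  exact fun j => match j with
  | Sum.inl m => decide (∃ i : Fin N, (D m N = 2 * (i : ℕ) + 1 ∧ Q i = false) ∨ (D m N = 2 * (i : ℕ) + 2 ∧ Q i = true))
  | Sum.inr p => decide (∃ h : p.1 = N, Q (h ▸ p.2) = true)

theorem rep_inr (N : ℕ) (Q : Fin N → Bool) (i : Fin N) : rep D N Q (Sum.inr ⟨N, i⟩) = Q i := by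
  classical
  simp only [rep]
  cases h : Q i
  · simp [h]
  · simp [h]

theorem rep_inr_ne (N : ℕ) (Q : Fin N → Bool) (p : Prs) (h : p.1 ≠ N) : rep D N Q (Sum.inr p) = false := by
  classical
  simp only [rep]
  simp [h]

theorem wt_rep (N : ℕ) (Q : Fin N → Bool) (m : ℕ) :
    wt D (rep D N Q) m = if (∃ i : Fin N, D m N = 2 * (i : ℕ) + 1) then 1 else 0 := by
  classical
  unfold wt
  by_cases h0 : D m N = 0
  · have h1 : ∀ p ∈ Fs D m, (if rep D N Q (Sum.inr p) = true then sg D p m else 0) = 0 := by
      intro p hp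
      by_cases hpN : p.1 = N
      · exfalso
        simp only [Fs, Finset.mem_sigma, Finsupp.mem_support_iff] at hp
        exact hp.1 ((congrArg (D m) hpN).trans h0)
      · rw [rep_inr_ne N Q p hpN]; simp
    rw [Finset.sum_eq_zero h1, if_neg, if_neg]
    · rfl
    · rintro ⟨i, hi⟩; omega
    · simp only [rep, decide_eq_true_eq]
      rintro ⟨i, hi | hi⟩
      · omega
      · omega
  · by_cases h1 : ∃ i : Fin N, D m N = 2 * (i : ℕ) + 1
    · obtain ⟨i, hi⟩ := h1
      rw [if_pos (⟨i, hi⟩ : ∃ i : Fin N, D m N = 2 * (i : ℕ) + 1)]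
      have hmem : (⟨N, i⟩ : Prs) ∈ Fs D m := by simp [Fs, h0]
      rw [Finset.sum_eq_single_of_mem _ hmem]
      · rw [rep_inr]
        have hs : sg D ⟨N, i⟩ m = 1 := by unfold sg; rw [if_pos hi]
        rw [hs]
        have hl : rep D N Q (Sum.inl m) = !(Q i) := by
          simp only [rep]
          cases hQ : Q i
          · simp only [Bool.not_false, decide_eq_true_eq]
            exact ⟨i, Or.inl ⟨hi, hQ⟩⟩
          · simp only [Bool.not_true, decide_eq_false_iff_not]
            rintro ⟨i', h | h⟩
            · have : i' = i := by apply Fin.ext; omega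
              rw [this, hQ] at h; simp at h
            · omega
        rw [hl]
        cases Q i <;> simp
      · intro p hp hpi
        by_cases hpN : p.1 = N
        · obtain ⟨pn, pi⟩ := p
          simp only at hpN
          subst hpN
          have hne : (pi : ℕ) ≠ (i : ℕ) := by
            intro h
            apply hpi
            rw [Fin.ext h]
          have : sg D ⟨pn, pi⟩ m = 0 := by
            unfold sg; simp only; rw [if_neg (by omega), if_neg (by omega)]
          rw [this]; simp
        · rw [rep_inr_ne N Q p hpN]; simp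
    · rw [if_neg h1]
      by_cases h2 : ∃ i : Fin N, D m N = 2 * (i : ℕ) + 2
      · obtain ⟨i, hi⟩ := h2
        have hmem : (⟨N, i⟩ : Prs) ∈ Fs D m := by simp [Fs, h0]
        rw [Finset.sum_eq_single_of_mem _ hmem]
        · rw [rep_inr]
          have hs : sg D ⟨N, i⟩ m = -1 := by unfold sg; rw [if_neg (by simp only; omega), if_pos hi]
          rw [hs]
          have hl : rep D N Q (Sum.inl m) = Q i := by
            simp only [rep]
            cases hQ : Q i
            · simp only [decide_eq_false_iff_not]
              rintro ⟨i', h | h⟩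
              · exact h1 ⟨i', h.1⟩
              · have : i' = i := by apply Fin.ext; omega
                rw [this, hQ] at h; simp at h
            · simp only [decide_eq_true_eq]
              exact ⟨i, Or.inr ⟨hi, hQ⟩⟩
          rw [hl]
          cases Q i <;> simp
        · intro p hp hpi
          by_cases hpN : p.1 = N
          · obtain ⟨pn, pi⟩ := p
            simp only at hpN
            subst hpN
            have hne : (pi : ℕ) ≠ (i : ℕ) := by
              intro h
              apply hpi
              rw [Fin.ext h]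
            have : sg D ⟨pn, pi⟩ m = 0 := by
              unfold sg; simp only; rw [if_neg (by omega), if_neg (by omega)]
            rw [this]; simp
          · rw [rep_inr_ne N Q p hpN]; simp
      · have h3 : ∀ p ∈ Fs D m, (if rep D N Q (Sum.inr p) = true then sg D p m else 0) = 0 := by
          intro p hp
          by_cases hpN : p.1 = N
          · obtain ⟨pn, pi⟩ := p
            simp only at hpN
            subst hpN
            have : sg D ⟨pn, pi⟩ m = 0 := by
              unfold sg; simp only
              rw [if_neg (fun h => h1 ⟨pi, h⟩), if_neg (fun h => h2 ⟨pi, h⟩)]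
            rw [this]; simp
          · rw [rep_inr_ne N Q p hpN]; simp
        rw [Finset.sum_eq_zero h3, if_neg]
        · rfl
        · simp only [rep, decide_eq_true_eq]
          rintro ⟨i, hi | hi⟩
          · exact h1 ⟨i, hi.1⟩
          · exact h2 ⟨i, hi.1⟩

theorem many (hD : Function.Surjective D) (N : ℕ) : ∃ t : ℝ, N ≤ Nat.card (Fib D t) := by
  classical
  refine ⟨∑' j, (if rep D N (fun _ => false) j = true then X D j else 0), ?_⟩
  have hall : ∀ Q : Fin N → Bool, ∑' j, (if rep D N Q j = true then X D j else 0)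
      = ∑' j, (if rep D N (fun _ => false) j = true then X D j else 0) := by
    intro Q
    rw [val_eq, val_eq]
    congr 1; ext m
    rw [wt_rep, wt_rep]
  have := fin_fib hD (∑' j, (if rep D N (fun _ => false) j = true then X D j else 0))
  have hinj : Function.Injective (fun Q : Fin N → Bool =>
      (⟨rep D N Q, hall Q⟩ : Fib D (∑' j, (if rep D N (fun _ => false) j = true then X D j else 0)))) := by
    intro Q R h
    funext i
    have h1 := congrArg Subtype.val h
    have h2 := congrFun h1 (Sum.inr ⟨N, i⟩)
    simp only at h2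
    rwa [rep_inr, rep_inr] at h2
  have h3 := Nat.card_le_card_of_injective _ hinj
  have h4 : Nat.card (Fin N → Bool) = 2 ^ N := by simp
  rw [h4] at h3
  exact (Nat.lt_two_pow_self).le.trans h3

end Pool.Agent.H24.Subsum
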