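import Mathlib

set_option autoImplicit false

namespace Pool.Agent.H24.Sup

/-- the group of upper unitriangular `n × n` matrices over `F` -/
def UT (n : ℕ) (F : Type) [Field F] : Subgroup (Matrix (Fin n) (Fin n) F)ˣ where
  carrier := {g | (∀ i j : Fin n, j < i → g.val i j = 0) ∧ ∀ i : Fin n, g.val i i = 1}
  mul_mem' := by
    rintro g h ⟨hg1, hg2⟩ ⟨hh1, hh2⟩
    refine ⟨fun i j hij => ?_, fun i => ?_⟩
    · rw [Units.val_mul, Matrix.mul_apply]
      apply Finset.sum_eq_zero
      intro k _
      rcases lt_or_ge k i with h1 | h1
      · rw [hg1 i k h1, zero_mul]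
      · rw [hh1 k j (lt_of_lt_of_le hij h1), mul_zero]
    · rw [Units.val_mul, Matrix.mul_apply, Finset.sum_eq_single i]
      · rw [hg2 i, hh2 i, one_mul]
      · intro k _ hk
        rcases lt_or_gt_of_ne hk with h1 | h1
        · rw [hg1 i k h1, zero_mul]
        · rw [hh1 k i h1, mul_zero]
      · intro h
        exact absurd (Finset.mem_univ i) h
  one_mem' := by
    refine ⟨fun i j hij => ?_, fun i => ?_⟩
    · rw [Units.val_one, Matrix.one_apply_ne (ne_of_gt hij)]
    · rw [Units.val_one, Matrix.one_apply_eq]
  inv_mem' := by
    rintro g ⟨hg1, hg2⟩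
    have hb : Matrix.BlockTriangular g.val (id : Fin n → Fin n) := fun i j hij => hg1 i j hij
    haveI : Invertible g.val := g.invertible
    have hbi := Matrix.blockTriangular_inv_of_blockTriangular hb
    have he : (g⁻¹).val = (g.val)⁻¹ := Matrix.coe_units_inv g
    have h1 : ∀ i j : Fin n, j < i → (g⁻¹).val i j = 0 := by
      intro i j hij
      rw [he]
      exact hbi hij
    refine ⟨h1, fun i => ?_⟩
    have h2 : (g.val * (g⁻¹).val) i i = 1 := by
      rw [Units.mul_inv, Matrix.one_apply_eq]
    rw [Matrix.mul_apply, Finset.sum_eq_single i] at h2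
    · rw [hg2 i, one_mul] at h2
      exact h2
    · intro k _ hk
      rcases lt_or_gt_of_ne hk with h3 | h3
      · rw [hg1 i k h3, zero_mul]
      · rw [h1 k i h3, mul_zero]
    · intro h
      exact absurd (Finset.mem_univ i) h

variable {n : ℕ} {F : Type} [Field F]

/-- underlying matrix -/
abbrev M (u : UT n F) : Matrix (Fin n) (Fin n) F := u.1.val

theorem M_low (u : UT n F) {i j : Fin n} (h : j < i) : M u i j = 0 := u.2.1 i j h
theorem M_diag (u : UT n F) (i : Fin n) : M u i i = 1 := u.2.2 i
theorem M_mul (u v : UT n F) : M (u * v) = M u * M v := rfl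
theorem M_one : M (1 : UT n F) = 1 := rfl

theorem exists_UT (m : Matrix (Fin n) (Fin n) F) (h1 : ∀ i j : Fin n, j < i → m i j = 0)
    (h2 : ∀ i, m i i = 1) : ∃ u : UT n F, M u = m := by
  have hdet : m.det = 1 := by
    rw [Matrix.det_of_upperTriangular (fun i j hij => h1 i j hij)]
    exact Finset.prod_eq_one (fun i _ => h2 i)
  have hu : IsUnit m := by
    rw [Matrix.isUnit_iff_isUnit_det, hdet]
    exact isUnit_one
  obtain ⟨g, hg⟩ := hu
  refine ⟨⟨g, ?_, ?_⟩, hg⟩
  · intro i j hij
    rw [hg]; exact h1 i j hij
  · intro i
    rw [hg]; exact h2 i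

variable [Fintype F]

noncomputable instance : Fintype (UT n F) := Fintype.ofFinite _

/-- sum over `U × U` -/
noncomputable def S (θ : AddChar F ℂ) (i j : Fin n) (a : F) (y : Matrix (Fin n) (Fin n) F) : ℂ :=
  ∑ u : UT n F, ∑ v : UT n F, θ (a * (M u * y * M v) i j)

theorem S_inv (θ : AddChar F ℂ) (i j : Fin n) (a : F) (y : Matrix (Fin n) (Fin n) F)
    (u0 v0 : UT n F) : S θ i j a (M u0 * y * M v0) = S θ i j a y := by
  unfold S
  conv_rhs => rw [← Equiv.sum_comp (Equiv.mulRight u0)]
  apply Finset.sum_congr rfl
  intro u _
  conv_rhs => rw [← Equiv.sum_comp (Equiv.mulLeft v0)]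
  apply Finset.sum_congr rfl
  intro v _
  simp only [Equiv.coe_mulRight, Equiv.coe_mulLeft, M_mul]
  congr 3
  simp only [Matrix.mul_assoc]

/-- the part strictly inside the box `(i,j)` -/
def ins (i j : Fin n) (y : Matrix (Fin n) (Fin n) F) : Matrix (Fin n) (Fin n) F :=
  fun k l => if i < k ∧ l < j then y k l else 0

theorem split_entry {i j : Fin n} (y : Matrix (Fin n) (Fin n) F)
    (hrow : ∀ l, l < j → y i l = 0) (hcol : ∀ k, i < k → y k j = 0) (u v : UT n F) :
    (M u * y * M v) i j = y i j + (M u * ins i j y * M v) i j := by
  have e1 : y i j = (M u * (Matrix.single i j (y i j)) * M v) i j := by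
    rw [Matrix.mul_apply, Finset.sum_eq_single j]
    · rw [M_diag, mul_one, Matrix.mul_apply, Finset.sum_eq_single i]
      · rw [M_diag, one_mul, Matrix.single_apply_same]
      · intro k _ hk
        rw [Matrix.single_apply_of_ne, mul_zero]
        rintro ⟨h, _⟩
        exact hk h.symm
      · intro h
        exact absurd (Finset.mem_univ _) h
    · intro l _ hl
      have : (M u * (Matrix.single i j (y i j))) i l = 0 := by
        rw [Matrix.mul_apply]
        apply Finset.sum_eq_zero
        intro k _
        rw [Matrix.single_apply_of_ne, mul_zero]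
        rintro ⟨_, h⟩
        exact hl h.symm
      rw [this, zero_mul]
    · intro h
      exact absurd (Finset.mem_univ _) h
  rw [e1]
  have e2 : (M u * (Matrix.single i j (y i j)) * M v) i j + (M u * ins i j y * M v) i j =
      (M u * (Matrix.single i j (y i j) + ins i j y) * M v) i j := by
    rw [Matrix.mul_add, Matrix.add_mul, Matrix.add_apply]
  rw [e2]
  simp only [Matrix.mul_apply]
  apply Finset.sum_congr rfl
  intro l _
  rcases lt_or_ge j l with hl | hl
  · rw [M_low v hl, mul_zero, mul_zero]
  congr 1
  apply Finset.sum_congr rfl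
  intro k _
  rcases lt_or_ge k i with hk | hk
  · rw [M_low u hk, zero_mul, zero_mul]
  congr 1
  rw [Matrix.add_apply]
  unfold ins
  rcases eq_or_lt_of_le hk with hk' | hk' <;> rcases eq_or_lt_of_le hl with hl' | hl'
  · subst hk'; subst hl'
    simp
  · subst hk'
    rw [hrow l hl', Matrix.single_apply_of_ne]
    · simp
    · rintro ⟨_, h⟩
      exact absurd h.symm (ne_of_lt hl')
  · subst hl'
    rw [hcol k hk', Matrix.single_apply_of_ne]
    · simp
    · rintro ⟨h, _⟩
      exact absurd h (ne_of_lt hk')
  · rw [Matrix.single_apply_of_ne, if_pos ⟨hk', hl'⟩, zero_add]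
    rintro ⟨h, _⟩
    exact absurd h (ne_of_lt hk')

theorem S_split (θ : AddChar F ℂ) {i j : Fin n} (a : F) (y : Matrix (Fin n) (Fin n) F)
    (hrow : ∀ l, l < j → y i l = 0) (hcol : ∀ k, i < k → y k j = 0) :
    S θ i j a y = θ (a * y i j) * S θ i j a (ins i j y) := by
  unfold S
  rw [Finset.mul_sum]
  apply Finset.sum_congr rfl
  intro u _
  rw [Finset.mul_sum]
  apply Finset.sum_congr rfl
  intro v _
  rw [split_entry y hrow hcol, mul_add, AddChar.map_add_eq_mul]

open Classical in
/-- the inner sum over `u` -/
theorem inner_sum (θ : AddChar F ℂ) (hθ : ∃ x, θ x ≠ 1) {i : Fin n} {a : F} (ha : a ≠ 0)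
    (c : Fin n → F) (hc : ∀ k, k ≤ i → c k = 0) :
    (∑ u : UT n F, θ (a * ∑ k, M u i k * c k)) =
      if c = 0 then (Fintype.card (UT n F) : ℂ) else 0 := by
  split_ifs with h
  · subst h
    simp
  · obtain ⟨k, hk⟩ : ∃ k, c k ≠ 0 := by
      by_contra hcon
      push Not at hcon
      exact h (funext hcon)
    have hik : i < k := by
      by_contra hle
      exact hk (hc k (not_lt.1 hle))
    obtain ⟨x, hx⟩ := hθ
    obtain ⟨e, he⟩ := exists_UT (F := F) (1 + Matrix.single i k (x / (a * c k))) (by
      intro p q hpq
      rw [Matrix.add_apply, Matrix.one_apply_ne (ne_of_gt hpq), Matrix.single_apply_of_ne,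
        add_zero]
      rintro ⟨h1, h2⟩
      subst h1; subst h2
      exact absurd hik (not_lt.2 hpq.le)) (by
      intro p
      rw [Matrix.add_apply, Matrix.one_apply_eq, Matrix.single_apply_of_ne, add_zero]
      rintro ⟨h1, h2⟩
      exact absurd (h1.trans h2.symm) (ne_of_lt hik))
    have key : (∑ u : UT n F, θ (a * ∑ k, M u i k * c k)) =
        θ x * ∑ u : UT n F, θ (a * ∑ k, M u i k * c k) := by
      rw [Finset.mul_sum]
      conv_lhs => rw [← Equiv.sum_comp (Equiv.mulRight e)]
      apply Finset.sum_congr rfl
      intro u _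
      rw [← AddChar.map_add_eq_mul]
      congr 1
      simp only [Equiv.coe_mulRight, M_mul, he]
      have e1 : ∀ m, (M u * (1 + Matrix.single i k (x / (a * c k)))) i m =
          M u i m + if m = k then x / (a * c k) else 0 := by
        intro m
        rw [Matrix.mul_add, Matrix.mul_one, Matrix.add_apply]
        congr 1
        rw [Matrix.mul_apply, Finset.sum_eq_single i]
        · rw [M_diag, one_mul]
          by_cases hm : m = k
          · subst hm
            rw [if_pos rfl, Matrix.single_apply_same]
          · rw [if_neg hm, Matrix.single_apply_of_ne]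
            rintro ⟨_, h2⟩
            exact hm h2.symm
        · intro p _ hp
          rw [Matrix.single_apply_of_ne, mul_zero]
          rintro ⟨h1, _⟩
          exact hp h1.symm
        · intro h
          exact absurd (Finset.mem_univ _) h
      simp only [e1, add_mul, Finset.sum_add_distrib, ite_mul, zero_mul, Finset.sum_ite_eq',
        Finset.mem_univ, if_true]
      field_simp
      ring
    have h2 : (θ x - 1) * ∑ u : UT n F, θ (a * ∑ k, M u i k * c k) = 0 := by
      rw [sub_mul, one_mul, ← key, sub_self]
    rcases mul_eq_zero.1 h2 with h3 | h3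
    · exact absurd (sub_eq_zero.1 h3) hx
    · exact h3

theorem S_ins_ne (θ : AddChar F ℂ) (hθ : ∃ x, θ x ≠ 1) {i j : Fin n} {a : F} (ha : a ≠ 0)
    (y : Matrix (Fin n) (Fin n) F) : S θ i j a (ins i j y) ≠ 0 := by
  classical
  have h1 : S θ i j a (ins i j y) = ∑ v : UT n F,
      if (fun k => (ins i j y * M v) k j) = 0 then (Fintype.card (UT n F) : ℂ) else 0 := by
    unfold S
    rw [Finset.sum_comm]
    apply Finset.sum_congr rfl
    intro v _
    rw [← inner_sum θ hθ (i := i) ha]
    · apply Finset.sum_congr rfl
      intro u _
      rw [Matrix.mul_assoc, Matrix.mul_apply]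
    · intro k hk
      rw [Matrix.mul_apply]
      apply Finset.sum_eq_zero
      intro l _
      unfold ins
      rw [if_neg, zero_mul]
      rintro ⟨h, _⟩
      exact absurd h (not_lt.2 hk)
  rw [h1, ← Finset.sum_filter, Finset.sum_const, nsmul_eq_mul]
  apply mul_ne_zero
  · rw [Nat.cast_ne_zero]
    apply Finset.card_ne_zero_of_mem (a := (1 : UT n F))
    rw [Finset.mem_filter]
    refine ⟨Finset.mem_univ _, ?_⟩
    funext k
    rw [M_one, Matrix.mul_one]
    unfold ins
    rw [if_neg]
    · rfl
    · rintro ⟨_, h⟩
      exact absurd h (lt_irrefl _)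
  · rw [Nat.cast_ne_zero]
    exact Fintype.card_ne_zero

omit [Fintype F] in
/-- basic representatives, stagewise -/
theorem basic_stage (y : Matrix (Fin n) (Fin n) F) (d : ℕ) : ∀ m : ℕ, m + d = n →
    ∃ u v : UT n F, (∀ i : Fin n, m ≤ (i : ℕ) → ∀ j l, (M u * y * M v) i j ≠ 0 →
      (M u * y * M v) i l ≠ 0 → j = l) ∧
      (∀ i : Fin n, m ≤ (i : ℕ) → ∀ j, (M u * y * M v) i j ≠ 0 → ∀ k, k ≠ i →
        (M u * y * M v) k j = 0) := by
  classical
  induction d with
  | zero =>
    intro m hm
    refine ⟨1, 1, fun i hi => ?_, fun i hi => ?_⟩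
    · exact absurd i.2 (by omega)
    · exact absurd i.2 (by omega)
  | succ d ih =>
    intro m hmd
    have hm : m < n := by omega
    obtain ⟨u, v, h1, h2⟩ := ih (m + 1) (by omega)
    set z := M u * y * M v with hz
    let r : Fin n := ⟨m, hm⟩
    by_cases hrow : ∀ j, z r j = 0
    · refine ⟨u, v, ?_, ?_⟩
      · intro i hi j l hj
        rcases Nat.eq_or_lt_of_le hi with h | h
        · have : i = r := Fin.ext h.symm
          subst this
          exact absurd (hrow j) hj
        · exact h1 i h j l hj
      · intro i hi j hj
        rcases Nat.eq_or_lt_of_le hi with h | h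
        · have : i = r := Fin.ext h.symm
          subst this
          exact absurd (hrow j) hj
        · exact h2 i h j hj
    · push Not at hrow
      obtain ⟨l, hl, hlmin⟩ : ∃ l, z r l ≠ 0 ∧ ∀ j, j < l → z r j = 0 := by
        obtain ⟨l, hl, hmin⟩ := Set.exists_min_image {j : Fin n | z r j ≠ 0} id
          (Set.toFinite _) hrow
        refine ⟨l, hl, fun j hj => ?_⟩
        by_contra hne
        exact absurd (hmin j hne) (not_le.2 hj)
      -- column operations
      obtain ⟨V, hV⟩ := exists_UT (F := F) (n := n)
        (fun i j => if i = j then 1 else if i = l ∧ l < j then -(z r j / z r l) else 0) (by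
        intro i j hij
        have h3 : i ≠ j := ne_of_gt hij
        simp only [if_neg h3]
        rw [if_neg]
        rintro ⟨h4, h5⟩
        subst h4
        exact absurd h5 (not_lt.2 hij.le)) (by intro i; simp)
      have hzV : ∀ i j, (z * M V) i j = z i j + if l < j then z i l * (-(z r j / z r l)) else 0 := by
        intro i j
        rw [hV, Matrix.mul_apply]
        have : ∀ k, z i k * (if k = j then (1 : F) else if k = l ∧ l < j then
            -(z r j / z r l) else 0) = (if k = j then z i k else 0) +
            (if k = l then (if l < j then z i l * (-(z r j / z r l)) else 0) else 0) := by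
          intro k
          by_cases hkj : k = j
          · subst hkj
            simp only [if_true]
            by_cases hkl : k = l
            · subst hkl
              simp
            · simp [hkl]
          · simp only [if_neg hkj, zero_add]
            by_cases hkl : k = l
            · subst hkl
              by_cases h5 : k < j
              · simp [h5]
              · simp [h5]
            · simp [hkl]
        rw [Finset.sum_congr rfl (fun k _ => this k), Finset.sum_add_distrib]
        simp
      set z1 := z * M V with hz1
      have a1 : ∀ j, z1 r j = if j = l then z r l else 0 := by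
        intro j
        rw [hzV]
        by_cases hjl : j = l
        · subst hjl
          simp
        · rw [if_neg hjl]
          rcases lt_or_gt_of_ne hjl with h5 | h5
          · rw [hlmin j h5, if_neg (not_lt.2 h5.le), add_zero]
          · rw [if_pos h5]
            field_simp
            ring
      have colz : ∀ i : Fin n, m + 1 ≤ (i : ℕ) → z i l = 0 := by
        intro i hi
        by_contra hne
        have hir : r ≠ i := by
          intro h
          have : (i : ℕ) = m := by rw [← h]
          omega
        exact hl (h2 i hi l hne r hir)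
      have a2 : ∀ i : Fin n, m + 1 ≤ (i : ℕ) → ∀ j, z1 i j = z i j := by
        intro i hi j
        rw [hzV, colz i hi]
        simp
      have a3 : ∀ i : Fin n, m + 1 ≤ (i : ℕ) → ∀ j, z i j ≠ 0 → ∀ k, z1 k j = z k j := by
        intro i hi j hj k
        rw [hzV]
        have hir : r ≠ i := by
          intro h
          have : (i : ℕ) = m := by rw [← h]
          omega
        rw [h2 i hi j hj r hir]
        simp
      -- row operations
      obtain ⟨W, hW⟩ := exists_UT (F := F) (n := n)
        (fun i k => if i = k then 1 else if k = r ∧ i < r then -(z1 i l / z1 r l) else 0) (by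
        intro i k hik
        have h3 : i ≠ k := ne_of_gt hik
        simp only [if_neg h3]
        rw [if_neg]
        rintro ⟨h4, h5⟩
        subst h4
        exact absurd h5 (not_lt.2 hik.le)) (by intro i; simp)
      have hWz : ∀ i j, (M W * z1) i j = z1 i j + if i < r then (-(z1 i l / z1 r l)) * z1 r j else 0 := by
        intro i j
        rw [hW, Matrix.mul_apply]
        have : ∀ k, (if i = k then (1 : F) else if k = r ∧ i < r then
            -(z1 i l / z1 r l) else 0) * z1 k j = (if i = k then z1 k j else 0) +
            (if k = r then (if i < r then (-(z1 i l / z1 r l)) * z1 r j else 0) else 0) := by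
          intro k
          by_cases hkj : i = k
          · subst hkj
            simp only [if_true]
            by_cases hkl : i = r
            · subst hkl
              simp
            · simp [hkl]
          · simp only [if_neg hkj, zero_add]
            by_cases hkl : k = r
            · subst hkl
              by_cases h5 : i < r
              · simp [h5]
              · simp [h5]
            · simp [hkl]
        rw [Finset.sum_congr rfl (fun k _ => this k), Finset.sum_add_distrib]
        simp
      have hfin : M (W * u) * y * M (v * V) = M W * z1 := by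
        rw [M_mul, M_mul, hz1, hz]
        simp only [Matrix.mul_assoc]
      have b1 : ∀ i : Fin n, m ≤ (i : ℕ) → ∀ j, (M W * z1) i j = z1 i j := by
        intro i hi j
        rw [hWz, if_neg, add_zero]
        intro h
        have : (i : ℕ) < m := h
        omega
      have b2 : ∀ i j, j ≠ l → (M W * z1) i j = z1 i j := by
        intro i j hj
        rw [hWz, a1 j, if_neg hj]
        simp
      have b3 : ∀ i : Fin n, i ≠ r → (M W * z1) i l = 0 := by
        intro i hi
        have hzl : z1 r l ≠ 0 := by
          rw [a1 l, if_pos rfl]; exact hl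
        rcases lt_or_gt_of_ne hi with h5 | h5
        · rw [hWz, if_pos h5]
          field_simp
          ring
        · have h6 : m + 1 ≤ (i : ℕ) := h5
          rw [b1 i (by omega), a2 i h6, colz i h6]
      refine ⟨W * u, v * V, ?_, ?_⟩
      · intro i hi j j' hj hj'
        rw [hfin] at hj hj'
        rw [b1 i hi] at hj hj'
        rcases Nat.eq_or_lt_of_le hi with h | h
        · have hir : i = r := Fin.ext h.symm
          rw [hir, a1] at hj hj'
          have e1 : j = l := by
            by_contra hne
            rw [if_neg hne] at hj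
            exact hj rfl
          have e2 : j' = l := by
            by_contra hne
            rw [if_neg hne] at hj'
            exact hj' rfl
          rw [e1, e2]
        · rw [a2 i h] at hj hj'
          exact h1 i h j j' hj hj'
      · intro i hi j hj k hk
        rw [hfin] at hj ⊢
        rw [b1 i hi] at hj
        rcases Nat.eq_or_lt_of_le hi with h | h
        · have hir : i = r := Fin.ext h.symm
          rw [hir, a1] at hj
          have e1 : j = l := by
            by_contra hne
            rw [if_neg hne] at hj
            exact hj rfl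
          rw [e1]
          exact b3 k (by rw [← hir]; exact hk)
        · rw [a2 i h] at hj
          have hjl : j ≠ l := by
            intro he
            rw [he, colz i h] at hj
            exact hj rfl
          rw [b2 k j hjl, a3 i h j hj]
          exact h2 i h j hj k hk

omit [Fintype F] in
theorem basic_rep (y : Matrix (Fin n) (Fin n) F) :
    ∃ u v : UT n F, (∀ i j l, (M u * y * M v) i j ≠ 0 → (M u * y * M v) i l ≠ 0 → j = l) ∧
      (∀ i k j, (M u * y * M v) i j ≠ 0 → (M u * y * M v) k j ≠ 0 → i = k) := by
  obtain ⟨u, v, h1, h2⟩ := basic_stage y n 0 (by omega)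
  refine ⟨u, v, fun i j l => h1 i (Nat.zero_le _) j l, fun i k j hi hk => ?_⟩
  by_contra hne
  exact hk (h2 i (Nat.zero_le _) j hi k (fun h => hne h.symm))

omit [Fintype F] in
theorem su_conj {y : Matrix (Fin n) (Fin n) F} (hy : ∀ i j : Fin n, j ≤ i → y i j = 0)
    (u v : UT n F) : ∀ i j : Fin n, j ≤ i → (M u * y * M v) i j = 0 := by
  intro i j hij
  rw [Matrix.mul_apply]
  apply Finset.sum_eq_zero
  intro l _
  rcases lt_or_ge j l with hl | hl
  · rw [M_low v hl, mul_zero]
  · rw [Matrix.mul_apply, Finset.sum_eq_zero, zero_mul]
    intro k _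
    rcases lt_or_ge k i with hk | hk
    · rw [M_low u hk, zero_mul]
    · rw [hy k l (hl.trans (hij.trans hk)), mul_zero]

theorem separate (θ : AddChar F ℂ) (hθ : ∃ x, θ x ≠ 1) {y y' : Matrix (Fin n) (Fin n) F}
    (hy : ∀ i j : Fin n, j ≤ i → y i j = 0) (hy' : ∀ i j : Fin n, j ≤ i → y' i j = 0)
    (h : ∀ i j : Fin n, i < j → ∀ a : F, a ≠ 0 → S θ i j a y = S θ i j a y') :
    ∃ u v : UT n F, y' = M u * y * M v := by
  obtain ⟨u, v, b1, b2⟩ := basic_rep y
  obtain ⟨u', v', b1', b2'⟩ := basic_rep y'
  have hz := su_conj hy u v
  have hz' := su_conj hy' u' v'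
  have hS : ∀ i j : Fin n, i < j → ∀ a : F, a ≠ 0 →
      S θ i j a (M u * y * M v) = S θ i j a (M u' * y' * M v') := by
    intro i j hij a ha
    rw [S_inv, S_inv]
    exact h i j hij a ha
  generalize hzz : M u * y * M v = z at *
  generalize hzz' : M u' * y' * M v' = z' at *
  have key : ∀ d : ℕ, ∀ i j : Fin n, (j : ℕ) ≤ (i : ℕ) + d → z i j = z' i j := by
    intro d
    induction d with
    | zero =>
      intro i j hij
      rw [hz i j hij, hz' i j hij]
    | succ d ih =>
      intro i j hij
      rcases le_or_gt j i with hle | hlt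
      · rw [hz i j hle, hz' i j hle]
      by_cases c1 : ∃ l, l < j ∧ z i l ≠ 0
      · obtain ⟨l, hlj, hl⟩ := c1
        have hll : z i l = z' i l := ih i l (by
          have : (l : ℕ) < j := hlj
          omega)
        have e1 : z i j = 0 := by
          by_contra hne
          exact absurd (b1 i l j hl hne) (ne_of_lt hlj)
        have e2 : z' i j = 0 := by
          by_contra hne
          exact absurd (b1' i l j (hll ▸ hl) hne) (ne_of_lt hlj)
        rw [e1, e2]
      by_cases c2 : ∃ k, i < k ∧ z k j ≠ 0
      · obtain ⟨k, hik, hk⟩ := c2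
        have hkk : z k j = z' k j := ih k j (by
          have : (i : ℕ) < k := hik
          omega)
        have e1 : z i j = 0 := by
          by_contra hne
          exact absurd (b2 i k j hne hk) (ne_of_lt hik)
        have e2 : z' i j = 0 := by
          by_contra hne
          exact absurd (b2' i k j hne (hkk ▸ hk)) (ne_of_lt hik)
        rw [e1, e2]
      push Not at c1 c2
      have c1' : ∀ l, l < j → z' i l = 0 := by
        intro l hl
        rw [← ih i l (by
          have : (l : ℕ) < j := hl
          omega)]
        exact c1 l hl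
      have c2' : ∀ k, i < k → z' k j = 0 := by
        intro k hk
        rw [← ih k j (by
          have : (i : ℕ) < k := hk
          omega)]
        exact c2 k hk
      have hins : ins i j z = ins i j z' := by
        funext k l
        unfold ins
        split_ifs with hkl
        · apply ih
          have h5 : (i : ℕ) < k := hkl.1
          have h6 : (l : ℕ) < j := hkl.2
          omega
        · rfl
      by_contra hne
      obtain ⟨x, hx⟩ := hθ
      have hd : z i j - z' i j ≠ 0 := sub_ne_zero.2 hne
      have hx0 : x ≠ 0 := by
        intro h0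
        rw [h0, AddChar.map_zero_eq_one] at hx
        exact hx rfl
      have ha : x / (z i j - z' i j) ≠ 0 := div_ne_zero hx0 hd
      have h1 := hS i j hlt _ ha
      rw [S_split θ _ z c1 c2, S_split θ _ z' c1' c2', hins] at h1
      have h2 := mul_right_cancel₀ (S_ins_ne θ ⟨x, hx⟩ ha z') h1
      have h3 : x / (z i j - z' i j) * z i j = x / (z i j - z' i j) * z' i j + x := by
        field_simp
        ring
      rw [h3, AddChar.map_add_eq_mul] at h2
      have h4 : θ (x / (z i j - z' i j) * z' i j) ≠ 0 := by
        intro h0
        have h5 := AddChar.map_add_eq_mul θ (x / (z i j - z' i j) * z' i j)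
          (-(x / (z i j - z' i j) * z' i j))
        rw [add_neg_cancel, AddChar.map_zero_eq_one, h0, zero_mul] at h5
        exact one_ne_zero h5
      apply hx
      have h6 : θ (x / (z i j - z' i j) * z' i j) * θ x =
          θ (x / (z i j - z' i j) * z' i j) * 1 := by rw [h2, mul_one]
      exact mul_left_cancel₀ h4 h6
  have hfin : z = z' := by
    funext i j
    exact key n i j (by have := j.2; omega)
  refine ⟨u'⁻¹ * u, v * v'⁻¹, ?_⟩
  have i1 : M u'⁻¹ * M u' = 1 := by rw [← M_mul, inv_mul_cancel, M_one]
  have i2 : M v' * M v'⁻¹ = 1 := by rw [← M_mul, mul_inv_cancel, M_one]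
  calc y' = (M u'⁻¹ * M u') * y' * (M v' * M v'⁻¹) := by rw [i1, i2, Matrix.one_mul, Matrix.mul_one]
    _ = M u'⁻¹ * (M u' * y' * M v') * M v'⁻¹ := by simp only [Matrix.mul_assoc]
    _ = M u'⁻¹ * (M u * y * M v) * M v'⁻¹ := by rw [hzz', hzz, hfin]
    _ = M (u'⁻¹ * u) * y * M (v * v'⁻¹) := by
      rw [M_mul, M_mul]
      simp only [Matrix.mul_assoc]

end Pool.Agent.H24.Sup
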