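import Pool.Agent.H24.Sup1

set_option autoImplicit false

namespace Pool.Agent.H24.Sup

variable {n : ℕ} {F : Type} [Field F]

/-- the strictly upper triangular matrices -/
abbrev NN (n : ℕ) (F : Type) [Field F] : Type :=
  {y : Matrix (Fin n) (Fin n) F // ∀ i j : Fin n, j ≤ i → y i j = 0}

/-- `y ↦ u y v` on strictly upper triangular matrices -/
def conj (u v : UT n F) (y : NN n F) : NN n F := ⟨M u * y.1 * M v, su_conj y.2 u v⟩

/-- `g - 1` -/
def sub1 (g : UT n F) : NN n F :=
  ⟨M g - 1, by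
    intro i j hij
    rw [Matrix.sub_apply]
    rcases lt_or_eq_of_le hij with h | h
    · rw [M_low g h, Matrix.one_apply_ne (ne_of_gt h), sub_zero]
    · rw [h, M_diag, Matrix.one_apply_eq, sub_self]⟩

/-- two-sided orbit of a functional -/
def orb (μ : NN n F → F) : Set (NN n F → F) :=
  {ν | ∃ u v : UT n F, ν = fun y => μ (conj u v y)}

/-- orbit sum -/
noncomputable def orbSum (θ : AddChar F ℂ) (μ : NN n F → F) (g : UT n F) : ℂ :=
  ∑ᶠ ν ∈ orb μ, θ (ν (sub1 g))

/-- the single-box functional -/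
def box (i j : Fin n) (a : F) : NN n F → F := fun y => a * y.1 i j

theorem conj_conj (u v u' v' : UT n F) (y : NN n F) :
    conj u v (conj u' v' y) = conj (u * u') (v' * v) y := by
  apply Subtype.ext
  simp only [conj, M_mul, Matrix.mul_assoc]

theorem conj_one (y : NN n F) : conj 1 1 y = y := by
  apply Subtype.ext
  simp only [conj, M_one, Matrix.one_mul, Matrix.mul_one]

variable [Fintype F]

theorem sum_orb (θ : AddChar F ℂ) (μ : NN n F → F) :
    ∃ N : ℕ, 0 < N ∧ ∀ g : UT n F,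
      (∑ u : UT n F, ∑ v : UT n F, θ (μ (conj u v (sub1 g)))) = N * orbSum θ μ g := by
  classical
  let Φ : UT n F × UT n F → (NN n F → F) := fun p y => μ (conj p.1 p.2 y)
  let fib : (NN n F → F) → Finset (UT n F × UT n F) := fun ν => Finset.univ.filter (fun p => Φ p = ν)
  have hcard : ∀ p, (fib (Φ p)).card = (fib (Φ (1, 1))).card := by
    intro p
    symm
    apply Finset.card_bij' (fun q _ => (q.1 * p.1, p.2 * q.2)) (fun q _ => (q.1 * p.1⁻¹, p.2⁻¹ * q.2))
    · intro q hq
      have hq' : Φ q = Φ (1, 1) := (Finset.mem_filter.1 hq).2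
      refine Finset.mem_filter.2 ⟨Finset.mem_univ _, ?_⟩
      funext y
      have h1 := congrFun hq' (conj p.1 p.2 y)
      simp only [Φ, conj_conj, one_mul, mul_one] at h1 ⊢
      exact h1
    · intro q hq
      have hq' : Φ q = Φ p := (Finset.mem_filter.1 hq).2
      refine Finset.mem_filter.2 ⟨Finset.mem_univ _, ?_⟩
      funext y
      have h1 := congrFun hq' (conj p.1⁻¹ p.2⁻¹ y)
      simp only [Φ, conj_conj, mul_inv_cancel, inv_mul_cancel] at h1 ⊢
      exact h1
    · intro q _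
      simp
    · intro q _
      simp
  refine ⟨(fib (Φ (1, 1))).card, ?_, fun g => ?_⟩
  · exact Finset.card_pos.2 ⟨(1, 1), Finset.mem_filter.2 ⟨Finset.mem_univ _, rfl⟩⟩
  have h1 : (∑ u : UT n F, ∑ v : UT n F, θ (μ (conj u v (sub1 g)))) =
      ∑ p : UT n F × UT n F, θ (Φ p (sub1 g)) := by
    rw [Fintype.sum_prod_type]
  have h2 : orb μ = ((Finset.univ.image Φ : Finset (NN n F → F)) : Set (NN n F → F)) := by
    ext ν
    simp only [orb, Set.mem_setOf_eq, Finset.coe_image, Finset.coe_univ, Set.image_univ,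
      Set.mem_range, Prod.exists]
    constructor
    · rintro ⟨u, v, rfl⟩
      exact ⟨u, v, rfl⟩
    · rintro ⟨u, v, rfl⟩
      exact ⟨u, v, rfl⟩
  have h3 : orbSum θ μ g = ∑ ν ∈ Finset.univ.image Φ, θ (ν (sub1 g)) := by
    unfold orbSum
    rw [h2]
    exact finsum_mem_coe_finset _ _
  rw [h1, h3, Finset.mul_sum, ← Finset.sum_fiberwise_of_maps_to (s := Finset.univ)
    (t := Finset.univ.image Φ) (g := Φ) (fun p _ => Finset.mem_image_of_mem _ (Finset.mem_univ _))]
  apply Finset.sum_congr rfl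
  intro ν hν
  obtain ⟨p, _, rfl⟩ := Finset.mem_image.1 hν
  rw [← hcard p, ← nsmul_eq_mul, ← Finset.sum_const]
  apply Finset.sum_congr rfl
  intro q hq
  rw [(Finset.mem_filter.1 hq).2]

theorem separate' (θ : AddChar F ℂ) (hθ : ∃ x, θ x ≠ 1) {g h : UT n F}
    (H : ∀ i j : Fin n, i < j → ∀ a : F, a ≠ 0 →
      orbSum θ (box i j a) g = orbSum θ (box i j a) h) :
    ∃ u v : UT n F, M h - 1 = M u * (M g - 1) * M v := by
  apply separate θ hθ (sub1 g).2 (sub1 h).2
  intro i j hij a ha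
  obtain ⟨N, _, hN⟩ := sum_orb θ (box i j a)
  have h1 := hN g
  have h2 := hN h
  rw [H i j hij a ha] at h1
  exact h1.trans h2.symm

end Pool.Agent.H24.Sup
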