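import Mathlib

set_option autoImplicit false

namespace Pool.Agent.H24.TreeChains

open Cardinal Set

/-- codes of monotone partial functions -/
abbrev Code := Set (ℚ × ℚ)

/-- `y` is the value at `x` of the function coded by `s` -/
def P (s : Code) (x y : ℝ) : Prop :=
  (∀ q r : ℚ, x < q → (r : ℝ) < y → (q, r) ∈ s) ∧
  (∀ r : ℚ, y < r → ∃ q : ℚ, x < q ∧ (q, r) ∉ s)

lemma P_unique {s : Code} {x y y' : ℝ} (h : P s x y) (h' : P s x y') : y = y' := by
  rcases lt_trichotomy y y' with hlt | heq | hlt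
  · obtain ⟨r, h1, h2⟩ := exists_rat_btwn hlt
    obtain ⟨q, h3, h4⟩ := h.2 r h1
    exact absurd (h'.1 q r h3 h2) h4
  · exact heq
  · obtain ⟨r, h1, h2⟩ := exists_rat_btwn hlt
    obtain ⟨q, h3, h4⟩ := h'.2 r h1
    exact absurd (h.1 q r h3 h2) h4

open Classical in
/-- decoding -/
noncomputable def F (s : Code) (x : ℝ) : ℝ := if h : ∃ y, P s x y then h.choose else 0

lemma F_eq {s : Code} {x y : ℝ} (h : P s x y) : F s x = y := by
  have hex : ∃ y, P s x y := ⟨y, h⟩
  unfold F
  rw [dif_pos hex]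
  exact P_unique hex.choose_spec h

/-- the code -/
def code (C : Set ℝ) (u v : ℝ → ℝ) : Code := {p : ℚ × ℚ | ∃ c ∈ C, u c < p.1 ∧ (p.2 : ℝ) < v c}

lemma exc (C : Set ℝ) (u v : ℝ → ℝ) (hu : StrictMonoOn u C) (hv : StrictMonoOn v C) :
    {x ∈ C | ¬ P (code C u v) (u x) (v x)}.Countable := by
  have key : ∀ x ∈ {x ∈ C | ¬ P (code C u v) (u x) (v x)}, ∃ r : ℚ, v x < r ∧
      ∀ q : ℚ, u x < q → (q, r) ∈ code C u v := by
    rintro x ⟨hx, hP⟩
    by_contra hcon
    push Not at hcon
    apply hP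
    refine ⟨fun q r hq hr => ⟨x, hx, hq, hr⟩, fun r hr => ?_⟩
    obtain ⟨q, h1, h2⟩ := hcon r hr
    exact ⟨q, h1, h2⟩
  choose! r hr1 hr2 using key
  have hlt : ∀ x ∈ {x ∈ C | ¬ P (code C u v) (u x) (v x)},
      ∀ x' ∈ {x ∈ C | ¬ P (code C u v) (u x) (v x)}, x < x' → r x < r x' := by
    intro x hx x' hx' hxx
    obtain ⟨q, h1, h2⟩ := exists_rat_btwn (hu hx.1 hx'.1 hxx)
    obtain ⟨c, hc, hc1, hc2⟩ := hr2 x hx q h1
    simp only at hc1 hc2
    have hcx : c < x' := by
      by_contra hcon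
      have := hu.monotoneOn hx'.1 hc (not_lt.1 hcon)
      linarith
    have h3 := hv hc hx'.1 hcx
    have h4 := hr1 x' hx'
    have : ((r x : ℚ) : ℝ) < (r x' : ℚ) := by linarith
    exact_mod_cast this
  have hinj : Set.InjOn r {x ∈ C | ¬ P (code C u v) (u x) (v x)} := by
    intro x hx x' hx' h
    rcases lt_trichotomy x x' with h1 | h1 | h1
    · exact absurd h (hlt x hx x' hx' h1).ne
    · exact h1
    · exact absurd h (hlt x' hx' x hx h1).ne'
  exact Set.MapsTo.countable_of_injOn (Set.mapsTo_univ _ _) hinj (Set.to_countable _)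

theorem exists_e {A : Type} (r : A → A → Prop) [IsWellOrder A r]
    (hsmall : ∀ a, #{b // r b a} < 𝔠) (G : A → ℕ → ℝ → ℝ) :
    ∃ e : A → ℝ, (∀ a b, r b a → e b ≠ e a) ∧
      ∀ a b b' i, r b a → r b' a → e a ≠ G b i (e b') := by
  have wf : WellFounded r := IsWellFounded.wf
  let bad : (a : A) → (∀ b, r b a → ℝ) → Set ℝ := fun a f =>
    Set.range (fun b : {b // r b a} => f b.1 b.2) ∪
    Set.range (fun p : {b // r b a} × {b // r b a} × ℕ => G p.1.1 p.2.2 (f p.2.1.1 p.2.1.2))
  have hbad : ∀ a f, ∃ x, x ∉ bad a f := by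
    intro a f
    by_contra hcon
    push Not at hcon
    have huniv : bad a f = Set.univ := Set.eq_univ_of_forall hcon
    have h1 : #(bad a f) < 𝔠 := by
      refine lt_of_le_of_lt (Cardinal.mk_union_le _ _) ?_
      apply Cardinal.add_lt_of_lt Cardinal.aleph0_le_continuum
      · exact lt_of_le_of_lt Cardinal.mk_range_le (hsmall a)
      · refine lt_of_le_of_lt Cardinal.mk_range_le ?_
        rw [Cardinal.mk_prod, Cardinal.mk_prod]
        simp only [Cardinal.lift_id]
        exact Cardinal.mul_lt_of_lt Cardinal.aleph0_le_continuum (hsmall a)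
          (Cardinal.mul_lt_of_lt Cardinal.aleph0_le_continuum (hsmall a)
            (by rw [Cardinal.mk_nat]; exact Cardinal.aleph0_lt_continuum))
    rw [huniv, Cardinal.mk_univ, Cardinal.mk_real] at h1
    exact lt_irrefl _ h1
  choose g hg using hbad
  let e : A → ℝ := wf.fix g
  have he : ∀ a, e a = g a (fun b _ => e b) := fun a => wf.fix_eq g a
  refine ⟨e, ?_, ?_⟩
  · intro a b hab h
    apply hg a (fun b _ => e b)
    rw [← he a]
    exact Or.inl ⟨⟨b, hab⟩, h⟩
  · intro a b b' i hb hb' h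
    apply hg a (fun b _ => e b)
    rw [← he a]
    exact Or.inr ⟨(⟨b, hb⟩, ⟨b', hb'⟩, i), h.symm⟩

/-- the index type -/
abbrev A := (ℕ → Code) × (ℕ × ℕ)

lemma mk_codes : #(ℕ → Code) = 𝔠 := by
  rw [← Cardinal.power_def, Cardinal.mk_set, Cardinal.mk_nat]
  have : #(ℚ × ℚ) = ℵ₀ := Cardinal.mk_eq_aleph0 _
  rw [this, Cardinal.two_power_aleph0, Cardinal.continuum_power_aleph0]

lemma mk_A : #A = 𝔠 := by
  rw [Cardinal.mk_prod, Cardinal.lift_id, Cardinal.lift_id, mk_codes, Cardinal.mk_eq_aleph0 (ℕ × ℕ)]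
  exact Cardinal.continuum_mul_aleph0

theorem exists_R : ∃ R : ℕ × ℕ → Set ℝ, (∀ l, (R l).Nonempty) ∧
    ∀ (l : ℕ × ℕ) (h : ℝ → ℝ) (c : ℝ → ℕ), (∀ x ∈ R l, ∃ l', l' ≠ l ∧ h x ∈ R l') →
      (∀ x ∈ R l, ∀ x' ∈ R l, c x = c x' → x < x' → h x < h x') → False := by
  obtain ⟨r, wo, hr⟩ := Cardinal.ord_eq A
  have hsmall : ∀ a : A, #{b // r b a} < 𝔠 := by
    intro a
    have h1 := Cardinal.card_typein_lt a hr
    rw [mk_A] at h1
    exact h1
  obtain ⟨e, he1, he2⟩ := exists_e r hsmall (fun a i x => F (a.1 i) x)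
  have hinj : Function.Injective e := by
    intro a b hab
    rcases trichotomous_of r a b with h | h | h
    · exact absurd hab (he1 b a h)
    · exact h
    · exact absurd hab.symm (he1 a b h)
  refine ⟨fun l => {x | ∃ a : A, a.2 = l ∧ e a = x}, ?_, ?_⟩
  · intro l
    exact ⟨e (fun _ => ∅, l), (fun _ => ∅, l), rfl, rfl⟩
  · intro l h c h1 h2
    -- the pieces
    set C : ℕ → Set ℝ := fun i => {x | (∃ a : A, a.2 = l ∧ e a = x) ∧ c x = i} with hC
    have hmono : ∀ i, StrictMonoOn h (C i) := by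
      intro i x hx x' hx' hxx
      exact h2 x hx.1 x' hx'.1 (hx.2.trans hx'.2.symm) hxx
    have hid : ∀ i, StrictMonoOn (fun x : ℝ => x) (C i) := fun i x _ x' _ hxx => hxx
    let s : ℕ → Code := fun j => if j % 2 = 0 then code (C (j / 2)) (fun x => x) h
      else code (C (j / 2)) h (fun x => x)
    let β : A := (s, l)
    have hs0 : ∀ i, s (2 * i) = code (C i) (fun x => x) h := by
      intro i
      have h3 : (2 * i) % 2 = 0 := by omega
      have h4 : (2 * i) / 2 = i := by omega
      simp only [s, h3, h4, if_true]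
    have hs1 : ∀ i, s (2 * i + 1) = code (C i) h (fun x => x) := by
      intro i
      have h3 : (2 * i + 1) % 2 = 1 := by omega
      have h4 : (2 * i + 1) / 2 = i := by omega
      simp only [s, h3, h4]
      simp
    -- exceptional points
    set X : Set ℝ := (⋃ i, {x ∈ C i | ¬ P (code (C i) (fun x => x) h) x (h x)}) ∪
      (⋃ i, {x ∈ C i | ¬ P (code (C i) h (fun x => x)) (h x) x}) with hX
    have hXc : X.Countable := by
      refine Set.Countable.union (Set.countable_iUnion fun i => ?_)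
        (Set.countable_iUnion fun i => ?_)
      · exact exc (C i) (fun x => x) h (hid i) (hmono i)
      · exact exc (C i) h (fun x => x) (hmono i) (hid i)
    -- find a good index
    obtain ⟨a, hal, haβ, haX⟩ : ∃ a : A, a.2 = l ∧ r β a ∧ e a ∉ X := by
      by_contra hcon
      push Not at hcon
      have hsub : {a : A | a.2 = l} ⊆ ({a | r a β} ∪ {β}) ∪ {a | e a ∈ X} := by
        intro a ha
        rcases trichotomous_of r β a with h3 | h3 | h3
        · exact Or.inr (hcon a ha h3)
        · exact Or.inl (Or.inr h3.symm)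
        · exact Or.inl (Or.inl h3)
      have hcard : #{a : A | a.2 = l} < 𝔠 := by
        refine lt_of_le_of_lt (Cardinal.mk_le_mk_of_subset hsub) ?_
        refine lt_of_le_of_lt (Cardinal.mk_union_le _ _) ?_
        apply Cardinal.add_lt_of_lt Cardinal.aleph0_le_continuum
        · refine lt_of_le_of_lt (Cardinal.mk_union_le _ _) ?_
          apply Cardinal.add_lt_of_lt Cardinal.aleph0_le_continuum
          · exact hsmall β
          · rw [Cardinal.mk_singleton]
            exact lt_trans Cardinal.one_lt_aleph0 Cardinal.aleph0_lt_continuum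
        · have hc2 : ({a | e a ∈ X} : Set A).Countable :=
            Set.Countable.preimage_of_injOn hXc (hinj.injOn)
          exact lt_of_le_of_lt (Cardinal.le_aleph0_iff_set_countable.2 hc2)
            Cardinal.aleph0_lt_continuum
      have hcard2 : 𝔠 ≤ #{a : A | a.2 = l} := by
        rw [← mk_codes]
        refine Cardinal.mk_le_of_injective (f := fun t : ℕ → Code =>
          (⟨(t, l), rfl⟩ : {a : A | a.2 = l})) ?_
        intro t t' htt
        have := congrArg (fun z : {a : A | a.2 = l} => z.1.1) htt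
        exact this
      exact absurd hcard (not_lt.2 hcard2)
    -- contradiction at `a`
    obtain ⟨l', hl', a', ha'l, ha'⟩ := h1 (e a) ⟨a, hal, rfl⟩
    have hne : a' ≠ a := by
      rintro rfl
      exact hl' (ha'l.symm.trans hal)
    have haC : e a ∈ C (c (e a)) := ⟨⟨a, hal, rfl⟩, rfl⟩
    have hP1 : P (code (C (c (e a))) (fun x => x) h) (e a) (h (e a)) := by
      by_contra hcon
      exact haX (Or.inl (Set.mem_iUnion.2 ⟨c (e a), haC, hcon⟩))
    have hP2 : P (code (C (c (e a))) h (fun x => x)) (h (e a)) (e a) := by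
      by_contra hcon
      exact haX (Or.inr (Set.mem_iUnion.2 ⟨c (e a), haC, hcon⟩))
    rcases trichotomous_of r a a' with h3 | h3 | h3
    · have h4 := he2 a' β a (2 * (c (e a))) (_root_.trans_of r haβ h3) h3
      apply h4
      change e a' = F (s (2 * (c (e a)))) (e a)
      rw [hs0, F_eq hP1, ha']
    · exact hne h3.symm
    · have h4 := he2 a β a' (2 * (c (e a)) + 1) haβ h3
      apply h4
      change e a = F (s (2 * (c (e a)) + 1)) (e a')
      rw [hs1, ha', F_eq hP2]

end Pool.Agent.H24.TreeChains
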