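import Pool.Agent.H24.TreeA

set_option autoImplicit false

namespace Pool.Agent.H24.TreeChains

open Set

section tree

variable (R : ℕ × ℕ → Set ℝ)

/-- blocks -/
def M (n k : ℕ) : Set ℝ := {x | ∃ j ≤ k, x ∈ R (n, j)}

/-- blocks of the absorbing part -/
def Y (i : ℕ) : Set ℝ := {x | ∃ n ≤ i, ∃ k ≤ i, x ∈ R (n, k)}

/-- the points allowed at a node -/
def ok : List ℕ → ℕ → ℝ → Prop
  | [], i, x => x ∈ Y R i
  | (k :: s), i, x => i = 0 ∧ x ∈ M R s.length k

/-- the tree -/
structure T where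
  /-- node -/
  s : List ℕ
  /-- index -/
  i : ℕ
  /-- real -/
  x : ℝ
  /-- allowed -/
  h : ok R s i x

variable {R}

/-- comparison of positions -/
def le3 (m i : ℕ) (x : ℝ) (m' i' : ℕ) (x' : ℝ) : Prop :=
  m < m' ∨ (m = m' ∧ (i' < i ∨ (i = i' ∧ x ≤ x')))

lemma le3_trans {m i : ℕ} {x : ℝ} {m' i' : ℕ} {x' : ℝ} {m'' i'' : ℕ} {x'' : ℝ}
    (h : le3 m i x m' i' x') (h' : le3 m' i' x' m'' i'' x'') : le3 m i x m'' i'' x'' := by
  rcases h with h | ⟨h, h | ⟨h, hx⟩⟩ <;> rcases h' with h' | ⟨h', h' | ⟨h', hx'⟩⟩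
  · left; omega
  · left; omega
  · left; omega
  · left; omega
  · right; refine ⟨by omega, ?_⟩; left; omega
  · right; refine ⟨by omega, ?_⟩; left; omega
  · left; omega
  · right; refine ⟨by omega, ?_⟩; left; omega
  · right; refine ⟨by omega, ?_⟩; right; exact ⟨by omega, le_trans hx hx'⟩

lemma le3_total (m i : ℕ) (x : ℝ) (m' i' : ℕ) (x' : ℝ) :
    le3 m i x m' i' x' ∨ le3 m' i' x' m i x := by
  unfold le3
  rcases lt_trichotomy m m' with h | h | h
  · left; left; exact h
  · rcases lt_trichotomy i i' with h' | h' | h'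
    · right; right; exact ⟨h.symm, Or.inl h'⟩
    · rcases le_total x x' with h'' | h''
      · left; right; exact ⟨h, Or.inr ⟨h', h''⟩⟩
      · right; right; exact ⟨h.symm, Or.inr ⟨h'.symm, h''⟩⟩
    · left; right; exact ⟨h, Or.inl h'⟩
  · right; left; exact h

lemma le3_antisymm {m i : ℕ} {x : ℝ} {m' i' : ℕ} {x' : ℝ}
    (h : le3 m i x m' i' x') (h' : le3 m' i' x' m i x) : m = m' ∧ i = i' ∧ x = x' := by
  rcases h with h | ⟨h, h | ⟨h, hx⟩⟩ <;> rcases h' with h' | ⟨h', h' | ⟨h', hx'⟩⟩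
  all_goals first
    | (exfalso; omega)
    | (refine ⟨by omega, by omega, le_antisymm hx hx'⟩)

lemma suffix_eq {s t : List ℕ} (h : s <:+ t) (hl : t.length ≤ s.length) : s = t :=
  h.eq_of_length_le hl

lemma T_ext {p q : T R} (h1 : p.s = q.s) (h2 : p.i = q.i) (h3 : p.x = q.x) : p = q := by
  cases p; cases q; simp_all

instance : PartialOrder (T R) where
  le p q := p.s <:+ q.s ∧ le3 p.s.length p.i p.x q.s.length q.i q.x
  le_refl p := ⟨List.suffix_refl _, Or.inr ⟨rfl, Or.inr ⟨rfl, le_rfl⟩⟩⟩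
  le_trans p q r h1 h2 := ⟨h1.1.trans h2.1, le3_trans h1.2 h2.2⟩
  le_antisymm p q h1 h2 := by
    obtain ⟨h3, h4, h5⟩ := le3_antisymm h1.2 h2.2
    exact T_ext (suffix_eq h1.1 h3.ge) h4 h5

lemma le_def {p q : T R} : p ≤ q ↔ p.s <:+ q.s ∧ le3 p.s.length p.i p.x q.s.length q.i q.x := Iff.rfl

lemma cmp {p q : T R} (h : p.s <:+ q.s) : p ≤ q ∨ q ≤ p := by
  by_cases hl : p.s.length < q.s.length
  · left; exact ⟨h, Or.inl hl⟩
  · have heq := suffix_eq h (not_lt.1 hl)
    rcases le3_total p.s.length p.i p.x q.s.length q.i q.x with h1 | h1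
    · left; exact ⟨h, h1⟩
    · right; exact ⟨heq ▸ List.suffix_refl _, h1⟩

lemma cmp' {p q : T R} (h : p.s <:+ q.s ∨ q.s <:+ p.s) : p ≤ q ∨ q ≤ p := by
  rcases h with h | h
  · exact cmp h
  · exact (cmp h).symm

/-- nodes of a branch -/
def b (f : ℕ → ℕ) : ℕ → List ℕ
  | 0 => []
  | (n + 1) => f n :: b f n

@[simp] lemma b_length (f : ℕ → ℕ) (n : ℕ) : (b f n).length = n := by
  induction n with
  | zero => rfl
  | succ n ih => simp [b, ih]

lemma b_suffix (f : ℕ → ℕ) {n m : ℕ} (h : n ≤ m) : b f n <:+ b f m := by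
  induction m, h using Nat.le_induction with
  | base => exact List.suffix_refl _
  | succ m _ ih => exact ih.trans (List.suffix_cons _ _)

/-- a branch -/
def B (f : ℕ → ℕ) : Set (T R) := {p | p.s = b f p.s.length}

lemma B_cmp {f : ℕ → ℕ} {p q : T R} (hp : p ∈ B f) (hq : q ∈ B f) : p.s <:+ q.s ∨ q.s <:+ p.s := by
  have hp' : p.s = b f p.s.length := hp
  have hq' : q.s = b f q.s.length := hq
  rcases le_total p.s.length q.s.length with h | h
  · left; rw [hp', hq']; exact b_suffix f h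
  · right; rw [hp', hq']; exact b_suffix f h

lemma B_chain (f : ℕ → ℕ) : IsChain (· ≤ ·) (B f : Set (T R)) := by
  intro p hp q hq _
  exact cmp' (B_cmp hp hq)

lemma exists_node (hR : ∀ l, (R l).Nonempty) (s : List ℕ) : ∃ p : T R, p.s = s := by
  cases s with
  | nil =>
    obtain ⟨x, hx⟩ := hR (0, 0)
    exact ⟨⟨[], 0, x, ⟨0, le_rfl, 0, le_rfl, hx⟩⟩, rfl⟩
  | cons k s =>
    obtain ⟨x, hx⟩ := hR (s.length, 0)
    exact ⟨⟨k :: s, 0, x, ⟨rfl, 0, Nat.zero_le _, hx⟩⟩, rfl⟩

lemma chain_suffix {K : Set (T R)} (hK : IsChain (· ≤ ·) K) {p q : T R} (hp : p ∈ K) (hq : q ∈ K) :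
    p.s <:+ q.s ∨ q.s <:+ p.s := by
  by_cases h : p = q
  · left; rw [h]
  · rcases hK hp hq h with h1 | h1
    · left; exact h1.1
    · right; exact h1.1

lemma B_max (hR : ∀ l, (R l).Nonempty) (f : ℕ → ℕ) : IsMaxChain (· ≤ ·) (B f : Set (T R)) := by
  refine ⟨B_chain f, fun t ht hsub => Set.Subset.antisymm hsub ?_⟩
  intro q hq
  obtain ⟨p, hp⟩ := exists_node hR (b f q.s.length)
  have hpl : p.s.length = q.s.length := by rw [hp, b_length]
  have hpB : p ∈ (B f : Set (T R)) := by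
    change p.s = b f p.s.length
    rw [hpl, hp]
  have h1 := chain_suffix ht (hsub hpB) hq
  have h2 : p.s = q.s := by
    rcases h1 with h | h
    · exact suffix_eq h hpl.ge
    · exact (suffix_eq h hpl.le).symm
  change q.s = b f q.s.length
  rw [← h2, hp, b_length]

lemma max_insert {K : Set (T R)} (hK : IsMaxChain (· ≤ ·) K) {q : T R}
    (h : ∀ p ∈ K, p.s <:+ q.s ∨ q.s <:+ p.s) : q ∈ K := by
  have hc : IsChain (· ≤ ·) (insert q K) := by
    apply hK.1.insert
    intro p hp _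
    rcases h p hp with h1 | h1
    · exact (cmp h1).symm
    · exact cmp h1
  have := hK.2 hc (Set.subset_insert _ _)
  rw [this]
  exact Set.mem_insert _ _

lemma max_eq (hR : ∀ l, (R l).Nonempty) (K : Set (T R)) (hK : IsMaxChain (· ≤ ·) K) :
    ∃ f, K = B f := by
  have hne : K.Nonempty := by
    by_contra hc
    rw [Set.not_nonempty_iff_eq_empty] at hc
    obtain ⟨p, -⟩ := exists_node hR []
    have : p ∈ K := max_insert hK (by rw [hc]; intro p hp; exact absurd hp (Set.notMem_empty _))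
    rw [hc] at this
    exact this
  have hlen : ∀ n, ∃ p ∈ K, p.s.length = n := by
    intro n
    by_contra hcon
    push Not at hcon
    by_cases hex : ∃ p ∈ K, n < p.s.length
    · obtain ⟨p, hp, hnl⟩ := hex
      obtain ⟨q, hq⟩ := exists_node hR (p.s.drop (p.s.length - n))
      have hql : q.s.length = n := by rw [hq, List.length_drop]; omega
      have hqs : q.s <:+ p.s := by rw [hq]; exact List.drop_suffix _ _
      refine hcon q (max_insert hK ?_) hql
      intro p' hp'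
      rcases chain_suffix hK.1 hp' hp with h | h
      · exact List.suffix_or_suffix_of_suffix h hqs
      · exact Or.inr (hqs.trans h)
    · push Not at hex
      have hbdd : BddAbove {m | ∃ p ∈ K, p.s.length = m} := by
        refine ⟨n, ?_⟩
        rintro m ⟨p, hp, rfl⟩
        exact hex p hp
      have hn : {m | ∃ p ∈ K, p.s.length = m}.Nonempty := by
        obtain ⟨p, hp⟩ := hne
        exact ⟨_, p, hp, rfl⟩
      obtain ⟨p, hp, hpm⟩ := Nat.sSup_mem hn hbdd
      have hmax : ∀ p' ∈ K, p'.s.length ≤ p.s.length := by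
        intro p' hp'
        rw [hpm]
        exact le_csSup hbdd ⟨p', hp', rfl⟩
      obtain ⟨q, hq⟩ := exists_node hR (List.replicate (n - p.s.length) 0 ++ p.s)
      have hql : q.s.length = n := by
        rw [hq, List.length_append, List.length_replicate]
        have := hex p hp
        omega
      refine hcon q (max_insert hK ?_) hql
      intro p' hp'
      left
      have h1 : p'.s <:+ p.s := by
        rcases chain_suffix hK.1 hp' hp with h | h
        · exact h
        · rw [suffix_eq h (hmax p' hp')]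
      rw [hq]
      exact h1.trans (List.suffix_append _ _)
  choose p hpK hpl using hlen
  have hsucc : ∀ n, ∃ k, (p (n+1)).s = k :: (p n).s := by
    intro n
    have h1 : (p n).s <:+ (p (n+1)).s := by
      rcases chain_suffix hK.1 (hpK n) (hpK (n+1)) with h | h
      · exact h
      · have := h.length_le
        rw [hpl, hpl] at this
        omega
    obtain ⟨t, ht⟩ := h1
    have hl : t.length = 1 := by
      have := congrArg List.length ht
      rw [List.length_append, hpl, hpl] at this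
      omega
    obtain ⟨k, rfl⟩ := List.length_eq_one_iff.1 hl
    exact ⟨k, by rw [← ht]; rfl⟩
  choose f hf using hsucc
  have hb : ∀ n, (p n).s = b f n := by
    intro n
    induction n with
    | zero => exact List.length_eq_zero_iff.1 (hpl 0)
    | succ n ih => rw [hf, ih]; rfl
  refine ⟨f, hK.2 (B_chain f) ?_⟩
  intro q hq
  change q.s = b f q.s.length
  rw [← hb]
  rcases chain_suffix hK.1 hq (hpK q.s.length) with h | h
  · exact suffix_eq h (hpl _).le
  · exact (suffix_eq h (hpl _).ge).symm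

/-- building embeddings -/
lemma mkEmb {K K' : Set (T R)} (hK : IsChain (· ≤ ·) K) (φ : T R → T R)
    (hφ : ∀ p ∈ K, φ p ∈ K') (hlt : ∀ p ∈ K, ∀ q ∈ K, p < q → φ p < φ q) :
    Nonempty (↥K ↪o ↥K') := by
  refine ⟨OrderEmbedding.ofMapLEIff (fun p : K => (⟨φ p.1, hφ p.1 p.2⟩ : K')) ?_⟩
  rintro ⟨p, hp⟩ ⟨q, hq⟩
  change φ p ≤ φ q ↔ p ≤ q
  by_cases hpq : p = q
  · rw [hpq]; simp
  · constructor
    · intro h
      rcases hK hp hq hpq with h1 | h1
      · exact h1
      · have h2 := hlt q hq p hp (lt_of_le_of_ne h1 (Ne.symm hpq))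
        exact absurd h (not_le_of_gt h2)
    · intro h
      exact (hlt p hp q hq (lt_of_le_of_ne h hpq)).le

lemma lt_of_le3 {f : ℕ → ℕ} {p q : T R} (hp : p ∈ B f) (hq : q ∈ B f)
    (h : ¬ le3 q.s.length q.i q.x p.s.length p.i p.x) : p < q := by
  rcases cmp' (B_cmp hp hq) with h1 | h1
  · refine lt_of_le_of_ne h1 ?_
    rintro rfl
    exact h (Or.inr ⟨rfl, Or.inr ⟨rfl, le_rfl⟩⟩)
  · exact absurd h1.2 h

/-- the branch point with given data -/
def pt (g : ℕ → ℕ) (n : ℕ) (x : ℝ) (hx : x ∈ M R n (g n)) : T R :=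
  ⟨b g (n+1), 0, x, ⟨rfl, by rw [b_length]; exact hx⟩⟩

lemma B_ok {f : ℕ → ℕ} {p : T R} (hp : p ∈ B f) :
    (p.s = [] ∧ p.x ∈ Y R p.i) ∨ (∃ n, p.s = b f (n+1) ∧ p.i = 0 ∧ p.x ∈ M R n (f n)) := by
  obtain ⟨s, i, x, h⟩ := p
  have hp' : s = b f s.length := hp
  cases s with
  | nil => exact Or.inl ⟨rfl, h⟩
  | cons k s =>
    right
    refine ⟨s.length, hp', h.1, ?_⟩
    have h2 : k = f s.length := by
      rw [List.length_cons] at hp'
      exact (List.cons.inj hp').1
    rw [← h2]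
    exact h.2

lemma Y_mono {i j : ℕ} (h : i ≤ j) : Y R i ⊆ Y R j := by
  rintro x ⟨n, hn, k, hk, hx⟩
  exact ⟨n, hn.trans h, k, hk.trans h, hx⟩

lemma M_mono {n k k' : ℕ} (h : k ≤ k') : M R n k ⊆ M R n k' := by
  rintro x ⟨j, hj, hx⟩
  exact ⟨j, hj.trans h, hx⟩

lemma M_sub_Y {n k j : ℕ} (h1 : n ≤ j) (h2 : k ≤ j) : M R n k ⊆ Y R j := by
  rintro x ⟨i, hi, hx⟩
  exact ⟨n, h1, i, hi.trans h2, hx⟩

open Classical in
/-- the map between branches -/
noncomputable def mp (g : ℕ → ℕ) (N c : ℕ) (p : T R) : T R :=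
  if h0 : p.s.length = 0 then
    (if h : p.x ∈ Y R (p.i + c + 1) then ⟨[], p.i + c + 1, p.x, h⟩ else p)
  else if p.s.length - 1 < N then
    (if h : p.x ∈ Y R (c - (p.s.length - 1)) then ⟨[], c - (p.s.length - 1), p.x, h⟩ else p)
  else
    (if h : p.x ∈ M R (p.s.length - 1) (g (p.s.length - 1)) then pt g (p.s.length - 1) p.x h else p)

theorem emb (f g : ℕ → ℕ) (N : ℕ) (hfg : ∀ n, N ≤ n → f n ≤ g n) :
    Nonempty (↥(B f : Set (T R)) ↪o ↥(B g : Set (T R))) := by
  obtain ⟨c, hc⟩ : ∃ c, ∀ n, n < N → n + n ≤ c ∧ n + f n ≤ c := by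
    refine ⟨2 * N + ∑ i ∈ Finset.range N, f i, fun n hn => ?_⟩
    have h1 : f n ≤ ∑ i ∈ Finset.range N, f i :=
      Finset.single_le_sum (f := f) (fun i _ => Nat.zero_le _) (Finset.mem_range.2 hn)
    constructor <;> omega
  -- values of the map
  have v0 : ∀ p ∈ (B f : Set (T R)), p.s.length = 0 →
      (mp g N c p).s = [] ∧ (mp g N c p).i = p.i + c + 1 ∧ (mp g N c p).x = p.x := by
    intro p hp h0
    have hx : p.x ∈ Y R (p.i + c + 1) := by
      rcases B_ok hp with ⟨-, h⟩ | ⟨n, h, -⟩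
      · exact Y_mono (by omega) h
      · rw [h, b_length] at h0; omega
    unfold mp
    rw [dif_pos h0, dif_pos hx]
    exact ⟨rfl, rfl, rfl⟩
  have v1 : ∀ p ∈ (B f : Set (T R)), p.s.length ≠ 0 → p.s.length - 1 < N →
      (mp g N c p).s = [] ∧ (mp g N c p).i = c - (p.s.length - 1) ∧ (mp g N c p).x = p.x := by
    intro p hp h0 h1
    have hx : p.x ∈ Y R (c - (p.s.length - 1)) := by
      rcases B_ok hp with ⟨h, -⟩ | ⟨n, h, -, h2⟩
      · rw [h] at h0; exact absurd rfl h0
      · rw [h, b_length] at h1 ⊢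
        have := hc n (by omega)
        exact M_sub_Y (by omega) (by omega) h2
    unfold mp
    rw [dif_neg h0, if_pos h1, dif_pos hx]
    exact ⟨rfl, rfl, rfl⟩
  have v2 : ∀ p ∈ (B f : Set (T R)), p.s.length ≠ 0 → ¬ p.s.length - 1 < N →
      (mp g N c p).s = b g p.s.length ∧ (mp g N c p).i = 0 ∧ (mp g N c p).x = p.x := by
    intro p hp h0 h1
    have hx : p.x ∈ M R (p.s.length - 1) (g (p.s.length - 1)) := by
      rcases B_ok hp with ⟨h, -⟩ | ⟨n, h, -, h2⟩
      · rw [h] at h0; exact absurd rfl h0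
      · rw [h, b_length] at h1 ⊢
        exact M_mono (hfg n (by omega)) h2
    have h3 : p.s.length - 1 + 1 = p.s.length := by omega
    unfold mp
    rw [dif_neg h0, if_neg h1, dif_pos hx]
    refine ⟨?_, rfl, rfl⟩
    change b g (p.s.length - 1 + 1) = _
    rw [h3]
  have idx0 : ∀ p ∈ (B f : Set (T R)), p.s.length ≠ 0 → p.i = 0 := by
    intro p hp h0
    rcases B_ok hp with ⟨h, -⟩ | ⟨n, h, h1, -⟩
    · rw [h] at h0; exact absurd rfl h0
    · exact h1
  have hmem : ∀ p ∈ (B f : Set (T R)), mp g N c p ∈ (B g : Set (T R)) := by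
    intro p hp
    change (mp g N c p).s = b g (mp g N c p).s.length
    by_cases h0 : p.s.length = 0
    · rw [(v0 p hp h0).1]; rfl
    · by_cases h1 : p.s.length - 1 < N
      · rw [(v1 p hp h0 h1).1]; rfl
      · rw [(v2 p hp h0 h1).1, b_length]
  refine mkEmb (B_chain f) (mp g N c) hmem ?_
  intro p hp q hq hpq
  apply lt_of_le3 (hmem p hp) (hmem q hq)
  have hnle : ¬ le3 q.s.length q.i q.x p.s.length p.i p.x := by
    intro h
    have := le3_antisymm hpq.le.2 h
    exact hpq.ne (T_ext (suffix_eq hpq.le.1 this.1.ge) this.2.1 this.2.2)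
  have hpqle := hpq.le.2
  intro hcon
  apply hnle
  by_cases p0 : p.s.length = 0
  · obtain ⟨a1, a2, a3⟩ := v0 p hp p0
    rw [a1, a2, a3] at hcon
    by_cases q0 : q.s.length = 0
    · obtain ⟨b1, b2, b3⟩ := v0 q hq q0
      rw [b1, b2, b3] at hcon
      rcases hcon with h | ⟨h, h | ⟨h, h'⟩⟩
      · exact absurd h (lt_irrefl _)
      · right; exact ⟨by omega, Or.inl (by omega)⟩
      · right; exact ⟨by omega, Or.inr ⟨by omega, h'⟩⟩
    · exfalso
      by_cases q1 : q.s.length - 1 < N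
      · obtain ⟨b1, b2, b3⟩ := v1 q hq q0 q1
        rw [b1, b2, b3] at hcon
        rcases hcon with h | ⟨h, h | ⟨h, h'⟩⟩
        · exact absurd h (lt_irrefl _)
        · omega
        · omega
      · obtain ⟨b1, b2, b3⟩ := v2 q hq q0 q1
        rw [b1, b2, b3, b_length] at hcon
        rcases hcon with h | ⟨h, -⟩
        · simp at h
        · simp only [List.length_nil] at h; omega
  · by_cases q0 : q.s.length = 0
    · -- impossible since p < q
      exfalso
      rcases hpqle with h | ⟨h, -⟩ <;> omega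
    · have ip := idx0 p hp p0
      have iq := idx0 q hq q0
      have hle : p.s.length ≤ q.s.length := by
        rcases hpqle with h | ⟨h, -⟩ <;> omega
      by_cases p1 : p.s.length - 1 < N
      · obtain ⟨a1, a2, a3⟩ := v1 p hp p0 p1
        rw [a1, a2, a3] at hcon
        by_cases q1 : q.s.length - 1 < N
        · obtain ⟨b1, b2, b3⟩ := v1 q hq q0 q1
          rw [b1, b2, b3] at hcon
          have hcq := (hc _ q1).1
          have hcp := (hc _ p1).1
          rcases hcon with h | ⟨h, h | ⟨h, h'⟩⟩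
          · exact absurd h (lt_irrefl _)
          · exfalso; omega
          · right; exact ⟨by omega, Or.inr ⟨by omega, h'⟩⟩
        · exfalso
          obtain ⟨b1, b2, b3⟩ := v2 q hq q0 q1
          rw [b1, b2, b3, b_length] at hcon
          rcases hcon with h | ⟨h, -⟩
          · simp at h
          · simp only [List.length_nil] at h; omega
      · obtain ⟨a1, a2, a3⟩ := v2 p hp p0 p1
        have q1 : ¬ q.s.length - 1 < N := by omega
        obtain ⟨b1, b2, b3⟩ := v2 q hq q0 q1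
        rw [a1, a2, a3, b1, b2, b3, b_length, b_length] at hcon
        rw [ip, iq]
        exact hcon

theorem no_emb (hR : ∀ l, (R l).Nonempty)
    (hR2 : ∀ (l : ℕ × ℕ) (h : ℝ → ℝ) (c : ℝ → ℕ), (∀ x ∈ R l, ∃ l', l' ≠ l ∧ h x ∈ R l') →
      (∀ x ∈ R l, ∀ x' ∈ R l, c x = c x' → x < x' → h x < h x') → False)
    (f g : ℕ → ℕ) (n0 : ℕ) (hfg : ∀ n, n0 ≤ n → f n < g n)
    (φ : ↥(B g : Set (T R)) ↪o ↥(B f : Set (T R))) : False := by
  classical
  obtain ⟨z, hz⟩ := exists_node hR []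
  have hzB : z ∈ (B g : Set (T R)) := by
    change z.s = b g z.s.length
    rw [hz]; rfl
  set w := φ ⟨z, hzB⟩ with hw
  set n := max n0 (w.1.i + 1) with hn
  have hxM : ∀ x, x ∈ R (n, g n) → x ∈ M R n (g n) := fun x hx => ⟨g n, le_rfl, hx⟩
  have hPB : ∀ x (hx : x ∈ M R n (g n)), pt g n x hx ∈ (B g : Set (T R)) := by
    intro x hx
    change b g (n+1) = b g (b g (n+1)).length
    rw [b_length]
  let h : ℝ → ℝ := fun x => if hx : x ∈ R (n, g n) then
    (φ ⟨pt g n x (hxM x hx), hPB x (hxM x hx)⟩).1.x else 0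
  let c : ℝ → ℕ := fun x => if hx : x ∈ R (n, g n) then
    Nat.pair (φ ⟨pt g n x (hxM x hx), hPB x (hxM x hx)⟩).1.s.length
      (φ ⟨pt g n x (hxM x hx), hPB x (hxM x hx)⟩).1.i else 0
  apply hR2 (n, g n) h c
  · intro x hx
    have hval : h x = (φ ⟨pt g n x (hxM x hx), hPB x (hxM x hx)⟩).1.x := by
      simp only [h]; rw [dif_pos hx]
    rw [hval]
    set u := φ ⟨pt g n x (hxM x hx), hPB x (hxM x hx)⟩ with hu
    have hwu : w ≤ u := by
      rw [hw, hu, φ.le_iff_le]
      change z ≤ pt g n x (hxM x hx)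
      refine ⟨?_, Or.inl ?_⟩
      · rw [hz]; exact List.nil_suffix
      · rw [hz]
        change 0 < (b g (n+1)).length
        rw [b_length]; omega
    have hwu' : w.1 ≤ u.1 := hwu
    rcases B_ok u.2 with ⟨h1, h2⟩ | ⟨m, h1, -, h2⟩
    · obtain ⟨n', hn', k', hk', hx'⟩ := h2
      refine ⟨(n', k'), ?_, hx'⟩
      have hui : u.1.i ≤ w.1.i := by
        have h3 := hwu'.1
        rw [h1] at h3
        have h4 : w.1.s = [] := List.suffix_nil.1 h3
        have h5 := hwu'.2
        rw [h1, h4] at h5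
        rcases h5 with h5 | ⟨-, h5 | ⟨h5, -⟩⟩
        · exact absurd h5 (lt_irrefl _)
        · exact h5.le
        · exact h5.ge
      intro heq
      have h6 := congrArg Prod.fst heq
      simp only at h6
      have : w.1.i + 1 ≤ n := le_max_right _ _
      omega
    · obtain ⟨j, hj, hx'⟩ := h2
      refine ⟨(m, j), ?_, hx'⟩
      intro heq
      have h6 := congrArg Prod.fst heq
      have h7 := congrArg Prod.snd heq
      simp only at h6 h7
      have h8 := hfg n (le_max_left _ _)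
      rw [h6] at hj
      omega
  · intro x hx x' hx' hcc hlt
    have hval : ∀ y (hy : y ∈ R (n, g n)), h y = (φ ⟨pt g n y (hxM y hy), hPB y (hxM y hy)⟩).1.x := by
      intro y hy
      simp only [h]; rw [dif_pos hy]
    have hcal : ∀ y (hy : y ∈ R (n, g n)), c y = Nat.pair
        (φ ⟨pt g n y (hxM y hy), hPB y (hxM y hy)⟩).1.s.length
        (φ ⟨pt g n y (hxM y hy), hPB y (hxM y hy)⟩).1.i := by
      intro y hy
      simp only [c]; rw [dif_pos hy]
    rw [hval x hx, hval x' hx']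
    rw [hcal x hx, hcal x' hx'] at hcc
    obtain ⟨c1, c2⟩ := Nat.pair_eq_pair.1 hcc
    have hP : (⟨pt g n x (hxM x hx), hPB x (hxM x hx)⟩ : ↥(B g : Set (T R))) <
        ⟨pt g n x' (hxM x' hx'), hPB x' (hxM x' hx')⟩ := by
      change pt g n x (hxM x hx) < pt g n x' (hxM x' hx')
      apply lt_of_le3 (hPB x (hxM x hx)) (hPB x' (hxM x' hx'))
      rintro (h1 | ⟨-, h1 | ⟨-, h1⟩⟩)
      · exact absurd h1 (lt_irrefl _)
      · exact absurd h1 (lt_irrefl _)
      · exact absurd hlt (not_lt.2 h1)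
    have hφ := φ.lt_iff_lt.2 hP
    have hφ' := hφ
    set u := φ ⟨pt g n x (hxM x hx), hPB x (hxM x hx)⟩ with hu
    set u' := φ ⟨pt g n x' (hxM x' hx'), hPB x' (hxM x' hx')⟩ with hu'
    have hle : u.1 ≤ u'.1 := hφ.le
    have hne : u.1 ≠ u'.1 := fun h => hφ.ne (Subtype.ext h)
    rcases hle.2 with h1 | ⟨h1, h2 | ⟨h2, h3⟩⟩
    · omega
    · omega
    · refine lt_of_le_of_ne h3 ?_
      intro h4
      exact hne (T_ext (suffix_eq hle.1 h1.ge) h2 h4)

end tree

end Pool.Agent.H24.TreeChains
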