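import Mathlib

namespace Pool.Agent.H24.Triples

open Set

/-- The fixed well-ordering of the reals that Mathlib provides. -/
abbrev W (r s : ℝ) : Prop := WellOrderingRel r s

lemma W_wf : WellFounded W := (IsWellFounded.wf (r := (WellOrderingRel : ℝ → ℝ → Prop)))

lemma W_trans {a b c : ℝ} (h1 : W a b) (h2 : W b c) : W a c :=
  _root_.trans_of (WellOrderingRel : ℝ → ℝ → Prop) h1 h2

lemma W_irrefl (a : ℝ) : ¬ W a a := irrefl_of (WellOrderingRel : ℝ → ℝ → Prop) a

lemma W_tri (a b : ℝ) : W a b ∨ a = b ∨ W b a :=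
  trichotomous_of (WellOrderingRel : ℝ → ℝ → Prop) a b

open Classical in
/-- first place (in the well-ordering) at which `x` and `y` differ -/
noncomputable def D (x y : ℝ → Bool) : ℝ :=
  if h : {r | x r ≠ y r}.Nonempty then W_wf.min {r | x r ≠ y r} h else 0

lemma D_spec {x y : ℝ → Bool} (h : x ≠ y) :
    x (D x y) ≠ y (D x y) ∧ ∀ r, W r (D x y) → x r = y r := by
  have hne : {r | x r ≠ y r}.Nonempty := by
    by_contra hc
    rw [Set.not_nonempty_iff_eq_empty] at hc
    apply h
    funext r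
    by_contra hr
    have : r ∈ ({r | x r ≠ y r} : Set ℝ) := hr
    rw [hc] at this
    exact this
  have hD : D x y = W_wf.min {r | x r ≠ y r} hne := by
    unfold D
    rw [dif_pos hne]
  constructor
  · rw [hD]
    exact W_wf.min_mem {r | x r ≠ y r} hne
  · intro r hr
    by_contra hc
    rw [hD] at hr
    exact W_wf.not_lt_min {r | x r ≠ y r} hc hr

lemma D_unique {x y : ℝ → Bool} {δ : ℝ} (h1 : x δ ≠ y δ) (h2 : ∀ r, W r δ → x r = y r) :
    D x y = δ := by
  have hne : x ≠ y := fun h => h1 (by rw [h])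
  obtain ⟨h3, h4⟩ := D_spec hne
  rcases W_tri (D x y) δ with h | h | h
  · exact absurd (h2 _ h) h3
  · exact h
  · exact absurd (h4 _ h) h1

lemma small_init {α : Type*} (r : α → α → Prop) (wf : WellFounded r) (A : Set α)
    (hA : ¬ A.Countable) :
    ∃ A' ⊆ A, ¬ A'.Countable ∧ ∀ a ∈ A', {y ∈ A' | r y a}.Countable := by
  refine ⟨{a ∈ A | {y ∈ A | r y a}.Countable}, fun a ha => ha.1, ?_, ?_⟩
  · intro hc
    have hne : (A \ {a ∈ A | {y ∈ A | r y a}.Countable}).Nonempty := by
      by_contra h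
      rw [Set.not_nonempty_iff_eq_empty, Set.sdiff_eq_empty] at h
      exact hA (hc.mono h)
    set a := wf.min _ hne with ha
    have ham := wf.min_mem _ hne
    rw [← ha] at ham
    apply ham.2
    refine ⟨ham.1, hc.mono ?_⟩
    intro y hy
    by_contra hcy
    have hmem : y ∈ (A \ {a ∈ A | {y ∈ A | r y a}.Countable}) := ⟨hy.1, hcy⟩
    exact wf.not_lt_min _ hmem hy.2
  · intro a ha
    refine ha.2.mono ?_
    intro y hy
    exact ⟨hy.1.1, hy.2⟩

lemma cut_aux {α : Type*} (C : Set α) (g : α → ℝ) (hg : Set.InjOn g C) :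
    {c ∈ C | {c' ∈ C | g c' < g c}.Countable}.Countable := by
  classical
  set L := {c ∈ C | {c' ∈ C | g c' < g c}.Countable} with hL
  have hsub : L ⊆ (⋃ q : ℚ, (if {c ∈ C | g c < q}.Countable then {c ∈ C | g c < q} else ∅)) ∪
      {c ∈ L | ∀ c' ∈ L, g c' ≤ g c} := by
    intro c hc
    by_cases h : ∀ c' ∈ L, g c' ≤ g c
    · exact Or.inr ⟨hc, h⟩
    · left
      push Not at h
      obtain ⟨c', hc', hlt⟩ := h
      obtain ⟨q, hq1, hq2⟩ := exists_rat_btwn hlt
      rw [Set.mem_iUnion]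
      refine ⟨q, ?_⟩
      have hcount : {c ∈ C | g c < q}.Countable := by
        refine hc'.2.mono ?_
        intro y hy
        exact ⟨hy.1, lt_trans hy.2 hq2⟩
      rw [if_pos hcount]
      exact ⟨hc.1, hq1⟩
  refine Set.Countable.mono hsub (Set.Countable.union ?_ ?_)
  · refine Set.countable_iUnion (fun q => ?_)
    split_ifs with h
    · exact h
    · exact Set.countable_empty
  · apply Set.Subsingleton.countable
    intro a ha b hb
    exact hg ha.1.1 hb.1.1 (le_antisymm (hb.2 a ha.1) (ha.2 b hb.1))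

lemma exists_cut {α : Type*} (C : Set α) (hC : ¬ C.Countable) (g : α → ℝ) (hg : Set.InjOn g C) :
    ∃ q : ℝ, ¬ {c ∈ C | g c < q}.Countable ∧ ¬ {c ∈ C | q < g c}.Countable := by
  have h1 := cut_aux C g hg
  have h2 := cut_aux C (fun c => - g c) (fun a ha b hb h => hg ha hb (neg_injective h))
  have hne : (C \ ({c ∈ C | {c' ∈ C | g c' < g c}.Countable} ∪
      {c ∈ C | {c' ∈ C | - g c' < - g c}.Countable})).Nonempty := by
    by_contra h
    rw [Set.not_nonempty_iff_eq_empty, Set.sdiff_eq_empty] at h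
    exact hC ((h1.union h2).mono h)
  obtain ⟨c, hc, hn⟩ := hne
  refine ⟨g c, fun h => hn (Or.inl ⟨hc, h⟩), fun h => hn (Or.inr ⟨hc, ?_⟩)⟩
  refine h.mono ?_
  intro y hy
  exact ⟨hy.1, neg_lt_neg_iff.mp hy.2⟩

section core

variable {S : Type*} (e : S → ℝ → Bool)

lemma split_or_comb (B : Set S) (hB : ¬ B.Countable) (he : Function.Injective e) :
    (∃ (s : ℝ → Bool) (δ : ℝ),
      ¬ {y ∈ B | (∀ r, W r δ → e y r = s r) ∧ e y δ = true}.Countable ∧
      ¬ {y ∈ B | (∀ r, W r δ → e y r = s r) ∧ e y δ = false}.Countable) ∨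
    (∃ (b : ℝ → Bool) (C : Set S), C ⊆ B ∧ ¬ C.Countable ∧ (∀ c ∈ C, e c ≠ b) ∧
      Set.InjOn (fun c => D (e c) b) C) := by
  classical
  by_contra hcon
  rw [not_or] at hcon
  obtain ⟨hns, hnc⟩ := hcon
  -- closed cones
  set K : (ℝ → Bool) → ℝ → Set S := fun s δ => {y ∈ B | ∀ r, (W r δ ∨ r = δ) → e y r = s r}
    with hK
  set b : ℝ → Bool := fun r => decide (∃ s : ℝ → Bool, ¬ (K s r).Countable ∧ s r = true) with hb
  have hmono : ∀ s δ r, (W r δ ∨ r = δ) → K s δ ⊆ K s r := by
    intro s δ r hr y hy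
    refine ⟨hy.1, fun r' hr' => hy.2 r' ?_⟩
    rcases hr' with h | h
    · rcases hr with h' | h'
      · exact Or.inl (W_trans h h')
      · subst h'; exact Or.inl h
    · subst h; exact hr
  -- two big closed cones of the same level agree at the level
  have hagree : ∀ s s' δ, ¬ (K s δ).Countable → ¬ (K s' δ).Countable → s δ = true → s' δ = true := by
    intro s s' δ h1 h2 h3
    by_contra h4
    have h4' : s' δ = false := by simpa using h4
    have hne : s ≠ s' := by
      intro h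
      rw [h, h4'] at h3
      exact absurd h3 (by simp)
    obtain ⟨hd1, hd2⟩ := D_spec hne
    have hle : W (D s s') δ ∨ D s s' = δ := by
      rcases W_tri (D s s') δ with h | h | h
      · exact Or.inl h
      · exact Or.inr h
      · exact absurd (hd2 _ h) (by rw [h3, h4']; simp)
    have hk1 : ¬ (K s (D s s')).Countable := fun h => h1 (h.mono (hmono _ _ _ hle))
    have hk2 : ¬ (K s' (D s s')).Countable := fun h => h2 (h.mono (hmono _ _ _ hle))
    apply hns
    rcases hv : s (D s s') with _ | _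
    · have hv' : s' (D s s') = true := by
        rw [hv] at hd1
        simpa using hd1.symm
      refine ⟨s, D s s', ?_, ?_⟩
      · refine fun h => hk2 (h.mono ?_)
        intro y hy
        refine ⟨hy.1, fun r hr => ?_, ?_⟩
        · rw [hy.2 r (Or.inl hr), hd2 r hr]
        · rw [hy.2 _ (Or.inr rfl), hv']
      · refine fun h => hk1 (h.mono ?_)
        intro y hy
        refine ⟨hy.1, fun r hr => ?_, ?_⟩
        · rw [hy.2 r (Or.inl hr)]
        · rw [hy.2 _ (Or.inr rfl), hv]
    · have hv' : s' (D s s') = false := by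
        rw [hv] at hd1
        simpa using hd1.symm
      refine ⟨s, D s s', ?_, ?_⟩
      · refine fun h => hk1 (h.mono ?_)
        intro y hy
        refine ⟨hy.1, fun r hr => ?_, ?_⟩
        · rw [hy.2 r (Or.inl hr)]
        · rw [hy.2 _ (Or.inr rfl), hv]
      · refine fun h => hk2 (h.mono ?_)
        intro y hy
        refine ⟨hy.1, fun r hr => ?_, ?_⟩
        · rw [hy.2 r (Or.inl hr), hd2 r hr]
        · rw [hy.2 _ (Or.inr rfl), hv']
  have hbK : ∀ s δ, ¬ (K s δ).Countable → b δ = s δ := by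
    intro s δ h
    rcases hv : s δ with _ | _
    · simp only [hb, decide_eq_false_iff_not]
      rintro ⟨s', h1, h2⟩
      have := hagree s' s δ h1 h h2
      rw [hv] at this
      exact absurd this (by simp)
    · simp only [hb, decide_eq_true_eq]
      exact ⟨s, h, hv⟩
  -- fibres of the level function are countable
  have hfib : ∀ δ, {y ∈ B | e y ≠ b ∧ D (e y) b = δ}.Countable := by
    intro δ
    by_contra hf
    have hne : {y ∈ B | e y ≠ b ∧ D (e y) b = δ}.Nonempty := by
      by_contra h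
      rw [Set.not_nonempty_iff_eq_empty] at h
      exact hf (by rw [h]; exact Set.countable_empty)
    obtain ⟨y, hy, hyb, hyD⟩ := hne
    have hsub : {y ∈ B | e y ≠ b ∧ D (e y) b = δ} ⊆ K (e y) δ := by
      intro z hz
      refine ⟨hz.1, fun r hr => ?_⟩
      have hy' := D_spec hyb
      have hz' := D_spec hz.2.1
      rw [hyD] at hy'
      rw [hz.2.2] at hz'
      rcases hr with hr | hr
      · rw [hy'.2 r hr, hz'.2 r hr]
      · subst hr
        have h1 := hy'.1
        have h2 := hz'.1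
        revert h1 h2
        cases e z r <;> cases e y r <;> cases b r <;> simp
    have hbig : ¬ (K (e y) δ).Countable := fun h => hf (h.mono hsub)
    have := hbK (e y) δ hbig
    have hy' := (D_spec hyb).1
    rw [hyD] at hy'
    exact hy' this.symm
  -- choose one point for each level
  set B' := {y ∈ B | e y ≠ b} with hB'
  have hB'c : ¬ B'.Countable := by
    intro h
    apply hB
    have : B ⊆ B' ∪ {y | e y = b} := by
      intro y hy
      by_cases hyb : e y = b
      · exact Or.inr hyb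
      · exact Or.inl ⟨hy, hyb⟩
    refine Set.Countable.mono this (h.union ?_)
    apply Set.Subsingleton.countable
    intro x hx y hy
    exact he ((hx : e x = b).trans (hy : e y = b).symm)
  set lev : S → ℝ := fun y => D (e y) b with hlev
  have himg : ¬ (lev '' B').Countable := by
    intro h
    apply hB'c
    have : B' ⊆ ⋃ δ ∈ lev '' B', {y ∈ B | e y ≠ b ∧ D (e y) b = δ} := by
      intro y hy
      rw [Set.mem_iUnion₂]
      exact ⟨lev y, ⟨y, hy, rfl⟩, hy.1, hy.2, rfl⟩
    exact Set.Countable.mono this (h.biUnion (fun δ _ => hfib δ))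
  obtain ⟨C, hCB, hCi, hCimg⟩ : ∃ C ⊆ B', Set.InjOn lev C ∧ lev '' C = lev '' B' := by
    obtain ⟨C, h1, h2⟩ := Set.SurjOn.exists_bijOn_subset (Set.surjOn_image lev B')
    exact ⟨C, h1, h2.injOn, h2.image_eq⟩
  apply hnc
  refine ⟨b, C, fun y hy => (hCB hy).1, ?_, fun c hc => (hCB hc).2, hCi⟩
  intro h
  exact himg (hCimg ▸ h.image lev)

open Classical in
/-- The colour of the triple `x < y < z`. -/
noncomputable def col (x y z : S) : Bool :=
  if W (D (e y) (e z)) (D (e x) (e y)) then e z (D (e y) (e z))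
  else decide (D (e x) (e y) < D (e y) (e z))

lemma col_of_lt {x y z : S} (h : W (D (e y) (e z)) (D (e x) (e y))) :
    col e x y z = e z (D (e y) (e z)) := by
  unfold col
  rw [if_pos h]

lemma col_of_gt {x y z : S} (h : W (D (e x) (e y)) (D (e y) (e z))) :
    col e x y z = decide (D (e x) (e y) < D (e y) (e z)) := by
  unfold col
  rw [if_neg (fun h' => W_irrefl _ (W_trans h h'))]

/-- pick an element of an uncountable set above a given one -/
lemma pick [LinearOrder S] (A : Set S) (hA : ∀ a ∈ A, {y ∈ A | y < a}.Countable) (B : Set S) (hBA : B ⊆ A)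
    (hB : ¬ B.Countable) (a : S) (ha : a ∈ A) : ∃ b ∈ B, a < b := by
  by_contra h
  push Not at h
  apply hB
  have : B ⊆ {y ∈ A | y < a} ∪ {a} := by
    intro y hy
    rcases lt_or_eq_of_le (h y hy) with h' | h'
    · exact Or.inl ⟨hBA hy, h'⟩
    · exact Or.inr h'
  exact Set.Countable.mono this ((hA a ha).union (Set.countable_singleton a))

lemma nonempty_of_unc {α : Type*} {B : Set α} (hB : ¬ B.Countable) : B.Nonempty := by
  by_contra h
  rw [Set.not_nonempty_iff_eq_empty] at h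
  exact hB (by rw [h]; exact Set.countable_empty)

/-- two split cones differ exactly at the level -/
lemma D_split {x y : S} {s : ℝ → Bool} {δ : ℝ} {i : Bool}
    (hx : (∀ r, W r δ → e x r = s r) ∧ e x δ = !i)
    (hy : (∀ r, W r δ → e y r = s r) ∧ e y δ = i) : D (e x) (e y) = δ := by
  apply D_unique
  · rw [hx.2, hy.2]; cases i <;> simp
  · intro r hr
    rw [hx.1 r hr, hy.1 r hr]

/-- In both cases we find the required four points. -/
theorem core [LinearOrder S] [WellFoundedLT S] (he : Function.Injective e) (A : Set S) (hA : ¬ A.Countable)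
    (i : Bool) :
    ∃ w1 ∈ A, ∃ w2 ∈ A, ∃ w3 ∈ A, ∃ w4 ∈ A, w1 < w2 ∧ w2 < w3 ∧ w3 < w4 ∧
      col e w1 w2 w3 = i ∧ col e w1 w2 w4 = i ∧ col e w1 w3 w4 = i ∧ col e w2 w3 w4 = i := by
  classical
  obtain ⟨A1, hA1A, hA1, hini⟩ := small_init (fun x y : S => x < y)
    (IsWellFounded.wf (r := ((· < ·) : S → S → Prop))) A hA
  -- comb case
  have hcomb : (∃ (b : ℝ → Bool) (C : Set S), C ⊆ A1 ∧ ¬ C.Countable ∧ (∀ c ∈ C, e c ≠ b) ∧
      Set.InjOn (fun c => D (e c) b) C) → ∃ w1 ∈ A, ∃ w2 ∈ A, ∃ w3 ∈ A, ∃ w4 ∈ A,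
      w1 < w2 ∧ w2 < w3 ∧ w3 < w4 ∧
      col e w1 w2 w3 = i ∧ col e w1 w2 w4 = i ∧ col e w1 w3 w4 = i ∧ col e w2 w3 w4 = i := by
    rintro ⟨b, C0, hC0A, hC0, hC0b, hinj0⟩
    obtain ⟨C, hCC0, hC, hCini⟩ := small_init (fun x y : S => W (D (e x) b) (D (e y) b))
      (InvImage.wf (fun x : S => D (e x) b) W_wf) C0 hC0
    have hCb : ∀ c ∈ C, e c ≠ b := fun c hc => hC0b c (hCC0 hc)
    have hinj : Set.InjOn (fun c => D (e c) b) C := hinj0.mono hCC0
    have hCA1 : C ⊆ A1 := fun c hc => hC0A (hCC0 hc)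
    -- levels in the comb
    have hlev : ∀ x ∈ C, ∀ y ∈ C, W (D (e x) b) (D (e y) b) → D (e x) (e y) = D (e x) b := by
      intro x hx y hy hxy
      have h1 := D_spec (hCb x hx)
      have h2 := D_spec (hCb y hy)
      apply D_unique
      · rw [h2.2 _ hxy]; exact h1.1
      · intro r hr
        rw [h1.2 r hr, h2.2 r (W_trans hr hxy)]
    have hpick : ∀ B ⊆ C, ¬ B.Countable → ∀ a ∈ C, ∃ b' ∈ B, a < b' ∧ W (D (e a) b) (D (e b') b) := by
      intro B hBC hB a ha
      by_contra h
      push Not at h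
      apply hB
      have : B ⊆ ({y ∈ A1 | y < a} ∪ {y ∈ C | W (D (e y) b) (D (e a) b)}) ∪ {a} := by
        intro y hy
        rcases lt_trichotomy y a with h' | h' | h'
        · exact Or.inl (Or.inl ⟨hCA1 (hBC hy), h'⟩)
        · exact Or.inr h'
        · left; right
          have h3 := h y hy h'
          rcases W_tri (D (e y) b) (D (e a) b) with h4 | h4 | h4
          · exact ⟨hBC hy, h4⟩
          · exact absurd (hinj (hBC hy) ha h4) h'.ne'
          · exact absurd h4 h3
      exact Set.Countable.mono this (((hini a (hCA1 ha)).union (hCini a ha)).union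
        (Set.countable_singleton a))
    obtain ⟨q1, hq1, hq1'⟩ := exists_cut C hC (fun c => D (e c) b) hinj
    obtain ⟨q2, hq2, hq2'⟩ := exists_cut {c ∈ C | q1 < D (e c) b} hq1' (fun c => D (e c) b)
      (hinj.mono (fun c hc => hc.1))
    -- three uncountable pieces
    have hgen : ∀ w1 ∈ C, ∀ w2 ∈ C, ∀ w3 ∈ C, ∀ w4 ∈ C, w1 < w2 → w2 < w3 → w3 < w4 →
        W (D (e w1) b) (D (e w2) b) → W (D (e w2) b) (D (e w3) b) → W (D (e w3) b) (D (e w4) b) →
        (decide (D (e w1) b < D (e w2) b) = i) → (decide (D (e w1) b < D (e w3) b) = i) →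
        (decide (D (e w2) b < D (e w3) b) = i) →
        (w1 < w2 ∧ w2 < w3 ∧ w3 < w4 ∧
        col e w1 w2 w3 = i ∧ col e w1 w2 w4 = i ∧ col e w1 w3 w4 = i ∧ col e w2 w3 w4 = i) := by
      intro w1 m1 w2 m2 w3 m3 w4 m4 l1 l2 l3 h12 h23 h34 c12 c13 c23
      have h13 := W_trans h12 h23
      have h24 := W_trans h23 h34
      have e12 := hlev w1 m1 w2 m2 h12
      have e13 := hlev w1 m1 w3 m3 h13
      have e23 := hlev w2 m2 w3 m3 h23
      have e24 := hlev w2 m2 w4 m4 h24
      have e34 := hlev w3 m3 w4 m4 h34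
      refine ⟨l1, l2, l3, ?_, ?_, ?_, ?_⟩
      · rw [col_of_gt, e12, e23, c12]
        rw [e12, e23]; exact h12
      · rw [col_of_gt, e12, e24, c12]
        rw [e12, e24]; exact h12
      · rw [col_of_gt, e13, e34, c13]
        rw [e13, e34]; exact h13
      · rw [col_of_gt, e23, e34, c23]
        rw [e23, e34]; exact h23
    cases i with
    | true =>
      obtain ⟨w1, hw1⟩ := nonempty_of_unc hq1
      obtain ⟨w2, hw2, l12, W12⟩ := hpick _ (fun c hc => hc.1.1) hq2 w1 hw1.1
      obtain ⟨w3, hw3, l23, W23⟩ := hpick _ (fun c hc => hc.1.1) hq2' w2 hw2.1.1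
      obtain ⟨w4, hw4, l34, W34⟩ := hpick C subset_rfl hC w3 hw3.1.1
      refine ⟨w1, hA1A (hCA1 hw1.1), w2, hA1A (hCA1 hw2.1.1), w3, hA1A (hCA1 hw3.1.1), w4,
        hA1A (hCA1 hw4), ?_⟩
      have a1 := hw1.2
      have a2 := hw2.1.2
      have a2' := hw2.2
      have a3 := hw3.2
      apply hgen w1 hw1.1 w2 hw2.1.1 w3 hw3.1.1 w4 hw4 l12 l23 l34 W12 W23 W34
      · rw [decide_eq_true_eq]; exact lt_trans a1 a2
      · rw [decide_eq_true_eq]; exact lt_trans (lt_trans a1 a2) (lt_trans a2' a3)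
      · rw [decide_eq_true_eq]; exact lt_trans a2' a3
    | false =>
      obtain ⟨w1, hw1⟩ := nonempty_of_unc hq2'
      obtain ⟨w2, hw2, l12, W12⟩ := hpick _ (fun c hc => hc.1.1) hq2 w1 hw1.1.1
      obtain ⟨w3, hw3, l23, W23⟩ := hpick _ (fun c hc => hc.1) hq1 w2 hw2.1.1
      obtain ⟨w4, hw4, l34, W34⟩ := hpick C subset_rfl hC w3 hw3.1
      refine ⟨w1, hA1A (hCA1 hw1.1.1), w2, hA1A (hCA1 hw2.1.1), w3, hA1A (hCA1 hw3.1), w4,
        hA1A (hCA1 hw4), ?_⟩
      have a1 := hw1.2
      have a2 := hw2.1.2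
      have a2' := hw2.2
      have a3 := hw3.2
      apply hgen w1 hw1.1.1 w2 hw2.1.1 w3 hw3.1 w4 hw4 l12 l23 l34 W12 W23 W34
      · rw [decide_eq_false_iff_not, not_lt]; exact (lt_trans a2' a1).le
      · rw [decide_eq_false_iff_not, not_lt]; exact (lt_trans (lt_trans a3 a2) (lt_trans a2' a1)).le
      · rw [decide_eq_false_iff_not, not_lt]; exact (lt_trans a3 a2).le
  rcases split_or_comb e A1 hA1 he with hs | hc
  swap
  · exact hcomb hc
  obtain ⟨s, δ, hst, hsf⟩ := hs
  -- choose the side i for the last point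
  have hside : ∀ j : Bool, ¬ {y ∈ A1 | (∀ r, W r δ → e y r = s r) ∧ e y δ = j}.Countable := by
    intro j; cases j
    · exact hsf
    · exact hst
  set B := {y ∈ A1 | (∀ r, W r δ → e y r = s r) ∧ e y δ = !i} with hB
  rcases split_or_comb e B (hside _) he with hs' | hc'
  swap
  · obtain ⟨b, C, hCB, h1, h2, h3⟩ := hc'
    exact hcomb ⟨b, C, fun c hc => (hCB hc).1, h1, h2, h3⟩
  obtain ⟨t, ε, htt, htf⟩ := hs'
  have hside' : ∀ j : Bool, ¬ {y ∈ B | (∀ r, W r ε → e y r = t r) ∧ e y ε = j}.Countable := by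
    intro j; cases j
    · exact htf
    · exact htt
  -- δ precedes ε
  have hδε : W δ ε := by
    obtain ⟨x, hx⟩ := nonempty_of_unc (hside' true)
    obtain ⟨y, hy⟩ := nonempty_of_unc (hside' false)
    rcases W_tri δ ε with h | h | h
    · exact h
    · exfalso
      have h1 := hx.1.2.2
      have h2 := hy.1.2.2
      have h3 := hx.2.2
      have h4 := hy.2.2
      rw [h] at h1 h2
      rw [h3] at h1
      rw [h4] at h2
      rw [← h1] at h2
      exact absurd h2 (by simp)
    · exfalso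
      have h1 := hx.1.2.1 ε h
      have h2 := hy.1.2.1 ε h
      rw [hx.2.2] at h1
      rw [hy.2.2] at h2
      rw [← h1] at h2
      exact absurd h2 (by simp)
  -- pick the points
  set E := {y ∈ B | (∀ r, W r ε → e y r = t r) ∧ e y ε = !i} with hE
  have hEA1 : E ⊆ A1 := fun y hy => hy.1.1
  obtain ⟨w1, hw1⟩ := nonempty_of_unc (hside' (!i))
  obtain ⟨w2, hw2, l12⟩ := pick A1 hini E hEA1 (hside' (!i)) w1 (hEA1 hw1)
  obtain ⟨w3, hw3, l23⟩ := pick A1 hini {y ∈ B | (∀ r, W r ε → e y r = t r) ∧ e y ε = i}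
    (fun y hy => hy.1.1) (hside' i) w2 (hEA1 hw2)
  obtain ⟨w4, hw4, l34⟩ := pick A1 hini {y ∈ A1 | (∀ r, W r δ → e y r = s r) ∧ e y δ = i}
    (fun y hy => hy.1) (hside i) w3 hw3.1.1
  refine ⟨w1, hA1A (hEA1 hw1), w2, hA1A (hEA1 hw2), w3, hA1A hw3.1.1, w4, hA1A hw4.1,
    l12, l23, l34, ?_⟩
  have e14 : D (e w1) (e w4) = δ := D_split e hw1.1.2 hw4.2
  have e24 : D (e w2) (e w4) = δ := D_split e hw2.1.2 hw4.2
  have e34 : D (e w3) (e w4) = δ := D_split e hw3.1.2 hw4.2
  have e13 : D (e w1) (e w3) = ε := D_split e hw1.2 hw3.2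
  have e23 : D (e w2) (e w3) = ε := D_split e hw2.2 hw3.2
  have e12 : W ε (D (e w1) (e w2)) := by
    have hne : e w1 ≠ e w2 := fun h => l12.ne (he h)
    have h1 := D_spec hne
    rcases W_tri ε (D (e w1) (e w2)) with h | h | h
    · exact h
    · exfalso
      apply h1.1
      rw [← h, hw1.2.2, hw2.2.2]
    · exfalso
      apply h1.1
      rw [hw1.2.1 _ h, hw2.2.1 _ h]
  refine ⟨?_, ?_, ?_, ?_⟩
  · rw [col_of_lt, e23]
    · exact hw3.2.2
    · rw [e23]; exact e12
  · rw [col_of_lt, e24]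
    · exact hw4.2.2
    · rw [e24]; exact W_trans hδε e12
  · rw [col_of_lt, e34]
    · exact hw4.2.2
    · rw [e34, e13]; exact hδε
  · rw [col_of_lt, e34]
    · exact hw4.2.2
    · rw [e34, e23]; exact hδε

end core

end Pool.Agent.H24.Triples
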