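import Mathlib

set_option autoImplicit false

namespace Pool.Agent.H24.Tsp

/-- the absolutely free nonassociative algebra on countably many generators -/
abbrev Fr (K : Type) [Field K] := FreeNonUnitalNonAssocAlgebra K ℕ

/-- `B` satisfies all the identities in `S`, i.e. `B` belongs to the variety defined by `S`. -/
def Sat (K : Type) [Field K] (S : Set (Fr K)) (B : Type) [NonUnitalNonAssocRing B] [Module K B]
    [IsScalarTower K B B] [SMulCommClass K B B] : Prop :=
  ∀ f ∈ S, ∀ φ : Fr K →ₙₐ[K] B, φ f = 0

/-- the set of all identities of `B` -/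
def IdOf (K : Type) [Field K] (B : Type) [NonUnitalNonAssocRing B] [Module K B]
    [IsScalarTower K B B] [SMulCommClass K B B] : Set (Fr K) :=
  {f | ∀ φ : Fr K →ₙₐ[K] B, φ f = 0}

/-- `(F, x)` is the free algebra of the variety defined by `S`, with free generators `x 0, x 1, ...`. -/
structure IsRelFree (K : Type) [Field K] (S : Set (Fr K)) (F : Type) [NonUnitalNonAssocRing F] [Module K F]
    [IsScalarTower K F F] [SMulCommClass K F F] (x : ℕ → F) : Prop where
  mem : Sat K S F
  gen : NonUnitalAlgebra.adjoin K (Set.range x) = ⊤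
  lift : ∀ (B : Type) [NonUnitalNonAssocRing B] [Module K B] [IsScalarTower K B B] [SMulCommClass K B B],
    Sat K S B → ∀ y : ℕ → B, ∃ φ : F →ₙₐ[K] B, ∀ i, φ (x i) = y i

/-- the subalgebra `F(d)` generated by the first `d` generators -/
def Fd (K : Type) [Field K] {F : Type} [NonUnitalNonAssocRing F] [Module K F]
    [IsScalarTower K F F] [SMulCommClass K F F] (x : ℕ → F) (d : ℕ) : NonUnitalSubalgebra K F :=
  NonUnitalAlgebra.adjoin K (x '' {i | i < d})

/-- the variety defined by `S`, with free algebra `(F, x)`, has finite base rank: it is the variety generated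
by some `F(r)`, i.e. it consists of the algebras satisfying all identities of `F(r)` -/
def FiniteBaseRank (K : Type) [Field K] (S : Set (Fr K)) (F : Type) [NonUnitalNonAssocRing F] [Module K F]
    [IsScalarTower K F F] [SMulCommClass K F F] (x : ℕ → F) : Prop :=
  ∃ r : ℕ, ∀ (B : Type) [NonUnitalNonAssocRing B] [Module K B] [IsScalarTower K B B] [SMulCommClass K B B],
    Sat K S B ↔ Sat K (IdOf K (Fd K x r)) B

/-- `S` with an overline: the linear span of all values of elements of `S` under all endomorphisms of `F`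
(for the relatively free algebra `F` these are exactly the substitutions of elements for the generators) -/
def cl (K : Type) [Field K] {F : Type} [NonUnitalNonAssocRing F] [Module K F]
    [IsScalarTower K F F] [SMulCommClass K F F] (S : Set F) : Submodule K F :=
  Submodule.span K {g | ∃ f ∈ S, ∃ ψ : F →ₙₐ[K] F, g = ψ f}

/-- `V` is a T-space in `F(d)` -/
def IsTSpace (K : Type) [Field K] {F : Type} [NonUnitalNonAssocRing F] [Module K F]
    [IsScalarTower K F F] [SMulCommClass K F F] (x : ℕ → F) (d : ℕ) (V : Submodule K F) : Prop :=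
  V ≤ (Fd K x d).toSubmodule ∧ V = cl K (V : Set F) ⊓ (Fd K x d).toSubmodule

/-- `V` has a finite base -/
def HasFiniteBase (K : Type) [Field K] {F : Type} [NonUnitalNonAssocRing F] [Module K F]
    [IsScalarTower K F F] [SMulCommClass K F F] (x : ℕ → F) (d : ℕ) (V : Submodule K F) : Prop :=
  ∃ S : Set F, S.Finite ∧ S ⊆ V ∧ V = cl K S ⊓ (Fd K x d).toSubmodule

section gen
variable {K : Type} [Field K]

theorem cl_mono_endo {F : Type} [NonUnitalNonAssocRing F] [Module K F]
    [IsScalarTower K F F] [SMulCommClass K F F] (S : Set F) (ψ : F →ₙₐ[K] F) (g : F) (hg : g ∈ cl K S) :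
    ψ g ∈ cl K S := by
  unfold cl at hg ⊢
  induction hg using Submodule.span_induction with
  | mem g hg =>
    obtain ⟨f, hf, χ, rfl⟩ := hg
    exact Submodule.subset_span ⟨f, hf, ψ.comp χ, rfl⟩
  | zero => rw [map_zero]; exact Submodule.zero_mem _
  | add a b _ _ ha hb => rw [map_add]; exact Submodule.add_mem _ ha hb
  | smul c a _ ha => rw [map_smul]; exact Submodule.smul_mem _ c ha

theorem subset_cl {F : Type} [NonUnitalNonAssocRing F] [Module K F]
    [IsScalarTower K F F] [SMulCommClass K F F] (S : Set F) (g : F) (hg : g ∈ S) : g ∈ cl K S :=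
  Submodule.subset_span ⟨g, hg, NonUnitalAlgHom.id K F, rfl⟩

/-- the key elements -/
def vv {B : Type} [NonUnitalNonAssocRing B] (u w : B) : ℕ → B
  | 0 => (u * u) * w - (u * w) * u
  | n + 1 => vv u w n * w

theorem map_vv {B C : Type} [NonUnitalNonAssocRing B] [NonUnitalNonAssocRing C] [Module K B] [Module K C]
    (φ : B →ₙₐ[K] C) (u w : B) (n : ℕ) : φ (vv u w n) = vv (φ u) (φ w) n := by
  induction n with
  | zero => simp [vv]
  | succ n ih => simp only [vv, map_mul, ih]

end gen

/-- the algebra `K p + K q + K[t]`: its elements are the sums `a p + b q + f(t)`; the products of basis elements are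
`p p = 1` and `f(t) q = t f(t)`, all others vanish -/
@[ext] structure Al (K : Type) [Field K] where
  p : K
  q : K
  f : Polynomial K

section alg
variable (K : Type) [Field K]

/-- the underlying product -/
def eqv : Al K ≃ K × K × Polynomial K where
  toFun a := (a.p, a.q, a.f)
  invFun a := ⟨a.1, a.2.1, a.2.2⟩
  left_inv _ := rfl
  right_inv _ := rfl

noncomputable instance : AddCommGroup (Al K) := (eqv K).addCommGroup
noncomputable instance : Module K (Al K) := (eqv K).module K
noncomputable instance : Mul (Al K) :=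
  ⟨fun a b => ⟨0, 0, Polynomial.C (a.p * b.p) + Polynomial.C b.q * (Polynomial.X * a.f)⟩⟩

variable {K}

theorem mul_1 (a b : Al K) : (a * b).p = 0 := rfl
theorem mul_2 (a b : Al K) : (a * b).q = 0 := rfl
theorem mul_3 (a b : Al K) : (a * b).f = Polynomial.C (a.p * b.p) + Polynomial.C b.q * (Polynomial.X * a.f) := rfl
theorem add_1 (a b : Al K) : (a + b).p = a.p + b.p := rfl
theorem add_2 (a b : Al K) : (a + b).q = a.q + b.q := rfl
theorem add_3 (a b : Al K) : (a + b).f = a.f + b.f := rfl
theorem sub_1 (a b : Al K) : (a - b).p = a.p - b.p := rfl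
theorem sub_2 (a b : Al K) : (a - b).q = a.q - b.q := rfl
theorem sub_3 (a b : Al K) : (a - b).f = a.f - b.f := rfl
theorem zero_1 : (0 : Al K).p = 0 := rfl
theorem zero_2 : (0 : Al K).q = 0 := rfl
theorem zero_3 : (0 : Al K).f = 0 := rfl
theorem smul_1 (c : K) (a : Al K) : (c • a).p = c * a.p := rfl
theorem smul_2 (c : K) (a : Al K) : (c • a).q = c * a.q := rfl
theorem smul_3 (c : K) (a : Al K) : (c • a).f = c • a.f := rfl

noncomputable instance : NonUnitalNonAssocRing (Al K) :=
  { (inferInstance : AddCommGroup (Al K)), (inferInstance : Mul (Al K)) with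
    left_distrib := fun a b c => by
      apply Al.ext
      · simp only [mul_1, add_1]; ring
      · simp only [mul_2, add_2]; ring
      · simp only [mul_3, add_3, add_1, add_2, mul_add, map_add, add_mul]; ring
    right_distrib := fun a b c => by
      apply Al.ext
      · simp only [mul_1, add_1]; ring
      · simp only [mul_2, add_2]; ring
      · simp only [mul_3, add_3, add_1, add_2, mul_add, map_add, add_mul]; ring
    zero_mul := fun a => by
      apply Al.ext
      · rfl
      · rfl
      · rw [mul_3, zero_1, zero_3]; simp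
    mul_zero := fun a => by
      apply Al.ext
      · rfl
      · rfl
      · rw [mul_3, zero_1, zero_2, zero_3]; simp }

instance : IsScalarTower K (Al K) (Al K) := ⟨fun c a b => by
  show (c • a) * b = c • (a * b)
  apply Al.ext
  · rw [mul_1, smul_1, mul_1, mul_zero]
  · rw [mul_2, smul_2, mul_2, mul_zero]
  · rw [mul_3, smul_3, smul_3, mul_3, smul_1, Polynomial.smul_eq_C_mul, Polynomial.smul_eq_C_mul]
    simp only [map_mul]; ring⟩

instance : SMulCommClass K (Al K) (Al K) := ⟨fun c a b => by
  show c • (a * b) = a * (c • b)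
  apply Al.ext
  · rw [mul_1, smul_1, mul_1, mul_zero]
  · rw [mul_2, smul_2, mul_2, mul_zero]
  · rw [mul_3, smul_3, mul_3, smul_1, smul_2, Polynomial.smul_eq_C_mul]
    simp only [map_mul]; ring⟩

theorem vv_Al (u w : Al K) (n : ℕ) : vv u w n = ⟨0, 0, Polynomial.C (w.q ^ n * (u.p * (u.p * w.q - w.p * u.q))) * Polynomial.X ^ (n + 1)⟩ := by
  induction n with
  | zero =>
    apply Al.ext
    · show ((u * u) * w - (u * w) * u : Al K).p = 0
      rw [sub_1, mul_1, mul_1, sub_zero]
    · show ((u * u) * w - (u * w) * u : Al K).q = 0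
      rw [sub_2, mul_2, mul_2, sub_zero]
    · show ((u * u) * w - (u * w) * u : Al K).f = _
      rw [sub_3]
      simp only [mul_3, mul_1, mul_2]
      simp only [zero_mul, map_zero, zero_add, pow_zero, one_mul, pow_one, map_mul, map_sub]
      ring
  | succ n ih =>
    have e : vv u w (n + 1) = vv u w n * w := rfl
    rw [e, ih]
    apply Al.ext
    · rfl
    · rfl
    · rw [mul_3]
      simp only [zero_mul, map_zero, zero_add, map_mul, map_sub, map_pow]
      ring

/-- the two generators -/
noncomputable def pe : Al K := ⟨1, 0, 0⟩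
noncomputable def qe : Al K := ⟨0, 1, 0⟩

theorem adjoin_top : NonUnitalAlgebra.adjoin K ({pe, qe} : Set (Al K)) = ⊤ := by
  rw [eq_top_iff]
  intro a _
  have hp : (pe : Al K) ∈ NonUnitalAlgebra.adjoin K ({pe, qe} : Set (Al K)) := NonUnitalAlgebra.subset_adjoin K (by simp)
  have hq : (qe : Al K) ∈ NonUnitalAlgebra.adjoin K ({pe, qe} : Set (Al K)) := NonUnitalAlgebra.subset_adjoin K (by simp)
  have hmono : ∀ n : ℕ, (⟨0, 0, Polynomial.X ^ n⟩ : Al K) ∈ NonUnitalAlgebra.adjoin K ({pe, qe} : Set (Al K)) := by
    intro n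
    induction n with
    | zero =>
      have := mul_mem hp hp
      have e : (pe * pe : Al K) = ⟨0, 0, Polynomial.X ^ 0⟩ := by
        apply Al.ext
        · rfl
        · rfl
        · rw [mul_3]; simp [pe]
      rwa [e] at this
    | succ n ih =>
      have := mul_mem ih hq
      have e : ((⟨0, 0, Polynomial.X ^ n⟩ : Al K) * qe) = ⟨0, 0, Polynomial.X ^ (n + 1)⟩ := by
        apply Al.ext
        · rfl
        · rfl
        · rw [mul_3]
          simp [qe]
          ring
      rwa [e] at this
  have hpoly : ∀ f : Polynomial K, (⟨0, 0, f⟩ : Al K) ∈ NonUnitalAlgebra.adjoin K ({pe, qe} : Set (Al K)) := by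
    intro f
    induction f using Polynomial.induction_on' with
    | add f g hf hg =>
      have := add_mem hf hg
      have e : (⟨0, 0, f⟩ + ⟨0, 0, g⟩ : Al K) = ⟨0, 0, f + g⟩ := by
        apply Al.ext
        · rw [add_1]; ring
        · rw [add_2]; ring
        · rfl
      rwa [e] at this
    | monomial n c =>
      have := SMulMemClass.smul_mem c (hmono n)
      have e : c • (⟨0, 0, Polynomial.X ^ n⟩ : Al K) = ⟨0, 0, Polynomial.monomial n c⟩ := by
        apply Al.ext
        · rw [smul_1]; ring
        · rw [smul_2]; ring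
        · rw [smul_3, Polynomial.smul_X_eq_monomial]
      rwa [e] at this
  have h := add_mem (add_mem (SMulMemClass.smul_mem a.p hp) (SMulMemClass.smul_mem a.q hq)) (hpoly a.f)
  have e : a.p • pe + a.q • qe + ⟨0, 0, a.f⟩ = a := by
    apply Al.ext
    · rw [add_1, add_1, smul_1, smul_1]
      simp [pe, qe]
    · rw [add_2, add_2, smul_2, smul_2]
      simp [pe, qe]
    · rw [add_3, add_3, smul_3, smul_3]
      simp [pe, qe]
  rwa [e] at h

end alg

end Pool.Agent.H24.Tsp
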