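import Pool.Agent.H24.TspA

set_option autoImplicit false

namespace Pool.Agent.H24.Tsp

section rel
variable (K : Type) [Field K]

/-- evaluation of formal elements as functions -/
noncomputable def evh : Fr K →ₙₐ[K] ((ℕ → Al K) → Al K) :=
  FreeNonUnitalNonAssocAlgebra.lift K (fun i P => P i)

/-- the relatively free algebra, as an algebra of functions -/
noncomputable abbrev FF : Type := ↥(NonUnitalAlgHom.range (evh K))

noncomputable def xx (i : ℕ) : FF K := ⟨evh K (FreeNonUnitalNonAssocAlgebra.of K i), ⟨_, rfl⟩⟩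

variable {K}

theorem xx_apply (i : ℕ) (P : ℕ → Al K) : (xx K i).1 P = P i := by
  show evh K (FreeNonUnitalNonAssocAlgebra.of K i) P = P i
  unfold evh
  rw [FreeNonUnitalNonAssocAlgebra.lift_of_apply]

/-- evaluation at a point -/
def evP (P : ℕ → Al K) : FF K →ₙₐ[K] Al K where
  toFun g := g.1 P
  map_smul' c g := rfl
  map_zero' := rfl
  map_add' g h := rfl
  map_mul' g h := rfl

theorem evP_xx (P : ℕ → Al K) (i : ℕ) : evP P (xx K i) = P i := xx_apply i P

theorem evh_eval (φ : Fr K →ₙₐ[K] Al K) (w : Fr K) : φ w = evh K w (fun i => φ (FreeNonUnitalNonAssocAlgebra.of K i)) := by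
  let e : ((ℕ → Al K) → Al K) →ₙₐ[K] Al K :=
    { toFun := fun g => g (fun i => φ (FreeNonUnitalNonAssocAlgebra.of K i))
      map_smul' := fun c g => rfl
      map_zero' := rfl
      map_add' := fun g h => rfl
      map_mul' := fun g h => rfl }
  have h : φ = e.comp (evh K) := by
    apply FreeNonUnitalNonAssocAlgebra.hom_ext
    intro i
    show φ _ = evh K (FreeNonUnitalNonAssocAlgebra.of K i) _
    unfold evh
    rw [FreeNonUnitalNonAssocAlgebra.lift_of_apply]
  exact congrArg (fun χ : Fr K →ₙₐ[K] Al K => χ w) h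

theorem ker_evh (w : Fr K) (h : evh K w = 0) : w ∈ IdOf K (Al K) := by
  intro φ
  rw [evh_eval, h]
  rfl

/-- the canonical map onto the relatively free algebra -/
noncomputable def rr : Fr K →ₙₐ[K] FF K where
  toFun w := ⟨evh K w, ⟨w, rfl⟩⟩
  map_smul' c g := Subtype.ext (map_smul (evh K) c g)
  map_zero' := Subtype.ext (map_zero (evh K))
  map_add' g h := Subtype.ext (map_add (evh K) g h)
  map_mul' g h := Subtype.ext (map_mul (evh K) g h)

/-- every element of the relatively free algebra is obtained from the generators -/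
theorem gen_top : NonUnitalAlgebra.adjoin K (Set.range (xx K)) = ⊤ := by
  rw [eq_top_iff]
  rintro ⟨g, w, rfl⟩ _
  let T := NonUnitalAlgebra.adjoin K (Set.range (xx K))
  let ψ : Fr K →ₙₐ[K] T := FreeNonUnitalNonAssocAlgebra.lift K
    (fun i => ⟨xx K i, NonUnitalAlgebra.subset_adjoin K ⟨i, rfl⟩⟩)
  have h : (NonUnitalSubalgebraClass.subtype T).comp ψ = rr := by
    apply FreeNonUnitalNonAssocAlgebra.hom_ext
    intro i
    show ((ψ (FreeNonUnitalNonAssocAlgebra.of K i) : T) : FF K) = _
    simp only [ψ]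
    rw [FreeNonUnitalNonAssocAlgebra.lift_of_apply]
    rfl
  have h2 : ((ψ w : T) : FF K) = rr w := congrArg (fun χ : Fr K →ₙₐ[K] FF K => χ w) h
  have h4 : ((ψ w : T) : FF K) ∈ T := (ψ w).2
  rw [h2] at h4
  exact h4

theorem relfree : IsRelFree K (IdOf K (Al K)) (FF K) (xx K) := by
  refine ⟨?_, gen_top, ?_⟩
  · intro f hf φ
    apply Subtype.ext
    funext P
    exact hf ((evP P).comp φ)
  · intro B _ _ _ _ hB y
    classical
    let lam : Fr K →ₙₐ[K] B := FreeNonUnitalNonAssocAlgebra.lift K y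
    have hker : ∀ w w' : Fr K, evh K w = evh K w' → lam w = lam w' := by
      intro w w' h
      have h1 : evh K (w - w') = 0 := by rw [map_sub, h, sub_self]
      have h2 := hB _ (ker_evh _ h1) lam
      rw [map_sub] at h2
      exact sub_eq_zero.1 h2
    have hch : ∀ g : FF K, ∃ w, evh K w = g.1 := fun g => g.2
    choose c hc using hch
    refine ⟨{ toFun := fun g => lam (c g)
              map_smul' := fun k g => ?_
              map_zero' := ?_
              map_add' := fun g h => ?_
              map_mul' := fun g h => ?_ }, fun i => ?_⟩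
    · show lam (c (k • g)) = k • lam (c g)
      rw [← map_smul]
      apply hker
      rw [hc, map_smul, hc]; rfl
    · show lam (c 0) = 0
      rw [← map_zero lam]
      apply hker
      rw [hc, map_zero]; rfl
    · show lam (c (g + h)) = lam (c g) + lam (c h)
      rw [← map_add]
      apply hker
      rw [hc, map_add, hc, hc]; rfl
    · show lam (c (g * h)) = lam (c g) * lam (c h)
      rw [← map_mul]
      apply hker
      rw [hc, map_mul, hc, hc]; rfl
    · show lam (c (xx K i)) = y i
      have h1 : lam (c (xx K i)) = lam (FreeNonUnitalNonAssocAlgebra.of K i) := by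
        apply hker
        rw [hc]; rfl
      rw [h1]
      simp only [lam]
      rw [FreeNonUnitalNonAssocAlgebra.lift_of_apply]

theorem xx_mem (d i : ℕ) (h : i < d) : xx K i ∈ Fd K (xx K) d :=
  NonUnitalAlgebra.subset_adjoin K ⟨i, h, rfl⟩

theorem baserank : FiniteBaseRank K (IdOf K (Al K)) (FF K) (xx K) := by
  refine ⟨2, ?_⟩
  intro B _ _ _ _
  -- the point (p, q, 0, 0, ...)
  let P0 : ℕ → Al K := fun i => if i = 0 then pe else if i = 1 then qe else 0
  let ev2 : Fd K (xx K) 2 →ₙₐ[K] Al K := (evP P0).comp (NonUnitalSubalgebraClass.subtype (Fd K (xx K) 2))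
  have hsurj : Function.Surjective ev2 := by
    have hr : NonUnitalAlgHom.range ev2 = ⊤ := by
      rw [eq_top_iff, ← adjoin_top, NonUnitalAlgebra.adjoin_le_iff]
      rintro a (rfl | rfl)
      · refine ⟨⟨xx K 0, xx_mem 2 0 (by norm_num)⟩, ?_⟩
        show evP P0 (xx K 0) = pe
        rw [evP_xx]; simp [P0]
      · refine ⟨⟨xx K 1, xx_mem 2 1 (by norm_num)⟩, ?_⟩
        show evP P0 (xx K 1) = qe
        rw [evP_xx]; simp [P0]
    intro a
    have : a ∈ NonUnitalAlgHom.range ev2 := by rw [hr]; trivial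
    exact this
  have hid : IdOf K (Fd K (xx K) 2) = IdOf K (Al K) := by
    apply Set.Subset.antisymm
    · intro f hf φ
      choose b hb using fun i : ℕ => hsurj (φ (FreeNonUnitalNonAssocAlgebra.of K i))
      let ψ : Fr K →ₙₐ[K] Fd K (xx K) 2 := FreeNonUnitalNonAssocAlgebra.lift K b
      have h : φ = ev2.comp ψ := by
        apply FreeNonUnitalNonAssocAlgebra.hom_ext
        intro i
        show _ = ev2 (ψ (FreeNonUnitalNonAssocAlgebra.of K i))
        simp only [ψ]
        rw [FreeNonUnitalNonAssocAlgebra.lift_of_apply, hb]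
      rw [h]
      show ev2 (ψ f) = 0
      rw [hf ψ, map_zero]
    · intro f hf ψ
      apply Subtype.ext
      have := relfree.mem f hf ((NonUnitalSubalgebraClass.subtype (Fd K (xx K) 2)).comp ψ)
      exact this
  rw [hid]

/-- functions whose third component has degree at most `N + 1` everywhere -/
def GN (N : ℕ) : Submodule K (FF K) where
  carrier := {g | ∀ P, (g.1 P).f.natDegree ≤ N + 1}
  add_mem' := by
    intro g h hg hh P
    exact (Polynomial.natDegree_add_le _ _).trans (max_le (hg P) (hh P))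
  zero_mem' := by
    intro P
    show (0 : Polynomial K).natDegree ≤ _
    simp
  smul_mem' := by
    intro c g hg P
    exact (Polynomial.natDegree_smul_le _ _).trans (hg P)

theorem GN_mono {N M : ℕ} (h : N ≤ M) (g : FF K) (hg : g ∈ GN (K := K) N) : g ∈ GN (K := K) M :=
  fun P => (hg P).trans (by omega)

/-- the generating elements of the T-space -/
noncomputable def vn (n : ℕ) : FF K := vv (xx K 0) (xx K 1) n

theorem vv_GN (u w : FF K) (n : ℕ) : vv u w n ∈ GN (K := K) n := by
  intro P
  have h : (vv u w n).1 P = vv (u.1 P) (w.1 P) n := map_vv (evP P) u w n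
  rw [h, vv_Al]
  exact Polynomial.natDegree_C_mul_X_pow_le _ _

theorem bound (g : FF K) (hg : g ∈ cl K (Set.range (vn (K := K)))) :
    ∃ N, ∀ ψ : FF K →ₙₐ[K] FF K, ψ g ∈ GN (K := K) N := by
  unfold cl at hg
  induction hg using Submodule.span_induction with
  | mem g hg =>
    obtain ⟨f, ⟨n, rfl⟩, χ, rfl⟩ := hg
    refine ⟨n, fun ψ => ?_⟩
    have : ψ (χ (vn n)) = vv (ψ (χ (xx K 0))) (ψ (χ (xx K 1))) n := by
      unfold vn
      rw [map_vv χ, map_vv ψ]
    rw [this]
    exact vv_GN _ _ _
  | zero => exact ⟨0, fun ψ => by rw [map_zero]; exact Submodule.zero_mem _⟩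
  | add a b _ _ ha hb =>
    obtain ⟨N, hN⟩ := ha
    obtain ⟨M, hM⟩ := hb
    refine ⟨max N M, fun ψ => ?_⟩
    rw [map_add]
    exact Submodule.add_mem _ (GN_mono (le_max_left _ _) _ (hN ψ)) (GN_mono (le_max_right _ _) _ (hM ψ))
  | smul c a _ ha =>
    obtain ⟨N, hN⟩ := ha
    refine ⟨N, fun ψ => ?_⟩
    rw [map_smul]
    exact Submodule.smul_mem _ c (hN ψ)

theorem vn_mem (n : ℕ) : vn (K := K) n ∈ Fd K (xx K) 2 := by
  have h0 := xx_mem (K := K) 2 0 (by norm_num)
  have h1 := xx_mem (K := K) 2 1 (by norm_num)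
  induction n with
  | zero => exact sub_mem (mul_mem (mul_mem h0 h0) h1) (mul_mem (mul_mem h0 h1) h0)
  | succ n ih => exact mul_mem ih h1

theorem vn_not (N : ℕ) : vn (K := K) (N + 1) ∉ GN (K := K) N := by
  intro h
  have h1 := h (fun i => if i = 0 then pe else if i = 1 then qe else 0)
  have h2 : (vn (K := K) (N + 1)).1 (fun i => if i = 0 then pe else if i = 1 then qe else 0)
      = vv pe qe (N + 1) := by
    have := map_vv (evP (K := K) (fun i => if i = 0 then pe else if i = 1 then qe else 0)) (xx K 0) (xx K 1) (N + 1)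
    rw [evP_xx, evP_xx] at this
    simpa using! this
  rw [h2, vv_Al] at h1
  simp [pe, qe] at h1

theorem final : ∃ V : Submodule K (FF K), IsTSpace K (xx K) 2 V ∧ ¬ HasFiniteBase K (xx K) 2 V := by
  refine ⟨cl K (Set.range (vn (K := K))) ⊓ (Fd K (xx K) 2).toSubmodule, ⟨inf_le_right, ?_⟩, ?_⟩
  · apply le_antisymm
    · exact le_inf (fun g hg => subset_cl _ g hg) inf_le_right
    · refine inf_le_inf_right _ ?_
      unfold cl
      rw [Submodule.span_le]
      rintro g ⟨f, hf, ψ, rfl⟩
      exact cl_mono_endo _ ψ f hf.1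
  · rintro ⟨S, hSf, hSV, hV⟩
    have hN : ∃ N, ∀ s ∈ S, ∀ ψ : FF K →ₙₐ[K] FF K, ψ s ∈ GN (K := K) N := by
      have hb : ∀ s ∈ S, ∃ N, ∀ ψ : FF K →ₙₐ[K] FF K, ψ s ∈ GN (K := K) N := fun s hs => bound s (hSV hs).1
      choose! n hn using hb
      obtain ⟨N, hN⟩ := (hSf.image n).bddAbove
      exact ⟨N, fun s hs ψ => GN_mono (hN ⟨s, hs, rfl⟩) _ (hn s hs ψ)⟩
    obtain ⟨N, hN⟩ := hN
    have h1 : vn (K := K) (N + 1) ∈ cl K (Set.range (vn (K := K))) ⊓ (Fd K (xx K) 2).toSubmodule :=
      ⟨subset_cl _ _ ⟨N + 1, rfl⟩, vn_mem (N + 1)⟩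
    rw [hV] at h1
    have h2 : cl K S ≤ GN (K := K) N := by
      unfold cl
      rw [Submodule.span_le]
      rintro g ⟨f, hf, ψ, rfl⟩
      exact hN f hf ψ
    exact vn_not N (h2 h1.1)

end rel

end Pool.Agent.H24.Tsp
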