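import Mathlib

set_option autoImplicit false

open Set MeasureTheory Filter Topology

namespace Pool.Agent.H24.Wlp

/-- Riemann integrability on `[0,1]` of a Banach space valued function -/
def RInt {E : Type} [NormedAddCommGroup E] [NormedSpace ℝ E] (f : ℝ → E) : Prop :=
  ∃ x : E, ∀ ε : ℝ, 0 < ε → ∃ δ : ℝ, 0 < δ ∧ ∀ (p : ℕ) (a t : ℕ → ℝ), a 0 = 0 → a p = 1 →
    (∀ j, j < p → a j ≤ a (j + 1) ∧ a (j + 1) - a j < δ ∧ a j ≤ t j ∧ t j ≤ a (j + 1)) →
    ‖(∑ j ∈ Finset.range p, (a (j + 1) - a j) • f (t j)) - x‖ < ε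

/-- the weak Lebesgue property -/
def WLP (E : Type) [NormedAddCommGroup E] [NormedSpace ℝ E] : Prop :=
  ∀ f : ℝ → E, RInt f →
    volume {t : ℝ | t ∈ Icc (0 : ℝ) 1 ∧
      ¬ ∀ φ : E →L[ℝ] ℝ, ContinuousWithinAt (fun s => φ (f s)) (Icc (0 : ℝ) 1) t} = 0

/-- strong measure zero sets of reals -/
def SMZ (A : Set ℝ) : Prop :=
  ∀ ε : ℕ → ℝ, (∀ n, 0 < ε n) → ∃ c : ℕ → ℝ, A ⊆ ⋃ n, Icc (c n) (c n + ε n)

/-! ### coding sequences by reals -/

noncomputable def rc (b : ℕ → Bool) : ℝ := Cardinal.cantorFunction (1 / 3) b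

theorem rc_succ (b : ℕ → Bool) :
    rc b = (bif b 0 then 1 else 0) + (1 / 3) * rc (fun n => b (n + 1)) := by
  unfold rc
  exact Cardinal.cantorFunction_succ b (by norm_num) (by norm_num)

theorem rc_nonneg (b : ℕ → Bool) : 0 ≤ rc b := by
  have h1 : rc (fun _ => false) = 0 := by
    have := rc_succ (fun _ => false)
    simp only [cond_false] at this
    linarith
  rw [← h1]
  exact Cardinal.cantorFunction_le (by norm_num) (by norm_num) (by simp)

theorem rc_le (b : ℕ → Bool) : rc b ≤ 3 / 2 := by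
  have h1 : rc (fun _ => true) = 3 / 2 := by
    have := rc_succ (fun _ => true)
    simp only [cond_true] at this
    linarith
  rw [← h1]
  exact Cardinal.cantorFunction_le (by norm_num) (by norm_num) (by simp)

theorem rc_agree (L : ℕ) : ∀ b b' : ℕ → Bool, |rc b - rc b'| < (1 / 3 : ℝ) ^ L / 2 →
    ∀ i, i ≤ L → b i = b' i := by
  induction L with
  | zero =>
    intro b b' h i hi
    have hi0 : i = 0 := by omega
    subst hi0
    rw [rc_succ b, rc_succ b'] at h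
    have h1 := rc_nonneg (fun n => b (n + 1))
    have h2 := rc_le (fun n => b (n + 1))
    have h3 := rc_nonneg (fun n => b' (n + 1))
    have h4 := rc_le (fun n => b' (n + 1))
    rw [abs_lt] at h
    cases hb : b 0 <;> cases hb' : b' 0
    · rfl
    · exfalso
      rw [hb, hb'] at h
      simp only [cond_true, cond_false, pow_zero] at h
      linarith [h.1]
    · exfalso
      rw [hb, hb'] at h
      simp only [cond_true, cond_false, pow_zero] at h
      linarith [h.2]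
    · rfl
  | succ L ih =>
    intro b b' h i hi
    have hpow : (1 / 3 : ℝ) ^ (L + 1) / 2 ≤ (1 / 3 : ℝ) ^ 0 / 2 := by
      have : (1 / 3 : ℝ) ^ (L + 1) ≤ (1 / 3 : ℝ) ^ 0 :=
        pow_le_pow_of_le_one (by norm_num) (by norm_num) (Nat.zero_le _)
      linarith
    have h0 : b 0 = b' 0 := by
      rw [rc_succ b, rc_succ b'] at h
      have h1 := rc_nonneg (fun n => b (n + 1))
      have h2 := rc_le (fun n => b (n + 1))
      have h3 := rc_nonneg (fun n => b' (n + 1))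
      have h4 := rc_le (fun n => b' (n + 1))
      rw [abs_lt] at h
      rw [pow_zero] at hpow
      cases hb : b 0 <;> cases hb' : b' 0
      · rfl
      · exfalso
        rw [hb, hb'] at h
        simp only [cond_true, cond_false] at h
        linarith [h.1]
      · exfalso
        rw [hb, hb'] at h
        simp only [cond_true, cond_false] at h
        linarith [h.2]
      · rfl
    have h5 : |rc (fun n => b (n + 1)) - rc (fun n => b' (n + 1))| < (1 / 3 : ℝ) ^ L / 2 := by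
      rw [rc_succ b, rc_succ b', h0] at h
      have e : (bif b' 0 then (1 : ℝ) else 0) + 1 / 3 * rc (fun n => b (n + 1)) -
          ((bif b' 0 then (1 : ℝ) else 0) + 1 / 3 * rc (fun n => b' (n + 1))) =
          (1 / 3) * (rc (fun n => b (n + 1)) - rc (fun n => b' (n + 1))) := by ring
      rw [e, abs_mul, abs_of_pos (by norm_num : (0 : ℝ) < 1 / 3), pow_succ] at h
      linarith
    rcases Nat.eq_zero_or_pos i with hi0 | hi0
    · rw [hi0]; exact h0
    · have h7 : b (i - 1 + 1) = b' (i - 1 + 1) := ih _ _ h5 (i - 1) (by omega)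
      rwa [Nat.sub_add_cancel hi0] at h7

/-- infinitely often equal property from strong measure zero -/
theorem often {Γ : Type} [Nonempty Γ] (H : ∀ A : Set ℝ, Cardinal.mk A ≤ Cardinal.mk Γ → SMZ A)
    (b : Γ → ℕ → Bool) (L : ℕ → ℕ) :
    ∃ h : ℕ → Γ, ∀ γ K, ∃ k, K ≤ k ∧ ∀ i, i ≤ L k → b γ i = b (h k) i := by
  classical
  let A : Set ℝ := range (fun γ => rc (b γ))
  have hA : Cardinal.mk A ≤ Cardinal.mk Γ := Cardinal.mk_range_le
  let ε : ℕ → ℝ := fun n => (1 / 3 : ℝ) ^ (L n) / 4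
  have hε : ∀ n, 0 < ε n := fun n => by positivity
  have hc : ∀ i : ℕ, ∃ c : ℕ → ℝ, A ⊆ ⋃ k, Icc (c k) (c k + ε (Nat.pair i k)) := fun i =>
    H A hA (fun k => ε (Nat.pair i k)) (fun k => hε _)
  choose c hc using hc
  let cc : ℕ → ℝ := fun n => c n.unpair.1 n.unpair.2
  let P : ℕ → Γ → Prop := fun n γ => rc (b γ) ∈ Icc (cc n) (cc n + ε n)
  let h : ℕ → Γ := fun n => if hx : ∃ γ, P n γ then hx.choose else Classical.arbitrary Γ
  refine ⟨h, fun γ K => ?_⟩
  have h1 : rc (b γ) ∈ ⋃ k, Icc (c K k) (c K k + ε (Nat.pair K k)) := hc K ⟨γ, rfl⟩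
  obtain ⟨k, hk⟩ := mem_iUnion.1 h1
  refine ⟨Nat.pair K k, Nat.left_le_pair K k, ?_⟩
  have hP : P (Nat.pair K k) γ := by
    simp only [P, cc, Nat.unpair_pair]
    exact hk
  have hx : ∃ γ, P (Nat.pair K k) γ := ⟨γ, hP⟩
  have hP' : P (Nat.pair K k) (h (Nat.pair K k)) := by
    simp only [h, dif_pos hx]
    exact hx.choose_spec
  apply rc_agree
  have e1 := hP.1
  have e2 := hP.2
  have e3 := hP'.1
  have e4 := hP'.2
  have e5 : ε (Nat.pair K k) < (1 / 3 : ℝ) ^ (L (Nat.pair K k)) / 2 := by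
    have : (0 : ℝ) < (1 / 3 : ℝ) ^ (L (Nat.pair K k)) := by positivity
    simp only [ε]
    linarith
  rw [abs_lt]
  constructor <;> linarith

/-! ### Riemann integrable functions -/

section
variable {E : Type} [NormedAddCommGroup E] [NormedSpace ℝ E]

theorem osc {f : ℝ → E} (hf : RInt f) {ε : ℝ} (hε : 0 < ε) :
    ∃ N : ℕ, 0 < N ∧ ∀ t t' : ℕ → ℝ,
      (∀ j, j < N → (j : ℝ) / N ≤ t j ∧ t j ≤ ((j : ℝ) + 1) / N) →
      (∀ j, j < N → (j : ℝ) / N ≤ t' j ∧ t' j ≤ ((j : ℝ) + 1) / N) →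
      ‖∑ j ∈ Finset.range N, ((1 : ℝ) / N) • (f (t j) - f (t' j))‖ < ε := by
  obtain ⟨x, hx⟩ := hf
  obtain ⟨δ, hδ, hδ2⟩ := hx (ε / 2) (by linarith)
  obtain ⟨N, hN⟩ := exists_nat_one_div_lt hδ
  refine ⟨N + 1, Nat.succ_pos N, fun t t' ht ht' => ?_⟩
  have hN0 : (0 : ℝ) < ((N + 1 : ℕ) : ℝ) := by exact_mod_cast Nat.succ_pos N
  let a : ℕ → ℝ := fun j => (j : ℝ) / ((N + 1 : ℕ) : ℝ)
  have ha : ∀ j, a (j + 1) - a j = 1 / ((N + 1 : ℕ) : ℝ) := by
    intro j
    simp only [a]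
    push_cast
    ring
  have key : ∀ s : ℕ → ℝ, (∀ j, j < N + 1 → (j : ℝ) / ((N + 1 : ℕ) : ℝ) ≤ s j ∧
      s j ≤ ((j : ℝ) + 1) / ((N + 1 : ℕ) : ℝ)) →
      ‖(∑ j ∈ Finset.range (N + 1), (1 / ((N + 1 : ℕ) : ℝ)) • f (s j)) - x‖ < ε / 2 := by
    intro s hs
    have := hδ2 (N + 1) a s (by simp [a]) (by
      simp only [a]
      exact div_self hN0.ne') (by
      intro j hj
      have h1 := ha j
      refine ⟨?_, ?_, (hs j hj).1, ?_⟩
      · have : (0 : ℝ) < 1 / ((N + 1 : ℕ) : ℝ) := by positivity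
        linarith
      · rw [h1]
        push_cast
        exact hN
      · have := (hs j hj).2
        simp only [a]
        push_cast at this ⊢
        exact this)
    simp only [ha] at this
    exact this
  have k1 := key t ht
  have k2 := key t' ht'
  have e : (∑ j ∈ Finset.range (N + 1), ((1 : ℝ) / ((N + 1 : ℕ) : ℝ)) • (f (t j) - f (t' j))) =
      ((∑ j ∈ Finset.range (N + 1), (1 / ((N + 1 : ℕ) : ℝ)) • f (t j)) - x) -
      ((∑ j ∈ Finset.range (N + 1), (1 / ((N + 1 : ℕ) : ℝ)) • f (t' j)) - x) := by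
    simp only [smul_sub, Finset.sum_sub_distrib]
    abel
  rw [e]
  calc _ ≤ _ := norm_sub_le _ _
    _ < ε / 2 + ε / 2 := add_lt_add k1 k2
    _ = ε := by ring

theorem exists_cell {N : ℕ} (hN : 0 < N) {s : ℝ} (hs : s ∈ Icc (0 : ℝ) 1) :
    ∃ i, i < N ∧ (i : ℝ) / N ≤ s ∧ s ≤ ((i : ℝ) + 1) / N := by
  have hN0 : (0 : ℝ) < N := by exact_mod_cast hN
  rcases eq_or_lt_of_le hs.2 with h | h
  · refine ⟨N - 1, by omega, ?_, ?_⟩
    · rw [h, div_le_one hN0]
      exact_mod_cast Nat.sub_le N 1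
    · rw [h, le_div_iff₀ hN0, one_mul]
      have : ((N - 1 : ℕ) : ℝ) + 1 = N := by
        have : N - 1 + 1 = N := Nat.sub_add_cancel hN
        exact_mod_cast this
      rw [this]
  · refine ⟨⌊s * N⌋₊, ?_, ?_, ?_⟩
    · rw [Nat.floor_lt (mul_nonneg hs.1 hN0.le)]
      nlinarith
    · rw [div_le_iff₀ hN0]
      exact Nat.floor_le (mul_nonneg hs.1 hN0.le)
    · rw [le_div_iff₀ hN0]
      exact (Nat.lt_floor_add_one _).le

theorem bdd {f : ℝ → E} (hf : RInt f) : ∃ C : ℝ, 0 ≤ C ∧ ∀ t ∈ Icc (0 : ℝ) 1, ‖f t‖ ≤ C := by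
  obtain ⟨N, hN, h⟩ := osc hf one_pos
  have hN0 : (0 : ℝ) < N := by exact_mod_cast hN
  let m : ℝ := ∑ i ∈ Finset.range N, ‖f ((i : ℝ) / N)‖
  have hm : 0 ≤ m := Finset.sum_nonneg (fun _ _ => norm_nonneg _)
  refine ⟨N + m, by positivity, fun s hs => ?_⟩
  obtain ⟨i, hi, h1, h2⟩ := exists_cell hN hs
  have cell : ∀ j : ℕ, (j : ℝ) / N ≤ (j : ℝ) / N ∧ (j : ℝ) / N ≤ ((j : ℝ) + 1) / N := by
    intro j
    refine ⟨le_rfl, ?_⟩
    gcongr
    linarith
  have h3 := h (fun j => if j = i then s else (j : ℝ) / N) (fun j => (j : ℝ) / N) (by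
    intro j _
    by_cases hj : j = i
    · simp only [if_pos hj]
      rw [hj]; exact ⟨h1, h2⟩
    · simp only [if_neg hj]
      exact cell j) (fun j _ => cell j)
  rw [Finset.sum_eq_single i] at h3
  · simp only [if_true] at h3
    rw [norm_smul, Real.norm_eq_abs, abs_of_pos (by positivity)] at h3
    have h4 : ‖f s - f ((i : ℝ) / N)‖ < N := by
      rw [one_div, inv_mul_lt_iff₀ hN0, mul_one] at h3
      exact h3
    have h5 : ‖f ((i : ℝ) / N)‖ ≤ m :=
      Finset.single_le_sum (f := fun i : ℕ => ‖f ((i : ℝ) / N)‖) (fun _ _ => norm_nonneg _)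
        (Finset.mem_range.2 hi)
    calc ‖f s‖ = ‖(f s - f ((i : ℝ) / N)) + f ((i : ℝ) / N)‖ := by rw [sub_add_cancel]
      _ ≤ ‖f s - f ((i : ℝ) / N)‖ + ‖f ((i : ℝ) / N)‖ := norm_add_le _ _
      _ ≤ N + m := by linarith
  · intro j _ hj
    simp only [if_neg hj, sub_self, smul_zero]
  · intro h
    exact absurd (Finset.mem_range.2 hi) h

end

end Pool.Agent.H24.Wlp
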