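import Pool.Agent.H24.Wlp1

set_option autoImplicit false

open Set MeasureTheory Filter Topology

namespace Pool.Agent.H24.Wlp

variable {Γ : Type}

abbrev L2 (Γ : Type) : Type := lp (fun _ : Γ => ℝ) 2

/-- coordinatewise continuity plus boundedness gives weak continuity -/
theorem weak_of_coord (f : ℝ → L2 Γ) {C : ℝ} (hC0 : 0 ≤ C) (hC : ∀ t ∈ Icc (0 : ℝ) 1, ‖f t‖ ≤ C)
    {t : ℝ} (ht : t ∈ Icc (0 : ℝ) 1)
    (h : ∀ γ : Γ, ContinuousWithinAt (fun s => (f s : Γ → ℝ) γ) (Icc (0 : ℝ) 1) t)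
    (φ : L2 Γ →L[ℝ] ℝ) : ContinuousWithinAt (fun s => φ (f s)) (Icc (0 : ℝ) 1) t := by
  classical
  let y : L2 Γ := (InnerProductSpace.toDual ℝ (L2 Γ)).symm φ
  have hφ : ∀ v, φ v = inner ℝ y v := by
    intro v
    exact (InnerProductSpace.toDual_symm_apply).symm
  rw [Metric.continuousWithinAt_iff]
  intro ε hε
  have hs := lp.hasSum_single (p := 2) (by norm_num) y
  have hden : 0 < 4 * (C + 1) := by linarith
  obtain ⟨s, hs⟩ : ∃ s : Finset Γ, ‖(∑ i ∈ s, lp.single 2 i (y i)) - y‖ < ε / (4 * (C + 1)) := by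
    have h1 := Metric.tendsto_nhds.1 hs (ε / (4 * (C + 1))) (div_pos hε hden)
    obtain ⟨s, hs⟩ := h1.exists
    exact ⟨s, by rwa [dist_eq_norm] at hs⟩
  set ys : L2 Γ := ∑ i ∈ s, lp.single 2 i (y i) with hys
  have hys2 : ∀ v : L2 Γ, inner ℝ ys v = ∑ i ∈ s, y i * v i := by
    intro v
    rw [hys, sum_inner]
    apply Finset.sum_congr rfl
    intro i _
    rw [lp.inner_single_left]
    simp [mul_comm]
  have hcont : ContinuousWithinAt (fun u => ∑ i ∈ s, y i * (f u : Γ → ℝ) i) (Icc (0 : ℝ) 1) t := by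
    apply tendsto_finset_sum
    intro i _
    exact (h i).const_mul (y i)
  rw [Metric.continuousWithinAt_iff] at hcont
  obtain ⟨δ, hδ, hδ2⟩ := hcont (ε / 4) (by linarith)
  refine ⟨δ, hδ, fun u hu hut => ?_⟩
  have h1 := hδ2 hu hut
  rw [Real.dist_eq] at h1 ⊢
  have hC1 : ∀ w ∈ Icc (0 : ℝ) 1, |inner ℝ y (f w) - ∑ i ∈ s, y i * (f w : Γ → ℝ) i| ≤ ε / 4 := by
    intro w hw
    rw [← hys2, ← inner_sub_left]
    calc |inner ℝ (y - ys) (f w)| ≤ ‖y - ys‖ * ‖f w‖ := abs_real_inner_le_norm _ _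
      _ ≤ (ε / (4 * (C + 1))) * (C + 1) := by
        apply mul_le_mul
        · rw [norm_sub_rev]; exact hs.le
        · linarith [hC w hw]
        · exact norm_nonneg _
        · exact (div_pos hε hden).le
      _ = ε / 4 := by
        field_simp
  have h2 := hC1 u hu
  have h3 := hC1 t ht
  rw [hφ, hφ]
  have e : inner ℝ y (f u) - inner ℝ y (f t) =
      (inner ℝ y (f u) - ∑ i ∈ s, y i * (f u : Γ → ℝ) i) +
      ((∑ i ∈ s, y i * (f u : Γ → ℝ) i) - ∑ i ∈ s, y i * (f t : Γ → ℝ) i) -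
      (inner ℝ y (f t) - ∑ i ∈ s, y i * (f t : Γ → ℝ) i) := by ring
  rw [e]
  rw [abs_le] at h2 h3
  rw [abs_lt] at h1 ⊢
  constructor <;> linarith [h2.1, h2.2, h3.1, h3.2, h1.1, h1.2]

open Classical in
/-- cells on which the coordinate `γ` oscillates by more than `η` -/
noncomputable def bad (f : ℝ → L2 Γ) (η : ℝ) (N : ℕ) (γ : Γ) : Finset ℕ :=
  (Finset.range N).filter (fun j => ∃ s s' : ℝ, ((j : ℝ) / N ≤ s ∧ s ≤ ((j : ℝ) + 1) / N) ∧
    ((j : ℝ) / N ≤ s' ∧ s' ≤ ((j : ℝ) + 1) / N) ∧ η < (f s : Γ → ℝ) γ - (f s' : Γ → ℝ) γ)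

theorem bad_card {f : ℝ → L2 Γ} (hf : RInt f) {η : ℝ} (hη : 0 < η) (k : ℕ) :
    ∃ N : ℕ, 0 < N ∧ ∀ γ : Γ, ((bad f η N γ).card : ℝ) / N ≤ (1 / 2) ^ k := by
  classical
  obtain ⟨N, hN, h⟩ := osc hf (ε := η * (1 / 2) ^ k) (by positivity)
  have hN0 : (0 : ℝ) < N := by exact_mod_cast hN
  refine ⟨N, hN, fun γ => ?_⟩
  have hex : ∀ j : ℕ, ∃ p : ℝ × ℝ, ((j : ℝ) / N ≤ p.1 ∧ p.1 ≤ ((j : ℝ) + 1) / N) ∧
      ((j : ℝ) / N ≤ p.2 ∧ p.2 ≤ ((j : ℝ) + 1) / N) ∧
      (j ∈ bad f η N γ → η < (f p.1 : Γ → ℝ) γ - (f p.2 : Γ → ℝ) γ) ∧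
      (j ∉ bad f η N γ → p.1 = p.2) := by
    intro j
    by_cases hj : j ∈ bad f η N γ
    · obtain ⟨s, s', h1, h2, h3⟩ := (Finset.mem_filter.1 hj).2
      exact ⟨(s, s'), h1, h2, fun _ => h3, fun h => absurd hj h⟩
    · refine ⟨((j : ℝ) / N, (j : ℝ) / N), ⟨le_rfl, ?_⟩, ⟨le_rfl, ?_⟩, fun h => absurd h hj,
        fun _ => rfl⟩
      all_goals
        simp only
        gcongr
        linarith
  choose p hp1 hp2 hp3 hp4 using hex
  have h1 := h (fun j => (p j).1) (fun j => (p j).2) (fun j _ => hp1 j) (fun j _ => hp2 j)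
  set v : L2 Γ := ∑ j ∈ Finset.range N, ((1 : ℝ) / N) • (f (p j).1 - f (p j).2) with hv
  have h2 : |(v : Γ → ℝ) γ| ≤ ‖v‖ := lp.norm_apply_le_norm (by norm_num) v γ
  have h3 : (v : Γ → ℝ) γ = ∑ j ∈ Finset.range N,
      ((1 : ℝ) / N) * ((f (p j).1 : Γ → ℝ) γ - (f (p j).2 : Γ → ℝ) γ) := by
    rw [hv, lp.coeFn_sum, Finset.sum_apply]
    apply Finset.sum_congr rfl
    intro j _
    rw [lp.coeFn_smul, Pi.smul_apply, lp.coeFn_sub, Pi.sub_apply, smul_eq_mul]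
  have h4 : ((bad f η N γ).card : ℝ) * (1 / N * η) ≤ (v : Γ → ℝ) γ := by
    rw [h3, ← nsmul_eq_mul, ← Finset.sum_const]
    rw [← Finset.sum_filter_add_sum_filter_not (Finset.range N) (fun j => j ∈ bad f η N γ)]
    have e1 : (Finset.range N).filter (fun j => j ∈ bad f η N γ) = bad f η N γ := by
      ext j
      constructor
      · intro h
        exact (Finset.mem_filter.1 h).2
      · intro h
        exact Finset.mem_filter.2 ⟨(Finset.mem_filter.1 h).1, h⟩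
    rw [e1]
    have e2 : ∑ j ∈ (Finset.range N).filter (fun j => ¬ j ∈ bad f η N γ),
        ((1 : ℝ) / N) * ((f (p j).1 : Γ → ℝ) γ - (f (p j).2 : Γ → ℝ) γ) = 0 := by
      apply Finset.sum_eq_zero
      intro j hj
      rw [hp4 j (Finset.mem_filter.1 hj).2, sub_self, mul_zero]
    rw [e2, add_zero]
    apply Finset.sum_le_sum
    intro j hj
    exact mul_le_mul_of_nonneg_left (hp3 j hj).le (by positivity)
  have h5 : ((bad f η N γ).card : ℝ) * (1 / N * η) ≤ η * (1 / 2) ^ k := by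
    have := le_abs_self ((v : Γ → ℝ) γ)
    linarith
  have h6 : ((bad f η N γ).card : ℝ) / N * η ≤ (1 / 2) ^ k * η := by
    calc ((bad f η N γ).card : ℝ) / N * η = ((bad f η N γ).card : ℝ) * (1 / N * η) := by ring
      _ ≤ _ := by linarith
  exact le_of_mul_le_mul_right h6 hη

theorem wlp_of_smz (Γ : Type) (H : ∀ A : Set ℝ, Cardinal.mk A ≤ Cardinal.mk Γ → SMZ A) :
    WLP (L2 Γ) := by
  classical
  intro f hf
  obtain ⟨C, hC0, hC⟩ := bdd hf
  rcases isEmpty_or_nonempty Γ with hΓ | hΓ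
  · have : {t : ℝ | t ∈ Icc (0 : ℝ) 1 ∧ ¬ ∀ φ : L2 Γ →L[ℝ] ℝ,
        ContinuousWithinAt (fun s => φ (f s)) (Icc (0 : ℝ) 1) t} = ∅ := by
      rw [Set.eq_empty_iff_forall_notMem]
      rintro t ⟨ht, hn⟩
      exact hn (weak_of_coord f hC0 hC ht (fun γ => (hΓ.false γ).elim))
    rw [this, measure_empty]
  let η : ℕ → ℝ := fun m => 1 / ((m : ℝ) + 1)
  have hη : ∀ m, 0 < η m := fun m => by positivity
  have hN : ∀ m k, ∃ N : ℕ, 0 < N ∧ ∀ γ : Γ, ((bad f (η m) N γ).card : ℝ) / N ≤ (1 / 2) ^ k :=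
    fun m k => bad_card hf (hη m) k
  choose N hN0 hN using hN
  have hh : ∀ m, ∃ h : ℕ → Γ, ∀ γ K, ∃ k, K ≤ k ∧
      bad f (η m) (N m k) γ = bad f (η m) (N m k) (h k) := by
    intro m
    obtain ⟨h, hh⟩ := often H
      (fun γ i => decide (i.unpair.2 ∈ bad f (η m) (N m i.unpair.1) γ))
      (fun k => (Finset.range (N m k)).sup (fun j => Nat.pair k j))
    refine ⟨h, fun γ K => ?_⟩
    obtain ⟨k, hk, hk2⟩ := hh γ K
    refine ⟨k, hk, ?_⟩
    ext j
    by_cases hj : j < N m k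
    · have h1 := hk2 (Nat.pair k j)
        (Finset.le_sup (f := fun j => Nat.pair k j) (Finset.mem_range.2 hj))
      simp only [Nat.unpair_pair, decide_eq_decide] at h1
      exact h1
    · constructor
      · intro h1
        exact absurd (Finset.mem_range.1 (Finset.mem_filter.1 h1).1) hj
      · intro h1
        exact absurd (Finset.mem_range.1 (Finset.mem_filter.1 h1).1) hj
  choose h hh using hh
  let P : ℕ → ℕ → ℝ → Prop := fun m k t => ∃ j ∈ bad f (η m) (N m k) (h m k),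
    (j : ℝ) / N m k ≤ t ∧ t ≤ ((j : ℝ) + 1) / N m k
  have hnull : ∀ m, volume {t : ℝ | ∃ᶠ k in atTop, P m k t} = 0 := by
    intro m
    apply measure_setOfPred_frequently_eq_zero
    have hle : ∀ k, volume {t | P m k t} ≤ ENNReal.ofReal ((1 / 2) ^ k) := by
      intro k
      have hsub : {t | P m k t} ⊆ ⋃ j ∈ bad f (η m) (N m k) (h m k),
          Icc ((j : ℝ) / N m k) (((j : ℝ) + 1) / N m k) := by
        rintro t ⟨j, hj, h1, h2⟩
        exact mem_iUnion₂.2 ⟨j, hj, h1, h2⟩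
      have hNp : (0 : ℝ) < N m k := by exact_mod_cast hN0 m k
      calc volume {t | P m k t} ≤ volume (⋃ j ∈ bad f (η m) (N m k) (h m k),
          Icc ((j : ℝ) / N m k) (((j : ℝ) + 1) / N m k)) := measure_mono hsub
        _ ≤ ∑ j ∈ bad f (η m) (N m k) (h m k), volume (Icc ((j : ℝ) / N m k) (((j : ℝ) + 1) / N m k)) :=
          measure_biUnion_finset_le _ _
        _ = ∑ j ∈ bad f (η m) (N m k) (h m k), ENNReal.ofReal (1 / N m k) := by
          apply Finset.sum_congr rfl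
          intro j _
          rw [Real.volume_Icc]
          congr 1
          ring
        _ = ENNReal.ofReal (((bad f (η m) (N m k) (h m k)).card : ℝ) / N m k) := by
          rw [Finset.sum_const, ← ENNReal.ofReal_nsmul, nsmul_eq_mul]
          congr 1
          ring
        _ ≤ ENNReal.ofReal ((1 / 2) ^ k) := ENNReal.ofReal_le_ofReal (hN m k _)
    have hsum : (∑' k : ℕ, ENNReal.ofReal ((1 / 2 : ℝ) ^ k)) ≠ ⊤ := by
      have : Summable (fun k : ℕ => (1 / 2 : ℝ) ^ k) := summable_geometric_two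
      exact this.tsum_ofReal_ne_top
    exact ne_top_of_le_ne_top hsum (ENNReal.tsum_le_tsum hle)
  have hQ : volume (range ((↑) : ℚ → ℝ)) = 0 := (countable_range _).measure_zero _
  have hU : volume (range ((↑) : ℚ → ℝ) ∪ ⋃ m, {t : ℝ | ∃ᶠ k in atTop, P m k t}) = 0 := by
    rw [measure_union_null_iff]
    exact ⟨hQ, measure_iUnion_null hnull⟩
  refine measure_mono_null ?_ hU
  rintro t ⟨ht, hn⟩
  by_contra hcon
  rw [mem_union, not_or] at hcon
  obtain ⟨hq, hm⟩ := hcon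
  apply hn
  apply weak_of_coord f hC0 hC ht
  intro γ
  by_contra hγ
  rw [Metric.continuousWithinAt_iff] at hγ
  push Not at hγ
  obtain ⟨ε, hε, hγ⟩ := hγ
  obtain ⟨m, hmε⟩ := exists_nat_one_div_lt hε
  apply hm
  refine mem_iUnion.2 ⟨m, ?_⟩
  change ∃ᶠ k in atTop, P m k t
  rw [frequently_atTop]
  intro K
  obtain ⟨k, hk, hkk⟩ := hh m γ K
  refine ⟨k, hk, ?_⟩
  have hNp : (0 : ℝ) < N m k := by exact_mod_cast hN0 m k
  obtain ⟨j, hj, h1, h2⟩ := exists_cell (hN0 m k) ht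
  have hj1 : (j : ℝ) / N m k < t := by
    apply lt_of_le_of_ne h1
    intro he
    apply hq
    exact ⟨(j : ℚ) / (N m k : ℚ), by push_cast; exact he⟩
  have hj2 : t < ((j : ℝ) + 1) / N m k := by
    apply lt_of_le_of_ne h2
    intro he
    apply hq
    exact ⟨((j : ℚ) + 1) / (N m k : ℚ), by push_cast; exact he.symm⟩
  let δ : ℝ := min (t - (j : ℝ) / N m k) (((j : ℝ) + 1) / N m k - t)
  have hδ : 0 < δ := lt_min (by linarith) (by linarith)
  obtain ⟨s, hs, hst, hsε⟩ := hγ δ hδ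
  rw [Real.dist_eq, abs_lt] at hst
  have d1 : δ ≤ t - (j : ℝ) / N m k := min_le_left _ _
  have d2 : δ ≤ ((j : ℝ) + 1) / N m k - t := min_le_right _ _
  have hjbad : j ∈ bad f (η m) (N m k) γ := by
    refine Finset.mem_filter.2 ⟨Finset.mem_range.2 hj, ?_⟩
    rw [Real.dist_eq] at hsε
    have hsε' : η m < |(f s : Γ → ℝ) γ - (f t : Γ → ℝ) γ| := lt_of_lt_of_le hmε hsε
    rcases lt_abs.1 hsε' with h3 | h3
    · exact ⟨s, t, ⟨by linarith [hst.1], by linarith [hst.2]⟩, ⟨h1, h2⟩, h3⟩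
    · exact ⟨t, s, ⟨h1, h2⟩, ⟨by linarith [hst.1], by linarith [hst.2]⟩, by linarith⟩
  exact ⟨j, hkk ▸ hjbad, h1, h2⟩

end Pool.Agent.H24.Wlp
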