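import Pool.Agent.H24.Wlp2

set_option autoImplicit false

open Set MeasureTheory Filter Topology

namespace Pool.Agent.H24.Wlp

theorem smz_reduce {A : Set ℝ} (hA : ¬ SMZ A) :
    ∃ B : Set ℝ, B ⊆ Ico 0 1 ∧ ¬ SMZ B ∧ Cardinal.mk B ≤ Cardinal.mk A := by
  classical
  by_contra hcon
  push Not at hcon
  apply hA
  intro ε hε
  let e : ℕ → ℤ := fun i => Equiv.intEquivNat.symm i
  have he : ∀ n : ℤ, ∃ i, e i = n := fun n => ⟨Equiv.intEquivNat n, by simp [e]⟩
  let B : ℤ → Set ℝ := fun n => {x | x ∈ Ico (0 : ℝ) 1 ∧ x + n ∈ A}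
  have hB : ∀ n, SMZ (B n) := by
    intro n
    by_contra hn
    have h1 : Cardinal.mk (B n) ≤ Cardinal.mk A := by
      apply Cardinal.mk_le_of_injective (f := fun x : B n => (⟨x.1 + n, x.2.2⟩ : A))
      intro x y hxy
      apply Subtype.ext
      have := congrArg Subtype.val hxy
      simp only at this
      linarith
    exact absurd h1 (not_le.2 (hcon (B n) (fun x hx => hx.1) hn))
  have hc : ∀ i : ℕ, ∃ c : ℕ → ℝ, B (e i) ⊆ ⋃ k, Icc (c k) (c k + ε (Nat.pair i k)) := fun i =>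
    hB (e i) (fun k => ε (Nat.pair i k)) (fun k => hε _)
  choose c hc using hc
  refine ⟨fun n => c n.unpair.1 n.unpair.2 + e n.unpair.1, fun x hx => ?_⟩
  obtain ⟨i, hi⟩ := he ⌊x⌋
  have h1 : x - ⌊x⌋ ∈ B (e i) := by
    refine ⟨⟨by linarith [Int.floor_le x], by linarith [Int.lt_floor_add_one x]⟩, ?_⟩
    rw [hi, sub_add_cancel]
    exact hx
  obtain ⟨k, hk⟩ := mem_iUnion.1 (hc i h1)
  refine mem_iUnion.2 ⟨Nat.pair i k, ?_⟩
  simp only [Nat.unpair_pair, hi]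
  exact ⟨by linarith [hk.1], by linarith [hk.2]⟩

theorem exists_l (ε : ℕ → ℝ) (hε : ∀ n, 0 < ε n) (k M : ℕ) :
    ∃ l : ℕ, k + 1 ≤ l ∧ ∀ n, n < M → (1 / 2 : ℝ) ^ l ≤ ε n := by
  induction M with
  | zero => exact ⟨k + 1, le_rfl, fun n hn => absurd hn (Nat.not_lt_zero n)⟩
  | succ M ih =>
    obtain ⟨l, hl, h⟩ := ih
    obtain ⟨m, hm⟩ := exists_pow_lt_of_lt_one (hε M) (by norm_num : (1 / 2 : ℝ) < 1)
    refine ⟨max l m, hl.trans (le_max_left _ _), fun n hn => ?_⟩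
    rcases Nat.lt_succ_iff_lt_or_eq.1 hn with h1 | h1
    · exact (pow_le_pow_of_le_one (by norm_num) (by norm_num) (le_max_left l m)).trans (h n h1)
    · rw [h1]
      exact (pow_le_pow_of_le_one (by norm_num) (by norm_num) (le_max_right l m)).trans hm.le

structure Sys (ε : ℕ → ℝ) where
  l : ℕ → ℕ
  o : ℕ → ℕ
  s : ℕ → ℕ
  o0 : o 0 = 0
  s0 : s 0 = 0
  os : ∀ k, o (k + 1) = o k + 2 ^ (l k)
  ss : ∀ k, s (k + 1) = s k + 2 ^ (o k) * (k + 2)
  small : ∀ k n, n < s (k + 1) → (1 / 2 : ℝ) ^ (l k) ≤ ε n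
  lk : ∀ k, k + 1 ≤ l k

theorem exists_sys (ε : ℕ → ℝ) (hε : ∀ n, 0 < ε n) : Nonempty (Sys ε) := by
  choose lf h1 h2 using exists_l ε hε
  let st : ℕ → ℕ × ℕ := fun k => Nat.rec (0, 0)
    (fun k p => (p.1 + 2 ^ (lf k (p.2 + 2 ^ p.1 * (k + 2))), p.2 + 2 ^ p.1 * (k + 2))) k
  have hst : ∀ k, st (k + 1) = ((st k).1 + 2 ^ (lf k ((st k).2 + 2 ^ (st k).1 * (k + 2))),
      (st k).2 + 2 ^ (st k).1 * (k + 2)) := fun k => rfl
  refine ⟨⟨fun k => lf k ((st (k + 1)).2), fun k => (st k).1, fun k => (st k).2, rfl, rfl, ?_, ?_,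
    ?_, ?_⟩⟩
  · intro k
    simp only [hst]
  · intro k
    simp only [hst]
  · intro k n hn
    exact h2 _ _ n hn
  · intro k
    exact h1 _ _

/-- counting lemma -/
theorem count_bits {P : ℕ} {W Bd : Finset ℕ} (hW : W ⊆ Finset.range (2 ^ P))
    (hB : Bd ⊆ Finset.range P)
    (h : ∀ y ∈ W, ∀ y' ∈ W, ∀ p ∈ Bd, y.testBit p = y'.testBit p) :
    W.card * 2 ^ Bd.card ≤ 2 ^ P := by
  classical
  have h1 : W.card ≤ ((Finset.range P \ Bd).powerset).card := by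
    apply Finset.card_le_card_of_injOn
      (fun y => (Finset.range P \ Bd).filter (fun p => y.testBit p = true))
    · intro y _
      exact Finset.mem_coe.2 (Finset.mem_powerset.2 (Finset.filter_subset _ _))
    · intro y hy y' hy' hyy
      have hy1 : y ∈ W := hy
      have hy1' : y' ∈ W := hy'
      apply Nat.eq_of_testBit_eq
      intro i
      by_cases hi : i < P
      · by_cases hiB : i ∈ Bd
        · exact h y hy1 y' hy1' i hiB
        · have hm : i ∈ Finset.range P \ Bd := Finset.mem_sdiff.2 ⟨Finset.mem_range.2 hi, hiB⟩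
          have h2 : i ∈ (Finset.range P \ Bd).filter (fun p => y.testBit p = true) ↔
              i ∈ (Finset.range P \ Bd).filter (fun p => y'.testBit p = true) := by
            simp only at hyy
            rw [hyy]
          simp only [Finset.mem_filter, hm, true_and] at h2
          exact Bool.eq_iff_iff.2 h2
      · have e1 : y < 2 ^ i := lt_of_lt_of_le (Finset.mem_range.1 (hW hy1))
          (Nat.pow_le_pow_right (by norm_num) (not_lt.1 hi))
        have e2 : y' < 2 ^ i := lt_of_lt_of_le (Finset.mem_range.1 (hW hy1'))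
          (Nat.pow_le_pow_right (by norm_num) (not_lt.1 hi))
        rw [Nat.testBit_lt_two_pow e1, Nat.testBit_lt_two_pow e2]
  rw [Finset.card_powerset, Finset.card_sdiff_of_subset hB, Finset.card_range] at h1
  have hle : Bd.card ≤ P := by
    have := Finset.card_le_card hB
    rwa [Finset.card_range] at this
  calc W.card * 2 ^ Bd.card ≤ 2 ^ (P - Bd.card) * 2 ^ Bd.card := Nat.mul_le_mul_right _ h1
    _ = 2 ^ P := by rw [← pow_add, Nat.sub_add_cancel hle]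

/-- digits -/
noncomputable def fl (o : ℕ) (t : ℝ) : ℕ := ⌊t * 2 ^ o⌋₊

theorem fl_div {o o' : ℕ} (h : o ≤ o') (t : ℝ) : fl o' t / 2 ^ (o' - o) = fl o t := by
  unfold fl
  have h1 := Nat.floor_div_natCast (t * 2 ^ o' : ℝ) (2 ^ (o' - o))
  rw [← h1]
  congr 1
  push_cast
  rw [div_eq_iff (by positivity), mul_assoc, ← pow_add]
  congr 2
  omega

theorem fl_eq_iff {o : ℕ} {t : ℝ} (ht : 0 ≤ t) {j : ℕ} :
    fl o t = j ↔ (j : ℝ) / 2 ^ o ≤ t ∧ t < ((j : ℝ) + 1) / 2 ^ o := by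
  unfold fl
  rw [Nat.floor_eq_iff (by positivity), div_le_iff₀ (by positivity), lt_div_iff₀ (by positivity)]

theorem fl_lt {o : ℕ} {t : ℝ} (ht : 0 ≤ t) (ht1 : t < 1) : fl o t < 2 ^ o := by
  unfold fl
  rw [Nat.floor_lt (by positivity)]
  push_cast
  have : (0 : ℝ) < 2 ^ o := by positivity
  nlinarith

section
variable {ε : ℕ → ℝ} (Sy : Sys ε)

noncomputable def nd (k : ℕ) (b : ℝ) : ℕ := fl (Sy.l k) b

/-- the closed-type set attached to `b` -/
def Cs (b : ℝ) : Set ℝ :=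
  {t | t ∈ Ico (0 : ℝ) 1 ∧ ∀ k, (fl (Sy.o (k + 1)) t).testBit (nd Sy k b) = true}

theorem s_mono : ∀ {a b : ℕ}, a ≤ b → Sy.s a ≤ Sy.s b := by
  intro a b hab
  induction b, hab using Nat.le_induction with
  | base => exact le_rfl
  | succ b _ ih =>
    rw [Sy.ss]
    omega

theorem s_big (k : ℕ) : k ≤ Sy.s k := by
  induction k with
  | zero => exact Nat.zero_le _
  | succ k ih =>
    rw [Sy.ss]
    have : 1 ≤ 2 ^ (Sy.o k) * (k + 2) := Nat.mul_pos (by positivity) (by omega)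
    omega

theorem nd_lt {k : ℕ} {b : ℝ} (hb : b ∈ Ico (0 : ℝ) 1) : nd Sy k b < 2 ^ (Sy.l k) :=
  fl_lt hb.1 hb.2

end

/-- nested dyadic intervals -/
theorem cell_step {o P J y : ℕ} (hy : y < 2 ^ P) :
    ((J : ℝ)) / 2 ^ o ≤ ((2 ^ P * J + y : ℕ) : ℝ) / 2 ^ (o + P) ∧
    (((2 ^ P * J + y : ℕ) : ℝ) + 1) / 2 ^ (o + P) ≤ ((J : ℝ) + 1) / 2 ^ o := by
  have hy' : (y : ℝ) + 1 ≤ 2 ^ P := by exact_mod_cast hy
  have hP : (0 : ℝ) < 2 ^ P := by positivity
  have ho : (0 : ℝ) < 2 ^ o := by positivity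
  rw [pow_add]
  push_cast
  constructor
  · rw [div_le_div_iff₀ ho (by positivity)]
    have : (0 : ℝ) ≤ (y : ℝ) * 2 ^ o := by positivity
    nlinarith
  · rw [div_le_div_iff₀ (by positivity) ho]
    have : ((y : ℝ) + 1) * 2 ^ o ≤ 2 ^ P * 2 ^ o := mul_le_mul_of_nonneg_right hy' ho.le
    nlinarith

end Pool.Agent.H24.Wlp
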