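import Pool.Agent.H24.Wlp3

set_option autoImplicit false

open Set MeasureTheory Filter Topology

namespace Pool.Agent.H24.Wlp

/-- dyadic cell -/
def cell (o j : ℕ) : Set ℝ := {t | 0 ≤ t ∧ fl o t = j}

theorem cell_sub (o j : ℕ) : cell o j ⊆ Icc ((j : ℝ) / 2 ^ o) (((j : ℝ) + 1) / 2 ^ o) := by
  rintro t ⟨h0, h⟩
  have := (fl_eq_iff h0).1 h
  exact ⟨this.1, this.2.le⟩

theorem cell_vol (K : Set ℝ) (o j : ℕ) : volume.real (K ∩ cell o j) ≤ (1 / 2) ^ o := by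
  have h1 : volume (K ∩ cell o j) ≤ ENNReal.ofReal ((1 / 2) ^ o) := by
    calc volume (K ∩ cell o j) ≤ volume (Icc ((j : ℝ) / 2 ^ o) (((j : ℝ) + 1) / 2 ^ o)) :=
          measure_mono (inter_subset_right.trans (cell_sub o j))
      _ = ENNReal.ofReal ((1 / 2) ^ o) := by
        rw [Real.volume_Icc]
        congr 1
        rw [one_div, inv_pow]
        field_simp
        ring
  unfold Measure.real
  exact ENNReal.toReal_le_of_le_ofReal (by positivity) h1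

theorem cell_split (K : Set ℝ) (hK : volume K ≠ ⊤) (o P j : ℕ) :
    volume.real (K ∩ cell o j) ≤
      ∑ y ∈ Finset.range (2 ^ P), volume.real (K ∩ cell (o + P) (2 ^ P * j + y)) := by
  have hsub : K ∩ cell o j ⊆ ⋃ y ∈ Finset.range (2 ^ P), K ∩ cell (o + P) (2 ^ P * j + y) := by
    rintro t ⟨htK, ht0, htj⟩
    have h1 := fl_div (Nat.le_add_right o P) t
    rw [Nat.add_sub_cancel_left, htj] at h1
    refine mem_iUnion₂.2 ⟨fl (o + P) t % 2 ^ P, Finset.mem_range.2 (Nat.mod_lt _ (by positivity)),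
      htK, ht0, ?_⟩
    rw [← h1]
    exact (Nat.div_add_mod _ _).symm
  calc volume.real (K ∩ cell o j) ≤
        volume.real (⋃ y ∈ Finset.range (2 ^ P), K ∩ cell (o + P) (2 ^ P * j + y)) := by
        refine measureReal_mono hsub (ne_top_of_le_ne_top hK (measure_mono ?_))
        apply iUnion₂_subset
        intro y _
        exact inter_subset_left
    _ ≤ _ := measureReal_biUnion_finset_le _ _

section
variable {ε : ℕ → ℝ} (Sy : Sys ε) (K : Set ℝ)

def heavy (k j : ℕ) : Prop :=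
  (1 / 2 : ℝ) ^ (k + 1) * (1 / 2) ^ (Sy.o k) ≤ volume.real (K ∩ cell (Sy.o k) j)

open Classical in
noncomputable def Bad (k j : ℕ) : Finset ℕ :=
  (Finset.range (2 ^ (Sy.l k))).filter (fun p => ∀ y, y < 2 ^ (2 ^ (Sy.l k)) →
    heavy Sy K (k + 1) (2 ^ (2 ^ (Sy.l k)) * j + y) → y.testBit p = false)

theorem bad_card_le (hK : volume K ≠ ⊤) {k j : ℕ} (h : heavy Sy K k j) :
    (Bad Sy K k j).card ≤ k + 2 := by
  classical
  set P := 2 ^ (Sy.l k) with hP
  let Y := (Finset.range (2 ^ P)).filter (fun y => heavy Sy K (k + 1) (2 ^ P * j + y))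
  have h1 := cell_split K hK (Sy.o k) P j
  have ho : Sy.o (k + 1) = Sy.o k + P := Sy.os k
  rw [← Finset.sum_filter_add_sum_filter_not (Finset.range (2 ^ P))
    (fun y => heavy Sy K (k + 1) (2 ^ P * j + y))] at h1
  have h2 : ∑ y ∈ (Finset.range (2 ^ P)).filter (fun y => heavy Sy K (k + 1) (2 ^ P * j + y)),
      volume.real (K ∩ cell (Sy.o k + P) (2 ^ P * j + y)) ≤ Y.card * (1 / 2 : ℝ) ^ (Sy.o k + P) := by
    rw [← nsmul_eq_mul]
    apply Finset.sum_le_card_nsmul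
    intro y _
    exact cell_vol K _ _
  have h3 : ∑ y ∈ (Finset.range (2 ^ P)).filter (fun y => ¬ heavy Sy K (k + 1) (2 ^ P * j + y)),
      volume.real (K ∩ cell (Sy.o k + P) (2 ^ P * j + y)) ≤
      2 ^ P * ((1 / 2 : ℝ) ^ (k + 2) * (1 / 2) ^ (Sy.o k + P)) := by
    calc _ ≤ ((Finset.range (2 ^ P)).filter
          (fun y => ¬ heavy Sy K (k + 1) (2 ^ P * j + y))).card •
          ((1 / 2 : ℝ) ^ (k + 2) * (1 / 2) ^ (Sy.o k + P)) := by
          apply Finset.sum_le_card_nsmul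
          intro y hy
          have := (Finset.mem_filter.1 hy).2
          unfold heavy at this
          rw [ho] at this
          exact (not_le.1 this).le
      _ ≤ _ := by
        rw [nsmul_eq_mul]
        apply mul_le_mul_of_nonneg_right _ (by positivity)
        have := Finset.card_filter_le (Finset.range (2 ^ P))
          (fun y => ¬ heavy Sy K (k + 1) (2 ^ P * j + y))
        rw [Finset.card_range] at this
        exact_mod_cast this
  have h4 : (1 / 2 : ℝ) ^ (k + 1) * (1 / 2) ^ (Sy.o k) ≤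
      Y.card * (1 / 2 : ℝ) ^ (Sy.o k + P) + 2 ^ P * ((1 / 2 : ℝ) ^ (k + 2) * (1 / 2) ^ (Sy.o k + P)) := by
    unfold heavy at h
    linarith
  have h5 : (2 : ℝ) ^ P ≤ Y.card * 2 ^ (k + 2) := by
    have e1 : (2 : ℝ) ^ P * (1 / 2) ^ P = 1 := by rw [← mul_pow]; norm_num
    have e2 : (2 : ℝ) ^ (k + 2) * (1 / 2) ^ (k + 2) = 1 := by rw [← mul_pow]; norm_num
    have e3 : (2 : ℝ) ^ (Sy.o k) * (1 / 2) ^ (Sy.o k) = 1 := by rw [← mul_pow]; norm_num
    have e4 : (1 / 2 : ℝ) ^ (k + 1) = 2 * (1 / 2) ^ (k + 2) := by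
      rw [pow_succ (1 / 2 : ℝ) (k + 1)]
      ring
    rw [e4, pow_add (1 / 2 : ℝ) (Sy.o k) P] at h4
    have h6 : (1 / 2 : ℝ) ^ (k + 2) * (1 / 2) ^ (Sy.o k) ≤
        Y.card * ((1 / 2) ^ (Sy.o k) * (1 / 2) ^ P) := by
      have e5 : (2 : ℝ) ^ P * ((1 / 2 : ℝ) ^ (k + 2) * ((1 / 2) ^ (Sy.o k) * (1 / 2) ^ P)) =
          (1 / 2 : ℝ) ^ (k + 2) * (1 / 2) ^ (Sy.o k) := by
        calc _ = ((2 : ℝ) ^ P * (1 / 2) ^ P) * ((1 / 2 : ℝ) ^ (k + 2) * (1 / 2) ^ (Sy.o k)) := by ring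
          _ = _ := by rw [e1, one_mul]
      rw [e5] at h4
      linarith
    have h7 := mul_le_mul_of_nonneg_left h6
      (by positivity : (0 : ℝ) ≤ 2 ^ (Sy.o k) * 2 ^ P * 2 ^ (k + 2))
    calc (2 : ℝ) ^ P = (2 ^ (Sy.o k) * (1 / 2) ^ (Sy.o k)) * 2 ^ P *
          (2 ^ (k + 2) * (1 / 2) ^ (k + 2)) := by rw [e3, e2]; ring
      _ = 2 ^ (Sy.o k) * 2 ^ P * 2 ^ (k + 2) * ((1 / 2 : ℝ) ^ (k + 2) * (1 / 2) ^ (Sy.o k)) := by ring
      _ ≤ _ := h7
      _ = (2 ^ (Sy.o k) * (1 / 2) ^ (Sy.o k)) * (2 ^ P * (1 / 2) ^ P) * (Y.card * 2 ^ (k + 2)) := by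
        ring
      _ = Y.card * 2 ^ (k + 2) := by rw [e3, e1]; ring
  have h8 : 2 ^ P ≤ Y.card * 2 ^ (k + 2) := by exact_mod_cast h5
  have h9 : Y.card * 2 ^ (Bad Sy K k j).card ≤ 2 ^ P := by
    apply count_bits (Finset.filter_subset _ _) (Finset.filter_subset _ _)
    intro y hy y' hy' p hp
    have hp2 := (Finset.mem_filter.1 hp).2
    have a1 := Finset.mem_filter.1 hy
    have a2 := Finset.mem_filter.1 hy'
    rw [hp2 y (Finset.mem_range.1 a1.1) a1.2, hp2 y' (Finset.mem_range.1 a2.1) a2.2]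
  have h10 : 2 ^ P * 2 ^ (Bad Sy K k j).card ≤ 2 ^ P * 2 ^ (k + 2) := by
    calc 2 ^ P * 2 ^ (Bad Sy K k j).card ≤ (Y.card * 2 ^ (k + 2)) * 2 ^ (Bad Sy K k j).card :=
          Nat.mul_le_mul_right _ h8
      _ = (Y.card * 2 ^ (Bad Sy K k j).card) * 2 ^ (k + 2) := by ring
      _ ≤ 2 ^ P * 2 ^ (k + 2) := Nat.mul_le_mul_right _ h9
  have h11 := Nat.le_of_mul_le_mul_left h10 (by positivity)
  exact (Nat.pow_le_pow_iff_right (by norm_num)).1 h11

/-- the point produced by a never-bad element -/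
theorem exists_point {b : ℝ} (hb : b ∈ Ico (0 : ℝ) 1) (hKc : IsCompact K) (hK01 : K ⊆ Ioo 0 1)
    (hKq : ∀ q : ℚ, (q : ℝ) ∉ K) (h0 : (1 / 2 : ℝ) ≤ volume.real K)
    (hn : ∀ k j, heavy Sy K k j → nd Sy k b ∉ Bad Sy K k j) : ∃ t ∈ K, t ∈ Cs Sy b := by
  classical
  have hstep : ∀ k j, heavy Sy K k j → ∃ y, y < 2 ^ (2 ^ (Sy.l k)) ∧
      heavy Sy K (k + 1) (2 ^ (2 ^ (Sy.l k)) * j + y) ∧ y.testBit (nd Sy k b) = true := by
    intro k j hj
    have h1 := hn k j hj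
    by_contra hcon
    push Not at hcon
    apply h1
    refine Finset.mem_filter.2 ⟨Finset.mem_range.2 (nd_lt Sy hb), fun y hy hyh => ?_⟩
    have := hcon y hy hyh
    simpa using this
  have hnext : ∀ (k : ℕ) (x : {j // heavy Sy K k j}), ∃ x' : {j // heavy Sy K (k + 1) j},
      ∃ y, y < 2 ^ (2 ^ (Sy.l k)) ∧ x'.1 = 2 ^ (2 ^ (Sy.l k)) * x.1 + y ∧
        y.testBit (nd Sy k b) = true := by
    rintro k ⟨j, hj⟩
    obtain ⟨y, h1, h2, h3⟩ := hstep k j hj
    exact ⟨⟨_, h2⟩, y, h1, rfl, h3⟩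
  choose nx hnx using hnext
  have hheavy0 : heavy Sy K 0 0 := by
    unfold heavy
    rw [Sy.o0]
    have : K ∩ cell 0 0 = K := by
      apply inter_eq_left.2
      intro t ht
      have h1 := hK01 ht
      refine ⟨h1.1.le, (fl_eq_iff h1.1.le).2 ⟨by simpa using h1.1.le, by simpa using h1.2⟩⟩
    rw [this]
    simpa using h0
  let J : (k : ℕ) → {j // heavy Sy K k j} := fun k => Nat.rec ⟨0, hheavy0⟩ (fun k x => nx k x) k
  have hJ : ∀ k, J (k + 1) = nx k (J k) := fun k => rfl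
  let T : ℕ → Set ℝ := fun k => K ∩ Icc (((J k).1 : ℝ) / 2 ^ (Sy.o k))
    ((((J k).1 : ℝ) + 1) / 2 ^ (Sy.o k))
  have hTne : (⋂ k, T k).Nonempty := by
    apply IsCompact.nonempty_iInter_of_sequence_nonempty_isCompact_isClosed
    · intro k
      obtain ⟨y, hy, hyx, _⟩ := hnx k (J k)
      have hc := cell_step (o := Sy.o k) (P := 2 ^ (Sy.l k)) (J := (J k).1) hy
      rintro t ⟨htK, ht1, ht2⟩
      rw [hJ, hyx, Sy.os] at ht1 ht2
      exact ⟨htK, hc.1.trans ht1, ht2.trans hc.2⟩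
    · intro k
      have h1 : 0 < volume.real (K ∩ cell (Sy.o k) (J k).1) := by
        refine lt_of_lt_of_le ?_ (J k).2
        positivity
      have h2 : (K ∩ cell (Sy.o k) (J k).1).Nonempty := by
        by_contra hne
        rw [not_nonempty_iff_eq_empty] at hne
        rw [hne, measureReal_empty] at h1
        exact lt_irrefl _ h1
      obtain ⟨t, htK, htc⟩ := h2
      exact ⟨t, htK, cell_sub _ _ htc⟩
    · exact hKc.inter_right isClosed_Icc
    · intro k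
      exact (hKc.inter_right isClosed_Icc).isClosed
  obtain ⟨t, ht⟩ := hTne
  rw [mem_iInter] at ht
  have htK : t ∈ K := (ht 0).1
  have ht01 := hK01 htK
  have hfl : ∀ k, fl (Sy.o k) t = (J k).1 := by
    intro k
    rw [fl_eq_iff ht01.1.le]
    refine ⟨(ht k).2.1, lt_of_le_of_ne (ht k).2.2 ?_⟩
    intro he
    apply hKq (((J k).1 + 1 : ℚ) / 2 ^ (Sy.o k))
    push_cast
    rw [← he]
    exact htK
  refine ⟨t, htK, ⟨ht01.1.le, ht01.2⟩, fun k => ?_⟩
  obtain ⟨y, hy, hyx, hbit⟩ := hnx k (J k)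
  rw [hfl, hJ, hyx, Nat.testBit_two_pow_mul_add _ hy, if_pos (nd_lt Sy hb)]
  exact hbit

end

/-- the union of the sets is not null -/
theorem not_null {ε : ℕ → ℝ} (Sy : Sys ε) {B : Set ℝ} (hB : B ⊆ Ico 0 1)
    (hno : ¬ ∃ c : ℕ → ℝ, B ⊆ ⋃ n, Icc (c n) (c n + ε n)) :
    volume (⋃ b ∈ B, Cs Sy b) ≠ 0 := by
  classical
  intro hD
  apply hno
  let D' : Set ℝ := (⋃ b ∈ B, Cs Sy b) ∪ range ((↑) : ℚ → ℝ)
  have hQ : volume (range ((↑) : ℚ → ℝ)) = 0 := (countable_range _).measure_zero _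
  have hD' : volume D' = 0 := measure_union_null hD hQ
  let G := toMeasurable volume D'
  have hG : volume G = 0 := by rw [measure_toMeasurable]; exact hD'
  have hGm : MeasurableSet G := measurableSet_toMeasurable _ _
  have hS : MeasurableSet (Ioo (0 : ℝ) 1 \ G) := measurableSet_Ioo.diff hGm
  have hS1 : volume (Ioo (0 : ℝ) 1 \ G) = 1 := by
    rw [measure_diff_null hG, Real.volume_Ioo]
    simp
  obtain ⟨K, hKS, hKc, hK⟩ := hS.exists_lt_isCompact (r := ENNReal.ofReal (1 / 2)) (by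
    rw [hS1, ← ENNReal.ofReal_one]
    exact (ENNReal.ofReal_lt_ofReal_iff one_pos).2 (by norm_num))
  have hKtop : volume K ≠ ⊤ := hKc.measure_lt_top.ne
  have hKr : (1 / 2 : ℝ) ≤ volume.real K := by
    have := (ENNReal.ofReal_le_iff_le_toReal hKtop).1 hK.le
    exact this
  have hK01 : K ⊆ Ioo 0 1 := fun t ht => (hKS ht).1
  have hKD : ∀ t ∈ K, t ∉ D' := fun t ht h => (hKS ht).2 (subset_toMeasurable _ _ h)
  have hKq : ∀ q : ℚ, (q : ℝ) ∉ K := fun q hq => hKD _ hq (Or.inr ⟨q, rfl⟩)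
  have hbad : ∀ b ∈ B, ∃ k j, heavy Sy K k j ∧ j < 2 ^ (Sy.o k) ∧ nd Sy k b ∈ Bad Sy K k j := by
    intro b hb
    by_contra hcon
    push Not at hcon
    have hlt : ∀ k j, heavy Sy K k j → j < 2 ^ (Sy.o k) := by
      intro k j hj
      have h1 : 0 < volume.real (K ∩ cell (Sy.o k) j) := by
        refine lt_of_lt_of_le ?_ hj
        positivity
      have h2 : (K ∩ cell (Sy.o k) j).Nonempty := by
        by_contra hne
        rw [not_nonempty_iff_eq_empty] at hne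
        rw [hne, measureReal_empty] at h1
        exact lt_irrefl _ h1
      obtain ⟨t, htK, ht0, htj⟩ := h2
      rw [← htj]
      exact fl_lt ht0 (hK01 htK).2
    obtain ⟨t, htK, htC⟩ := exists_point Sy K (hB hb) hKc hK01 hKq hKr
      (fun k j hj => hcon k j hj (hlt k j hj))
    exact hKD t htK (Or.inl (mem_iUnion₂.2 ⟨b, hb, htC⟩))
  have hex : ∀ n, ∃ k, n < Sy.s (k + 1) := fun n => ⟨n, lt_of_lt_of_le (Nat.lt_succ_self n)
    (s_big Sy (n + 1))⟩
  let kk : ℕ → ℕ := fun n => Nat.find (hex n)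
  let cc : ℕ → ℝ := fun n =>
    (((Bad Sy K (kk n) ((n - Sy.s (kk n)) / (kk n + 2))).toList.getD
      ((n - Sy.s (kk n)) % (kk n + 2)) 0 : ℕ) : ℝ) / 2 ^ (Sy.l (kk n))
  refine ⟨cc, fun b hb => ?_⟩
  obtain ⟨k, j, hj, hjlt, hnd⟩ := hbad b hb
  have hcard := bad_card_le Sy K hKtop hj
  obtain ⟨i, hi, hie⟩ := List.getElem_of_mem (Finset.mem_toList.2 hnd)
  have hi2 : i < k + 2 := by
    rw [Finset.length_toList] at hi
    omega
  let n := Sy.s k + (j * (k + 2) + i)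
  have hn1 : n < Sy.s (k + 1) := by
    rw [Sy.ss]
    have : j * (k + 2) + i < 2 ^ (Sy.o k) * (k + 2) := by
      calc j * (k + 2) + i < j * (k + 2) + (k + 2) := by omega
        _ = (j + 1) * (k + 2) := by ring
        _ ≤ _ := Nat.mul_le_mul_right _ hjlt
    omega
  have hkk : kk n = k := by
    apply (Nat.find_eq_iff (hex n)).2
    refine ⟨hn1, fun m hm => ?_⟩
    have := s_mono Sy (show m + 1 ≤ k from hm)
    simp only [n]
    omega
  have hr : n - Sy.s k = j * (k + 2) + i := by simp [n]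
  have hdiv : (j * (k + 2) + i) / (k + 2) = j := by
    rw [mul_comm, Nat.mul_add_div (by omega), Nat.div_eq_of_lt hi2, add_zero]
  have hmod : (j * (k + 2) + i) % (k + 2) = i := by
    rw [mul_comm, Nat.mul_add_mod, Nat.mod_eq_of_lt hi2]
  have hcc : cc n = ((nd Sy k b : ℕ) : ℝ) / 2 ^ (Sy.l k) := by
    simp only [cc, hkk, hr, hdiv, hmod]
    rw [List.getD_eq_getElem _ _ hi, hie]
  refine mem_iUnion.2 ⟨n, ?_⟩
  rw [hcc]
  have h1 := (fl_eq_iff (o := Sy.l k) (t := b) (j := nd Sy k b) (hB hb).1).1 rfl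
  have h2 := Sy.small k n hn1
  refine ⟨h1.1, ?_⟩
  have h3 : (((nd Sy k b : ℕ) : ℝ) + 1) / 2 ^ (Sy.l k) =
      ((nd Sy k b : ℕ) : ℝ) / 2 ^ (Sy.l k) + (1 / 2) ^ (Sy.l k) := by
    rw [one_div, inv_pow]
    field_simp
  linarith [h1.2]

end Pool.Agent.H24.Wlp
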