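import Pool.Agent.H24.Wlp4

set_option autoImplicit false

open Set MeasureTheory Filter Topology

namespace Pool.Agent.H24.Wlp

/-- total length of the cells of a fine tagged partition whose tags lie in an interval -/
theorem mass_interval {p : ℕ} {a t : ℕ → ℝ} {δ u v : ℝ} (hδ : 0 < δ) (huv : u ≤ v)
    (h : ∀ j, j < p → a j ≤ a (j + 1) ∧ a (j + 1) - a j < δ ∧ a j ≤ t j ∧ t j ≤ a (j + 1)) :
    (∑ j ∈ Finset.range p, if t j ∈ Icc u v then (a (j + 1) - a j) else 0) ≤ v - u + 2 * δ := by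
  classical
  let g : ℝ → ℝ := fun x => max (u - δ) (min x (v + δ))
  have hg : Monotone g := fun x y hxy => max_le_max le_rfl (min_le_min hxy le_rfl)
  have hle : ∀ j ∈ Finset.range p, (if t j ∈ Icc u v then (a (j + 1) - a j) else 0) ≤
      g (a (j + 1)) - g (a j) := by
    intro j hj
    obtain ⟨h1, h2, h3, h4⟩ := h j (Finset.mem_range.1 hj)
    split_ifs with ht
    · have e1 : g (a j) = a j := by
        simp only [g]
        rw [min_eq_left (by linarith [ht.2]), max_eq_right (by linarith [ht.1])]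
      have e2 : g (a (j + 1)) = a (j + 1) := by
        simp only [g]
        rw [min_eq_left (by linarith [ht.2]), max_eq_right (by linarith [ht.1])]
      rw [e1, e2]
    · exact sub_nonneg.2 (hg h1)
  calc _ ≤ ∑ j ∈ Finset.range p, (g (a (j + 1)) - g (a j)) := Finset.sum_le_sum hle
    _ = g (a p) - g (a 0) := Finset.sum_range_sub (fun j => g (a j)) p
    _ ≤ (v + δ) - (u - δ) := by
      have e1 : g (a p) ≤ v + δ := max_le (by linarith) (min_le_right _ _)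
      have e2 : u - δ ≤ g (a 0) := le_max_left _ _
      linarith
    _ = _ := by ring

section
variable {ε : ℕ → ℝ} (Sy : Sys ε)

theorem o_mono : ∀ {a b : ℕ}, a ≤ b → Sy.o a ≤ Sy.o b := by
  intro a b hab
  induction b, hab using Nat.le_induction with
  | base => exact le_rfl
  | succ b _ ih =>
    rw [Sy.os]
    exact ih.trans (Nat.le_add_right _ _)

theorem o_big (k : ℕ) : k ≤ Sy.o k := by
  induction k with
  | zero => exact Nat.zero_le _
  | succ k ih =>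
    rw [Sy.os]
    have : 1 ≤ 2 ^ (Sy.l k) := Nat.one_le_two_pow
    omega

noncomputable def Gs (b : ℝ) (K : ℕ) : Finset ℕ :=
  (Finset.range (2 ^ (Sy.o K))).filter (fun q => ∀ k, k < K →
    (q / 2 ^ (Sy.o K - Sy.o (k + 1))).testBit (nd Sy k b) = true)

theorem Gs_card {b : ℝ} (hb : b ∈ Ico (0 : ℝ) 1) (K : ℕ) :
    (Gs Sy b K).card * 2 ^ K ≤ 2 ^ (Sy.o K) := by
  induction K with
  | zero =>
    rw [pow_zero, mul_one]
    exact (Finset.card_filter_le _ _).trans_eq (Finset.card_range _)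
  | succ K ih =>
    set P := 2 ^ (Sy.l K) with hP
    have ho : Sy.o (K + 1) = Sy.o K + P := Sy.os K
    let W := (Finset.range (2 ^ P)).filter (fun y => y.testBit (nd Sy K b) = true)
    have hW : W.card * 2 ^ 1 ≤ 2 ^ P := by
      have := count_bits (P := P) (W := W) (Bd := {nd Sy K b}) (Finset.filter_subset _ _)
        (by
          rw [Finset.singleton_subset_iff, Finset.mem_range]
          exact nd_lt Sy hb)
        (by
          intro y hy y' hy' p hp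
          rw [Finset.mem_singleton] at hp
          rw [hp, (Finset.mem_filter.1 hy).2, (Finset.mem_filter.1 hy').2])
      rwa [Finset.card_singleton] at this
    have h1 : (Gs Sy b (K + 1)).card ≤ (Gs Sy b K ×ˢ W).card := by
      apply Finset.card_le_card_of_injOn (fun q => (q / 2 ^ P, q % 2 ^ P))
      · intro q hq
        have hq' : q ∈ Gs Sy b (K + 1) := hq
        obtain ⟨h1, h2⟩ := Finset.mem_filter.1 hq'
        rw [Finset.mem_range, ho] at h1
        refine Finset.mem_coe.2 (Finset.mem_product.2 ⟨?_, ?_⟩)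
        · refine Finset.mem_filter.2 ⟨Finset.mem_range.2 ?_, fun k hk => ?_⟩
          · apply Nat.div_lt_of_lt_mul
            rw [← pow_add, add_comm]
            exact h1
          · have h3 := h2 k (Nat.lt_succ_of_lt hk)
            have hle : Sy.o (k + 1) ≤ Sy.o K := o_mono Sy hk
            have e : Sy.o (K + 1) - Sy.o (k + 1) = P + (Sy.o K - Sy.o (k + 1)) := by
              rw [ho, Nat.add_comm (Sy.o K) P, Nat.add_sub_assoc hle]
            rw [e, pow_add, ← Nat.div_div_eq_div_mul] at h3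
            exact h3
        · refine Finset.mem_filter.2 ⟨Finset.mem_range.2 (Nat.mod_lt _ (by positivity)), ?_⟩
          have h3 := h2 K (Nat.lt_succ_self K)
          rw [Nat.sub_self, pow_zero, Nat.div_one] at h3
          rw [← Nat.div_add_mod q (2 ^ P),
            Nat.testBit_two_pow_mul_add _ (Nat.mod_lt _ (by positivity)),
            if_pos (nd_lt Sy hb)] at h3
          exact h3
      · intro q _ q' _ hqq
        simp only [Prod.mk.injEq] at hqq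
        rw [← Nat.div_add_mod q (2 ^ P), ← Nat.div_add_mod q' (2 ^ P), hqq.1, hqq.2]
    rw [Finset.card_product] at h1
    calc (Gs Sy b (K + 1)).card * 2 ^ (K + 1) ≤ ((Gs Sy b K).card * W.card) * 2 ^ (K + 1) :=
          Nat.mul_le_mul_right _ h1
      _ = ((Gs Sy b K).card * 2 ^ K) * (W.card * 2 ^ 1) := by ring
      _ ≤ 2 ^ (Sy.o K) * 2 ^ P := Nat.mul_le_mul ih hW
      _ = 2 ^ (Sy.o (K + 1)) := by rw [ho, pow_add]

theorem Cs_mem_Gs {b t : ℝ} (ht : t ∈ Cs Sy b) (K : ℕ) : fl (Sy.o K) t ∈ Gs Sy b K := by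
  refine Finset.mem_filter.2 ⟨Finset.mem_range.2 (fl_lt ht.1.1 ht.1.2), fun k hk => ?_⟩
  rw [fl_div (o_mono Sy hk)]
  exact ht.2 k

open Classical in
theorem mass_Cs {b : ℝ} (hb : b ∈ Ico (0 : ℝ) 1) {p : ℕ} {a t : ℕ → ℝ} {δ : ℝ} (hδ : 0 < δ)
    (h : ∀ j, j < p → a j ≤ a (j + 1) ∧ a (j + 1) - a j < δ ∧ a j ≤ t j ∧ t j ≤ a (j + 1))
    (K : ℕ) :
    (∑ j ∈ Finset.range p, if t j ∈ Cs Sy b then (a (j + 1) - a j) else 0) ≤
      (1 / 2) ^ K + 2 * δ * 2 ^ (Sy.o K) := by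
  have hGc := Gs_card Sy hb K
  set o := Sy.o K with ho
  have h1 : (∑ j ∈ Finset.range p, if t j ∈ Cs Sy b then (a (j + 1) - a j) else 0) ≤
      ∑ j ∈ Finset.range p, ∑ q ∈ Gs Sy b K,
        if t j ∈ Icc ((q : ℝ) / 2 ^ o) (((q : ℝ) + 1) / 2 ^ o) then (a (j + 1) - a j) else 0 := by
    apply Finset.sum_le_sum
    intro j hj
    have hnn : 0 ≤ a (j + 1) - a j := sub_nonneg.2 (h j (Finset.mem_range.1 hj)).1
    split_ifs with ht
    · have h2 := Cs_mem_Gs Sy ht K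
      have h3 := (fl_eq_iff (o := o) ht.1.1).1 rfl
      have h4 := Finset.single_le_sum (f := fun q : ℕ =>
        if t j ∈ Icc ((q : ℝ) / 2 ^ o) (((q : ℝ) + 1) / 2 ^ o) then (a (j + 1) - a j) else 0)
        (fun q _ => by split_ifs <;> [exact hnn; exact le_rfl]) h2
      rw [if_pos ⟨h3.1, h3.2.le⟩] at h4
      exact h4
    · apply Finset.sum_nonneg
      intro q _
      split_ifs
      · exact hnn
      · exact le_rfl
  rw [Finset.sum_comm] at h1
  have h2 : ∀ q ∈ Gs Sy b K, (∑ j ∈ Finset.range p,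
      if t j ∈ Icc ((q : ℝ) / 2 ^ o) (((q : ℝ) + 1) / 2 ^ o) then (a (j + 1) - a j) else 0) ≤
      (1 / 2) ^ o + 2 * δ := by
    intro q _
    have h3 := mass_interval (u := (q : ℝ) / 2 ^ o) (v := ((q : ℝ) + 1) / 2 ^ o) hδ (by
      gcongr
      linarith) h
    have e : ((q : ℝ) + 1) / 2 ^ o - (q : ℝ) / 2 ^ o = (1 / 2) ^ o := by
      rw [one_div, inv_pow]
      field_simp
      ring
    rw [e] at h3
    exact h3
  have h4 := Finset.sum_le_card_nsmul _ _ _ h2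
  have hG1 : ((Gs Sy b K).card : ℝ) * 2 ^ K ≤ 2 ^ o := by exact_mod_cast hGc
  have hG2 : ((Gs Sy b K).card : ℝ) ≤ 2 ^ o := by
    have h5 : (1 : ℝ) ≤ 2 ^ K := one_le_pow₀ (by norm_num)
    have h6 : (0 : ℝ) ≤ ((Gs Sy b K).card : ℝ) := Nat.cast_nonneg _
    nlinarith
  have e1 : (2 : ℝ) ^ o * (1 / 2) ^ o = 1 := by rw [← mul_pow]; norm_num
  have e2 : (2 : ℝ) ^ K * (1 / 2) ^ K = 1 := by rw [← mul_pow]; norm_num
  have h7 : ((Gs Sy b K).card : ℝ) * (1 / 2) ^ o ≤ (1 / 2) ^ K := by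
    have h8 := mul_le_mul_of_nonneg_right hG1 (by positivity : (0 : ℝ) ≤ (1 / 2) ^ o * (1 / 2) ^ K)
    calc ((Gs Sy b K).card : ℝ) * (1 / 2) ^ o =
          ((Gs Sy b K).card : ℝ) * 2 ^ K * ((1 / 2) ^ o * (1 / 2) ^ K) := by
          calc _ = ((Gs Sy b K).card : ℝ) * (1 / 2) ^ o * (2 ^ K * (1 / 2) ^ K) := by rw [e2, mul_one]
            _ = _ := by ring
      _ ≤ 2 ^ o * ((1 / 2) ^ o * (1 / 2) ^ K) := h8
      _ = (2 ^ o * (1 / 2) ^ o) * (1 / 2) ^ K := by ring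
      _ = (1 / 2) ^ K := by rw [e1, one_mul]
  calc _ ≤ _ := h1
    _ ≤ (Gs Sy b K).card • ((1 / 2 : ℝ) ^ o + 2 * δ) := h4
    _ = ((Gs Sy b K).card : ℝ) * (1 / 2) ^ o + ((Gs Sy b K).card : ℝ) * (2 * δ) := by
      rw [nsmul_eq_mul]; ring
    _ ≤ (1 / 2) ^ K + 2 ^ o * (2 * δ) :=
      add_le_add h7 (mul_le_mul_of_nonneg_right hG2 (by linarith))
    _ = _ := by ring

/-- the tail-determined points of the set attached to `b` -/
def Ss (b : ℝ) : Set ℝ :=
  {t | t ∈ Cs Sy b ∧ ∃ n, ∀ k, n ≤ k →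
    fl (Sy.o (k + 1)) t % 2 ^ (2 ^ (Sy.l k)) = 2 ^ (nd Sy k b)}

theorem Ss_unique {b b' t : ℝ} (hb : b ∈ Ico (0 : ℝ) 1) (hb' : b' ∈ Ico (0 : ℝ) 1)
    (h : t ∈ Ss Sy b) (h' : t ∈ Ss Sy b') : b = b' := by
  obtain ⟨_, n, hn⟩ := h
  obtain ⟨_, n', hn'⟩ := h'
  by_contra hne
  have hpos : 0 < |b - b'| := abs_pos.2 (sub_ne_zero.2 hne)
  obtain ⟨m, hm⟩ := exists_pow_lt_of_lt_one hpos (by norm_num : (1 / 2 : ℝ) < 1)
  let k := max m (max n n')
  have h1 := hn k ((le_max_left _ _).trans (le_max_right _ _))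
  have h2 := hn' k ((le_max_right _ _).trans (le_max_right _ _))
  rw [h1] at h2
  have h3 : nd Sy k b = nd Sy k b' := Nat.pow_right_injective (le_refl 2) h2
  have h4 := (fl_eq_iff (o := Sy.l k) hb.1 (j := nd Sy k b)).1 rfl
  have h5 := (fl_eq_iff (o := Sy.l k) hb'.1 (j := nd Sy k b)).1 h3.symm
  have e : (((nd Sy k b : ℕ) : ℝ) + 1) / 2 ^ (Sy.l k) =
      ((nd Sy k b : ℕ) : ℝ) / 2 ^ (Sy.l k) + (1 / 2) ^ (Sy.l k) := by
    rw [one_div, inv_pow]
    field_simp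
  have h6 : |b - b'| ≤ (1 / 2) ^ (Sy.l k) := by
    rw [abs_le]
    constructor <;> linarith [h4.1, h4.2, h5.1, h5.2]
  have h7 : (1 / 2 : ℝ) ^ (Sy.l k) ≤ (1 / 2) ^ m := by
    apply pow_le_pow_of_le_one (by norm_num) (by norm_num)
    have := Sy.lk k
    have : m ≤ k := le_max_left _ _
    omega
  linarith

/-- density of the special points -/
theorem Ss_dense {b t : ℝ} (hb : b ∈ Ico (0 : ℝ) 1) (ht : t ∈ Cs Sy b) (n : ℕ) :
    ∃ t1 ∈ Ss Sy b, fl (Sy.o n) t1 = fl (Sy.o n) t := by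
  let q : ℕ → ℕ := fun i => Nat.rec (fl (Sy.o n) t)
    (fun i x => 2 ^ (2 ^ (Sy.l (n + i))) * x + 2 ^ (nd Sy (n + i) b)) i
  have hq0 : q 0 = fl (Sy.o n) t := rfl
  have hq : ∀ i, q (i + 1) = 2 ^ (2 ^ (Sy.l (n + i))) * q i + 2 ^ (nd Sy (n + i) b) := fun i => rfl
  have hnd : ∀ k, nd Sy k b < 2 ^ (Sy.l k) := fun k => nd_lt Sy hb
  have hy : ∀ k, 2 ^ (nd Sy k b) < 2 ^ (2 ^ (Sy.l k)) := fun k =>
    Nat.pow_lt_pow_right (by norm_num) (hnd k)
  have hy2 : ∀ k, 2 ^ (nd Sy k b) + 1 < 2 ^ (2 ^ (Sy.l k)) := by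
    intro k
    have h1 : 2 ≤ 2 ^ (Sy.l k) := by
      calc 2 = 2 ^ 1 := rfl
        _ ≤ 2 ^ (Sy.l k) := Nat.pow_le_pow_right (by norm_num) (by have := Sy.lk k; omega)
    have h2 : 2 ^ (nd Sy k b) ≤ 2 ^ (2 ^ (Sy.l k) - 1) :=
      Nat.pow_le_pow_right (by norm_num) (by have := hnd k; omega)
    have h3 : 2 ^ (2 ^ (Sy.l k)) = 2 * 2 ^ (2 ^ (Sy.l k) - 1) := by
      rw [← pow_succ']
      congr 1
      omega
    have h4 : 2 ≤ 2 ^ (2 ^ (Sy.l k) - 1) := by
      calc 2 = 2 ^ 1 := rfl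
        _ ≤ _ := Nat.pow_le_pow_right (by norm_num) (by omega)
    omega
  let T : ℕ → Set ℝ := fun i => Icc ((Nat.cast (q i) : ℝ) / (2 : ℝ) ^ (Sy.o (n + i)))
    (((Nat.cast (q i) : ℝ) + (1 : ℝ)) / (2 : ℝ) ^ (Sy.o (n + i)))
  have hTne : (⋂ i, T i).Nonempty := by
    apply IsCompact.nonempty_iInter_of_sequence_nonempty_isCompact_isClosed
    · intro i
      have hc := cell_step (o := Sy.o (n + i)) (P := 2 ^ (Sy.l (n + i))) (J := q i) (hy (n + i))
      rintro x ⟨hx1, hx2⟩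
      rw [hq, ← add_assoc, Sy.os] at hx1 hx2
      exact ⟨hc.1.trans hx1, hx2.trans hc.2⟩
    · intro i
      refine nonempty_Icc.2 (div_le_div_of_nonneg_right ?_ (by positivity))
      linarith
    · exact isCompact_Icc
    · intro i
      exact isClosed_Icc
  obtain ⟨t1, ht1⟩ := hTne
  rw [mem_iInter] at ht1
  have h0 : 0 ≤ t1 := le_trans (by positivity) (ht1 0).1
  have hfl : ∀ i, fl (Sy.o (n + i)) t1 = q i := by
    intro i
    rw [fl_eq_iff h0]
    refine ⟨(ht1 i).1, ?_⟩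
    have h2 := (ht1 (i + 1)).2
    rw [hq, ← add_assoc, Sy.os, pow_add] at h2
    refine lt_of_le_of_lt h2 ?_
    push_cast
    have h3 : ((2 : ℝ) ^ (nd Sy (n + i) b) + 1) < 2 ^ (2 ^ (Sy.l (n + i))) := by
      exact_mod_cast hy2 (n + i)
    have hP : (0 : ℝ) < 2 ^ (2 ^ (Sy.l (n + i))) := by positivity
    have ho : (0 : ℝ) < 2 ^ (Sy.o (n + i)) := by positivity
    rw [div_lt_div_iff₀ (by positivity) ho]
    have : ((2 : ℝ) ^ (nd Sy (n + i) b) + 1) * 2 ^ (Sy.o (n + i)) <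
        2 ^ (2 ^ (Sy.l (n + i))) * 2 ^ (Sy.o (n + i)) := mul_lt_mul_of_pos_right h3 ho
    nlinarith
  have hfn : fl (Sy.o n) t1 = fl (Sy.o n) t := by
    have := hfl 0
    rw [add_zero] at this
    rw [this, hq0]
  have h1 : t1 < 1 := by
    have h2 := ((fl_eq_iff h0).1 hfn).2
    have h3 := fl_lt (o := Sy.o n) ht.1.1 ht.1.2
    have h4 : ((fl (Sy.o n) t : ℕ) : ℝ) + 1 ≤ 2 ^ (Sy.o n) := by exact_mod_cast h3
    refine lt_of_lt_of_le h2 ?_
    rw [div_le_one (by positivity)]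
    exact h4
  refine ⟨t1, ⟨⟨⟨h0, h1⟩, fun k => ?_⟩, n, fun k hk => ?_⟩, hfn⟩
  · rcases lt_or_ge k n with hkn | hkn
    · have e1 := fl_div (o_mono Sy (show k + 1 ≤ n from hkn)) t1
      have e2 := fl_div (o_mono Sy (show k + 1 ≤ n from hkn)) t
      rw [← e1, hfn, e2]
      exact ht.2 k
    · obtain ⟨i, rfl⟩ := Nat.exists_eq_add_of_le hkn
      have e1 := hfl (i + 1)
      rw [← add_assoc, hq] at e1
      rw [e1, Nat.testBit_two_pow_mul_add _ (hy (n + i)), if_pos (hnd (n + i))]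
      exact Nat.testBit_two_pow_self
  · obtain ⟨i, rfl⟩ := Nat.exists_eq_add_of_le hk
    have e1 := hfl (i + 1)
    rw [← add_assoc, hq] at e1
    rw [e1, Nat.mul_add_mod, Nat.mod_eq_of_lt (hy (n + i))]

theorem dyadic_not_Ss (b : ℝ) (n j : ℕ) : ((j : ℝ) / 2 ^ (Sy.o n)) ∉ Ss Sy b := by
  rintro ⟨_, m, hm⟩
  let k := max m n
  have h1 := hm k (le_max_left _ _)
  have hle : Sy.o n ≤ Sy.o k := o_mono Sy (le_max_right _ _)
  have hos := Sy.os k
  have h2 : fl (Sy.o (k + 1)) ((j : ℝ) / 2 ^ (Sy.o n)) =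
      2 ^ (2 ^ (Sy.l k)) * (j * 2 ^ (Sy.o k - Sy.o n)) := by
    unfold fl
    have e : (j : ℝ) / 2 ^ (Sy.o n) * 2 ^ (Sy.o (k + 1)) =
        ((2 ^ (2 ^ (Sy.l k)) * (j * 2 ^ (Sy.o k - Sy.o n)) : ℕ) : ℝ) := by
      push_cast
      have e2 : Sy.o (k + 1) = Sy.o n + (2 ^ (Sy.l k) + (Sy.o k - Sy.o n)) := by omega
      rw [e2, pow_add, pow_add]
      field_simp
    rw [e, Nat.floor_natCast]
  rw [h2, Nat.mul_mod_right] at h1
  have : 0 < 2 ^ (nd Sy k b) := by positivity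
  omega

end

/-- the function which is Riemann integrable and weakly discontinuous on the union -/
theorem bad_function {ε : ℕ → ℝ} (Sy : Sys ε) {B : Set ℝ} (hB : B ⊆ Ico 0 1) {Γ : Type}
    (ι : B → Γ) (hι : Function.Injective ι) :
    ∃ f : ℝ → L2 Γ, RInt f ∧ ∀ b ∈ B, ∀ t ∈ Cs Sy b, t ∈ Icc (0 : ℝ) 1 ∧
      ¬ ∀ φ : L2 Γ →L[ℝ] ℝ, ContinuousWithinAt (fun s => φ (f s)) (Icc (0 : ℝ) 1) t := by
  classical
  let f : ℝ → L2 Γ := fun t => if h : ∃ b : B, t ∈ Ss Sy b.1 then lp.single 2 (ι h.choose) 1 else 0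
  have hf1 : ∀ (b : B) (t : ℝ), t ∈ Ss Sy b.1 → f t = lp.single 2 (ι b) 1 := by
    intro b t ht
    have h : ∃ b : B, t ∈ Ss Sy b.1 := ⟨b, ht⟩
    simp only [f, dif_pos h]
    have : h.choose = b := Subtype.ext (Ss_unique Sy (hB h.choose.2) (hB b.2) h.choose_spec ht)
    rw [this]
  have hf0 : ∀ t : ℝ, (¬ ∃ b : B, t ∈ Ss Sy b.1) → f t = 0 := by
    intro t h
    simp only [f, dif_neg h]
  have hcoord : ∀ (b : B) (t : ℝ), (f t : Γ → ℝ) (ι b) = if t ∈ Ss Sy b.1 then 1 else 0 := by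
    intro b t
    split_ifs with ht
    · rw [hf1 b t ht, lp.single_apply_self]
    · by_cases h : ∃ b : B, t ∈ Ss Sy b.1
      · obtain ⟨b', hb'⟩ := h
        rw [hf1 b' t hb', lp.single_apply_ne]
        intro he
        exact ht ((hι he) ▸ hb')
      · rw [hf0 t h]
        simp
  refine ⟨f, ⟨0, fun ε' hε' => ?_⟩, fun b hb t ht => ⟨⟨ht.1.1, ht.1.2.le⟩, fun hcon => ?_⟩⟩
  · have hε2 : 0 < ε' ^ 2 / 2 := by positivity
    obtain ⟨K, hK⟩ := exists_pow_lt_of_lt_one hε2 (by norm_num : (1 / 2 : ℝ) < 1)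
    let δ : ℝ := ε' ^ 2 / (4 * 2 ^ (Sy.o K))
    have hδ : 0 < δ := by positivity
    have hδ2 : 2 * δ * 2 ^ (Sy.o K) = ε' ^ 2 / 2 := by
      simp only [δ]
      field_simp
      ring
    refine ⟨δ, hδ, fun p a t ha0 hap h => ?_⟩
    rw [sub_zero]
    set v : L2 Γ := ∑ j ∈ Finset.range p, (a (j + 1) - a j) • f (t j) with hv
    set η : ℝ := (1 / 2) ^ K + 2 * δ * 2 ^ (Sy.o K) with hη
    have hη0 : 0 ≤ η := by positivity
    have hin : ∀ j ∈ Finset.range p, inner ℝ (f (t j)) v ≤ η := by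
      intro j _
      by_cases hb : ∃ b : B, t j ∈ Ss Sy b.1
      · obtain ⟨b, hb⟩ := hb
        rw [hf1 b _ hb, lp.inner_single_left]
        have e1 : (v : Γ → ℝ) (ι b) = ∑ i ∈ Finset.range p,
            if t i ∈ Ss Sy b.1 then (a (i + 1) - a i) else 0 := by
          rw [hv, lp.coeFn_sum, Finset.sum_apply]
          apply Finset.sum_congr rfl
          intro i _
          rw [lp.coeFn_smul, Pi.smul_apply, hcoord, smul_eq_mul]
          split_ifs <;> simp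
        have e2 : (v : Γ → ℝ) (ι b) ≤ η := by
          rw [e1]
          refine le_trans (Finset.sum_le_sum ?_) (mass_Cs Sy (hB b.2) hδ h K)
          intro i hi
          have hnn : 0 ≤ a (i + 1) - a i := sub_nonneg.2 (h i (Finset.mem_range.1 hi)).1
          by_cases hs : t i ∈ Ss Sy b.1
          · rw [if_pos hs, if_pos hs.1]
          · rw [if_neg hs]
            split_ifs
            · exact hnn
            · exact le_rfl
        simpa using e2
      · rw [hf0 _ hb, inner_zero_left]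
        exact hη0
    have hnorm : ‖v‖ ^ 2 ≤ η := by
      rw [← real_inner_self_eq_norm_sq]
      conv_lhs => rw [hv]
      rw [← hv, sum_inner]
      calc ∑ j ∈ Finset.range p, inner ℝ ((a (j + 1) - a j) • f (t j)) v
          = ∑ j ∈ Finset.range p, (a (j + 1) - a j) * inner ℝ (f (t j)) v := by
            apply Finset.sum_congr rfl
            intro j _
            rw [real_inner_smul_left]
        _ ≤ ∑ j ∈ Finset.range p, (a (j + 1) - a j) * η := by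
            apply Finset.sum_le_sum
            intro j hj
            exact mul_le_mul_of_nonneg_left (hin j hj)
              (sub_nonneg.2 (h j (Finset.mem_range.1 hj)).1)
        _ = (a p - a 0) * η := by
            rw [← Finset.sum_mul, Finset.sum_range_sub]
        _ = η := by rw [ha0, hap]; ring
    have hlt : ‖v‖ ^ 2 < ε' ^ 2 := by
      refine lt_of_le_of_lt hnorm ?_
      rw [hη, hδ2]
      linarith
    exact lt_of_pow_lt_pow_left₀ 2 hε'.le hlt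
  · have hc := hcon (lp.evalCLM ℝ (fun _ : Γ => ℝ) 2 (ι ⟨b, hb⟩))
    have hc' : ContinuousWithinAt (fun s => (f s : Γ → ℝ) (ι ⟨b, hb⟩)) (Icc (0 : ℝ) 1) t := hc
    rw [Metric.continuousWithinAt_iff] at hc'
    obtain ⟨δ, hδ, hδ2⟩ := hc' (1 / 2) (by norm_num)
    obtain ⟨n, hn⟩ := exists_pow_lt_of_lt_one hδ (by norm_num : (1 / 2 : ℝ) < 1)
    have hn2 : (1 / 2 : ℝ) ^ (Sy.o n) < δ :=
      lt_of_le_of_lt (pow_le_pow_of_le_one (by norm_num) (by norm_num) (o_big Sy n)) hn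
    obtain ⟨t1, ht1, hfl⟩ := Ss_dense Sy (hB hb) ht n
    have e : (((fl (Sy.o n) t : ℕ) : ℝ) + 1) / 2 ^ (Sy.o n) =
        ((fl (Sy.o n) t : ℕ) : ℝ) / 2 ^ (Sy.o n) + (1 / 2) ^ (Sy.o n) := by
      rw [one_div, inv_pow]
      field_simp
    have c1 := (fl_eq_iff (o := Sy.o n) ht.1.1).1 rfl
    have c2 := (fl_eq_iff (o := Sy.o n) ht1.1.1.1).1 hfl
    rw [e] at c1 c2
    have d1 := hδ2 (x := t1) ⟨ht1.1.1.1, ht1.1.1.2.le⟩ (by
      rw [Real.dist_eq, abs_lt]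
      constructor <;> linarith [c1.1, c1.2, c2.1, c2.2])
    have hx01 : ((fl (Sy.o n) t : ℕ) : ℝ) / 2 ^ (Sy.o n) ∈ Icc (0 : ℝ) 1 :=
      ⟨by positivity, by linarith [c1.1, ht.1.2]⟩
    have d2 := hδ2 (x := ((fl (Sy.o n) t : ℕ) : ℝ) / 2 ^ (Sy.o n)) hx01 (by
      rw [Real.dist_eq, abs_lt]
      constructor <;> linarith [c1.1, c1.2])
    rw [hcoord, hcoord, if_pos ht1] at d1
    rw [hcoord, hcoord, if_neg (dyadic_not_Ss Sy b n _)] at d2
    rw [Real.dist_eq, abs_lt] at d1 d2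
    split_ifs at d1 d2
    · linarith [d2.1]
    · linarith [d1.2]

theorem not_wlp {Γ : Type} {A : Set ℝ} (hA : ¬ SMZ A) (hle : Cardinal.mk A ≤ Cardinal.mk Γ) :
    ¬ WLP (L2 Γ) := by
  intro hW
  obtain ⟨B, hB, hBn, hBc⟩ := smz_reduce hA
  have hBn' : ∃ ε : ℕ → ℝ, (∀ n, 0 < ε n) ∧ ¬ ∃ c : ℕ → ℝ, B ⊆ ⋃ n, Icc (c n) (c n + ε n) := by
    unfold SMZ at hBn
    push Not at hBn
    obtain ⟨ε, h1, h2⟩ := hBn
    refine ⟨ε, h1, ?_⟩
    rintro ⟨c, hc⟩
    exact h2 c hc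
  obtain ⟨ε, hε, hno⟩ := hBn'
  obtain ⟨Sy⟩ := exists_sys ε hε
  obtain ⟨ι⟩ := Cardinal.le_def _ _ |>.1 (hBc.trans hle)
  obtain ⟨f, hf, hf2⟩ := bad_function Sy hB ι ι.injective
  apply not_null Sy hB hno
  refine measure_mono_null ?_ (hW f hf)
  intro t ht
  obtain ⟨b, hb, htb⟩ := mem_iUnion₂.1 ht
  exact hf2 b hb t htb

end Pool.Agent.H24.Wlp
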